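import Mathlib

/-! Bicycle tracks over convex front tracks: the angle between the bicycle and the front track. -/

set_option autoImplicit false

namespace Pool.Agent.R762.Bike

open Real Set Filter Topology

/-! ### A comparison lemma -/

lemma no_up {u u' : ℝ → ℝ} {c : ℝ} (hu : ∀ t, HasDerivAt u (u' t) t)
    (h : ∀ t, u' t ≤ c * |u t|) {a b : ℝ} (hab : a ≤ b) (ha : u a ≤ 0) : u b ≤ 0 := by
  by_contra hb
  push Not at hb
  have cu : Continuous u := continuous_iff_continuousAt.2 fun t => (hu t).continuousAt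
  obtain ⟨S, hS⟩ : ∃ S : Set ℝ, S = Icc a b ∩ {t | u t ≤ 0} := ⟨_, rfl⟩
  have hSc : IsCompact S := by
    rw [hS]; exact isCompact_Icc.inter_right (isClosed_le cu continuous_const)
  have hSn : S.Nonempty := ⟨a, by rw [hS]; exact ⟨⟨le_rfl, hab⟩, ha⟩⟩
  obtain ⟨s, hs, hmax⟩ := hSc.exists_isGreatest hSn
  have hs' := hs
  rw [hS] at hs'
  obtain ⟨⟨hs1, hs2⟩, hs3⟩ := hs'
  have hpos : ∀ t ∈ Ioc s b, 0 < u t := by
    intro t ht
    by_contra hcon
    push Not at hcon
    have : t ∈ S := by rw [hS]; exact ⟨⟨hs1.trans ht.1.le, ht.2⟩, hcon⟩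
    exact absurd (hmax this) (not_le.2 ht.1)
  obtain ⟨g, hg⟩ : ∃ g : ℝ → ℝ, g = fun t => u t * exp (-c * t) := ⟨_, rfl⟩
  have dg : ∀ t, HasDerivAt g ((u' t - c * u t) * exp (-c * t)) t := by
    intro t
    rw [hg]
    have h1 : HasDerivAt (fun t : ℝ => exp (-c * t)) (exp (-c * t) * (-c)) t := by
      have := ((hasDerivAt_id t).const_mul (-c)).exp
      simpa using this
    exact ((hu t).mul h1).congr_deriv (by ring)
  have hanti : AntitoneOn g (Icc s b) := by
    apply antitoneOn_of_deriv_nonpos (convex_Icc s b)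
    · exact fun t _ => (dg t).continuousAt.continuousWithinAt
    · exact fun t _ => (dg t).differentiableAt.differentiableWithinAt
    · intro t ht
      rw [interior_Icc] at ht
      rw [(dg t).deriv]
      have h1 := hpos t ⟨ht.1, ht.2.le⟩
      have h2 := h t
      rw [abs_of_pos h1] at h2
      exact mul_nonpos_of_nonpos_of_nonneg (by linarith) (exp_pos _).le
  have h1 := hanti ⟨le_rfl, hs2⟩ ⟨hs2, le_rfl⟩ hs2
  rw [hg] at h1
  have h2 : u b * exp (-c * b) > 0 := mul_pos hb (exp_pos _)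
  have h3 : u s * exp (-c * s) ≤ 0 := mul_nonpos_of_nonpos_of_nonneg hs3 (exp_pos _).le
  simp only at h1
  linarith

lemma zero_of_zero {u u' : ℝ → ℝ} {c : ℝ} (hu : ∀ t, HasDerivAt u (u' t) t)
    (h : ∀ t, u' t ≤ c * |u t|) {a b : ℝ} (ha : u a ≤ 0) (hb : u b = 0) :
    ∀ t ∈ Icc a b, u t = 0 := by
  intro t ht
  have hle : ∀ s ∈ Icc a b, u s ≤ 0 := fun s hs => no_up hu h hs.1 ha
  obtain ⟨g, hg⟩ : ∃ g : ℝ → ℝ, g = fun t => u t * exp (c * t) := ⟨_, rfl⟩
  have dg : ∀ t, HasDerivAt g ((u' t + c * u t) * exp (c * t)) t := by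
    intro t
    rw [hg]
    have h1 : HasDerivAt (fun t : ℝ => exp (c * t)) (exp (c * t) * c) t := by
      have := ((hasDerivAt_id t).const_mul c).exp
      simpa using this
    exact ((hu t).mul h1).congr_deriv (by ring)
  have hanti : AntitoneOn g (Icc a b) := by
    apply antitoneOn_of_deriv_nonpos (convex_Icc a b)
    · exact fun t _ => (dg t).continuousAt.continuousWithinAt
    · exact fun t _ => (dg t).differentiableAt.differentiableWithinAt
    · intro t ht
      rw [interior_Icc] at ht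
      rw [(dg t).deriv]
      have h1 := hle t ⟨ht.1.le, ht.2.le⟩
      have h2 := h t
      rw [abs_of_nonpos h1] at h2
      exact mul_nonpos_of_nonpos_of_nonneg (by linarith) (exp_pos _).le
  have h1 := hanti ht ⟨ht.1.trans ht.2, le_rfl⟩ ht.2
  rw [hg] at h1
  simp only [hb, zero_mul] at h1
  have h2 : 0 ≤ u t := by
    by_contra hcon
    push Not at hcon
    have := mul_neg_of_neg_of_pos hcon (exp_pos (c * t))
    linarith
  exact le_antisymm (hle t ht) h2

/-! ### The set-up -/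

/-- `Γ = (X, Y)` is a closed convex curve with velocity `v (cos φ, sin φ)` and period `L`. -/
structure Track (X Y v φ κ : ℝ → ℝ) (L : ℝ) : Prop where
  pos : 0 < L
  dX : ∀ t, HasDerivAt X (v t * cos (φ t)) t
  dY : ∀ t, HasDerivAt Y (v t * sin (φ t)) t
  perX : ∀ t, X (t + L) = X t
  perY : ∀ t, Y (t + L) = Y t
  vpos : ∀ t, 0 < v t
  vcont : Continuous v
  vper : ∀ t, v (t + L) = v t
  dφ : ∀ t, HasDerivAt φ (κ t) t
  κcont : Continuous κ
  κper : ∀ t, κ (t + L) = κ t
  κ0 : ∀ t, 0 ≤ κ t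
  mono : StrictMono φ
  φper : ∀ t, φ (t + L) = φ t + 2 * π

variable {X Y v φ κ : ℝ → ℝ} {L : ℝ}

lemma bdd_of_per {f : ℝ → ℝ} (hL : 0 < L) (hf : Continuous f) (hp : ∀ t, f (t + L) = f t) :
    ∃ B, 0 < B ∧ ∀ t, |f t| ≤ B := by
  have hper : Function.Periodic f L := hp
  obtain ⟨B, hB⟩ := (isCompact_Icc (a := (0:ℝ)) (b := L)).exists_bound_of_continuousOn
    hf.continuousOn
  refine ⟨max B 1, lt_of_lt_of_le one_pos (le_max_right _ _), fun t => ?_⟩
  obtain ⟨y, hy, e⟩ := hper.exists_mem_Ico₀ hL t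
  rw [e]
  have := hB y ⟨hy.1, hy.2.le⟩
  rw [Real.norm_eq_abs] at this
  exact this.trans (le_max_left _ _)

/-- `θ` is a solution of the bicycle equation with length `l` on the curve. -/
def Sol (v φ : ℝ → ℝ) (l : ℝ) (θ : ℝ → ℝ) : Prop :=
  ∀ t, HasDerivAt θ (v t * sin (θ t - φ t) / l) t

lemma abs_sin_le (x : ℝ) : |sin x| ≤ |x| := Real.abs_sin_le_abs

lemma abs_sin_sub_int (x : ℝ) (n : ℤ) : |sin x| ≤ |x - n * π| := by
  have h := abs_sin_le (x - n * π)
  rwa [Real.sin_sub_int_mul_pi, abs_mul, abs_zpow, abs_neg, abs_one, one_zpow, one_mul] at h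

/-- The angle `ω = θ - φ` crosses the multiples of `π` only downwards. -/
lemma down (T : Track X Y v φ κ L) {l : ℝ} (hl : 0 < l) {θ : ℝ → ℝ} (hθ : Sol v φ l θ) (n : ℤ)
    {a b : ℝ} (hab : a < b) (ha : θ a - φ a ≤ n * π) : θ b - φ b < n * π := by
  obtain ⟨B, hB0, hB⟩ := bdd_of_per T.pos T.vcont T.vper
  obtain ⟨u, hu⟩ : ∃ u : ℝ → ℝ, u = fun t => θ t - φ t - n * π := ⟨_, rfl⟩
  have du : ∀ t, HasDerivAt u (v t * sin (θ t - φ t) / l - κ t) t := by
    intro t; rw [hu]
    exact ((hθ t).sub (T.dφ t)).sub_const _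
  have hle : ∀ t, v t * sin (θ t - φ t) / l - κ t ≤ B / l * |u t| := by
    intro t
    have h1 : v t * sin (θ t - φ t) ≤ B * |u t| := by
      have h2 := abs_sin_sub_int (θ t - φ t) n
      have h3 : |v t * sin (θ t - φ t)| ≤ B * |u t| := by
        rw [abs_mul, hu]
        exact mul_le_mul (hB t) h2 (abs_nonneg _) hB0.le
      exact (le_abs_self _).trans h3
    have h4 : v t * sin (θ t - φ t) / l ≤ B * |u t| / l := by gcongr
    have h5 := T.κ0 t
    have h6 : B / l * |u t| = B * |u t| / l := by ring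
    rw [h6]; linarith
  have ha' : u a ≤ 0 := by rw [hu]; simp only; linarith
  have h1 := no_up du hle hab.le ha'
  rcases h1.lt_or_eq with h2 | h2
  · rw [hu] at h2; simp only at h2; linarith
  · exfalso
    have h3 := zero_of_zero du hle ha' h2
    -- `θ` is constant on `[a, b]`
    have h4 : θ b = θ a := by
      have hconst : ∀ t ∈ Icc a b, θ t = θ a := by
        apply constant_of_has_deriv_right_zero
        · exact fun t _ => (hθ t).continuousAt.continuousWithinAt
        · intro t ht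
          have e : θ t - φ t = n * π := by
            have := h3 t ⟨ht.1, ht.2.le⟩
            rw [hu] at this; simp only at this; linarith
          have := (hθ t).hasDerivWithinAt (s := Ici t)
          rw [e, Real.sin_int_mul_pi, mul_zero, zero_div] at this
          exact this
      exact hconst b ⟨hab.le, le_rfl⟩
    have h5 := h3 a ⟨le_rfl, hab.le⟩
    rw [hu] at h2 h5
    simp only at h2 h5
    have := T.mono hab
    linarith

lemma lip (l : ℝ) {B : ℝ} (hl : 0 < l) (hB : ∀ t, |v t| ≤ B) (t : ℝ) :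
    LipschitzWith (Real.toNNReal (B / l)) (fun x => v t * sin (x - φ t) / l) := by
  apply LipschitzWith.of_dist_le_mul
  intro x y
  have hB0 : 0 ≤ B := (abs_nonneg _).trans (hB t)
  rw [Real.coe_toNNReal _ (by positivity), Real.dist_eq, Real.dist_eq]
  have h1 : |sin (x - φ t) - sin (y - φ t)| ≤ |x - y| := by
    have := Real.abs_sin_sub_sin_le (x - φ t) (y - φ t)
    simpa using this
  have e : v t * sin (x - φ t) / l - v t * sin (y - φ t) / l =
      v t * (sin (x - φ t) - sin (y - φ t)) / l := by ring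
  rw [e, abs_div, abs_mul, abs_of_pos hl, div_le_iff₀ hl]
  calc |v t| * |sin (x - φ t) - sin (y - φ t)| ≤ B * |x - y| :=
        mul_le_mul (hB t) h1 (abs_nonneg _) hB0
    _ = B / l * |x - y| * l := by field_simp

lemma unique (T : Track X Y v φ κ L) {l : ℝ} (hl : 0 < l) {θ θ' : ℝ → ℝ} (hθ : Sol v φ l θ)
    (hθ' : Sol v φ l θ') {t₀ : ℝ} (h : θ t₀ = θ' t₀) : θ = θ' := by
  obtain ⟨B, -, hB⟩ := bdd_of_per T.pos T.vcont T.vper
  exact ODE_solution_unique_univ (v := fun t x => v t * sin (x - φ t) / l)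
    (K := Real.toNNReal (B / l)) (s := fun _ => univ) (t₀ := t₀)
    (fun t => (lip l hl hB t).lipschitzOnWith) (fun t => ⟨hθ t, trivial⟩)
    (fun t => ⟨hθ' t, trivial⟩) h

/-- The closing condition over one period extends to all times. -/
lemma per_of_closed (T : Track X Y v φ κ L) {l : ℝ} (hl : 0 < l) {θ : ℝ → ℝ} (hθ : Sol v φ l θ)
    {ρ : ℤ} (h : θ L = θ 0 + 2 * π * ρ) (t : ℝ) : θ (t + L) = θ t + 2 * π * ρ := by
  have h1 : Sol v φ l fun t => θ (t + L) - 2 * π * ρ := by
    intro t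
    have h2 := ((hθ (t + L)).comp_add_const t L).sub_const (2 * π * ρ)
    refine h2.congr_deriv ?_
    rw [T.vper, T.φper]
    have : θ (t + L) - 2 * π * ρ - φ t = θ (t + L) - (φ t + 2 * π) - ((ρ - 1 : ℤ) : ℝ) * (2 * π) := by
      push_cast; ring
    rw [this, Real.sin_sub_int_mul_two_pi]
  have h3 := unique T hl h1 hθ (t₀ := 0) (by simp only [zero_add]; rw [h]; ring)
  have := congrFun h3 t
  linarith

end Pool.Agent.R762.Bike
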