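import Mathlib
import Pool.Agent.R762.Bike1

/-! Closed rear bicycle tracks over convex front tracks have rotation number one. -/

set_option autoImplicit false

namespace Pool.Agent.R762.Bike

open Real Set Filter Topology

variable {X Y v φ κ : ℝ → ℝ} {L : ℝ}

lemma cont_ω (T : Track X Y v φ κ L) {l : ℝ} {θ : ℝ → ℝ} (hθ : Sol v φ l θ) :
    Continuous fun t => θ t - φ t :=
  (continuous_iff_continuousAt.2 fun t => (hθ t).continuousAt).sub
    (continuous_iff_continuousAt.2 fun t => (T.dφ t).continuousAt)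

lemma ω_per (T : Track X Y v φ κ L) {l : ℝ} (hl : 0 < l) {θ : ℝ → ℝ} (hθ : Sol v φ l θ)
    {ρ : ℤ} (h : θ L = θ 0 + 2 * π * ρ) (t : ℝ) :
    θ (t + L) - φ (t + L) = θ t - φ t + 2 * π * (ρ - 1 : ℤ) := by
  rw [per_of_closed T hl hθ h, T.φper]; push_cast; ring

/-- `ρ ≤ 1`. -/
lemma rho_le (T : Track X Y v φ κ L) {l : ℝ} (hl : 0 < l) {θ : ℝ → ℝ} (hθ : Sol v φ l θ)
    {ρ : ℤ} (h : θ L = θ 0 + 2 * π * ρ) : ρ ≤ 1 := by
  by_contra hcon
  push Not at hcon
  have h1 := ω_per T hl hθ h 0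
  rw [zero_add] at h1
  have hπ := Real.pi_pos
  obtain ⟨n, hn⟩ : ∃ n : ℤ, n = ⌈(θ 0 - φ 0) / π⌉ := ⟨_, rfl⟩
  have h2 : θ 0 - φ 0 ≤ n * π := by
    rw [hn, ← div_le_iff₀ hπ]; exact Int.le_ceil _
  have h3 : (n:ℝ) * π < θ 0 - φ 0 + π := by
    have := Int.ceil_lt_add_one ((θ 0 - φ 0) / π)
    rw [← hn] at this
    have h4 := mul_lt_mul_of_pos_right this hπ
    rw [add_mul, div_mul_cancel₀ _ hπ.ne', one_mul] at h4
    exact h4
  have h4 := down T hl hθ n T.pos h2
  have h5 : (1:ℝ) ≤ ((ρ - 1 : ℤ) : ℝ) := by exact_mod_cast (by omega : (1:ℤ) ≤ ρ - 1)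
  have h6 : 2 * π * 1 ≤ 2 * π * ((ρ - 1 : ℤ) : ℝ) := mul_le_mul_of_nonneg_left h5 (by positivity)
  linarith

/-- If `ρ ≤ 0`, the angle `ω` takes all values. -/
lemma hits (T : Track X Y v φ κ L) {l : ℝ} (hl : 0 < l) {θ : ℝ → ℝ} (hθ : Sol v φ l θ)
    {ρ : ℤ} (h : θ L = θ 0 + 2 * π * ρ) (hρ : ρ ≤ 0) (y : ℝ) : ∃ t, θ t - φ t = y := by
  have hπ := Real.pi_pos
  have hk : ((ρ - 1 : ℤ) : ℝ) ≤ -1 := by exact_mod_cast (by omega : ρ - 1 ≤ -1)
  have hn : ∀ n : ℕ, θ (n * L) - φ (n * L) = θ 0 - φ 0 + 2 * π * (ρ - 1 : ℤ) * n := by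
    intro n
    induction n with
    | zero => simp
    | succ n ih =>
      have := ω_per T hl hθ h (n * L)
      push_cast at this ih ⊢
      rw [show ((n:ℝ) + 1) * L = n * L + L by ring, this, ih]; ring
  have hm : ∀ n : ℕ, θ (-(n * L)) - φ (-(n * L)) = θ 0 - φ 0 - 2 * π * (ρ - 1 : ℤ) * n := by
    intro n
    induction n with
    | zero => simp
    | succ n ih =>
      have := ω_per T hl hθ h (-((n + 1 : ℕ) * L))
      push_cast at this ih ⊢
      rw [show -(((n:ℝ) + 1) * L) + L = -(n * L) by ring, ih] at this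
      linarith
  obtain ⟨N, hN⟩ := exists_nat_ge (|y - (θ 0 - φ 0)| / π)
  rw [div_le_iff₀ hπ] at hN
  have hN0 : (0:ℝ) ≤ N := Nat.cast_nonneg N
  have h1 : 2 * π * ((ρ - 1 : ℤ) : ℝ) * N ≤ - (N * π) := by nlinarith [mul_nonneg hN0 hπ.le]
  have h2 := abs_le.1 (le_refl |y - (θ 0 - φ 0)|)
  have h3 := hn N
  have h4 := hm N
  have h5 := intermediate_value_uIcc (f := fun t => θ t - φ t) (a := N * L) (b := -(N * L))
    (cont_ω T hθ).continuousOn
  have h6 : y ∈ uIcc (θ (N * L) - φ (N * L)) (θ (-(N * L)) - φ (-(N * L))) := by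
    rw [mem_uIcc]; left
    constructor
    · rw [h3]; linarith
    · rw [h4]; linarith
  obtain ⟨t, -, ht⟩ := h5 h6
  exact ⟨t, ht⟩

/-- Between the times with `ω = π` and `ω = 0` (and so on) the direction of the bicycle does not
turn clockwise. -/
lemma turn_odd (T : Track X Y v φ κ L) {l : ℝ} (hl : 0 < l) {θ : ℝ → ℝ} (hθ : Sol v φ l θ)
    (n : ℤ) {a b : ℝ} (hab : a ≤ b) (ha : θ a - φ a = (2 * n + 1 : ℤ) * π)
    (hb : θ b - φ b = (2 * n : ℤ) * π) : θ a ≤ θ b := by
  have hmono : MonotoneOn θ (Icc a b) := by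
    apply monotoneOn_of_deriv_nonneg (convex_Icc a b)
    · exact fun t _ => (hθ t).continuousAt.continuousWithinAt
    · exact fun t _ => (hθ t).differentiableAt.differentiableWithinAt
    · intro t ht
      rw [interior_Icc] at ht
      rw [(hθ t).deriv]
      apply div_nonneg _ hl.le
      apply mul_nonneg (T.vpos t).le
      have h1 := down T hl hθ (2 * n + 1) ht.1 ha.le
      have h2 : ((2 * n : ℤ) : ℝ) * π ≤ θ t - φ t := by
        by_contra hcon
        push Not at hcon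
        have := down T hl hθ (2 * n) ht.2 hcon.le
        linarith
      have e : θ t - φ t = (θ t - φ t - n * (2 * π)) + n * (2 * π) := by ring
      rw [e, Real.sin_add_int_mul_two_pi]
      push_cast at h1 h2
      apply Real.sin_nonneg_of_nonneg_of_le_pi
      · linarith
      · linarith
  exact hmono ⟨le_rfl, hab⟩ ⟨hab, le_rfl⟩ hab

lemma lt_of_ω (T : Track X Y v φ κ L) {l : ℝ} (hl : 0 < l) {θ : ℝ → ℝ} (hθ : Sol v φ l θ)
    (n : ℤ) {a b : ℝ} (hb : θ b - φ b ≤ n * π) (ha : n * π ≤ θ a - φ a) (hne : a ≠ b) : a < b := by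
  by_contra hcon
  push Not at hcon
  have := down T hl hθ n (lt_of_le_of_ne hcon hne.symm) hb
  linarith

/-- `ρ ≥ 0`. -/
lemma le_rho (T : Track X Y v φ κ L) {l : ℝ} (hl : 0 < l) {θ : ℝ → ℝ} (hθ : Sol v φ l θ)
    {ρ : ℤ} (h : θ L = θ 0 + 2 * π * ρ) : 0 ≤ ρ := by
  by_contra hcon
  push Not at hcon
  have hπ := Real.pi_pos
  obtain ⟨t1, h1⟩ := hits T hl hθ h hcon.le ((2 * 0 + 1 : ℤ) * π)
  obtain ⟨t0, h0⟩ := hits T hl hθ h hcon.le ((2 * 0 : ℤ) * π)
  obtain ⟨s1, g1⟩ := hits T hl hθ h hcon.le ((2 * (-1) + 1 : ℤ) * π)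
  obtain ⟨s2, g2⟩ := hits T hl hθ h hcon.le ((2 * (-1) : ℤ) * π)
  have a1 : t1 < t0 := lt_of_ω T hl hθ 0 (by rw [h0]; push_cast; linarith)
    (by rw [h1]; push_cast; linarith)
    (by rintro rfl; rw [h1] at h0; push_cast at h0; linarith)
  have a2 : t0 < s1 := lt_of_ω T hl hθ 0 (by rw [g1]; push_cast; linarith)
    (by rw [h0]; push_cast; linarith)
    (by rintro rfl; rw [h0] at g1; push_cast at g1; linarith)
  have a3 : s1 < s2 := lt_of_ω T hl hθ (-1) (by rw [g2]; push_cast; linarith)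
    (by rw [g1]; push_cast; linarith)
    (by rintro rfl; rw [g1] at g2; push_cast at g2; linarith)
  have b1 := turn_odd T hl hθ 0 a1.le h1 h0
  have b2 := turn_odd T hl hθ (-1) a3.le g1 g2
  have b3 := T.mono a2
  -- `s2 < t1 + L`
  have c1 := ω_per T hl hθ h t1
  have hk : ((ρ - 1 : ℤ) : ℝ) ≤ -2 := by exact_mod_cast (by omega : ρ - 1 ≤ -2)
  have c2 : s2 < t1 + L := by
    apply lt_of_ω T hl hθ (-2)
    · rw [c1, h1]; push_cast at hk ⊢; nlinarith
    · rw [g2]; push_cast; linarith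
    · rintro rfl
      rw [g2, h1] at c1
      push_cast at c1 hk
      nlinarith
  have c3 := T.mono c2
  rw [T.φper] at c3
  push_cast at h1 h0 g1 g2
  linarith

/-- `ρ ≠ 0`: the times at which the bicycle has the same direction are matched. -/
lemma rho_ne (T : Track X Y v φ κ L) {l : ℝ} (hl : 0 < l) {θ : ℝ → ℝ} (hθ : Sol v φ l θ)
    (h : θ L = θ 0 + 2 * π * (0 : ℤ)) : False := by
  have hπ := Real.pi_pos
  have cθ : Continuous θ := continuous_iff_continuousAt.2 fun t => (hθ t).continuousAt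
  have cφ : Continuous φ := continuous_iff_continuousAt.2 fun t => (T.dφ t).continuousAt
  obtain ⟨a, ha⟩ := hits T hl hθ h le_rfl ((0 : ℤ) * π)
  obtain ⟨m, hm⟩ := hits T hl hθ h le_rfl ((-1 : ℤ) * π)
  have hb0 := ω_per T hl hθ h a
  obtain ⟨b, hb⟩ : ∃ b, b = a + L := ⟨_, rfl⟩
  rw [← hb, ha] at hb0
  push_cast at ha hm hb0
  have hb1 : θ b - φ b = (-2 : ℤ) * π := by push_cast; linarith
  have ham : a < m := lt_of_ω T hl hθ 0 (by rw [hm]; push_cast; linarith)
    (by rw [ha]; push_cast; linarith) (by rintro rfl; linarith)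
  have hmb : m < b := lt_of_ω T hl hθ (-1) (by rw [hb1]; push_cast; linarith)
    (by rw [hm]; push_cast; linarith) (by rintro rfl; push_cast at hb1; linarith)
  have hθab : θ b = θ a := by
    have := per_of_closed T hl hθ h a
    rw [← hb] at this; rw [this]; push_cast; ring
  have hφab : φ b = φ a + 2 * π := by rw [hb]; exact T.φper a
  -- the position of `ω` on the two intervals
  have w1 : ∀ t ∈ Ioo a m, -π < θ t - φ t ∧ θ t - φ t < 0 := by
    intro t ht
    constructor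
    · by_contra hcon
      push Not at hcon
      have := down T hl hθ (-1) ht.2 (by push_cast; linarith)
      push_cast at this; linarith
    · have := down T hl hθ 0 ht.1 (by push_cast; linarith)
      push_cast at this; linarith
  have w2 : ∀ t ∈ Ioo m b, -2 * π < θ t - φ t ∧ θ t - φ t < -π := by
    intro t ht
    constructor
    · by_contra hcon
      push Not at hcon
      have := down T hl hθ (-2) ht.2 (by push_cast; linarith)
      push_cast at this hb1; linarith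
    · have := down T hl hθ (-1) ht.1 (by push_cast; linarith)
      push_cast at this; linarith
  have s1 : ∀ t ∈ Ioo a m, sin (θ t - φ t) < 0 := fun t ht =>
    Real.sin_neg_of_neg_of_neg_pi_lt (w1 t ht).2 (w1 t ht).1
  have s2 : ∀ t ∈ Ioo m b, 0 < sin (θ t - φ t) := fun t ht => by
    rw [← Real.sin_add_two_pi]
    exact Real.sin_pos_of_pos_of_lt_pi (by linarith [(w2 t ht).1]) (by linarith [(w2 t ht).2])
  have anti : StrictAntiOn θ (Icc a m) := by
    apply strictAntiOn_of_deriv_neg (convex_Icc a m) cθ.continuousOn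
    intro t ht
    rw [interior_Icc] at ht
    rw [(hθ t).deriv]
    exact div_neg_of_neg_of_pos (mul_neg_of_pos_of_neg (T.vpos t) (s1 t ht)) hl
  have mono : StrictMonoOn θ (Icc m b) := by
    apply strictMonoOn_of_deriv_pos (convex_Icc m b) cθ.continuousOn
    intro t ht
    rw [interior_Icc] at ht
    rw [(hθ t).deriv]
    exact div_pos (mul_pos (T.vpos t) (s2 t ht)) hl
  -- the matching time
  have ex : ∀ s ∈ Icc a m, ∃ t ∈ Icc m b, θ t = θ s := by
    intro s hs
    have h1 := intermediate_value_Icc hmb.le (f := θ) cθ.continuousOn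
    have h2 : θ s ∈ Icc (θ m) (θ b) := by
      rw [hθab]
      exact ⟨anti.antitoneOn hs ⟨ham.le, le_rfl⟩ hs.2, anti.antitoneOn ⟨le_rfl, ham.le⟩ hs hs.1⟩
    obtain ⟨t, ht, e⟩ := h1 h2
    exact ⟨t, ht, e⟩
  have : ∃ τ : ℝ → ℝ, ∀ s ∈ Icc a m, τ s ∈ Icc m b ∧ θ (τ s) = θ s := by
    classical
    refine ⟨fun s => if hs : s ∈ Icc a m then (ex s hs).choose else 0, fun s hs => ?_⟩
    simp only [hs, dif_pos]
    exact (ex s hs).choose_spec
  obtain ⟨τ, hτ⟩ := this
  have τa : τ a = b := mono.injOn (hτ a ⟨le_rfl, ham.le⟩).1 ⟨hmb.le, le_rfl⟩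
    (by rw [(hτ a ⟨le_rfl, ham.le⟩).2, hθab])
  have τm : τ m = m := mono.injOn (hτ m ⟨ham.le, le_rfl⟩).1 ⟨le_rfl, hmb.le⟩
    (by rw [(hτ m ⟨ham.le, le_rfl⟩).2])
  have τanti : StrictAntiOn τ (Icc a m) := by
    intro s hs t ht hst
    rw [← mono.lt_iff_lt (hτ t ht).1 (hτ s hs).1, (hτ s hs).2, (hτ t ht).2]
    exact anti hs ht hst
  have τio : ∀ s ∈ Ioo a m, τ s ∈ Ioo m b := by
    intro s hs
    have hs' : s ∈ Icc a m := ⟨hs.1.le, hs.2.le⟩
    have k1 := τanti hs' ⟨ham.le, le_rfl⟩ hs.2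
    have k2 := τanti ⟨le_rfl, ham.le⟩ hs' hs.1
    rw [τm] at k1; rw [τa] at k2
    exact ⟨k1, k2⟩
  have τcont : ContinuousOn τ (Icc a m) := by
    intro s hs
    rw [ContinuousWithinAt, Metric.tendsto_nhds]
    intro ε hε
    have hev : ∀ᶠ r in 𝓝[Icc a m] s, r ∈ Icc a m := self_mem_nhdsWithin
    have hlow : ∀ᶠ r in 𝓝[Icc a m] s, τ s - ε < τ r := by
      by_cases hc : τ s - ε < m
      · filter_upwards [hev] with r hr
        exact hc.trans_le (hτ r hr).1.1
      · push Not at hc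
        have hmem : τ s - ε ∈ Icc m b := ⟨hc, by linarith [(hτ s hs).1.2]⟩
        have h1 : θ (τ s - ε) < θ s := by
          rw [← (hτ s hs).2]; exact mono hmem (hτ s hs).1 (by linarith)
        have h2 : ∀ᶠ r in 𝓝[Icc a m] s, θ (τ s - ε) < θ r :=
          (cθ.continuousWithinAt).eventually (lt_mem_nhds h1)
        filter_upwards [hev, h2] with r hr h3
        rw [← (hτ r hr).2] at h3
        exact (mono.lt_iff_lt hmem (hτ r hr).1).1 h3
    have hup : ∀ᶠ r in 𝓝[Icc a m] s, τ r < τ s + ε := by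
      by_cases hc : b < τ s + ε
      · filter_upwards [hev] with r hr
        exact (hτ r hr).1.2.trans_lt hc
      · push Not at hc
        have hmem : τ s + ε ∈ Icc m b := ⟨by linarith [(hτ s hs).1.1], hc⟩
        have h1 : θ s < θ (τ s + ε) := by
          rw [← (hτ s hs).2]; exact mono (hτ s hs).1 hmem (by linarith)
        have h2 : ∀ᶠ r in 𝓝[Icc a m] s, θ r < θ (τ s + ε) :=
          (cθ.continuousWithinAt).eventually (gt_mem_nhds h1)
        filter_upwards [hev, h2] with r hr h3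
        rw [← (hτ r hr).2] at h3
        exact (mono.lt_iff_lt (hτ r hr).1 hmem).1 h3
    filter_upwards [hlow, hup] with r h1 h2
    rw [Real.dist_eq, abs_lt]
    constructor <;> linarith
  -- the turn of the front wheel between matched times
  obtain ⟨G, hG⟩ : ∃ G : ℝ → ℝ, G = fun s => φ (τ s) - φ s := ⟨_, rfl⟩
  have Gcont : ContinuousOn G (Icc a m) := by
    rw [hG]
    exact (cφ.comp_continuousOn τcont).sub cφ.continuousOn
  have Ganti : StrictAntiOn G (Icc a m) := by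
    intro s hs t ht hst
    rw [hG]
    have k1 := T.mono (τanti hs ht hst)
    have k2 := T.mono hst
    simp only; linarith
  have Ga : G a = 2 * π := by rw [hG]; simp only; rw [τa, hφab]; ring
  have Gm : G m = 0 := by rw [hG]; simp only; rw [τm]; ring
  obtain ⟨p, hp, hpG⟩ : ∃ p ∈ Ioo a m, G p = π := by
    have h1 := intermediate_value_Ioo' ham.le Gcont
    exact h1 ⟨by rw [Gm]; exact hπ, by rw [Ga]; linarith⟩
  -- the total turn of the bicycle is less than `π`
  have hΔ : θ a - θ m < π := by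
    have := T.mono ham
    linarith
  obtain ⟨f, hf⟩ : ∃ f : ℝ → ℝ, f = fun s => cos (θ p) * (Y (τ s) - Y s) -
    sin (θ p) * (X (τ s) - X s) := ⟨_, rfl⟩
  have cX : Continuous X := continuous_iff_continuousAt.2 fun t => (T.dX t).continuousAt
  have cY : Continuous Y := continuous_iff_continuousAt.2 fun t => (T.dY t).continuousAt
  have fcont : ContinuousOn f (Icc a m) := by
    rw [hf]
    exact (continuousOn_const.mul ((cY.comp_continuousOn τcont).sub cY.continuousOn)).sub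
      (continuousOn_const.mul ((cX.comp_continuousOn τcont).sub cX.continuousOn))
  have fd : ∀ s ∈ Ioo a m, HasDerivAt f
      (v s * (sin (θ s - θ p) * sin (G s) / sin (θ (τ s) - φ (τ s)))) s := by
    intro s hs
    have hs' : s ∈ Icc a m := ⟨hs.1.le, hs.2.le⟩
    have hts := τio s hs
    have k0 := s2 _ hts
    have hvτ : v (τ s) * sin (θ (τ s) - φ (τ s)) / l ≠ 0 :=
      (div_pos (mul_pos (T.vpos _) k0) hl).ne'
    have hnhds : Icc a m ∈ 𝓝 s := Icc_mem_nhds hs.1 hs.2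
    have dτ : HasDerivAt τ (v s * sin (θ s - φ s) / l /
        (v (τ s) * sin (θ (τ s) - φ (τ s)) / l)) s := by
      have h1 : Tendsto (slope θ s) (𝓝[≠] s) (𝓝 (v s * sin (θ s - φ s) / l)) :=
        hasDerivAt_iff_tendsto_slope.1 (hθ s)
      have hτc : ContinuousAt τ s := τcont.continuousAt hnhds
      have hne : ∀ᶠ r in 𝓝[≠] s, r ∈ Icc a m ∧ r ≠ s := by
        filter_upwards [mem_nhdsWithin_of_mem_nhds hnhds, self_mem_nhdsWithin] with r h1 h2
        exact ⟨h1, h2⟩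
      have h2 : Tendsto (fun r => slope θ (τ s) (τ r)) (𝓝[≠] s)
          (𝓝 (v (τ s) * sin (θ (τ s) - φ (τ s)) / l)) := by
        apply (hasDerivAt_iff_tendsto_slope.1 (hθ (τ s))).comp
        rw [tendsto_nhdsWithin_iff]
        refine ⟨hτc.tendsto.mono_left nhdsWithin_le_nhds, ?_⟩
        filter_upwards [hne] with r hr
        exact fun h => hr.2 (τanti.injOn hr.1 hs' h)
      have h3 := h1.div h2 hvτ
      refine hasDerivAt_iff_tendsto_slope.2 (h3.congr' ?_)
      filter_upwards [hne] with r hr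
      have e1 : θ (τ r) = θ r := (hτ r hr.1).2
      have e2 : θ (τ s) = θ s := (hτ s hs').2
      have e3 : θ r - θ s ≠ 0 := sub_ne_zero.2 fun h => hr.2 (anti.injOn hr.1 hs' h)
      have e4 : τ r - τ s ≠ 0 := sub_ne_zero.2 fun h => hr.2 (τanti.injOn hr.1 hs' h)
      have e5 : r - s ≠ 0 := sub_ne_zero.2 hr.2
      simp only [Pi.div_apply, slope_def_field, e1, e2]
      field_simp
    have dYτ := (T.dY (τ s)).comp s dτ
    have dXτ := (T.dX (τ s)).comp s dτ
    have := ((dYτ.sub (T.dY s)).const_mul (cos (θ p))).sub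
      ((dXτ.sub (T.dX s)).const_mul (sin (θ p)))
    rw [hf]
    refine this.congr_deriv ?_
    have e2 : θ (τ s) = θ s := (hτ s hs').2
    have hv := (T.vpos (τ s)).ne'
    have hv0 := (T.vpos s).ne'
    have hG' : G s = φ (τ s) - φ s := by rw [hG]
    rw [hG']
    have e3 : sin (θ s - θ p) * sin (φ (τ s) - φ s) =
        sin (θ s - φ s) * sin (φ (τ s) - θ p) - sin (φ s - θ p) * sin (θ (τ s) - φ (τ s)) := by
      rw [e2]
      simp only [Real.sin_sub]
      have k1 := sin_sq_add_cos_sq (θ s)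
      linear_combination (sin (φ s) * sin (φ (τ s)) * 0) * k1
    rw [e3]
    have k0' := k0.ne'
    rw [e2] at k0' ⊢
    rw [sin_sub (φ (τ s)) (θ p), sin_sub (φ s) (θ p)]
    field_simp
    ring
  -- `f` is strictly decreasing on both sides of `p`
  have G1 : ∀ s ∈ Ioo a p, sin (G s) < 0 := by
    intro s hs
    have hs' : s ∈ Icc a m := ⟨hs.1.le, hs.2.le.trans hp.2.le⟩
    have k1 := Ganti hs' ⟨hp.1.le, hp.2.le⟩ hs.2
    have k2 := Ganti ⟨le_rfl, ham.le⟩ hs' hs.1
    rw [hpG] at k1; rw [Ga] at k2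
    rw [← Real.sin_sub_two_pi]
    exact Real.sin_neg_of_neg_of_neg_pi_lt (by linarith) (by linarith)
  have G2 : ∀ s ∈ Ioo p m, 0 < sin (G s) := by
    intro s hs
    have hs' : s ∈ Icc a m := ⟨hp.1.le.trans hs.1.le, hs.2.le⟩
    have k1 := Ganti ⟨hp.1.le, hp.2.le⟩ hs' hs.1
    have k2 := Ganti hs' ⟨ham.le, le_rfl⟩ hs.2
    rw [hpG] at k1; rw [Gm] at k2
    exact Real.sin_pos_of_pos_of_lt_pi k2 k1
  have D1 : ∀ s ∈ Ioo a p, 0 < sin (θ s - θ p) := by
    intro s hs
    have hs' : s ∈ Icc a m := ⟨hs.1.le, hs.2.le.trans hp.2.le⟩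
    have k1 := anti hs' ⟨hp.1.le, hp.2.le⟩ hs.2
    have k2 := anti ⟨le_rfl, ham.le⟩ hs' hs.1
    have k3 := anti ⟨hp.1.le, hp.2.le⟩ ⟨ham.le, le_rfl⟩ hp.2
    exact Real.sin_pos_of_pos_of_lt_pi (by linarith) (by linarith)
  have D2 : ∀ s ∈ Ioo p m, sin (θ s - θ p) < 0 := by
    intro s hs
    have hs' : s ∈ Icc a m := ⟨hp.1.le.trans hs.1.le, hs.2.le⟩
    have k1 := anti ⟨hp.1.le, hp.2.le⟩ hs' hs.1
    have k2 := anti hs' ⟨ham.le, le_rfl⟩ hs.2
    have k3 := anti ⟨le_rfl, ham.le⟩ ⟨hp.1.le, hp.2.le⟩ hp.1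
    exact Real.sin_neg_of_neg_of_neg_pi_lt (by linarith) (by linarith)
  have f1 : f p < f a := by
    have : StrictAntiOn f (Icc a p) := by
      apply strictAntiOn_of_deriv_neg (convex_Icc a p)
        (fcont.mono (Icc_subset_Icc_right hp.2.le))
      intro s hs
      rw [interior_Icc] at hs
      have hs' : s ∈ Ioo a m := ⟨hs.1, hs.2.trans hp.2⟩
      rw [(fd s hs').deriv]
      exact mul_neg_of_pos_of_neg (T.vpos s)
        (div_neg_of_neg_of_pos (mul_neg_of_pos_of_neg (D1 s hs) (G1 s hs)) (s2 _ (τio s hs')))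
    exact this ⟨le_rfl, hp.1.le⟩ ⟨hp.1.le, le_rfl⟩ hp.1
  have f2 : f m < f p := by
    have : StrictAntiOn f (Icc p m) := by
      apply strictAntiOn_of_deriv_neg (convex_Icc p m)
        (fcont.mono (Icc_subset_Icc_left hp.1.le))
      intro s hs
      rw [interior_Icc] at hs
      have hs' : s ∈ Ioo a m := ⟨hp.1.trans hs.1, hs.2⟩
      rw [(fd s hs').deriv]
      exact mul_neg_of_pos_of_neg (T.vpos s)
        (div_neg_of_neg_of_pos (mul_neg_of_neg_of_pos (D2 s hs) (G2 s hs)) (s2 _ (τio s hs')))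
    exact this ⟨le_rfl, hp.2.le⟩ ⟨hp.2.le, le_rfl⟩ hp.2
  have fa : f a = 0 := by
    rw [hf]; simp only; rw [τa, hb, T.perX, T.perY]; ring
  have fm : f m = 0 := by
    rw [hf]; simp only; rw [τm]; ring
  linarith

/-- Every closed rear track over a convex front track has rotation number one. -/
theorem rho_eq_one (T : Track X Y v φ κ L) {l : ℝ} (hl : 0 < l) {θ : ℝ → ℝ} (hθ : Sol v φ l θ)
    {ρ : ℤ} (h : θ L = θ 0 + 2 * π * ρ) : ρ = 1 := by
  have h1 := rho_le T hl hθ h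
  have h2 := le_rho T hl hθ h
  rcases h1.lt_or_eq with h3 | h3
  · exfalso
    have : ρ = 0 := by omega
    subst this
    exact rho_ne T hl hθ h
  · exact h3

end Pool.Agent.R762.Bike
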