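import Mathlib
import Pool.Agent.R762.Bike2

/-! The direction angle of a smooth strictly convex closed curve. -/

set_option autoImplicit false

namespace Pool.Agent.R762.Bike

open Real Set Filter Topology
open scoped ContDiff

/-- `(X, Y)` is a smooth regular parametrisation, of period `L`, of a simple strictly convex closed
curve, counterclockwise: every point of the curve other than the point at `t` is strictly to the
left of the tangent line at `t`. -/
structure Convex (X Y : ℝ → ℝ) (L : ℝ) : Prop where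
  pos : 0 < L
  smoothX : ContDiff ℝ ∞ X
  smoothY : ContDiff ℝ ∞ Y
  perX : ∀ t, X (t + L) = X t
  perY : ∀ t, Y (t + L) = Y t
  regular : ∀ t, deriv X t ≠ 0 ∨ deriv Y t ≠ 0
  simple : ∀ s ∈ Ico 0 L, ∀ t ∈ Ico 0 L, X s = X t → Y s = Y t → s = t
  left : ∀ s t, (X s ≠ X t ∨ Y s ≠ Y t) →
    0 < deriv X t * (Y s - Y t) - deriv Y t * (X s - X t)

variable {X Y : ℝ → ℝ} {L : ℝ}

lemma smooth_deriv {f : ℝ → ℝ} (hf : ContDiff ℝ ∞ f) : ContDiff ℝ ∞ (deriv f) :=
  (contDiff_infty_iff_deriv.1 hf).2

lemma diff_of {f : ℝ → ℝ} (hf : ContDiff ℝ ∞ f) (t : ℝ) : HasDerivAt f (deriv f t) t :=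
  ((contDiff_infty_iff_deriv.1 hf).1 t).hasDerivAt

lemma deriv_per {f : ℝ → ℝ} (hp : ∀ t, f (t + L) = f t) (t : ℝ) : deriv f (t + L) = deriv f t := by
  have h : (fun s => f (s + L)) = f := funext hp
  rw [← deriv_comp_add_const, h]

lemma Convex.eq_of (C : Convex X Y L) {s t : ℝ} (hx : X s = X t) (hy : Y s = Y t)
    (hst : |s - t| < L) : s = t := by
  have pX : Function.Periodic X L := C.perX
  have pY : Function.Periodic Y L := C.perY
  have red : ∀ r : ℝ, ∃ n : ℤ, r - n * L ∈ Ico 0 L := by
    intro r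
    refine ⟨⌊r / L⌋, ?_⟩
    have h1 := Int.floor_le (r / L)
    have h2 := Int.lt_floor_add_one (r / L)
    rw [le_div_iff₀ C.pos] at h1
    rw [div_lt_iff₀ C.pos] at h2
    constructor <;> nlinarith
  obtain ⟨n, hn⟩ := red s
  obtain ⟨m, hm⟩ := red t
  have e1 : X (s - n * L) = X s := by
    have := pX.sub_zsmul_eq (x := s) n
    rwa [zsmul_eq_mul] at this
  have e2 : X (t - m * L) = X t := by
    have := pX.sub_zsmul_eq (x := t) m
    rwa [zsmul_eq_mul] at this
  have e3 : Y (s - n * L) = Y s := by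
    have := pY.sub_zsmul_eq (x := s) n
    rwa [zsmul_eq_mul] at this
  have e4 : Y (t - m * L) = Y t := by
    have := pY.sub_zsmul_eq (x := t) m
    rwa [zsmul_eq_mul] at this
  have h := C.simple _ hn _ hm (by rw [e1, e2, hx]) (by rw [e3, e4, hy])
  have h1 : s - t = ((n - m : ℤ) : ℝ) * L := by push_cast; linarith
  rw [h1, abs_mul, abs_of_pos C.pos] at hst
  have h2 : |((n - m : ℤ) : ℝ)| < 1 := by
    by_contra hcon
    push Not at hcon
    nlinarith [C.pos]
  have h3 : n - m = 0 := by
    have : |n - m| < 1 := by exact_mod_cast h2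
    exact Int.abs_lt_one_iff.1 this
  rw [h3] at h1
  simp at h1
  linarith

/-- A smooth strictly convex closed curve has a direction angle. -/
lemma Convex.track (C : Convex X Y L) : ∃ v φ κ : ℝ → ℝ, Track X Y v φ κ L := by
  have hπ := Real.pi_pos
  obtain ⟨w, hw⟩ : ∃ w : ℝ → ℂ, w = fun t => ((deriv X t : ℝ) : ℂ) + ((deriv Y t : ℝ) : ℂ) * Complex.I := ⟨_, rfl⟩
  have wre : ∀ t, (w t).re = deriv X t := fun t => by rw [hw]; simp
  have wim : ∀ t, (w t).im = deriv Y t := fun t => by rw [hw]; simp
  have w0 : ∀ t, w t ≠ 0 := by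
    intro t h
    rcases C.regular t with h1 | h1
    · exact h1 (by rw [← wre, h]; simp)
    · exact h1 (by rw [← wim, h]; simp)
  obtain ⟨w', hw'⟩ : ∃ w' : ℝ → ℂ,
      w' = fun t => ((deriv (deriv X) t : ℝ) : ℂ) + ((deriv (deriv Y) t : ℝ) : ℂ) * Complex.I := ⟨_, rfl⟩
  have dw : ∀ t, HasDerivAt w (w' t) t := by
    intro t
    rw [hw, hw']
    exact ((diff_of (smooth_deriv C.smoothX) t).ofReal_comp).add
      (((diff_of (smooth_deriv C.smoothY) t).ofReal_comp).mul_const _)
  have cw : Continuous w := continuous_iff_continuousAt.2 fun t => (dw t).continuousAt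
  have cw' : Continuous w' := by
    rw [hw']
    have h1 := (smooth_deriv (smooth_deriv C.smoothX)).continuous
    have h2 := (smooth_deriv (smooth_deriv C.smoothY)).continuous
    fun_prop
  have cq : Continuous fun t => w' t / w t := cw'.div cw w0
  obtain ⟨k, hk⟩ : ∃ k : ℝ → ℂ, k = fun t => (∫ s in (0:ℝ)..t, w' s / w s) + Complex.log (w 0) :=
    ⟨_, rfl⟩
  have dk : ∀ t, HasDerivAt k (w' t / w t) t := by
    intro t; rw [hk]
    exact (intervalIntegral.integral_hasDerivAt_right (cq.intervalIntegrable _ _)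
      cq.aestronglyMeasurable.stronglyMeasurableAtFilter cq.continuousAt).add_const _
  have wexp : ∀ t, w t = Complex.exp (k t) := by
    have h1 : ∀ t, HasDerivAt (fun t => w t * Complex.exp (-k t)) 0 t := by
      intro t
      refine ((dw t).mul (dk t).neg.cexp).congr_deriv ?_
      have := w0 t
      field_simp
      ring
    have h2 : ∀ t, w t * Complex.exp (-k t) = w 0 * Complex.exp (-k 0) := fun t =>
      is_const_of_deriv_eq_zero (fun t => (h1 t).differentiableAt) (fun t => (h1 t).deriv) t 0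
    intro t
    have h3 := h2 t
    have h4 : w 0 * Complex.exp (-k 0) = 1 := by
      rw [hk]
      simp only [intervalIntegral.integral_same, zero_add]
      rw [Complex.exp_neg, Complex.exp_log (w0 0), mul_inv_cancel₀ (w0 0)]
    rw [h4, Complex.exp_neg] at h3
    have h5 := Complex.exp_ne_zero (k t)
    field_simp at h3
    exact h3
  -- period of `k`
  have w'per : ∀ t, w' (t + L) = w' t := fun t => by
    rw [hw']; simp only
    rw [deriv_per (deriv_per C.perX), deriv_per (deriv_per C.perY)]
  have wper : ∀ t, w (t + L) = w t := fun t => by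
    rw [hw]; simp only
    rw [deriv_per C.perX, deriv_per C.perY]
  have kdiff : ∀ t, k (t + L) - k t = k (0 + L) - k 0 := by
    have h1 : ∀ t, HasDerivAt (fun t => k (t + L) - k t) 0 t := by
      intro t
      refine (((dk (t + L)).comp_add_const t L).sub (dk t)).congr_deriv ?_
      rw [w'per, wper, sub_self]
    exact fun t => is_const_of_deriv_eq_zero (fun t => (h1 t).differentiableAt)
      (fun t => (h1 t).deriv) t 0
  obtain ⟨n, hn⟩ : ∃ n : ℤ, k (0 + L) = k 0 + n * (2 * π * Complex.I) := by
    apply Complex.exp_eq_exp_iff_exists_int.1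
    rw [← wexp, ← wexp, wper]
  obtain ⟨φ, hφ⟩ : ∃ φ : ℝ → ℝ, φ = fun t => (k t).im := ⟨_, rfl⟩
  obtain ⟨κ, hκ⟩ : ∃ κ : ℝ → ℝ, κ = fun t => (w' t / w t).im := ⟨_, rfl⟩
  obtain ⟨v, hv⟩ : ∃ v : ℝ → ℝ, v = fun t => exp (k t).re := ⟨_, rfl⟩
  have dφ : ∀ t, HasDerivAt φ (κ t) t := by
    intro t
    rw [hφ, hκ]
    exact Complex.imCLM.hasFDerivAt.comp_hasDerivAt t (dk t)
  have cφ : Continuous φ := continuous_iff_continuousAt.2 fun t => (dφ t).continuousAt
  have cκ : Continuous κ := by rw [hκ]; exact Complex.continuous_im.comp cq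
  have ck : Continuous k := continuous_iff_continuousAt.2 fun t => (dk t).continuousAt
  have cv : Continuous v := by rw [hv]; exact Real.continuous_exp.comp (Complex.continuous_re.comp ck)
  have v0 : ∀ t, 0 < v t := fun t => by rw [hv]; exact exp_pos _
  have eX : ∀ t, deriv X t = v t * cos (φ t) := by
    intro t
    rw [← wre, wexp, Complex.exp_re, hv, hφ]
  have eY : ∀ t, deriv Y t = v t * sin (φ t) := by
    intro t
    rw [← wim, wexp, Complex.exp_im, hv, hφ]
  have φper : ∀ t, φ (t + L) = φ t + 2 * π * n := by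
    intro t
    have h1 := kdiff t
    rw [hn] at h1
    have h2 := congrArg Complex.im h1
    have h3 : ((n:ℂ) * (2 * π * Complex.I)).im = 2 * π * n := by
      simp; ring
    rw [add_sub_cancel_left, h3] at h2
    rw [hφ]
    simp only [Complex.sub_im] at h2 ⊢
    linarith
  -- the curvature is nonnegative
  have κ0 : ∀ t, 0 ≤ κ t := by
    intro t
    by_contra hcon
    push Not at hcon
    obtain ⟨f, hf⟩ : ∃ f : ℝ → ℝ, f = fun s => deriv X t * (Y s - Y t) -
      deriv Y t * (X s - X t) := ⟨_, rfl⟩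
    have hf0 : ∀ s, 0 ≤ f s := by
      intro s
      by_cases h : X s ≠ X t ∨ Y s ≠ Y t
      · rw [hf]; exact (C.left s t h).le
      · push Not at h
        rw [hf]; simp only; rw [h.1, h.2]; simp
    have df : ∀ s, HasDerivAt f (v t * v s * sin (φ s - φ t)) s := by
      intro s
      rw [hf]
      refine ((((diff_of C.smoothY s).sub_const (Y t)).const_mul (deriv X t)).sub
        (((diff_of C.smoothX s).sub_const (X t)).const_mul (deriv Y t))).congr_deriv ?_
      rw [eX, eY, eX, eY, Real.sin_sub]; ring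
    -- `φ` is decreasing near `t`
    have h1 : ∀ᶠ s in 𝓝[>] t, φ s < φ t := by
      have h2 := (hasDerivAt_iff_tendsto_slope.1 (dφ t)).eventually (gt_mem_nhds hcon)
      have h3 : ∀ᶠ s in 𝓝[>] t, slope φ t s < 0 :=
        h2.filter_mono (nhdsWithin_mono _ fun x hx => (ne_of_gt hx))
      filter_upwards [h3, self_mem_nhdsWithin] with s h4 h5
      rw [slope_def_field, div_neg_iff] at h4
      have : 0 < s - t := sub_pos.2 h5
      rcases h4 with h6 | h6
      · linarith [h6.2]
      · linarith [h6.1]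
    have h2 : ∀ᶠ s in 𝓝[>] t, φ t - π < φ s :=
      (cφ.continuousWithinAt).eventually (lt_mem_nhds (by linarith))
    obtain ⟨b, hb, hb2⟩ := mem_nhdsGT_iff_exists_Ioo_subset.1 (h1.and h2)
    have hb1 : t < b := hb
    have hanti : StrictAntiOn f (Icc t ((t + b) / 2)) := by
      apply strictAntiOn_of_deriv_neg (convex_Icc _ _)
      · exact fun s _ => (df s).continuousAt.continuousWithinAt
      · intro s hs
        rw [interior_Icc] at hs
        have h3 := hb2 ⟨hs.1, by linarith [hs.2]⟩
        rw [(df s).deriv]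
        exact mul_neg_of_pos_of_neg (mul_pos (v0 t) (v0 s))
          (Real.sin_neg_of_neg_of_neg_pi_lt (by linarith [h3.1]) (by linarith [h3.2]))
    have h3 := hanti ⟨le_rfl, by linarith⟩ ⟨by linarith, le_rfl⟩ (show t < (t + b) / 2 by linarith)
    have h4 : f t = 0 := by rw [hf]; simp
    have h5 := hf0 ((t + b) / 2)
    linarith
  have φmono : Monotone φ := monotone_of_deriv_nonneg (fun t => (dφ t).differentiableAt)
    (fun t => by rw [(dφ t).deriv]; exact κ0 t)
  have φstrict : StrictMono φ := by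
    intro a b hab
    refine lt_of_le_of_ne (φmono hab.le) fun heq => ?_
    obtain ⟨c, hc⟩ : ∃ c, c = min b (a + L / 2) := ⟨_, rfl⟩
    have hac : a < c := by rw [hc]; exact lt_min hab (by linarith [C.pos])
    have hcb : c ≤ b := by rw [hc]; exact min_le_left _ _
    have hcL : c - a < L := by
      have : c ≤ a + L / 2 := by rw [hc]; exact min_le_right _ _
      linarith [C.pos]
    have hconst : ∀ s ∈ Icc a c, φ s = φ a := fun s hs =>
      le_antisymm ((φmono (hs.2.trans hcb)).trans heq.symm.le) (φmono hs.1)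
    obtain ⟨f, hf⟩ : ∃ f : ℝ → ℝ, f = fun s => deriv X a * (Y s - Y a) -
      deriv Y a * (X s - X a) := ⟨_, rfl⟩
    have df : ∀ s, HasDerivAt f (v a * v s * sin (φ s - φ a)) s := by
      intro s
      rw [hf]
      refine ((((diff_of C.smoothY s).sub_const (Y a)).const_mul (deriv X a)).sub
        (((diff_of C.smoothX s).sub_const (X a)).const_mul (deriv Y a))).congr_deriv ?_
      rw [eX, eY, eX, eY, Real.sin_sub]; ring
    have hfc : ∀ s ∈ Icc a c, f s = f a := by
      apply constant_of_has_deriv_right_zero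
      · exact fun t _ => (df t).continuousAt.continuousWithinAt
      · intro t ht
        have h1 := (df t).hasDerivWithinAt (s := Ici t)
        rw [hconst t ⟨ht.1, ht.2.le⟩, sub_self, Real.sin_zero, mul_zero] at h1
        exact h1
    have h1 := hfc c ⟨hac.le, le_rfl⟩
    have h2 : f a = 0 := by rw [hf]; simp
    have h3 : X c ≠ X a ∨ Y c ≠ Y a := by
      by_contra hcon
      push Not at hcon
      have := C.eq_of hcon.1 hcon.2 (by rw [abs_of_pos (by linarith)]; exact hcL)
      linarith
    have h4 := C.left c a h3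
    rw [hf] at h1 h2
    simp only at h1 h2
    linarith
  -- the turning number is one
  have hn1 : n = 1 := by
    have h1 : 1 ≤ n := by
      have := φstrict (show (0:ℝ) < 0 + L by linarith [C.pos])
      rw [φper] at this
      have h2 : (0:ℝ) < n := by
        by_contra hcon
        push Not at hcon
        nlinarith
      exact_mod_cast h2
    by_contra hne
    have h2 : 2 ≤ n := by omega
    have h2' : (2:ℝ) ≤ n := by exact_mod_cast h2
    have h3 := intermediate_value_Ioo C.pos.le (f := φ) cφ.continuousOn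
    have h4 := φper 0
    rw [zero_add] at h4
    obtain ⟨t, ht, et⟩ := h3 (show φ 0 + 2 * π ∈ Ioo (φ 0) (φ L) by
      constructor
      · linarith
      · rw [h4]; nlinarith)
    have h5 : X t ≠ X 0 ∨ Y t ≠ Y 0 := by
      by_contra hcon
      push Not at hcon
      have := C.eq_of hcon.1 hcon.2 (by rw [sub_zero, abs_of_pos ht.1]; exact ht.2)
      linarith [ht.1]
    have h6 := C.left t 0 h5
    have h7 := C.left 0 t (h5.imp Ne.symm Ne.symm)
    rw [eX, eY] at h6 h7
    rw [et, Real.cos_add_two_pi, Real.sin_add_two_pi] at h7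
    have h8 : 0 < cos (φ 0) * (Y t - Y 0) - sin (φ 0) * (X t - X 0) := by
      have : v 0 * (cos (φ 0) * (Y t - Y 0) - sin (φ 0) * (X t - X 0)) > 0 := by linarith
      exact (pos_iff_pos_of_mul_pos this).1 (v0 0)
    have h9 : 0 < cos (φ 0) * (Y 0 - Y t) - sin (φ 0) * (X 0 - X t) := by
      have : v t * (cos (φ 0) * (Y 0 - Y t) - sin (φ 0) * (X 0 - X t)) > 0 := by linarith
      exact (pos_iff_pos_of_mul_pos this).1 (v0 t)
    linarith
  refine ⟨v, φ, κ, ⟨C.pos, fun t => ?_, fun t => ?_, C.perX, C.perY, v0, cv, ?_, dφ, cκ, ?_, κ0,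
    φstrict, ?_⟩⟩
  · rw [← eX]; exact diff_of C.smoothX t
  · rw [← eY]; exact diff_of C.smoothY t
  · intro t
    have h1 := kdiff t
    rw [hn] at h1
    have h2 := congrArg Complex.re h1
    have h3 : ((n:ℂ) * (2 * π * Complex.I)).re = 0 := by simp
    rw [add_sub_cancel_left, h3, Complex.sub_re] at h2
    rw [hv]
    simp only
    rw [show (k (t + L)).re = (k t).re by linarith]
  · intro t
    rw [hκ]; simp only; rw [w'per, wper]
  · intro t
    rw [φper, hn1]; push_cast; ring

end Pool.Agent.R762.Bike
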