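import Mathlib
import Pool.Agent.R762.Bike3
import Pool.Agent.Helper27.Har.P_global_ode

/-! The bicycle monodromy over convex front tracks: dependence on the length of the bicycle. -/

set_option autoImplicit false

namespace Pool.Agent.R762.Bike

open Real Set Filter Topology
open scoped ContDiff

variable {X Y v φ κ : ℝ → ℝ} {L : ℝ}

lemma lift_eq {f : ℝ → ℝ} (hf : Continuous f) {l : ℝ} : Continuous fun t => f t / (2 * l) :=
  hf.div_const _

/-- existence of global solutions of the bicycle equation -/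
lemma exists_sol (T : Track X Y v φ κ L) {l : ℝ} (hl : 0 < l) (x : ℝ) :
    ∃ θ : ℝ → ℝ, θ 0 = x ∧ Sol v φ l θ := by
  obtain ⟨B, -, hB⟩ := bdd_of_per T.pos T.vcont T.vper
  have cφ : Continuous φ := continuous_iff_continuousAt.2 fun t => (T.dφ t).continuousAt
  have cv := T.vcont
  exact Haraux.global_ode (fun t x => v t * sin (x - φ t) / l) _ (lip l hl hB)
    (by unfold Function.uncurry; simp only; fun_prop) x

/-- comparison of two solutions, possibly for different lengths -/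
lemma compare (T : Track X Y v φ κ L) {l₁ : ℝ} (hl₁ : 0 < l₁) {θ θ₁ : ℝ → ℝ}
    {θ' : ℝ → ℝ} (hθ : ∀ t, HasDerivAt θ (θ' t) t)
    (hsub : ∀ t, θ' t ≤ v t * sin (θ t - φ t) / l₁)
    (hθ₁ : Sol v φ l₁ θ₁) (h0 : θ 0 ≤ θ₁ 0) {t : ℝ} (ht : 0 ≤ t) : θ t ≤ θ₁ t := by
  obtain ⟨B, hB0, hB⟩ := bdd_of_per T.pos T.vcont T.vper
  have h1 := no_up (u := fun t => θ t - θ₁ t)
    (u' := fun t => θ' t - v t * sin (θ₁ t - φ t) / l₁) (c := B / l₁)
    (fun t => (hθ t).sub (hθ₁ t)) (fun t => by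
      have h2 : v t * sin (θ t - φ t) / l₁ - v t * sin (θ₁ t - φ t) / l₁ ≤
          B / l₁ * |θ t - θ₁ t| := by
        have e : v t * sin (θ t - φ t) / l₁ - v t * sin (θ₁ t - φ t) / l₁ =
          v t * (sin (θ t - φ t) - sin (θ₁ t - φ t)) / l₁ := by ring
        have h3 := Real.abs_sin_sub_sin_le (θ t - φ t) (θ₁ t - φ t)
        rw [sub_sub_sub_cancel_right] at h3
        rw [e, div_mul_eq_mul_div]
        apply div_le_div_of_nonneg_right _ hl₁.le
        calc v t * (sin (θ t - φ t) - sin (θ₁ t - φ t)) ≤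
              |v t * (sin (θ t - φ t) - sin (θ₁ t - φ t))| := le_abs_self _
          _ ≤ B * |θ t - θ₁ t| := by
              rw [abs_mul]; exact mul_le_mul (hB t) h3 (abs_nonneg _) hB0.le
      linarith [hsub t]) ht (by linarith)
  linarith

/-- A closed solution stays, up to a multiple of `2π`, at an angle between `0` and `π` to the front
track. -/
lemma closed_pos (T : Track X Y v φ κ L) {l : ℝ} (hl : 0 < l) {θ : ℝ → ℝ} (hθ : Sol v φ l θ)
    {ρ : ℤ} (h : θ L = θ 0 + 2 * π * ρ) : ∃ j : ℤ, ∀ t, (2 * j : ℤ) * π < θ t - φ t ∧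
      θ t - φ t < (2 * j + 1 : ℤ) * π := by
  have hπ := Real.pi_pos
  have hρ := rho_eq_one T hl hθ h
  have hper : ∀ t, θ (t + L) - φ (t + L) = θ t - φ t := fun t => by
    rw [ω_per T hl hθ h t, hρ]; simp
  have hperN : ∀ (N : ℕ) t, θ (t + N * L) - φ (t + N * L) = θ t - φ t := by
    intro N
    induction N with
    | zero => intro t; simp
    | succ N ih =>
      intro t
      rw [show t + ((N + 1 : ℕ) : ℝ) * L = t + N * L + L by push_cast; ring, hper, ih]
  obtain ⟨n, hn⟩ : ∃ n : ℤ, n = ⌈(θ 0 - φ 0) / π⌉ := ⟨_, rfl⟩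
  have h2 : θ 0 - φ 0 ≤ n * π := by
    rw [hn, ← div_le_iff₀ hπ]; exact Int.le_ceil _
  have h3 : ((n - 1 : ℤ) : ℝ) * π < θ 0 - φ 0 := by
    have := Int.ceil_lt_add_one ((θ 0 - φ 0) / π)
    rw [← hn] at this
    have h4 := mul_lt_mul_of_pos_right this hπ
    rw [add_mul, div_mul_cancel₀ _ hπ.ne', one_mul] at h4
    push_cast; linarith
  have hup : ∀ t, θ t - φ t < n * π := by
    intro t
    obtain ⟨N, hN⟩ := exists_nat_gt (-t / L)
    rw [div_lt_iff₀ T.pos] at hN
    rw [← hperN N t]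
    exact down T hl hθ n (by linarith) h2
  have hlow : ∀ t, ((n - 1 : ℤ) : ℝ) * π < θ t - φ t := by
    intro t
    by_contra hcon
    push Not at hcon
    obtain ⟨N, hN⟩ := exists_nat_gt (t / L)
    rw [div_lt_iff₀ T.pos] at hN
    have := down T hl hθ (n - 1) (show t < 0 + N * L by linarith) hcon
    rw [hperN N 0] at this
    linarith
  rcases Int.even_or_odd' n with ⟨j, hj | hj⟩
  · -- `n` even: the angle would be strictly decreasing
    exfalso
    have hs : ∀ t, sin (θ t - φ t) < 0 := by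
      intro t
      have h4 := hup t
      have h5 := hlow t
      rw [hj] at h4 h5
      push_cast at h4 h5
      have e : θ t - φ t = (θ t - φ t - j * (2 * π)) + j * (2 * π) := by ring
      rw [e, Real.sin_add_int_mul_two_pi]
      exact Real.sin_neg_of_neg_of_neg_pi_lt (by linarith) (by linarith)
    have hanti : StrictAnti fun t => θ t - φ t := by
      apply strictAnti_of_deriv_neg
      intro t
      have hd : HasDerivAt (fun t => θ t - φ t) (v t * sin (θ t - φ t) / l - κ t) t :=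
        (hθ t).sub (T.dφ t)
      rw [hd.deriv]
      have h4 : v t * sin (θ t - φ t) / l < 0 :=
        div_neg_of_neg_of_pos (mul_neg_of_pos_of_neg (T.vpos t) (hs t)) hl
      linarith [T.κ0 t]
    have h4 := hanti (show (0:ℝ) < 0 + L by linarith [T.pos])
    simp only [hper] at h4
    linarith
  · refine ⟨j, fun t => ⟨?_, ?_⟩⟩
    · have := hlow t
      rw [hj, add_sub_cancel_right] at this
      exact this
    · have := hup t
      rw [hj] at this
      exact this

/-- If the bicycle of length `l` has a closed track, then for each smaller length some solution turns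
by more than `2π` (and less than `3π`) and some solution by less than `2π` (and more than `0`). -/
lemma two_sols (T : Track X Y v φ κ L) {l : ℝ} (hl : 0 < l) {θ : ℝ → ℝ} (hθ : Sol v φ l θ)
    {ρ : ℤ} (h : θ L = θ 0 + 2 * π * ρ) {l₁ : ℝ} (hl₁ : 0 < l₁) (hlt : l₁ < l) :
    (∃ θ₁, Sol v φ l₁ θ₁ ∧ 2 * π < θ₁ L - θ₁ 0 ∧ θ₁ L - θ₁ 0 < 3 * π) ∧
    ∃ θ₂, Sol v φ l₁ θ₂ ∧ 0 < θ₂ L - θ₂ 0 ∧ θ₂ L - θ₂ 0 < 2 * π := by
  have hπ := Real.pi_pos
  have hρ := rho_eq_one T hl hθ h
  have hLpos := T.pos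
  have hφL := T.φper 0
  rw [zero_add] at hφL
  obtain ⟨j, hj⟩ := closed_pos T hl hθ h
  rw [hρ] at h
  push_cast at h hj
  have hs : ∀ t, 0 < sin (θ t - φ t) := by
    intro t
    have e : θ t - φ t = (θ t - φ t - j * (2 * π)) + j * (2 * π) := by ring
    rw [e, Real.sin_add_int_mul_two_pi]
    exact Real.sin_pos_of_pos_of_lt_pi (by linarith [(hj t).1]) (by linarith [(hj t).2])
  obtain ⟨θ₁, h10, h1⟩ := exists_sol T hl₁ (θ 0)
  obtain ⟨θ₂, h20, h2⟩ := exists_sol T hl₁ (φ 0 + 2 * j * π)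
  have hsub : ∀ t, v t * sin (θ t - φ t) / l < v t * sin (θ t - φ t) / l₁ := fun t =>
    div_lt_div_of_pos_left (mul_pos (T.vpos t) (hs t)) hl₁ hlt
  have k1 : θ L < θ₁ L := by
    have hle := compare T hl₁ hθ (fun t => (hsub t).le) h1 h10.symm.le hLpos.le
    refine lt_of_le_of_ne hle fun heq => ?_
    -- then the two solutions agree on `[0, L]`, impossible
    obtain ⟨B, hB0, hB⟩ := bdd_of_per T.pos T.vcont T.vper
    have hz := zero_of_zero (u := fun t => θ t - θ₁ t)
      (u' := fun t => v t * sin (θ t - φ t) / l - v t * sin (θ₁ t - φ t) / l₁) (c := B / l₁)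
      (fun t => (hθ t).sub (h1 t)) (fun t => by
        have h2 : v t * sin (θ t - φ t) / l₁ - v t * sin (θ₁ t - φ t) / l₁ ≤
            B / l₁ * |θ t - θ₁ t| := by
          have e : v t * sin (θ t - φ t) / l₁ - v t * sin (θ₁ t - φ t) / l₁ =
            v t * (sin (θ t - φ t) - sin (θ₁ t - φ t)) / l₁ := by ring
          have h3 := Real.abs_sin_sub_sin_le (θ t - φ t) (θ₁ t - φ t)
          rw [sub_sub_sub_cancel_right] at h3
          rw [e, div_mul_eq_mul_div]
          apply div_le_div_of_nonneg_right _ hl₁.le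
          calc v t * (sin (θ t - φ t) - sin (θ₁ t - φ t)) ≤
                |v t * (sin (θ t - φ t) - sin (θ₁ t - φ t))| := le_abs_self _
            _ ≤ B * |θ t - θ₁ t| := by
                rw [abs_mul]; exact mul_le_mul (hB t) h3 (abs_nonneg _) hB0.le
        linarith [hsub t]) (a := 0) (b := L) (by linarith) (by linarith)
    have hd : HasDerivAt (fun t => θ t - θ₁ t)
        (v (L / 2) * sin (θ (L / 2) - φ (L / 2)) / l -
          v (L / 2) * sin (θ₁ (L / 2) - φ (L / 2)) / l₁) (L / 2) := (hθ _).sub (h1 _)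
    have he : (fun t => θ t - θ₁ t) =ᶠ[𝓝 (L / 2)] fun _ => 0 := by
      filter_upwards [Icc_mem_nhds (show 0 < L / 2 by linarith) (show L / 2 < L by linarith)]
        with t ht
      exact hz t ht
    have h3 := hd.unique ((hasDerivAt_const (L / 2) (0:ℝ)).congr_of_eventuallyEq he)
    have h4 : θ (L / 2) = θ₁ (L / 2) := by
      have := hz (L / 2) ⟨by linarith, by linarith⟩
      linarith
    rw [← h4] at h3
    linarith [hsub (L / 2)]
  have k2 : θ₁ L - φ L < (2 * j + 1 : ℤ) * π := by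
    apply down T hl₁ h1 (2 * j + 1) hLpos
    rw [h10]; push_cast; exact (hj 0).2.le
  push_cast at k2
  have k3 : θ₂ L - φ L < (2 * j : ℤ) * π := by
    apply down T hl₁ h2 (2 * j) hLpos
    rw [h20]; push_cast; linarith
  push_cast at k3
  have k4 : θ₁ L - 2 * π ≤ θ₂ L := by
    have h5 : Sol v φ l₁ fun t => θ₁ t - 2 * π := fun t => by
      refine ((h1 t).sub_const (2 * π)).congr_deriv ?_
      rw [show θ₁ t - 2 * π - φ t = θ₁ t - φ t - 2 * π by ring, Real.sin_sub_two_pi]
    exact compare T hl₁ h5 (fun t => le_rfl) h2 (by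
      rw [h10, h20]; linarith [(hj 0).2]) hLpos.le
  refine ⟨⟨θ₁, h1, by rw [h10]; linarith, by rw [h10]; linarith [(hj 0).1]⟩,
    ⟨θ₂, h2, ?_, by rw [h20]; linarith⟩⟩
  rw [h20]
  linarith [(hj 0).1]

/-- For small lengths there is a solution that turns by at least `2π` and less than `3π`, and one
that turns by less than `2π`. -/
lemma small (T : Track X Y v φ κ L) : ∃ l, 0 < l ∧ ∃ θ₁ θ₂, Sol v φ l θ₁ ∧ Sol v φ l θ₂ ∧
    2 * π ≤ θ₁ L - θ₁ 0 ∧ θ₁ L - θ₁ 0 < 3 * π ∧ 0 < θ₂ L - θ₂ 0 ∧ θ₂ L - θ₂ 0 < 2 * π := by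
  have hπ := Real.pi_pos
  have hLpos := T.pos
  have hφL := T.φper 0
  rw [zero_add] at hφL
  obtain ⟨K, hK0, hK⟩ := bdd_of_per T.pos T.κcont T.κper
  obtain ⟨V, hV0, hV⟩ := bdd_of_per T.pos (T.vcont.inv₀ fun t => (T.vpos t).ne')
    (fun t => by simp only [Pi.inv_apply]; rw [T.vper])
  obtain ⟨l, hldef⟩ : ∃ l, l = 1 / (K * V) := ⟨_, rfl⟩
  have hl : 0 < l := by rw [hldef]; positivity
  have hlv : ∀ t, κ t ≤ v t / l := by
    intro t
    have h1 := hK t
    have h2 := hV t
    have h3 := T.vpos t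
    simp only [Pi.inv_apply] at h2
    rw [abs_of_pos (inv_pos.2 h3)] at h2
    rw [abs_of_nonneg (T.κ0 t)] at h1
    have h4 : 1 ≤ V * v t := by
      have := mul_le_mul_of_nonneg_right h2 h3.le
      rwa [inv_mul_cancel₀ h3.ne'] at this
    rw [hldef, div_div_eq_mul_div, div_one]
    nlinarith
  obtain ⟨θ₁, h10, h1⟩ := exists_sol T hl (φ 0 + π / 2)
  obtain ⟨θ₂, h20, h2⟩ := exists_sol T hl (φ 0)
  have k1 : φ L + π / 2 ≤ θ₁ L := by
    refine compare T hl (θ := fun t => φ t + π / 2) (fun t => (T.dφ t).add_const _) (fun t => ?_)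
      h1 (by rw [h10]) hLpos.le
    rw [add_sub_cancel_left, Real.sin_pi_div_two, mul_one]
    exact hlv t
  have k2 : θ₁ L - φ L < (1 : ℤ) * π := by
    apply down T hl h1 1 hLpos
    rw [h10]; push_cast; linarith
  have k3 : θ₂ L - φ L < (0 : ℤ) * π := by
    apply down T hl h2 0 hLpos
    rw [h20]; push_cast; linarith
  have k4 : θ₁ L - 2 * π ≤ θ₂ L := by
    have h5 : Sol v φ l fun t => θ₁ t - 2 * π := fun t => by
      refine ((h1 t).sub_const (2 * π)).congr_deriv ?_
      rw [show θ₁ t - 2 * π - φ t = θ₁ t - φ t - 2 * π by ring, Real.sin_sub_two_pi]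
    exact compare T hl h5 (fun t => le_rfl) h2 (by
      rw [h10, h20]; linarith) hLpos.le
  push_cast at k2 k3
  refine ⟨l, hl, θ₁, θ₂, h1, h2, ?_, ?_, ?_, ?_⟩
  · rw [h10]; linarith
  · rw [h10]; linarith
  · rw [h20]; linarith
  · rw [h20]; linarith

/-- Closed tracks exist only for bounded lengths. -/
lemma bounded (T : Track X Y v φ κ L) : ∃ C, ∀ l, 0 < l → ∀ θ, Sol v φ l θ → ∀ ρ : ℤ,
    θ L = θ 0 + 2 * π * ρ → l ≤ C := by
  have hπ := Real.pi_pos
  obtain ⟨B, hB0, hB⟩ := bdd_of_per T.pos T.vcont T.vper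
  refine ⟨B * L / (2 * π), fun l hl θ hθ ρ h => ?_⟩
  have hρ := rho_eq_one T hl hθ h
  have h1 := Convex.norm_image_sub_le_of_norm_hasDerivWithin_le (f := θ) (s := univ) (C := B / l)
    (x := 0) (y := L) (fun t _ => (hθ t).hasDerivWithinAt) (fun t _ => by
      rw [Real.norm_eq_abs, abs_div, abs_mul, abs_of_pos hl]
      apply div_le_div_of_nonneg_right _ hl.le
      calc |v t| * |sin (θ t - φ t)| ≤ B * 1 :=
            mul_le_mul (hB t) (Real.abs_sin_le_one _) (abs_nonneg _) hB0.le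
        _ = B := mul_one _) convex_univ trivial trivial
  rw [h, hρ, Real.norm_eq_abs, Real.norm_eq_abs, sub_zero, abs_of_pos T.pos] at h1
  have h2 : |θ 0 + 2 * π * (1 : ℤ) - θ 0| = 2 * π := by
    push_cast; rw [show θ 0 + 2 * π * 1 - θ 0 = 2 * π by ring]; exact abs_of_pos (by positivity)
  rw [h2, div_mul_eq_mul_div, le_div_iff₀ hl] at h1
  rw [le_div_iff₀ (by positivity)]
  linarith

end Pool.Agent.R762.Bike
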