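import Mathlib
import Pool.Agent.R762.Bike4

/-! The bicycle monodromy as an element of `SL(2, ℝ)`. -/

set_option autoImplicit false

namespace Pool.Agent.R762.Bike

open Real Set Filter Topology
open scoped ContDiff

variable {X Y v φ κ : ℝ → ℝ} {L : ℝ}

/-- the linear field -/
noncomputable def lin (α β : ℝ → ℝ) (t : ℝ) (z : ℝ × ℝ) : ℝ × ℝ :=
  (α t * z.1 + β t * z.2, β t * z.1 - α t * z.2)

lemma lin_lip {α β : ℝ → ℝ} {C : ℝ} (hC : 0 ≤ C) (hα : ∀ t, |α t| ≤ C) (hβ : ∀ t, |β t| ≤ C)
    (t : ℝ) : LipschitzWith (Real.toNNReal (2 * C)) (lin α β t) := by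
  apply LipschitzWith.of_dist_le_mul
  intro z w
  rw [Real.coe_toNNReal _ (by positivity)]
  have h1 : |z.1 - w.1| ≤ dist z w := by rw [← Real.dist_eq]; exact le_max_left _ _
  have h2 : |z.2 - w.2| ≤ dist z w := by rw [← Real.dist_eq]; exact le_max_right _ _
  have key : ∀ a b x y D : ℝ, |a| ≤ C → |b| ≤ C → |x| ≤ D → |y| ≤ D → |a * x + b * y| ≤ 2 * C * D := by
    intro a b x y D ha hb hx hy
    calc |a * x + b * y| ≤ |a * x| + |b * y| := abs_add_le _ _
      _ = |a| * |x| + |b| * |y| := by rw [abs_mul, abs_mul]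
      _ ≤ C * D + C * D := add_le_add (mul_le_mul ha hx (abs_nonneg _) hC)
          (mul_le_mul hb hy (abs_nonneg _) hC)
      _ = 2 * C * D := by ring
  apply max_le
  · rw [Real.dist_eq]
    have := key (α t) (β t) _ _ _ (hα t) (hβ t) h1 h2
    have e : (lin α β t z).1 - (lin α β t w).1 = α t * (z.1 - w.1) + β t * (z.2 - w.2) := by
      show α t * z.1 + β t * z.2 - (α t * w.1 + β t * w.2) = _
      ring
    rw [e]; exact this
  · rw [Real.dist_eq]
    have := key (β t) (-α t) _ _ _ (hβ t) (by rw [abs_neg]; exact hα t) h1 h2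
    have e : (lin α β t z).2 - (lin α β t w).2 = β t * (z.1 - w.1) + -α t * (z.2 - w.2) := by
      show β t * z.1 - α t * z.2 - (β t * w.1 - α t * w.2) = _
      ring
    rw [e]; exact this

lemma lin_unique {α β : ℝ → ℝ} {C : ℝ} (hC : 0 ≤ C) (hα : ∀ t, |α t| ≤ C) (hβ : ∀ t, |β t| ≤ C)
    {p q : ℝ → ℝ × ℝ} (hp : ∀ t, HasDerivAt p (lin α β t (p t)) t)
    (hq : ∀ t, HasDerivAt q (lin α β t (q t)) t) (h0 : p 0 = q 0) : p = q :=
  ODE_solution_unique_univ (v := lin α β) (K := Real.toNNReal (2 * C)) (s := fun _ => univ)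
    (t₀ := 0) (fun t => (lin_lip hC hα hβ t).lipschitzOnWith) (fun t => ⟨hp t, trivial⟩)
    (fun t => ⟨hq t, trivial⟩) h0

/-- A matrix of determinant one describes the monodromy. -/
lemma exists_matrix {α β : ℝ → ℝ} {C : ℝ} (hC : 0 ≤ C) (cα : Continuous α) (cβ : Continuous β)
    (hα : ∀ t, |α t| ≤ C) (hβ : ∀ t, |β t| ≤ C) (L : ℝ) :
    ∃ a b c d : ℝ, a * d - b * c = 1 ∧ ∀ θ : ℝ → ℝ,
      (∀ t, HasDerivAt θ (2 * (β t * cos (θ t) - α t * sin (θ t))) t) → ∃ r, 0 < r ∧
        a * cos (θ 0 / 2) + b * sin (θ 0 / 2) = r * cos (θ L / 2) ∧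
        c * cos (θ 0 / 2) + d * sin (θ 0 / 2) = r * sin (θ L / 2) := by
  have hcont : Continuous (Function.uncurry (lin α β)) := by
    unfold Function.uncurry lin; fun_prop
  obtain ⟨p, hp0, hp⟩ := Haraux.global_ode (lin α β) _ (lin_lip hC hα hβ) hcont (1, 0)
  obtain ⟨q, hq0, hq⟩ := Haraux.global_ode (lin α β) _ (lin_lip hC hα hβ) hcont (0, 1)
  have p1 : ∀ t, HasDerivAt (fun t => (p t).1) (α t * (p t).1 + β t * (p t).2) t := fun t =>
    (hp t).fst
  have p2 : ∀ t, HasDerivAt (fun t => (p t).2) (β t * (p t).1 - α t * (p t).2) t := fun t =>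
    (hp t).snd
  have q1 : ∀ t, HasDerivAt (fun t => (q t).1) (α t * (q t).1 + β t * (q t).2) t := fun t =>
    (hq t).fst
  have q2 : ∀ t, HasDerivAt (fun t => (q t).2) (β t * (q t).1 - α t * (q t).2) t := fun t =>
    (hq t).snd
  have hdet : ∀ t, HasDerivAt (fun t => (p t).1 * (q t).2 - (q t).1 * (p t).2) 0 t := fun t =>
    (((p1 t).mul (q2 t)).sub ((q1 t).mul (p2 t))).congr_deriv (by ring)
  refine ⟨(p L).1, (q L).1, (p L).2, (q L).2, ?_, fun θ hθ => ?_⟩
  · have := is_const_of_deriv_eq_zero (fun t => (hdet t).differentiableAt)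
      (fun t => (hdet t).deriv) L 0
    rw [hp0, hq0] at this
    simpa using this
  · have cθ : Continuous θ := continuous_iff_continuousAt.2 fun t => (hθ t).continuousAt
    obtain ⟨r, hr⟩ : ∃ r : ℝ → ℝ, r = fun t => exp (∫ s in (0:ℝ)..t,
      (α s * cos (θ s) + β s * sin (θ s))) := ⟨_, rfl⟩
    have cg : Continuous fun s => α s * cos (θ s) + β s * sin (θ s) := by fun_prop
    have dr : ∀ t, HasDerivAt r (r t * (α t * cos (θ t) + β t * sin (θ t))) t := by
      intro t; rw [hr]
      exact (intervalIntegral.integral_hasDerivAt_right (cg.intervalIntegrable _ _)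
        cg.aestronglyMeasurable.stronglyMeasurableAtFilter cg.continuousAt).exp
    have hhalf : ∀ t, HasDerivAt (fun t => θ t / 2) (β t * cos (θ t) - α t * sin (θ t)) t := fun t =>
      ((hθ t).div_const 2).congr_deriv (by ring)
    have dz : ∀ t, HasDerivAt (fun t => (r t * cos (θ t / 2), r t * sin (θ t / 2)))
        (lin α β t (r t * cos (θ t / 2), r t * sin (θ t / 2))) t := by
      intro t
      have e1 : cos (θ t) = 2 * cos (θ t / 2) ^ 2 - 1 := by
        rw [← Real.cos_two_mul]; congr 1; ring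
      have e2 : sin (θ t) = 2 * sin (θ t / 2) * cos (θ t / 2) := by
        rw [← Real.sin_two_mul]; congr 1; ring
      have e3 := sin_sq_add_cos_sq (θ t / 2)
      apply HasDerivAt.prodMk
      · refine ((dr t).mul (hhalf t).cos).congr_deriv ?_
        simp only
        rw [e1, e2]
        linear_combination (2 * r t * α t * cos (θ t / 2) +
          2 * r t * β t * sin (θ t / 2) * 0) * e3
      · refine ((dr t).mul (hhalf t).sin).congr_deriv ?_
        simp only
        rw [e1, e2]
        linear_combination (2 * r t * β t * cos (θ t / 2)) * e3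
    have dw : ∀ t, HasDerivAt (fun t => cos (θ 0 / 2) • p t + sin (θ 0 / 2) • q t)
        (lin α β t (cos (θ 0 / 2) • p t + sin (θ 0 / 2) • q t)) t := by
      intro t
      refine (((hp t).const_smul (cos (θ 0 / 2))).add
        ((hq t).const_smul (sin (θ 0 / 2)))).congr_deriv ?_
      apply Prod.ext
      · simp only [lin, Prod.fst_add, Prod.smul_fst, Prod.snd_add, Prod.smul_snd, smul_eq_mul]
        ring
      · simp only [lin, Prod.fst_add, Prod.smul_fst, Prod.snd_add, Prod.smul_snd, smul_eq_mul]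
        ring
    have hr0 : r 0 = 1 := by rw [hr]; simp
    have heq := lin_unique hC hα hβ dw dz (by
      rw [hp0, hq0, hr0]; apply Prod.ext <;> simp)
    have hL := congrFun heq L
    have h1 := congrArg Prod.fst hL
    have h2 := congrArg Prod.snd hL
    simp only [Prod.fst_add, Prod.smul_fst, Prod.snd_add, Prod.smul_snd, smul_eq_mul] at h1 h2
    refine ⟨r L, by rw [hr]; exact exp_pos _, ?_, ?_⟩
    · linarith
    · linarith

/-- if the quadratic form takes both signs, the trace is larger than two -/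
lemma trace_gt {a b c d : ℝ} (hdet : a * d - b * c = 1) {x y x' y' : ℝ}
    (h1 : 0 < x * (c * x + d * y) - y * (a * x + b * y))
    (h2 : x' * (c * x' + d * y') - y' * (a * x' + b * y') < 0) : 2 < |a + d| := by
  have hdisc : 0 < (d - a) ^ 2 + 4 * b * c := by
    by_contra hcon
    push Not at hcon
    have e : ∀ x y : ℝ, 4 * c * (x * (c * x + d * y) - y * (a * x + b * y)) =
        (2 * c * x + (d - a) * y) ^ 2 - ((d - a) ^ 2 + 4 * b * c) * y ^ 2 := fun x y => by ring
    have n1 := e x y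
    have n2 := e x' y'
    rcases lt_trichotomy c 0 with hc | hc | hc
    · have : 4 * c * (x * (c * x + d * y) - y * (a * x + b * y)) < 0 :=
        mul_neg_of_neg_of_pos (by linarith) h1
      nlinarith [sq_nonneg (2 * c * x + (d - a) * y), mul_nonneg (sub_nonneg.2 hcon) (sq_nonneg y)]
    · rw [hc] at hcon h1 h2
      have hda : d - a = 0 := by nlinarith [sq_nonneg (d - a)]
      have hda' : d = a := by linarith
      rw [hda'] at h1 h2
      have g1 : 0 < -b * y ^ 2 := by nlinarith
      have g2 : -b * y' ^ 2 < 0 := by nlinarith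
      have g3 : 0 < -b := by
        by_contra hh
        push Not at hh
        nlinarith [sq_nonneg y]
      nlinarith [sq_nonneg y']
    · have : 4 * c * (x' * (c * x' + d * y') - y' * (a * x' + b * y')) < 0 :=
        mul_neg_of_pos_of_neg (by linarith) h2
      nlinarith [sq_nonneg (2 * c * x' + (d - a) * y'), mul_nonneg (sub_nonneg.2 hcon) (sq_nonneg y')]
  have h3 : 2 ^ 2 < (a + d) ^ 2 := by nlinarith
  exact lt_of_pow_lt_pow_left₀ 2 (abs_nonneg _) (by rwa [sq_abs])

/-- if the trace is at least two in absolute value, there is a real eigendirection -/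
lemma exists_eigen {a b c d : ℝ} (hdet : a * d - b * c = 1) (h : 2 ≤ |a + d|) :
    ∃ x : ℝ, cos x * (c * cos x + d * sin x) - sin x * (a * cos x + b * sin x) = 0 := by
  have hdisc : 0 ≤ (d - a) ^ 2 + 4 * b * c := by
    have h1 : 2 ^ 2 ≤ |a + d| ^ 2 := pow_le_pow_left₀ (by norm_num) h 2
    rw [sq_abs] at h1
    nlinarith
  -- a nonzero root of the quadratic form
  obtain ⟨p, q, hpq, hroot⟩ : ∃ p q : ℝ, (p ≠ 0 ∨ q ≠ 0) ∧
      p * (c * p + d * q) - q * (a * p + b * q) = 0 := by
    by_cases hc : c = 0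
    · exact ⟨1, 0, Or.inl one_ne_zero, by rw [hc]; ring⟩
    · obtain ⟨s, hs⟩ : ∃ s, s = √((d - a) ^ 2 + 4 * b * c) := ⟨_, rfl⟩
      have hs2 : s ^ 2 = (d - a) ^ 2 + 4 * b * c := by rw [hs]; exact Real.sq_sqrt hdisc
      refine ⟨s - (d - a), 2 * c, Or.inr (by positivity), ?_⟩
      linear_combination c * hs2
  obtain ⟨z, hz⟩ : ∃ z : ℂ, z = ⟨p, q⟩ := ⟨_, rfl⟩
  have hz0 : z ≠ 0 := by
    intro h0
    rw [hz, Complex.ext_iff] at h0
    simp at h0
    rcases hpq with h1 | h1
    · exact h1 h0.1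
    · exact h1 h0.2
  have hn : 0 < ‖z‖ := norm_pos_iff.2 hz0
  refine ⟨Complex.arg z, ?_⟩
  have e1 : cos (Complex.arg z) = p / ‖z‖ := by rw [Complex.cos_arg hz0, hz]
  have e2 : sin (Complex.arg z) = q / ‖z‖ := by rw [Complex.sin_arg, hz]
  rw [e1, e2]
  have hne := hn.ne'
  field_simp
  linarith

/-- a real eigenvector gives a trace of absolute value at least two -/
lemma trace_ge {a b c d x y r : ℝ} (hdet : a * d - b * c = 1) (hxy : x ≠ 0 ∨ y ≠ 0)
    (h1 : a * x + b * y = r * x) (h2 : c * x + d * y = r * y) : 2 ≤ |a + d| := by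
  have h3 : r ^ 2 - (a + d) * r + 1 = 0 := by
    rcases hxy with h | h
    · have : (r ^ 2 - (a + d) * r + 1) * x = 0 := by
        linear_combination (-r + d) * h1 + (-b) * h2 - x * hdet
      exact (mul_eq_zero.1 this).resolve_right h
    · have : (r ^ 2 - (a + d) * r + 1) * y = 0 := by
        linear_combination (-r + a) * h2 + (-c) * h1 - y * hdet
      exact (mul_eq_zero.1 this).resolve_right h
  have h4 : 2 ^ 2 ≤ (a + d) ^ 2 := by nlinarith [sq_nonneg (2 * r - (a + d))]
  by_contra hcon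
  push Not at hcon
  have h5 := pow_lt_pow_left₀ hcon (abs_nonneg _) two_ne_zero
  rw [sq_abs] at h5
  linarith

end Pool.Agent.R762.Bike
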