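import Mathlib
import Pool.Agent.R762.Bike5

/-! The transition from hyperbolic to elliptic monodromy over convex front tracks. -/

set_option autoImplicit false

namespace Pool.Agent.R762.Bike

open Real Set Filter Topology
open scoped ContDiff

/-- the bicycle equation, `θ` being the direction from the rear to the front end -/
def SolB (X Y : ℝ → ℝ) (l : ℝ) (θ : ℝ → ℝ) : Prop :=
  ∀ t, HasDerivAt θ ((deriv X t * (-sin (θ t)) + deriv Y t * cos (θ t)) / l) t

/-- the matrix with rows `(a, b)` and `(c, d)` describes the monodromy -/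
def Mon (X Y : ℝ → ℝ) (T l a b c d : ℝ) : Prop :=
  a * d - b * c = 1 ∧ ∀ θ, SolB X Y l θ → ∃ r, 0 < r ∧
    a * cos (θ 0 / 2) + b * sin (θ 0 / 2) = r * cos (θ T / 2) ∧
    c * cos (θ 0 / 2) + d * sin (θ 0 / 2) = r * sin (θ T / 2)

variable {X Y v φ κ : ℝ → ℝ} {L : ℝ}

lemma solB_iff (T : Track X Y v φ κ L) {l : ℝ} {θ : ℝ → ℝ} :
    SolB X Y l θ ↔ Sol v φ l fun t => θ t + π := by
  have e : ∀ t, (deriv X t * (-sin (θ t)) + deriv Y t * cos (θ t)) / l =
      v t * sin (θ t + π - φ t) / l := by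
    intro t
    rw [(T.dX t).deriv, (T.dY t).deriv, show θ t + π - φ t = (θ t - φ t) + π by ring,
      Real.sin_add_pi, Real.sin_sub]
    ring
  constructor
  · intro h t
    have := (h t).add_const π
    rwa [e] at this
  · intro h t
    have := (h t).sub_const π
    rw [e]
    simpa using this

lemma solB_of (T : Track X Y v φ κ L) {l : ℝ} {θ : ℝ → ℝ} (h : Sol v φ l θ) :
    SolB X Y l fun t => θ t - π := by
  rw [solB_iff T]
  simpa using h

lemma exists_mon (T : Track X Y v φ κ L) {l : ℝ} (hl : 0 < l) :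
    ∃ a b c d, Mon X Y L l a b c d := by
  obtain ⟨B, hB0, hB⟩ := bdd_of_per T.pos T.vcont T.vper
  have cφ : Continuous φ := continuous_iff_continuousAt.2 fun t => (T.dφ t).continuousAt
  have cv := T.vcont
  obtain ⟨a, b, c, d, h1, h2⟩ := exists_matrix (α := fun t => v t * cos (φ t) / (2 * l))
    (β := fun t => v t * sin (φ t) / (2 * l)) (C := B / (2 * l)) (by positivity)
    (by fun_prop) (by fun_prop)
    (fun t => by
      rw [abs_div, abs_mul, abs_of_pos (show 0 < 2 * l by positivity)]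
      apply div_le_div_of_nonneg_right _ (by positivity)
      calc |v t| * |cos (φ t)| ≤ B * 1 :=
            mul_le_mul (hB t) (Real.abs_cos_le_one _) (abs_nonneg _) hB0.le
        _ = B := mul_one _)
    (fun t => by
      rw [abs_div, abs_mul, abs_of_pos (show 0 < 2 * l by positivity)]
      apply div_le_div_of_nonneg_right _ (by positivity)
      calc |v t| * |sin (φ t)| ≤ B * 1 :=
            mul_le_mul (hB t) (Real.abs_sin_le_one _) (abs_nonneg _) hB0.le
        _ = B := mul_one _) L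
  refine ⟨a, b, c, d, h1, fun θ hθ => h2 θ fun t => ?_⟩
  refine (hθ t).congr_deriv ?_
  rw [(T.dX t).deriv, (T.dY t).deriv]
  field_simp
  ring

/-- the quadratic form at a solution -/
lemma form {T l a b c d : ℝ} (h : Mon X Y T l a b c d) {θ : ℝ → ℝ}
    (hθ : SolB X Y l θ) : ∃ r, 0 < r ∧
    cos (θ 0 / 2) * (c * cos (θ 0 / 2) + d * sin (θ 0 / 2)) -
      sin (θ 0 / 2) * (a * cos (θ 0 / 2) + b * sin (θ 0 / 2)) = r * sin ((θ T - θ 0) / 2) := by
  obtain ⟨r, hr, h1, h2⟩ := h.2 θ hθ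
  refine ⟨r, hr, ?_⟩
  rw [h1, h2, sub_div, Real.sin_sub]
  ring

/-- there is a closed track -/
def Closed (v φ : ℝ → ℝ) (L l : ℝ) : Prop :=
  ∃ θ, Sol v φ l θ ∧ ∃ ρ : ℤ, θ L = θ 0 + 2 * π * ρ

lemma closed_of_trace (T : Track X Y v φ κ L) {l : ℝ} (hl : 0 < l) {a b c d : ℝ}
    (h : Mon X Y L l a b c d) (ht : 2 ≤ |a + d|) : Closed v φ L l := by
  obtain ⟨x, hx⟩ := exists_eigen h.1 ht
  obtain ⟨θ', h0, hθ'⟩ := exists_sol T hl (2 * x + π)
  have hB := solB_of T hθ'
  obtain ⟨r, hr, he⟩ := form h hB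
  simp only [h0, add_sub_cancel_right, mul_div_cancel_left₀ x (two_ne_zero' ℝ)] at he
  rw [hx] at he
  have h1 : sin ((θ' L - π - 2 * x) / 2) = 0 := by
    rcases mul_eq_zero.1 he.symm with h2 | h2
    · exact absurd h2 hr.ne'
    · exact h2
  obtain ⟨n, hn⟩ := Real.sin_eq_zero_iff.1 h1
  exact ⟨θ', hθ', n, by rw [h0]; linarith⟩

lemma trace_of_closed (T : Track X Y v φ κ L) {l : ℝ} {a b c d : ℝ}
    (h : Mon X Y L l a b c d) (hc : Closed v φ L l) : 2 ≤ |a + d| := by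
  obtain ⟨θ, hθ, ρ, hρ⟩ := hc
  have hB := solB_of T hθ
  obtain ⟨r, hr, h1, h2⟩ := h.2 _ hB
  have e : (θ L - π) / 2 = (θ 0 - π) / 2 + ρ * π := by rw [hρ]; ring
  simp only [e, Real.cos_add_int_mul_pi, Real.sin_add_int_mul_pi] at h1 h2
  refine trace_ge (x := cos ((θ 0 - π) / 2)) (y := sin ((θ 0 - π) / 2)) (r := r * (-1) ^ ρ)
    h.1 ?_ (by rw [h1]; ring) (by rw [h2]; ring)
  by_contra hcon
  push Not at hcon
  have := sin_sq_add_cos_sq ((θ 0 - π) / 2)
  rw [hcon.1, hcon.2] at this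
  norm_num at this

/-- **The transition.** -/
theorem transition (T : Track X Y v φ κ L) : ∃ l₀, 0 < l₀ ∧
    (∀ l, 0 < l → l < l₀ → ∃ a b c d, Mon X Y L l a b c d ∧ 2 < |a + d|) ∧
    ∀ l, l₀ < l → ∃ a b c d, Mon X Y L l a b c d ∧ |a + d| < 2 := by
  have hπ := Real.pi_pos
  obtain ⟨N, hN⟩ : ∃ N : Set ℝ, N = {l | 0 < l ∧ Closed v φ L l} := ⟨_, rfl⟩
  have hne : N.Nonempty := by
    obtain ⟨l, hl, θ₁, θ₂, h1, h2, h3, h4, h5, h6⟩ := small T
    refine ⟨l, ?_⟩
    rw [hN]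
    refine ⟨hl, ?_⟩
    rcases h3.lt_or_eq with h7 | h7
    · obtain ⟨a, b, c, d, hM⟩ := exists_mon T hl
      apply closed_of_trace T hl hM
      obtain ⟨r, hr, he⟩ := form hM (solB_of T h1)
      obtain ⟨r', hr', he'⟩ := form hM (solB_of T h2)
      simp only [sub_sub_sub_cancel_right] at he he'
      refine (trace_gt hM.1 (x := cos ((θ₂ 0 - π) / 2)) (y := sin ((θ₂ 0 - π) / 2))
        (x' := cos ((θ₁ 0 - π) / 2)) (y' := sin ((θ₁ 0 - π) / 2)) ?_ ?_).le
      · rw [he']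
        exact mul_pos hr' (Real.sin_pos_of_pos_of_lt_pi (by linarith) (by linarith))
      · rw [he, ← Real.sin_sub_two_pi]
        exact mul_neg_of_pos_of_neg hr
          (Real.sin_neg_of_neg_of_neg_pi_lt (by linarith) (by linarith))
    · exact ⟨θ₁, h1, 1, by push_cast; linarith⟩
  have hbdd : BddAbove N := by
    obtain ⟨C, hC⟩ := bounded T
    refine ⟨C, ?_⟩
    intro l hl
    rw [hN] at hl
    obtain ⟨hl0, θ, hθ, ρ, hρ⟩ := hl
    exact hC l hl0 θ hθ ρ hρ
  refine ⟨sSup N, ?_, fun l hl hlt => ?_, fun l hlt => ?_⟩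
  · obtain ⟨l, hl⟩ := hne
    have h1 := le_csSup hbdd hl
    rw [hN] at hl
    exact hl.1.trans_le h1
  · obtain ⟨l', hl', hlt'⟩ := exists_lt_of_lt_csSup hne hlt
    rw [hN] at hl'
    obtain ⟨hl0, θ, hθ, ρ, hρ⟩ := hl'
    obtain ⟨⟨θ₁, h1, h2, h3⟩, θ₂, h4, h5, h6⟩ := two_sols T hl0 hθ hρ hl hlt'
    obtain ⟨a, b, c, d, hM⟩ := exists_mon T hl
    refine ⟨a, b, c, d, hM, ?_⟩
    obtain ⟨r, hr, he⟩ := form hM (solB_of T h1)
    obtain ⟨r', hr', he'⟩ := form hM (solB_of T h4)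
    simp only [sub_sub_sub_cancel_right] at he he'
    refine trace_gt hM.1 (x := cos ((θ₂ 0 - π) / 2)) (y := sin ((θ₂ 0 - π) / 2))
      (x' := cos ((θ₁ 0 - π) / 2)) (y' := sin ((θ₁ 0 - π) / 2)) ?_ ?_
    · rw [he']
      exact mul_pos hr' (Real.sin_pos_of_pos_of_lt_pi (by linarith) (by linarith))
    · rw [he, ← Real.sin_sub_two_pi]
      exact mul_neg_of_pos_of_neg hr
        (Real.sin_neg_of_neg_of_neg_pi_lt (by linarith) (by linarith))
  · have hl : 0 < l := by
      obtain ⟨l', hl'⟩ := hne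
      have h1 := le_csSup hbdd hl'
      rw [hN] at hl'
      exact (hl'.1.trans_le h1).trans hlt
    obtain ⟨a, b, c, d, hM⟩ := exists_mon T hl
    refine ⟨a, b, c, d, hM, ?_⟩
    by_contra hcon
    push Not at hcon
    have h1 := closed_of_trace T hl hM hcon
    have h2 := le_csSup hbdd (show l ∈ N by rw [hN]; exact ⟨hl, h1⟩)
    linarith

/-- Two matrices of determinant one with the same projective action have the same trace up to
sign. -/
lemma trace_unique {a b c d a' b' c' d' : ℝ} (h : a * d - b * c = 1) (h' : a' * d' - b' * c' = 1)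
    (hp : ∀ x : ℝ, ∃ r : ℝ, a' * cos x + b' * sin x = r * (a * cos x + b * sin x) ∧
      c' * cos x + d' * sin x = r * (c * cos x + d * sin x)) : |a' + d'| = |a + d| := by
  obtain ⟨r1, h1, h2⟩ := hp 0
  obtain ⟨r2, h3, h4⟩ := hp (π / 2)
  obtain ⟨r3, h5, h6⟩ := hp (π / 4)
  simp only [Real.cos_zero, Real.sin_zero, mul_one, mul_zero, add_zero] at h1 h2
  simp only [Real.cos_pi_div_two, Real.sin_pi_div_two, mul_one, mul_zero, zero_add] at h3 h4
  rw [Real.cos_pi_div_four, Real.sin_pi_div_four] at h5 h6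
  have hs : (0:ℝ) < √2 / 2 := by positivity
  have h7 : a' + b' = r3 * (a + b) := by
    have : √2 / 2 * (a' + b') = √2 / 2 * (r3 * (a + b)) := by linarith
    exact mul_left_cancel₀ hs.ne' this
  have h8 : c' + d' = r3 * (c + d) := by
    have : √2 / 2 * (c' + d') = √2 / 2 * (r3 * (c + d)) := by linarith
    exact mul_left_cancel₀ hs.ne' this
  subst h1 h2 h3 h4
  have e1 : r1 - r3 = 0 := by
    linear_combination (-(r1 - r3)) * h + d * h7 - b * h8
  have e2 : r2 - r3 = 0 := by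
    linear_combination (-(r2 - r3)) * h - c * h7 + a * h8
  have hr1 : r1 = r2 := by linarith
  subst hr1
  have e3 : r1 ^ 2 = 1 := by linear_combination h' - r1 ^ 2 * h
  have e4 : r1 * a + r1 * d = r1 * (a + d) := by ring
  rw [e4, abs_mul]
  have e5 : |r1| = 1 := by
    have h9 : |r1| ^ 2 = 1 := by rw [sq_abs]; exact e3
    exact (pow_eq_one_iff_of_nonneg (abs_nonneg _) two_ne_zero).1 h9
  rw [e5, one_mul]

end Pool.Agent.R762.Bike
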