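import Mathlib

/-! The Hilbert metric of the disc: hyperbolic formulas; and elementary estimates. -/

set_option autoImplicit false

namespace Pool.Agent.R762.Bus

open Real Set

/-- `h` is the Hilbert metric of the open unit disc (without a factor `1/2`). -/
structure IsHilbert (h : ℂ → ℂ → ℝ) : Prop where
  self : ∀ x : ℂ, ‖x‖ < 1 → h x x = 0
  cross : ∀ x y a b : ℂ, ‖x‖ < 1 → ‖y‖ < 1 → x ≠ y → ‖a‖ = 1 → ‖b‖ = 1 → a ≠ b →
    a ∈ line[ℝ, x, y] → b ∈ line[ℝ, x, y] →
    h x y = |log ((dist x a * dist y b) / (dist x b * dist y a))|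

/-- the scalar product of the plane -/
noncomputable def sp (x y : ℂ) : ℝ := x.re * y.re + x.im * y.im

lemma norm_sq_sp (x : ℂ) : ‖x‖ ^ 2 = sp x x := by
  rw [← Complex.normSq_eq_norm_sq, Complex.normSq_apply]; rfl

lemma norm_one_iff (x : ℂ) : ‖x‖ = 1 ↔ sp x x = 1 := by
  rw [← norm_sq_sp]
  constructor
  · intro h; rw [h]; ring
  · intro h
    exact (pow_left_inj₀ (norm_nonneg x) zero_le_one two_ne_zero).1 (by rw [h]; ring)

lemma norm_lt_iff (x : ℂ) : ‖x‖ < 1 ↔ sp x x < 1 := by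
  rw [← norm_sq_sp]
  constructor
  · intro h; exact pow_lt_one₀ (norm_nonneg x) h two_ne_zero
  · intro h
    by_contra hc
    push Not at hc
    linarith [one_le_pow₀ hc (n := 2)]

lemma sp_self_pos {x : ℂ} (h : x ≠ 0) : 0 < sp x x := by
  rw [← norm_sq_sp]; have := norm_pos_iff.2 h; positivity

/-- for all admissible end points the cross ratio is given by the same hyperbolic formula -/
lemma cross_formula {x y a b : ℂ} (hx : ‖x‖ < 1) (hy : ‖y‖ < 1) (hxy : x ≠ y) (ha : ‖a‖ = 1)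
    (hb : ‖b‖ = 1) (hab : a ≠ b) (hal : a ∈ line[ℝ, x, y]) (hbl : b ∈ line[ℝ, x, y]) :
    cosh (|log ((dist x a * dist y b) / (dist x b * dist y a))| / 2) ^ 2 *
      ((1 - sp x x) * (1 - sp y y)) = (1 - sp x y) ^ 2 := by
  rw [norm_lt_iff] at hx hy
  rw [norm_one_iff] at ha hb
  obtain ⟨α, hα⟩ := (mem_affineSpan_pair_iff_exists_lineMap_eq).1 hal
  obtain ⟨β, hβ⟩ := (mem_affineSpan_pair_iff_exists_lineMap_eq).1 hbl
  obtain ⟨A, hA⟩ : ∃ A, A = sp (y - x) (y - x) := ⟨_, rfl⟩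
  obtain ⟨B, hB⟩ : ∃ B, B = sp x (y - x) := ⟨_, rfl⟩
  obtain ⟨C, hC⟩ : ∃ C, C = 1 - sp x x := ⟨_, rfl⟩
  have hApos : 0 < A := by rw [hA]; exact sp_self_pos (sub_ne_zero.2 (Ne.symm hxy))
  have hCpos : 0 < C := by rw [hC]; linarith
  have ea : a = x + α * (y - x) := by
    rw [← hα, AffineMap.lineMap_apply]
    simp only [vsub_eq_sub, vadd_eq_add, Complex.real_smul]; ring
  have eb : b = x + β * (y - x) := by
    rw [← hβ, AffineMap.lineMap_apply]
    simp only [vsub_eq_sub, vadd_eq_add, Complex.real_smul]; ring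
  have expand : ∀ t : ℝ, sp (x + t * (y - x)) (x + t * (y - x)) = sp x x + 2 * t * B + t ^ 2 * A := by
    intro t
    rw [hA, hB]
    unfold sp
    simp only [Complex.add_re, Complex.add_im, Complex.mul_re, Complex.mul_im, Complex.sub_re,
      Complex.sub_im, Complex.ofReal_re, Complex.ofReal_im]
    ring
  have qa : A * α ^ 2 + 2 * B * α - C = 0 := by
    have := expand α
    rw [← ea, ha] at this
    rw [hC]; linarith
  have qb : A * β ^ 2 + 2 * B * β - C = 0 := by
    have := expand β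
    rw [← eb, hb] at this
    rw [hC]; linarith
  have hαβ : α ≠ β := by
    intro h
    exact hab (by rw [ea, eb, h])
  have s1 : A * (α + β) = -(2 * B) := by
    have : (α - β) * (A * (α + β) + 2 * B) = 0 := by linear_combination qa - qb
    have := (mul_eq_zero.1 this).resolve_left (sub_ne_zero.2 hαβ)
    linarith
  have s2 : A * (α * β) = -C := by
    linear_combination qa * (-1) + α * s1
  have yy : sp y y = sp x x + 2 * B + A := by
    have := expand 1
    rw [show x + ((1:ℝ):ℂ) * (y - x) = y by push_cast; ring] at this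
    linarith
  have xy : sp x y = sp x x + B := by
    rw [hB]; unfold sp; simp only [Complex.sub_re, Complex.sub_im]; ring
  have s3 : A * ((1 - α) * (1 - β)) = -(1 - sp y y) := by
    rw [yy]
    have e1 : sp x x = 1 - C := by rw [hC]; ring
    rw [e1]
    linear_combination s2 - s1
  have hab1 : α * β < 0 := by
    by_contra hc
    push Not at hc
    linarith [mul_nonneg hApos.le hc]
  have hab2 : (1 - α) * (1 - β) < 0 := by
    by_contra hc
    push Not at hc
    linarith [mul_nonneg hApos.le hc]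
  -- the distances
  have dxa : dist x a = |α| * ‖y - x‖ := by
    rw [dist_comm, dist_eq_norm, ea, add_sub_cancel_left, norm_mul, Complex.norm_real,
      Real.norm_eq_abs]
  have dxb : dist x b = |β| * ‖y - x‖ := by
    rw [dist_comm, dist_eq_norm, eb, add_sub_cancel_left, norm_mul, Complex.norm_real,
      Real.norm_eq_abs]
  have dya : dist y a = |1 - α| * ‖y - x‖ := by
    rw [dist_eq_norm, ea, show y - (x + α * (y - x)) = ((1 - α : ℝ) : ℂ) * (y - x) by
      push_cast; ring, norm_mul, Complex.norm_real, Real.norm_eq_abs]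
  have dyb : dist y b = |1 - β| * ‖y - x‖ := by
    rw [dist_eq_norm, eb, show y - (x + β * (y - x)) = ((1 - β : ℝ) : ℂ) * (y - x) by
      push_cast; ring, norm_mul, Complex.norm_real, Real.norm_eq_abs]
  have hn : 0 < ‖y - x‖ := norm_pos_iff.2 (sub_ne_zero.2 (Ne.symm hxy))
  have hα0 : α ≠ 0 := by rintro rfl; simp at hab1
  have hβ0 : β ≠ 0 := by rintro rfl; simp at hab1
  have hα1 : 1 - α ≠ 0 := by intro h; rw [h] at hab2; simp at hab2
  have hβ1 : 1 - β ≠ 0 := by intro h; rw [h] at hab2; simp at hab2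
  obtain ⟨ρ, hρ⟩ : ∃ ρ, ρ = (dist x a * dist y b) / (dist x b * dist y a) := ⟨_, rfl⟩
  have p1 := abs_pos.2 hα0
  have p2 := abs_pos.2 hβ0
  have p3 := abs_pos.2 hα1
  have p4 := abs_pos.2 hβ1
  have hρ' : ρ = (|α| * |1 - β|) / (|β| * |1 - α|) := by
    rw [hρ, dxa, dxb, dya, dyb]; field_simp
  have hρpos : 0 < ρ := by rw [hρ']; positivity
  rw [← hρ]
  have c1 : cosh (|log ρ| / 2) ^ 2 = (ρ + ρ⁻¹ + 2) / 4 := by
    have h1 := cosh_two_mul (|log ρ| / 2)
    have h2 := cosh_sq (|log ρ| / 2)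
    rw [show 2 * (|log ρ| / 2) = |log ρ| by ring, cosh_abs, cosh_log hρpos] at h1
    linarith
  -- `ρ` without absolute values
  have hρ2 : ρ = (-α * (1 - β)) / (-β * (1 - α)) ∨ ρ = (-α * (1 - β)) / (-β * (1 - α)) := by
    left
    rw [hρ']
    rcases lt_or_gt_of_ne hα0 with h | h
    · have hβp : 0 < β := by
        by_contra hc
        push Not at hc
        linarith [mul_nonneg_of_nonpos_of_nonpos h.le hc]
      have h1a : 0 < 1 - α := by linarith
      have h1b : 1 - β < 0 := by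
        by_contra hc
        push Not at hc
        linarith [mul_nonneg h1a.le hc]
      rw [abs_of_neg h, abs_of_pos hβp, abs_of_pos h1a, abs_of_neg h1b]
      have := hβp.ne'
      field_simp
    · have hβn : β < 0 := by
        by_contra hc
        push Not at hc
        linarith [mul_nonneg h.le hc]
      have h1b : 0 < 1 - β := by linarith
      have h1a : 1 - α < 0 := by
        by_contra hc
        push Not at hc
        linarith [mul_nonneg hc h1b.le]
      rw [abs_of_pos h, abs_of_neg hβn, abs_of_neg h1a, abs_of_pos h1b]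
      have := hβn.ne
      field_simp
  have hρ3 : ρ = (α * (1 - β)) / (β * (1 - α)) := by
    rcases hρ2 with h | h <;> · rw [h]; field_simp
  rw [c1, hρ3, ← hC]
  have e1 : 1 - sp y y = -(A * ((1 - α) * (1 - β))) := by linarith
  have e2 : C = -(A * (α * β)) := by linarith
  have e3 : 1 - sp x y = C - B := by rw [xy, hC]; ring
  have e4 : B = -(A * (α + β)) / 2 := by linarith
  rw [e1, e3, e4, e2]
  field_simp
  ring

/-- the end points exist -/
lemma ends_exist {x y : ℂ} (hx : ‖x‖ < 1) (hxy : x ≠ y) :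
    ∃ a b : ℂ, ‖a‖ = 1 ∧ ‖b‖ = 1 ∧ a ≠ b ∧ a ∈ line[ℝ, x, y] ∧ b ∈ line[ℝ, x, y] := by
  rw [norm_lt_iff] at hx
  obtain ⟨A, hA⟩ : ∃ A, A = sp (y - x) (y - x) := ⟨_, rfl⟩
  obtain ⟨B, hB⟩ : ∃ B, B = sp x (y - x) := ⟨_, rfl⟩
  obtain ⟨C, hC⟩ : ∃ C, C = 1 - sp x x := ⟨_, rfl⟩
  have hApos : 0 < A := by rw [hA]; exact sp_self_pos (sub_ne_zero.2 (Ne.symm hxy))
  have hCpos : 0 < C := by rw [hC]; linarith
  have hD : 0 < B ^ 2 + A * C := by positivity
  obtain ⟨s, hs⟩ : ∃ s, s = √(B ^ 2 + A * C) := ⟨_, rfl⟩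
  have hspos : 0 < s := by rw [hs]; exact Real.sqrt_pos.2 hD
  have hs2 : s ^ 2 = B ^ 2 + A * C := by rw [hs]; exact Real.sq_sqrt hD.le
  have expand : ∀ t : ℝ, sp (x + t * (y - x)) (x + t * (y - x)) = sp x x + 2 * t * B + t ^ 2 * A := by
    intro t
    rw [hA, hB]
    unfold sp
    simp only [Complex.add_re, Complex.add_im, Complex.mul_re, Complex.mul_im, Complex.sub_re,
      Complex.sub_im, Complex.ofReal_re, Complex.ofReal_im]
    ring
  have mem : ∀ t : ℝ, x + t * (y - x) ∈ line[ℝ, x, y] := by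
    intro t
    have h1 := AffineMap.lineMap_mem_affineSpan_pair t x y
    rw [AffineMap.lineMap_apply] at h1
    simp only [vsub_eq_sub, vadd_eq_add, Complex.real_smul] at h1
    rwa [add_comm] at h1
  have nrm : ∀ t : ℝ, A * t ^ 2 + 2 * B * t - C = 0 → ‖x + t * (y - x)‖ = 1 := by
    intro t ht
    rw [norm_one_iff, expand]
    have : sp x x = 1 - C := by rw [hC]; ring
    rw [this]; linarith
  refine ⟨x + ((-B - s) / A : ℝ) * (y - x), x + ((-B + s) / A : ℝ) * (y - x), nrm _ ?_, nrm _ ?_,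
    ?_, mem _, mem _⟩
  · field_simp; linear_combination hs2
  · field_simp; linear_combination hs2
  · intro h
    have h1 := mul_right_cancel₀ (sub_ne_zero.2 (Ne.symm hxy)) (add_left_cancel h)
    have h2 : (-B - s) / A = (-B + s) / A := by exact_mod_cast h1
    rw [div_left_inj' hApos.ne'] at h2
    linarith

variable {h : ℂ → ℂ → ℝ}

lemma IsHilbert.spec (hh : IsHilbert h) {x y : ℂ} (hx : ‖x‖ < 1) (hy : ‖y‖ < 1) :
    0 ≤ h x y ∧ cosh (h x y / 2) ^ 2 * ((1 - sp x x) * (1 - sp y y)) = (1 - sp x y) ^ 2 := by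
  by_cases hxy : x = y
  · subst hxy
    rw [hh.self x hx]
    refine ⟨le_rfl, ?_⟩
    rw [zero_div, cosh_zero]; ring
  · obtain ⟨a, b, h1, h2, h3, h4, h5⟩ := ends_exist hx hxy
    rw [hh.cross x y a b hx hy hxy h1 h2 h3 h4 h5]
    exact ⟨abs_nonneg _, cross_formula hx hy hxy h1 h2 h3 h4 h5⟩

lemma IsHilbert.eq (hh : IsHilbert h) {x y : ℂ} (hx : ‖x‖ < 1) (hy : ‖y‖ < 1) {L : ℝ}
    (hL : 0 ≤ L) (h2 : cosh L ^ 2 * ((1 - sp x x) * (1 - sp y y)) = (1 - sp x y) ^ 2) :
    h x y = 2 * L := by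
  obtain ⟨h0, h1⟩ := hh.spec hx hy
  rw [norm_lt_iff] at hx hy
  have hpos : 0 < (1 - sp x x) * (1 - sp y y) := mul_pos (by linarith) (by linarith)
  have h3 : cosh (h x y / 2) ^ 2 = cosh L ^ 2 :=
    mul_right_cancel₀ hpos.ne' (h1.trans h2.symm)
  have h4 : cosh (h x y / 2) = cosh L :=
    (pow_left_inj₀ (cosh_pos _).le (cosh_pos _).le two_ne_zero).1 h3
  have h5 : |h x y / 2| = |L| := le_antisymm (cosh_le_cosh.1 h4.le) (cosh_le_cosh.1 h4.ge)
  rw [abs_of_nonneg (by linarith), abs_of_nonneg hL] at h5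
  linarith

/-- the Hilbert metric exists -/
lemma exists_hilbert : ∃ h, IsHilbert h := by
  classical
  refine ⟨fun x y => if hxy : ∃ ab : ℂ × ℂ, x ≠ y ∧ ‖ab.1‖ = 1 ∧ ‖ab.2‖ = 1 ∧ ab.1 ≠ ab.2 ∧
    ab.1 ∈ line[ℝ, x, y] ∧ ab.2 ∈ line[ℝ, x, y] then
      |log ((dist x hxy.choose.1 * dist y hxy.choose.2) /
        (dist x hxy.choose.2 * dist y hxy.choose.1))| else 0, ?_, ?_⟩
  · intro x _
    rw [dif_neg]
    rintro ⟨ab, h, -⟩
    exact h rfl
  · intro x y a b hx hy hxy ha hb hab hal hbl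
    have hex : ∃ ab : ℂ × ℂ, x ≠ y ∧ ‖ab.1‖ = 1 ∧ ‖ab.2‖ = 1 ∧ ab.1 ≠ ab.2 ∧
      ab.1 ∈ line[ℝ, x, y] ∧ ab.2 ∈ line[ℝ, x, y] := ⟨(a, b), hxy, ha, hb, hab, hal, hbl⟩
    rw [dif_pos hex]
    obtain ⟨-, c1, c2, c3, c4, c5⟩ := hex.choose_spec
    have f1 := cross_formula hx hy hxy ha hb hab hal hbl
    have f2 := cross_formula hx hy hxy c1 c2 c3 c4 c5
    rw [norm_lt_iff] at hx hy
    have hpos : 0 < (1 - sp x x) * (1 - sp y y) := mul_pos (by linarith) (by linarith)
    have h3 := mul_right_cancel₀ hpos.ne' (f2.trans f1.symm)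
    have h4 := (pow_left_inj₀ (cosh_pos _).le (cosh_pos _).le two_ne_zero).1 h3
    have h5 := le_antisymm (cosh_le_cosh.1 h4.le) (cosh_le_cosh.1 h4.ge)
    have n1 : ∀ t : ℝ, |(|t|) / 2| = |t| / 2 := fun t =>
      abs_of_nonneg (div_nonneg (abs_nonneg t) zero_le_two)
    rw [n1, n1] at h5
    linarith

end Pool.Agent.R762.Bus
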