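import Mathlib
import Pool.Agent.R762.Bus1

/-! The key estimate. -/

set_option autoImplicit false
set_option maxHeartbeats 1000000

namespace Pool.Agent.R762.Bus

open Real Set

lemma tanh_eq (x : ℝ) : tanh x = sinh x / cosh x := Real.tanh_eq_sinh_div_cosh x

lemma hasDerivAt_tanh' (x : ℝ) : HasDerivAt tanh (1 / cosh x ^ 2) x := by
  have h1 : (tanh : ℝ → ℝ) = fun x => sinh x / cosh x := by funext x; exact tanh_eq x
  rw [h1]
  have h2 := (hasDerivAt_sinh x).div (hasDerivAt_cosh x) (cosh_pos x).ne'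
  refine h2.congr_deriv ?_
  have := cosh_sq x
  have hc := (cosh_pos x).ne'
  field_simp
  linarith

lemma mono_sub_tanh : Monotone fun x => x - tanh x := by
  apply monotone_of_hasDerivAt_nonneg (f' := fun x => 1 - 1 / cosh x ^ 2)
  · intro x; exact (hasDerivAt_id x).sub (hasDerivAt_tanh' x)
  · intro x
    have h1 : 1 ≤ cosh x ^ 2 := one_le_pow₀ (one_le_cosh x)
    have h2 : 1 / cosh x ^ 2 ≤ 1 := by rw [div_le_one (by positivity)]; exact h1
    simp only [Pi.zero_apply]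
    linarith

lemma strictMono_tanh' : StrictMono (tanh : ℝ → ℝ) := by
  apply strictMono_of_hasDerivAt_pos (f' := fun x => 1 / cosh x ^ 2)
  · exact hasDerivAt_tanh'
  · intro x; have := cosh_pos x; positivity

lemma tanh_cont : Continuous (tanh : ℝ → ℝ) :=
  continuous_iff_continuousAt.2 fun x => (hasDerivAt_tanh' x).continuousAt

lemma tanh_lip {x y : ℝ} (h : x ≤ y) : tanh y - tanh x ≤ y - x := by
  have := mono_sub_tanh h
  simp only at this
  linarith

lemma tanh_le {x : ℝ} (h : 0 ≤ x) : tanh x ≤ x := by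
  have := tanh_lip h
  rw [tanh_zero] at this; linarith

lemma tanh_nn {x : ℝ} (h : 0 ≤ x) : 0 ≤ tanh x := by
  have := strictMono_tanh'.monotone h
  rwa [tanh_zero] at this

lemma cosh_le_of {x : ℝ} (h0 : 0 ≤ x) (h : x ≤ 1) : cosh x ≤ 1 + x ^ 2 := by
  have h1 := cosh_le_exp_half_sq x
  have h2 : x ^ 2 ≤ 1 := by nlinarith
  have h3 : exp (x ^ 2 / 2) ≤ 1 / (1 - x ^ 2 / 2) :=
    Real.exp_bound_div_one_sub_of_interval (by positivity) (by linarith)
  refine h1.trans (h3.trans ?_)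
  rw [div_le_iff₀ (by linarith)]
  nlinarith [sq_nonneg x, sq_nonneg (x ^ 2)]

lemma le_tanh {x : ℝ} (h0 : 0 ≤ x) (h : x ≤ 1) : x / 2 ≤ tanh x := by
  rw [tanh_eq, div_le_div_iff₀ two_pos (cosh_pos x)]
  have h1 : x ≤ sinh x := self_le_sinh_iff.2 h0
  have h2 := cosh_le_of h0 h
  have h3 : cosh x ≤ 2 := by nlinarith
  nlinarith

lemma sinh_le {x : ℝ} (h0 : 0 ≤ x) : sinh x ≤ x * cosh x := by
  have h1 := tanh_le h0
  rw [tanh_eq, div_le_iff₀ (cosh_pos x)] at h1
  exact h1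

lemma tanh_double (x : ℝ) : tanh (2 * x) = 2 * tanh x / (1 + tanh x ^ 2) := by
  rw [tanh_eq, tanh_eq, sinh_two_mul, cosh_two_mul]
  have := cosh_pos x
  have h2 : 0 < cosh x ^ 2 + sinh x ^ 2 := by positivity
  field_simp

/-- position along the horizontal line -/
noncomputable def ta (x : ℝ) : ℝ := 3 * tanh x / (4 + 2 * tanh x)

/-- the constant `√3 / 2` -/
noncomputable def kk : ℝ := √3 / 2

lemma kk_sq : kk ^ 2 = 3 / 4 := by
  unfold kk; rw [div_pow, Real.sq_sqrt (by norm_num)]; norm_num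

lemma kk_pos : 0 < kk := by unfold kk; positivity

lemma kk_le : kk ≤ 1 := by nlinarith [kk_sq, kk_pos]

lemma ta_lip {x y : ℝ} (h0 : 0 ≤ x) (h : x ≤ y) : ta y - ta x ≤ y - x ∧ ta x ≤ ta y := by
  have h1 := tanh_lip h
  have h2 := tanh_nn h0
  have h3 := strictMono_tanh'.monotone h
  have e : ta y - ta x = 12 * (tanh y - tanh x) / ((4 + 2 * tanh x) * (4 + 2 * tanh y)) := by
    unfold ta
    have p1 : 0 < 4 + 2 * tanh x := by linarith
    have p2 : 0 < 4 + 2 * tanh y := by linarith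
    rw [div_sub_div _ _ p2.ne' p1.ne', div_eq_div_iff (mul_pos p2 p1).ne' (mul_pos p1 p2).ne']
    ring
  have hpos : 0 < (4 + 2 * tanh x) * (4 + 2 * tanh y) := by
    have p1 : 0 < 4 + 2 * tanh x := by linarith
    have p2 : 0 < 4 + 2 * tanh y := by linarith
    positivity
  constructor
  · rw [e]
    have h4 : 12 * (tanh y - tanh x) / ((4 + 2 * tanh x) * (4 + 2 * tanh y)) ≤ tanh y - tanh x := by
      rw [div_le_iff₀ hpos]
      have : 12 ≤ (4 + 2 * tanh x) * (4 + 2 * tanh y) := by nlinarith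
      nlinarith
    linarith
  · have : 0 ≤ ta y - ta x := by rw [e]; exact div_nonneg (by linarith) hpos.le
    linarith

lemma ta_zero : ta 0 = 0 := by unfold ta; rw [tanh_zero]; simp

lemma ta_le {x : ℝ} (h0 : 0 ≤ x) : ta x ≤ 3 / 4 * x := by
  unfold ta
  have h1 := tanh_le h0
  have h2 := tanh_nn h0
  rw [div_le_iff₀ (by linarith)]
  nlinarith

lemma le_ta {x : ℝ} (h0 : 0 ≤ x) (h : x ≤ 1) : x / 4 ≤ ta x := by
  unfold ta
  have h1 := le_tanh h0 h
  have h2 := tanh_nn h0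
  have h3 := (tanh_le h0).trans h
  rw [le_div_iff₀ (by linarith)]
  nlinarith

lemma ta_cont : ContinuousOn ta (Ici 0) := by
  unfold ta
  apply ContinuousOn.div
  · exact (continuous_const.mul tanh_cont).continuousOn
  · exact (continuous_const.add (continuous_const.mul tanh_cont)).continuousOn
  · intro x hx
    have := tanh_nn (mem_Ici.1 hx)
    linarith

lemma cosh_add_ge {x w : ℝ} (hx : 0 ≤ x) (hw : 0 ≤ w) : cosh x + w * sinh x ≤ cosh (x + w) := by
  rw [cosh_add]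
  have h1 := one_le_cosh w
  have h2 : w ≤ sinh w := self_le_sinh_iff.2 hw
  have h3 := cosh_pos x
  have h4 : 0 ≤ sinh x := sinh_nonneg_iff.2 hx
  nlinarith

lemma cosh_sub_le {x w : ℝ} (hw : 0 ≤ w) (hx : w ≤ x) : cosh x ≤ cosh (x - w) + w * sinh x := by
  rw [cosh_sub]
  have h1 := one_le_cosh w
  have h5 : sinh w ≤ w * cosh w := sinh_le hw
  have h3 := cosh_pos x
  have h4 : 0 ≤ sinh x := sinh_nonneg_iff.2 (by linarith)
  have h6 : cosh x * cosh w - sinh x * sinh w - cosh x + w * sinh x ≥ 0 := by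
    -- convexity of cosh
    have hlt : sinh x < cosh x := by
      have := cosh_sub_sinh x
      linarith [exp_pos (-x)]
    have k1 : cosh w - 1 - (sinh w - w) ≥ 0 := by
      have e1 : cosh w - sinh w = exp (-w) := cosh_sub_sinh w
      have e2 := add_one_le_exp (-w)
      linarith
    have k2 : 0 ≤ sinh w - w := by linarith [self_le_sinh_iff.2 hw]
    have k3 : cosh x * cosh w - sinh x * sinh w - cosh x + w * sinh x =
      cosh x * (cosh w - 1 - (sinh w - w)) + (cosh x - sinh x) * (sinh w - w) := by ring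
    rw [k3]
    have := mul_nonneg h3.le k1
    have := mul_nonneg (sub_nonneg.2 hlt.le) k2
    linarith
  linarith

/-- the shift of the first midpoint -/
lemma bound_a {s a : ℝ} (hs : 0 < s) (hs' : s ≤ 1 / 640)
    (ha : 2 * a + kk * tanh a = s + kk / 2 * tanh s) : a ≤ s / 2 ∧ 2 / 5 * s ≤ a := by
  have hk := kk_pos
  have hk1 := kk_le
  have hT := le_tanh hs.le (by linarith)
  have hT2 := tanh_le hs.le
  constructor
  · by_contra hc
    push Not at hc
    have h1 := strictMono_tanh' hc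
    have h2 := tanh_double (s / 2)
    rw [show 2 * (s / 2) = s by ring] at h2
    have h3 : 0 ≤ tanh (s / 2) := tanh_nn (by linarith)
    have h4 : tanh s ≤ 2 * tanh (s / 2) := by
      rw [h2, div_le_iff₀ (by positivity)]
      nlinarith [mul_nonneg h3 (sq_nonneg (tanh (s / 2)))]
    nlinarith
  · by_contra hc
    push Not at hc
    have h1 := strictMono_tanh'.monotone hc.le
    have h2 := tanh_le (x := 2 / 5 * s) (by linarith)
    -- need `k (0.4 s - T / 2) ≤ 0.2 s`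
    nlinarith

lemma bound_b {s b : ℝ} (hs : 0 < s) (hs' : s ≤ 1 / 640) (hb0 : 0 ≤ b)
    (hb : 2 * b + ta b = s + ta s / 2) : b ≤ s / 2 - s ^ 2 / 256 ∧ 2 / 5 * s ≤ b := by
  constructor
  · by_contra hc
    push Not at hc
    have hw : 0 ≤ s / 2 - s ^ 2 / 256 := by nlinarith
    have h1 := (ta_lip hw hc.le).2
    have h2 := (ta_lip hw (show s / 2 - s ^ 2 / 256 ≤ s / 2 by nlinarith [sq_nonneg s])).1
    -- the concavity
    obtain ⟨t, ht⟩ : ∃ t, t = tanh (s / 2) := ⟨_, rfl⟩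
    have ht0 : s / 4 ≤ t := by
      have := le_tanh (x := s / 2) (by linarith) (by linarith)
      rw [ht]; linarith
    have ht1 : t ≤ 1 := by
      have := tanh_le (x := s / 2) (by linarith)
      rw [ht]; linarith
    have h3 := tanh_double (s / 2)
    rw [show 2 * (s / 2) = s by ring, ← ht] at h3
    have h4 : ta (s / 2) = 3 * t / (4 + 2 * t) := by rw [ht]; rfl
    have h5 : ta s = 3 * t / (2 * (1 + t + t ^ 2)) := by
      unfold ta
      rw [h3]
      have : 0 < 1 + t ^ 2 := by positivity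
      have : 0 < t := by linarith
      field_simp
      ring
    have h6 : 3 / 16 * t ^ 2 ≤ ta (s / 2) - ta s / 2 := by
      have htp : 0 < t := by linarith
      rw [h4, h5]
      have e : 3 * t / (4 + 2 * t) - 3 * t / (2 * (1 + t + t ^ 2)) / 2 =
          3 * t ^ 2 * (1 + 2 * t) / (4 * (2 + t) * (1 + t + t ^ 2)) := by
        field_simp
        ring
      rw [e, le_div_iff₀ (by positivity)]
      have e2 : 4 * (2 + t) * (1 + t + t ^ 2) ≤ 16 * (1 + 2 * t) := by nlinarith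
      nlinarith [mul_le_mul_of_nonneg_left e2 (by positivity : (0:ℝ) ≤ 3 / 16 * t ^ 2)]
    have h7 : s ^ 2 / 16 ≤ t ^ 2 := by nlinarith
    linarith
  · by_contra hc
    push Not at hc
    have h1 := (ta_lip hb0 hc.le).2
    have h2 := ta_le (x := 2 / 5 * s) (by linarith)
    have h3 := le_ta hs.le (by linarith)
    linarith

/-- **The key estimate.** -/
lemma key {s a b C C' : ℝ} (hs : 0 < s) (hs' : s < 1 / 640) (ha0 : 0 ≤ a) (hb0 : 0 ≤ b)
    (ha : 2 * a + kk * tanh a = s + kk / 2 * tanh s) (hb : 2 * b + ta b = s + ta s / 2)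
    (hC0 : 0 ≤ C) (hC'0 : 0 ≤ C') (hC : cosh C = cosh s ^ 2) (hC' : cosh C' = cosh a * cosh b) :
    C < 2 * s - 2 * a - 2 * b + 2 * C' := by
  obtain ⟨a1, a2⟩ := bound_a hs hs'.le ha
  obtain ⟨b1, b2⟩ := bound_b hs hs'.le hb0 hb
  obtain ⟨δ, hδ⟩ : ∃ δ, δ = s / 2 - a := ⟨_, rfl⟩
  obtain ⟨η, hη⟩ : ∃ η, η = s / 2 - b := ⟨_, rfl⟩
  have hδ0 : 0 ≤ δ := by linarith
  have hη0 : s ^ 2 / 256 ≤ η := by linarith
  have hs2 : 0 < s ^ 2 := by positivity
  have hηn : 0 ≤ η := by linarith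
  -- the size of `sinh C'`
  have sC' : sinh C' ^ 2 = cosh C' ^ 2 - 1 := by have := cosh_sq C'; linarith
  have sa : a ≤ sinh a := self_le_sinh_iff.2 ha0
  have sb : b ≤ sinh b := self_le_sinh_iff.2 hb0
  have sa2 : cosh a ^ 2 = sinh a ^ 2 + 1 := cosh_sq a
  have sb2 : cosh b ^ 2 = sinh b ^ 2 + 1 := cosh_sq b
  have hsC0 : 0 ≤ sinh C' := sinh_nonneg_iff.2 hC'0
  have big : 8 / 25 * s ^ 2 ≤ sinh C' ^ 2 := by
    rw [sC', hC', mul_pow, sa2, sb2]
    have h1 : (2 / 5 * s) ^ 2 ≤ sinh a ^ 2 := pow_le_pow_left₀ (by positivity) (a2.trans sa) 2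
    have h2 : (2 / 5 * s) ^ 2 ≤ sinh b ^ 2 := pow_le_pow_left₀ (by positivity) (b2.trans sb) 2
    nlinarith [mul_nonneg (sq_nonneg (sinh a)) (sq_nonneg (sinh b))]
  have hcs : cosh s ≤ 1 + s ^ 2 := cosh_le_of hs.le (by linarith)
  have hs3 : s ^ 2 ≤ 1 / 640 * s := by nlinarith
  have small : cosh a * sinh (s / 2) ≤ 9 / 10 * sinh C' := by
    have h1 : cosh a ≤ cosh (s / 2) := cosh_le_cosh.2 (by rw [abs_of_nonneg ha0, abs_of_pos (by linarith)]; exact a1)
    have h2 : 0 < sinh (s / 2) := sinh_pos_iff.2 (by linarith)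
    have h3 : cosh a * sinh (s / 2) ≤ sinh s / 2 := by
      have h4 := sinh_two_mul (s / 2)
      rw [show 2 * (s / 2) = s by ring] at h4
      have h9 := mul_le_mul_of_nonneg_right h1 h2.le
      linarith
    have h5 := sinh_le hs.le
    have h6 : sinh s ≤ 1.002 * s := by
      have h9 : cosh s ≤ 1.002 := by linarith
      have := mul_le_mul_of_nonneg_left h9 hs.le
      linarith
    have h7 : cosh a * sinh (s / 2) ≤ 0.501 * s := by linarith
    have h8 : 0 ≤ cosh a * sinh (s / 2) := mul_nonneg (cosh_pos a).le h2.le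
    apply (pow_le_pow_iff_left₀ h8 (by positivity) two_ne_zero).1
    calc (cosh a * sinh (s / 2)) ^ 2 ≤ (0.501 * s) ^ 2 := pow_le_pow_left₀ h8 h7 2
      _ = 0.251001 * s ^ 2 := by ring
      _ ≤ 81 / 100 * (8 / 25 * s ^ 2) := by linarith
      _ ≤ 81 / 100 * sinh C' ^ 2 := by linarith
      _ = (9 / 10 * sinh C') ^ 2 := by ring
  -- first step
  obtain ⟨C₁, hC₁⟩ : ∃ x, x = C' + 9 / 10 * η := ⟨_, rfl⟩
  have step1 : cosh a * cosh (s / 2) ≤ cosh C₁ := by
    rw [hC₁]
    have h1 := cosh_add_ge (x := C') (w := 9 / 10 * η) hC'0 (by positivity)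
    have h2 := cosh_sub_le (x := s / 2) (w := η) hηn (by linarith)
    rw [show s / 2 - η = b by rw [hη]; ring] at h2
    have h3 := mul_le_mul_of_nonneg_left h2 (cosh_pos a).le
    have h4 := mul_le_mul_of_nonneg_left small hηn
    calc cosh a * cosh (s / 2) ≤ cosh a * (cosh b + η * sinh (s / 2)) := h3
      _ = cosh C' + η * (cosh a * sinh (s / 2)) := by rw [hC']; ring
      _ ≤ cosh C' + η * (9 / 10 * sinh C') := by linarith
      _ = cosh C' + 9 / 10 * η * sinh C' := by ring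
      _ ≤ _ := h1
  have hC₁0 : 0 ≤ C₁ := by rw [hC₁]; positivity
  -- second step
  have step2 : cosh (s / 2) ^ 2 ≤ cosh (C₁ + δ) := by
    have h0 : s / 2 = a + δ := by rw [hδ]; ring
    have h1 : sinh a * cosh (s / 2) ≤ sinh C₁ := by
      apply (pow_le_pow_iff_left₀ (mul_nonneg (ha0.trans sa) (cosh_pos _).le)
        (sinh_nonneg_iff.2 hC₁0) two_ne_zero).1
      have h2 : sinh C₁ ^ 2 = cosh C₁ ^ 2 - 1 := by have := cosh_sq C₁; linarith
      have h3 : (cosh a * cosh (s / 2)) ^ 2 ≤ cosh C₁ ^ 2 :=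
        pow_le_pow_left₀ (mul_nonneg (cosh_pos _).le (cosh_pos _).le) step1 2
      have h4 : 1 ≤ cosh (s / 2) ^ 2 := one_le_pow₀ (one_le_cosh _)
      rw [h2, mul_pow]
      rw [mul_pow, sa2] at h3
      linarith
    rw [cosh_add]
    have h5 : cosh (s / 2) ^ 2 = cosh (s / 2) * (cosh a * cosh δ + sinh a * sinh δ) := by
      rw [← cosh_add, ← h0]; ring
    rw [h5]
    have h6 : 0 ≤ sinh δ := sinh_nonneg_iff.2 hδ0
    have h7 := mul_le_mul_of_nonneg_right step1 (cosh_pos δ).le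
    have h8 := mul_le_mul_of_nonneg_right h1 h6
    linarith
  -- third step
  obtain ⟨Z, hZ⟩ : ∃ Z, Z = 2 * (C₁ + δ) := ⟨_, rfl⟩
  have hZs : s ≤ Z := by
    have h1 : cosh (s / 2) ≤ cosh (C₁ + δ) := by
      have h2 := one_le_cosh (s / 2)
      have h3 : cosh (s / 2) ≤ cosh (s / 2) ^ 2 := by nlinarith
      linarith
    have h2 := cosh_le_cosh.1 h1
    rw [abs_of_pos (by linarith), abs_of_nonneg (by linarith)] at h2
    linarith
  have hcZ : (1 + cosh s) ^ 2 / 2 - 1 ≤ cosh Z := by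
    have h1 := cosh_two_mul (C₁ + δ)
    have h2 := cosh_sq (C₁ + δ)
    have h3 := cosh_two_mul (s / 2)
    have h4 := cosh_sq (s / 2)
    rw [show 2 * (s / 2) = s by ring] at h3
    rw [hZ, h1]
    have h5 : (cosh (s / 2) ^ 2) ^ 2 ≤ cosh (C₁ + δ) ^ 2 :=
      pow_le_pow_left₀ (by positivity) step2 2
    have h6 : cosh (s / 2) ^ 2 = (1 + cosh s) / 2 := by linarith
    rw [h6] at h5
    have h7 : ((1 + cosh s) / 2) ^ 2 = (1 + cosh s) ^ 2 / 4 := by ring
    rw [h7] at h5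
    linarith
  have hsZ : s ≤ sinh Z := hZs.trans (self_le_sinh_iff.2 (by linarith))
  have hfin : cosh C ≤ cosh (Z + s ^ 3 / 2) := by
    have h1 := cosh_add_ge (x := Z) (w := s ^ 3 / 2) (by linarith) (by positivity)
    have h2 : s ^ 3 / 2 * s ≤ s ^ 3 / 2 * sinh Z :=
      mul_le_mul_of_nonneg_left hsZ (by positivity)
    have h3 : (cosh s - 1) ^ 2 ≤ (s ^ 2) ^ 2 :=
      pow_le_pow_left₀ (by linarith [one_le_cosh s]) (by linarith) 2
    rw [hC]
    have h4 : s ^ 3 / 2 * s = (s ^ 2) ^ 2 / 2 := by ring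
    have h5 : cosh s ^ 2 = (1 + cosh s) ^ 2 / 2 - 1 + (cosh s - 1) ^ 2 / 2 := by ring
    linarith
  have h9 := cosh_le_cosh.1 hfin
  have hs3p : 0 < s ^ 3 := by positivity
  rw [abs_of_nonneg hC0, abs_of_nonneg (by linarith : (0:ℝ) ≤ Z + s ^ 3 / 2)] at h9
  have h10 : s ^ 3 / 2 < s ^ 2 / 1280 := by
    have e : s ^ 3 / 2 = s ^ 2 * (s / 2) := by ring
    rw [e]
    have := mul_lt_mul_of_pos_left (show s / 2 < 1 / 1280 by linarith) hs2
    linarith
  have h11 : Z = 2 * C' + 9 / 5 * η + 2 * δ := by rw [hZ, hC₁]; ring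
  rw [h11] at h9
  have h12 : 2 * s - 2 * a - 2 * b + 2 * C' = 2 * C' + 2 * η + 2 * δ := by rw [hη, hδ]; ring
  rw [h12]
  linarith

end Pool.Agent.R762.Bus
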