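import Mathlib
import Pool.Agent.R762.Bus2

/-! Busemann curvature of the sum of the Hilbert metric and the taxicab metric. -/

set_option autoImplicit false
set_option maxHeartbeats 1000000

namespace Pool.Agent.R762.Bus

open Real Set

/-- the sum of `h` and the taxicab metric -/
noncomputable def dd (h : ℂ → ℂ → ℝ) (x y : ℂ) : ℝ := h x y + (|x.re - y.re| + |x.im - y.im|)

/-- points on the vertical line -/
noncomputable def PV (t : ℝ) : ℂ := ⟨1 / 2, kk * tanh t⟩

/-- points on the horizontal line -/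
noncomputable def QH (t : ℝ) : ℂ := ⟨1 / 2 + ta t, 0⟩

lemma PV_sp (a t : ℝ) : 1 - sp (PV a) (PV t) = 3 / 4 * (1 - tanh a * tanh t) := by
  unfold sp PV
  have := kk_sq
  simp only
  linear_combination (-(tanh a * tanh t)) * this

lemma QH_re {t : ℝ} (ht : 0 ≤ t) : (QH t).re = (cosh t + 2 * sinh t) / (2 * cosh t + sinh t) := by
  have h1 := cosh_pos t
  have h2 : 0 ≤ sinh t := sinh_nonneg_iff.2 ht
  have h3 := tanh_nn ht
  have h4 : sinh t = tanh t * cosh t := by rw [tanh_eq]; field_simp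
  unfold QH ta
  simp only
  rw [h4, show cosh t + 2 * (tanh t * cosh t) = (1 + 2 * tanh t) * cosh t by ring,
    show 2 * cosh t + tanh t * cosh t = (2 + tanh t) * cosh t by ring,
    mul_div_mul_right _ _ h1.ne']
  field_simp
  ring

lemma QH_sp {a t : ℝ} (ha : 0 ≤ a) (ht : 0 ≤ t) : 1 - sp (QH a) (QH t) =
    3 * (cosh a * cosh t - sinh a * sinh t) / ((2 * cosh a + sinh a) * (2 * cosh t + sinh t)) := by
  unfold sp
  rw [QH_re ha, QH_re ht]
  have h1 := cosh_pos t
  have h2 : 0 ≤ sinh t := sinh_nonneg_iff.2 ht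
  have h3 := cosh_pos a
  have h4 : 0 ≤ sinh a := sinh_nonneg_iff.2 ha
  have e : (QH a).im = 0 := rfl
  rw [e]
  have p1 : 0 < 2 * cosh t + sinh t := by positivity
  have p2 : 0 < 2 * cosh a + sinh a := by positivity
  field_simp
  ring

lemma PQ_sp {a b : ℝ} (hb : 0 ≤ b) : 1 - sp (PV a) (QH b) =
    3 * cosh b / (2 * (2 * cosh b + sinh b)) := by
  have h1 := cosh_pos b
  have h2 : 0 ≤ sinh b := sinh_nonneg_iff.2 hb
  have e1 : (PV a).re = 1 / 2 := rfl
  have e2 : (QH b).im = 0 := rfl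
  unfold sp
  rw [QH_re hb, e1, e2]
  have p1 : 0 < 2 * cosh b + sinh b := by positivity
  field_simp
  ring

lemma one_sub_tanh (t : ℝ) : 1 - tanh t * tanh t = 1 / cosh t ^ 2 := by
  rw [tanh_eq]
  have := cosh_sq t
  have h := cosh_pos t
  field_simp
  linarith

lemma PV_norm (t : ℝ) : ‖PV t‖ < 1 := by
  rw [norm_lt_iff]
  have h1 := PV_sp t t
  rw [one_sub_tanh] at h1
  have h := cosh_pos t
  have : 0 < 3 / 4 * (1 / cosh t ^ 2) := by positivity
  linarith

lemma QH_self {t : ℝ} (ht : 0 ≤ t) : 1 - sp (QH t) (QH t) = 3 / (2 * cosh t + sinh t) ^ 2 := by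
  rw [QH_sp ht ht]
  have := cosh_sq t
  have e : cosh t * cosh t - sinh t * sinh t = 1 := by linarith
  rw [e]; ring

lemma QH_norm {t : ℝ} (ht : 0 ≤ t) : ‖QH t‖ < 1 := by
  rw [norm_lt_iff]
  have h1 := QH_self ht
  have h := cosh_pos t
  have h2 : 0 ≤ sinh t := sinh_nonneg_iff.2 ht
  have : 0 < 3 / (2 * cosh t + sinh t) ^ 2 := by positivity
  linarith

variable {h : ℂ → ℂ → ℝ}

lemma h_PV (hh : IsHilbert h) {a t : ℝ} (hat : a ≤ t) : h (PV a) (PV t) = 2 * (t - a) := by
  apply hh.eq (PV_norm a) (PV_norm t) (by linarith)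
  rw [PV_sp, PV_sp, PV_sp, one_sub_tanh, one_sub_tanh, cosh_sub, tanh_eq, tanh_eq]
  have h1 := cosh_pos t
  have h3 := cosh_pos a
  field_simp

lemma h_QH (hh : IsHilbert h) {a t : ℝ} (ha : 0 ≤ a) (hat : a ≤ t) :
    h (QH a) (QH t) = 2 * (t - a) := by
  have ht : 0 ≤ t := ha.trans hat
  apply hh.eq (QH_norm ha) (QH_norm ht) (by linarith)
  rw [QH_sp ha ht, QH_self ha, QH_self ht, cosh_sub]
  have h1 := cosh_pos t
  have h2 : 0 ≤ sinh t := sinh_nonneg_iff.2 ht
  have h3 := cosh_pos a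
  have h4 : 0 ≤ sinh a := sinh_nonneg_iff.2 ha
  have p1 : 0 < 2 * cosh t + sinh t := by positivity
  have p2 : 0 < 2 * cosh a + sinh a := by positivity
  field_simp

lemma h_PQ (hh : IsHilbert h) {a b : ℝ} (hb : 0 ≤ b) :
    0 ≤ h (PV a) (QH b) ∧ cosh (h (PV a) (QH b) / 2) = cosh a * cosh b := by
  obtain ⟨k0, k1⟩ := hh.spec (PV_norm a) (QH_norm hb)
  refine ⟨k0, ?_⟩
  rw [PV_sp, QH_self hb, PQ_sp hb, one_sub_tanh] at k1
  have h1 := cosh_pos b
  have h2 : 0 ≤ sinh b := sinh_nonneg_iff.2 hb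
  have h3 := cosh_pos a
  have p1 : 0 < 2 * cosh b + sinh b := by positivity
  apply (pow_left_inj₀ (cosh_pos _).le (mul_pos h3 h1).le two_ne_zero).1
  have e : 3 / 4 * (1 / cosh a ^ 2) * (3 / (2 * cosh b + sinh b) ^ 2) ≠ 0 := by positivity
  apply mul_right_cancel₀ e
  rw [k1]
  field_simp
  ring

lemma d_PV (hh : IsHilbert h) {a t : ℝ} (hat : a ≤ t) :
    dd h (PV a) (PV t) = 2 * (t - a) + kk * (tanh t - tanh a) := by
  unfold dd
  rw [h_PV hh hat]
  have e1 : (PV a).re - (PV t).re = 0 := sub_self _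
  have e2 : (PV a).im - (PV t).im = -(kk * (tanh t - tanh a)) := by unfold PV; simp only; ring
  have h1 := strictMono_tanh'.monotone hat
  rw [e1, e2, abs_zero, abs_neg, abs_of_nonneg (mul_nonneg kk_pos.le (by linarith))]
  ring

lemma d_QH (hh : IsHilbert h) {a t : ℝ} (ha : 0 ≤ a) (hat : a ≤ t) :
    dd h (QH a) (QH t) = 2 * (t - a) + (ta t - ta a) := by
  unfold dd
  rw [h_QH hh ha hat]
  have e1 : (QH a).re - (QH t).re = -(ta t - ta a) := by unfold QH; simp only; ring
  have e2 : (QH a).im - (QH t).im = 0 := sub_self _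
  have h1 := (ta_lip ha hat).2
  rw [e1, e2, abs_zero, abs_neg, abs_of_nonneg (by linarith)]
  ring

lemma d_PQ {a b : ℝ} (ha : 0 ≤ a) (hb : 0 ≤ b) :
    dd h (PV a) (QH b) = h (PV a) (QH b) + (ta b + kk * tanh a) := by
  unfold dd
  have e1 : (PV a).re - (QH b).re = -ta b := by unfold QH PV; simp only; ring
  have e2 : (PV a).im - (QH b).im = kk * tanh a := by unfold QH PV; simp only; ring
  have h1 := (ta_lip le_rfl hb).2
  rw [ta_zero] at h1
  rw [e1, e2, abs_neg, abs_of_nonneg h1, abs_of_nonneg (mul_nonneg kk_pos.le (tanh_nn ha))]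

/-- `p` is the unique point of the segment from `x` to `y` with `d x p = d p y` -/
def IsMid (d : ℂ → ℂ → ℝ) (x y p : ℂ) : Prop :=
  p ∈ segment ℝ x y ∧ d x p = d p y ∧ ∀ p' ∈ segment ℝ x y, d x p' = d p' y → p' = p

lemma PV_seg {s : ℝ} (hs : 0 < s) {p : ℂ} : p ∈ segment ℝ (PV 0) (PV s) ↔
    ∃ a, 0 ≤ a ∧ a ≤ s ∧ p = PV a := by
  have hT : 0 < tanh s := by
    have := strictMono_tanh' hs
    rwa [tanh_zero] at this
  have hk := kk_pos
  constructor
  · rintro ⟨α, β, hα, hβ, hsum, rfl⟩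
    have hβ1 : β ≤ 1 := by linarith
    have hmem : β * tanh s ∈ Icc (tanh 0) (tanh s) := by
      rw [tanh_zero]
      exact ⟨by positivity, by nlinarith⟩
    obtain ⟨a, ha, ha2⟩ := intermediate_value_Icc hs.le tanh_cont.continuousOn hmem
    refine ⟨a, ha.1, ha.2, ?_⟩
    apply Complex.ext
    · simp only [PV, Complex.add_re, Complex.smul_re, smul_eq_mul]
      linear_combination (1 / 2) * hsum
    · simp only [PV, Complex.add_im, Complex.smul_im, smul_eq_mul]
      rw [ha2, tanh_zero]; ring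
  · rintro ⟨a, ha0, has, rfl⟩
    have h1 := strictMono_tanh'.monotone has
    have h2 := tanh_nn ha0
    refine ⟨1 - tanh a / tanh s, tanh a / tanh s, ?_, by positivity, by ring, ?_⟩
    · rw [sub_nonneg, div_le_one hT]; exact h1
    · apply Complex.ext
      · simp only [PV, Complex.add_re, Complex.smul_re, smul_eq_mul]; ring
      · simp only [PV, Complex.add_im, Complex.smul_im, smul_eq_mul]
        rw [tanh_zero]; field_simp; ring

lemma QH_seg {s : ℝ} (hs : 0 < s) (hs' : s ≤ 1) {p : ℂ} : p ∈ segment ℝ (QH 0) (QH s) ↔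
    ∃ a, 0 ≤ a ∧ a ≤ s ∧ p = QH a := by
  have hT : 0 < ta s := by
    have := le_ta hs.le hs'
    linarith
  constructor
  · rintro ⟨α, β, hα, hβ, hsum, rfl⟩
    have hβ1 : β ≤ 1 := by linarith
    have hmem : β * ta s ∈ Icc (ta 0) (ta s) := by
      rw [ta_zero]
      exact ⟨by positivity, by nlinarith⟩
    obtain ⟨a, ha, ha2⟩ := intermediate_value_Icc hs.le
      (ta_cont.mono fun x hx => mem_Ici.2 hx.1) hmem
    refine ⟨a, ha.1, ha.2, ?_⟩
    apply Complex.ext
    · simp only [QH, Complex.add_re, Complex.smul_re, smul_eq_mul]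
      rw [ha2, ta_zero]
      linear_combination (1 / 2) * hsum
    · simp only [QH, Complex.add_im, Complex.smul_im, smul_eq_mul]
      ring
  · rintro ⟨a, ha0, has, rfl⟩
    have h1 := (ta_lip ha0 has).2
    have h2 := (ta_lip le_rfl ha0).2
    rw [ta_zero] at h2
    refine ⟨1 - ta a / ta s, ta a / ta s, ?_, by positivity, by ring, ?_⟩
    · rw [sub_nonneg, div_le_one hT]; exact h1
    · apply Complex.ext
      · simp only [QH, Complex.add_re, Complex.smul_re, smul_eq_mul]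
        rw [ta_zero]; field_simp; ring
      · simp only [QH, Complex.add_im, Complex.smul_im, smul_eq_mul]; ring

lemma mid_PV (hh : IsHilbert h) {s a : ℝ} (hs : 0 < s) (ha0 : 0 ≤ a) (has : a ≤ s)
    (ha : 2 * a + kk * tanh a = s + kk / 2 * tanh s) : IsMid (dd h) (PV 0) (PV s) (PV a) := by
  refine ⟨(PV_seg hs).2 ⟨a, ha0, has, rfl⟩, ?_, ?_⟩
  · rw [d_PV hh ha0, d_PV hh has, tanh_zero]; linarith
  · intro p' hp' he
    obtain ⟨a', ha'0, ha's, rfl⟩ := (PV_seg hs).1 hp'
    rw [d_PV hh ha'0, d_PV hh ha's, tanh_zero] at he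
    have hk := kk_pos
    have : a' = a := by
      rcases lt_trichotomy a' a with hlt | heq | hgt
      · have := mul_lt_mul_of_pos_left (strictMono_tanh' hlt) hk
        linarith
      · exact heq
      · have := mul_lt_mul_of_pos_left (strictMono_tanh' hgt) hk
        linarith
    rw [this]

lemma mid_QH (hh : IsHilbert h) {s a : ℝ} (hs : 0 < s) (hs' : s ≤ 1) (ha0 : 0 ≤ a) (has : a ≤ s)
    (ha : 2 * a + ta a = s + ta s / 2) : IsMid (dd h) (QH 0) (QH s) (QH a) := by
  refine ⟨(QH_seg hs hs').2 ⟨a, ha0, has, rfl⟩, ?_, ?_⟩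
  · rw [d_QH hh le_rfl ha0, d_QH hh ha0 has, ta_zero]; linarith
  · intro p' hp' he
    obtain ⟨a', ha'0, ha's, rfl⟩ := (QH_seg hs hs').1 hp'
    rw [d_QH hh le_rfl ha'0, d_QH hh ha'0 ha's, ta_zero] at he
    have : a' = a := by
      rcases lt_trichotomy a' a with hlt | heq | hgt
      · have := (ta_lip ha'0 hlt.le).2
        linarith
      · exact heq
      · have := (ta_lip ha0 hgt.le).2
        linarith
    rw [this]

/-- **Main theorem** -/
theorem main (hh : IsHilbert h) : ‖(1 / 2 : ℂ)‖ < 1 ∧ ∀ ε > 0, ∃ y z p q : ℂ,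
    ‖y‖ < 1 ∧ ‖z‖ < 1 ∧ ‖y - 1 / 2‖ < ε ∧ ‖z - 1 / 2‖ < ε ∧ dd h (1 / 2) y < ε ∧
    dd h (1 / 2) z < ε ∧ IsMid (dd h) (1 / 2) y p ∧ IsMid (dd h) (1 / 2) z q ∧
    dd h y z < 2 * dd h p q := by
  have x1 : (1 / 2 : ℂ) = PV 0 := by
    apply Complex.ext
    · unfold PV; simp
    · unfold PV; rw [tanh_zero]; simp
  have x2 : (1 / 2 : ℂ) = QH 0 := by
    apply Complex.ext
    · unfold QH; rw [ta_zero]; simp
    · unfold QH; simp
  refine ⟨by rw [x1]; exact PV_norm 0, fun ε hε => ?_⟩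
  obtain ⟨s, hsd⟩ : ∃ s, s = min (ε / 4) (1 / 641) := ⟨_, rfl⟩
  have hs : 0 < s := by rw [hsd]; exact lt_min (by linarith) (by norm_num)
  have hs1 : s ≤ ε / 4 := by rw [hsd]; exact min_le_left _ _
  have hs2 : s ≤ 1 / 641 := by rw [hsd]; exact min_le_right _ _
  have hs3 : s < 1 / 640 := by linarith
  have hT0 := tanh_nn hs.le
  have hT := tanh_le hs.le
  have hk := kk_pos
  have hk1 := kk_le
  have hta0 : 0 ≤ ta s := by have := le_ta hs.le (by linarith); linarith
  have hta := ta_le hs.le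
  have hkT : kk * tanh s ≤ s := by nlinarith
  have hkT0 : 0 ≤ kk * tanh s := by positivity
  -- the midpoint parameters
  obtain ⟨a, ⟨ha0, has⟩, ha⟩ : ∃ a ∈ Icc 0 s, 2 * a + kk * tanh a = s + kk / 2 * tanh s := by
    have hc : ContinuousOn (fun a => 2 * a + kk * tanh a) (Icc 0 s) :=
      ((continuous_const.mul continuous_id).add (continuous_const.mul tanh_cont)).continuousOn
    have hmem : s + kk / 2 * tanh s ∈ Icc (2 * 0 + kk * tanh 0) (2 * s + kk * tanh s) := by
      rw [tanh_zero]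
      constructor <;> linarith
    exact intermediate_value_Icc hs.le hc hmem
  obtain ⟨b, ⟨hb0, hbs⟩, hb⟩ : ∃ b ∈ Icc 0 s, 2 * b + ta b = s + ta s / 2 := by
    have hc : ContinuousOn (fun b => 2 * b + ta b) (Icc 0 s) :=
      (continuous_const.mul continuous_id).continuousOn.add
        (ta_cont.mono fun x hx => mem_Ici.2 hx.1)
    have hmem : s + ta s / 2 ∈ Icc (2 * 0 + ta 0) (2 * s + ta s) := by
      rw [ta_zero]
      constructor <;> linarith
    exact intermediate_value_Icc hs.le hc hmem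
  refine ⟨PV s, QH s, PV a, QH b, PV_norm s, QH_norm hs.le, ?_, ?_, ?_, ?_, ?_, ?_, ?_⟩
  · have e : PV s - 1 / 2 = ((kk * tanh s : ℝ) : ℂ) * Complex.I := by
      apply Complex.ext
      · simp only [PV, Complex.sub_re, Complex.mul_re, Complex.ofReal_re, Complex.ofReal_im,
          Complex.I_re, Complex.I_im]
        norm_num
      · simp only [PV, Complex.sub_im, Complex.mul_im, Complex.ofReal_re, Complex.ofReal_im,
          Complex.I_re, Complex.I_im]
        norm_num
    rw [e, norm_mul, Complex.norm_I, Complex.norm_real, Real.norm_eq_abs, abs_of_nonneg hkT0]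
    linarith
  · have e : QH s - 1 / 2 = ((ta s : ℝ) : ℂ) := by
      apply Complex.ext
      · simp only [QH, Complex.sub_re, Complex.ofReal_re]
        norm_num
      · simp only [QH, Complex.sub_im, Complex.ofReal_im]
        norm_num
    rw [e, Complex.norm_real, Real.norm_eq_abs, abs_of_nonneg hta0]
    linarith
  · rw [x1, d_PV hh hs.le, tanh_zero]; linarith
  · rw [x2, d_QH hh le_rfl hs.le, ta_zero]; linarith
  · rw [x1]; exact mid_PV hh hs ha0 has ha
  · rw [x2]; exact mid_QH hh hs (by linarith) hb0 hbs hb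
  · obtain ⟨c0, c1⟩ := h_PQ hh (a := s) hs.le
    obtain ⟨c2, c3⟩ := h_PQ hh (a := a) hb0
    have hkey := key hs hs3 ha0 hb0 ha hb (C := h (PV s) (QH s) / 2)
      (C' := h (PV a) (QH b) / 2) (by linarith) (by linarith) (by rw [c1]; ring) c3
    rw [d_PQ hs.le hs.le, d_PQ ha0 hb0]
    linarith

end Pool.Agent.R762.Bus
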