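import Mathlib

/-!
# Covering subgroups of a normal subgroup with a series of abelian or bounded factors
-/

set_option autoImplicit false

namespace Pool.Agent.R762.Cov

universe u

open Subgroup

section

variable {A : Type u} [Group A] [Finite A]

/-- if every element of `K` is conjugate into `W` and `S` normalises `W` then
`|K| ≤ [A:S] |W|` -/
lemma card_le_of_conj (K W S : Subgroup A)
    (hS : ∀ s ∈ S, ∀ w ∈ W, s * w * s⁻¹ ∈ W)
    (hK : ∀ k ∈ K, ∃ a : A, a * k * a⁻¹ ∈ W) :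
    Nat.card K ≤ S.index * Nat.card W := by
  classical
  have key : ∀ k : K, ∃ p : (A ⧸ S) × W, p.1.out * (p.2 : A) * p.1.out⁻¹ = (k : A) := by
    intro k
    obtain ⟨a, ha⟩ := hK k k.2
    obtain ⟨s, hs⟩ := QuotientGroup.mk_out_eq_mul S a⁻¹
    refine ⟨(((a⁻¹ : A) : A ⧸ S), ⟨(s : A)⁻¹ * (a * k * a⁻¹) * s, ?_⟩), ?_⟩
    · have := hS (s : A)⁻¹ (S.inv_mem s.2) _ ha
      simpa using this
    · simp only
      rw [hs]
      group
  choose f hf using key
  have hinj : Function.Injective f := by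
    intro k k' h
    apply Subtype.ext
    rw [← hf k, ← hf k', h]
  calc Nat.card K ≤ Nat.card ((A ⧸ S) × W) := Nat.card_le_card_of_injective f hinj
    _ = S.index * Nat.card W := by rw [Nat.card_prod]; rfl

omit [Finite A] in
lemma card_mul_relIndex_of_le (P Q : Subgroup A) (h : P ≤ Q) :
    Nat.card P * P.relIndex Q = Nat.card Q := by
  have h1 := relIndex_mul_relIndex (⊥ : Subgroup A) P Q bot_le h
  rwa [relIndex_bot_left, relIndex_bot_left] at h1

omit [Finite A] in
lemma card_inf_mul_relIndex (P Q : Subgroup A) :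
    Nat.card ↥(P ⊓ Q) * P.relIndex Q = Nat.card Q := by
  have h := card_mul_relIndex_of_le (P ⊓ Q) Q inf_le_right
  rwa [inf_relIndex_right] at h

lemma relIndex_sup_mul_card (V K : Subgroup A) [K.Normal] :
    V.relIndex (V ⊔ K) * Nat.card ↥(V ⊓ K) = Nat.card K := by
  have h1 := card_mul_relIndex_of_le K (V ⊔ K) le_sup_right
  rw [relIndex_sup_right] at h1
  have h2 := card_mul_relIndex_of_le V (V ⊔ K) le_sup_left
  have h3 := card_inf_mul_relIndex K V
  rw [inf_comm] at h3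
  have hV : 0 < Nat.card V := Nat.card_pos
  apply Nat.eq_of_mul_eq_mul_left hV
  calc Nat.card V * (V.relIndex (V ⊔ K) * Nat.card ↥(V ⊓ K))
      = (Nat.card V * V.relIndex (V ⊔ K)) * Nat.card ↥(V ⊓ K) := by ring
    _ = (Nat.card K * K.relIndex V) * Nat.card ↥(V ⊓ K) := by rw [h2, ← h1]
    _ = (Nat.card ↥(V ⊓ K) * K.relIndex V) * Nat.card K := by ring
    _ = Nat.card V * Nat.card K := by rw [h3]

lemma step_abelian (H U M K : Subgroup A) [M.Normal] [K.Normal]
    (hMK : M ≤ K) (hKH : K ≤ H) (hUH : U ≤ H)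
    (hcov : ∀ h ∈ H, ∃ a : A, a * h * a⁻¹ ∈ U)
    (hab : ⁅K, K⁆ ≤ M) :
    (U ⊔ M).relIndex (U ⊔ K) ≤ (U ⊔ K).relIndex H * H.index := by
  have hVK : (U ⊔ M) ⊔ K = U ⊔ K := by rw [sup_assoc, sup_eq_right.mpr hMK]
  have hSH : U ⊔ K ≤ H := sup_le hUH hKH
  rw [relIndex_mul_index hSH]
  have hW := relIndex_sup_mul_card (U ⊔ M) K
  rw [hVK] at hW
  have hcard : Nat.card K ≤ (U ⊔ K).index * Nat.card ↥((U ⊔ M) ⊓ K) := by
    apply card_le_of_conj
    · intro s hs w hw
      rw [← hVK] at hs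
      obtain ⟨v, hv, k, hk, rfl⟩ := mem_sup_of_normal_right.mp hs
      have hkw : k * w * k⁻¹ ∈ (U ⊔ M) ⊓ K := by
        have e : k * w * k⁻¹ = (k * w * k⁻¹ * w⁻¹) * w := by group
        rw [e]
        have hc : k * w * k⁻¹ * w⁻¹ ∈ M := hab (commutator_mem_commutator hk hw.2)
        exact Subgroup.mul_mem _ ⟨(le_sup_right : M ≤ U ⊔ M) hc, hMK hc⟩ hw
      have e2 : v * k * w * (v * k)⁻¹ = v * (k * w * k⁻¹) * v⁻¹ := by group
      rw [e2]
      refine ⟨(U ⊔ M).mul_mem ((U ⊔ M).mul_mem hv hkw.1) ((U ⊔ M).inv_mem hv), ?_⟩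
      exact Normal.conj_mem inferInstance _ hkw.2 v
    · intro k hk
      obtain ⟨a, ha⟩ := hcov k (hKH hk)
      exact ⟨a, (le_sup_left : U ≤ U ⊔ M) ha, Normal.conj_mem inferInstance _ hk a⟩
  have hpos : 0 < Nat.card ↥((U ⊔ M) ⊓ K) := Nat.card_pos
  apply Nat.le_of_mul_le_mul_right _ hpos
  rw [hW]
  exact hcard

lemma step_bounded (U M K : Subgroup A) [K.Normal] (hMK : M ≤ K) :
    (U ⊔ M).relIndex (U ⊔ K) ≤ M.relIndex K := by
  have hVK : (U ⊔ M) ⊔ K = U ⊔ K := by rw [sup_assoc, sup_eq_right.mpr hMK]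
  have hW := relIndex_sup_mul_card (U ⊔ M) K
  rw [hVK] at hW
  have hM := card_mul_relIndex_of_le M K hMK
  have hle : Nat.card M ≤ Nat.card ↥((U ⊔ M) ⊓ K) :=
    Subgroup.card_le_of_le (le_inf le_sup_right hMK)
  have hpos : 0 < Nat.card ↥((U ⊔ M) ⊓ K) := Nat.card_pos
  apply Nat.le_of_mul_le_mul_right _ hpos
  rw [hW, ← hM, mul_comm]
  exact Nat.mul_le_mul_left _ hle

end

/-- the bound for a series of abelian or bounded factors -/
theorem series_bound (d c : ℕ) (A : Type u) [Group A] [Finite A] (H U : Subgroup A)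
    (N : ℕ → Subgroup A) (hUH : U ≤ H)
    (hcov : ∀ h ∈ H, ∃ a : A, a * h * a⁻¹ ∈ U)
    (hN : ∀ i, (N i).Normal) (h0 : N 0 = ⊥) (hd : N d = H)
    (hs : ∀ i < d, N i ≤ N (i + 1) ∧
      (⁅N (i + 1), N (i + 1)⁆ ≤ N i ∨ (N i).relIndex (N (i + 1)) ≤ c)) :
    U.relIndex H ≤ (max H.index c) ^ (2 ^ d - 1) := by
  set m := max H.index c with hm
  have hm1 : 1 ≤ m := by
    have : H.index ≠ 0 := Subgroup.index_ne_zero_of_finite
    omega
  have key : ∀ j ≤ d, N (d - j) ≤ H ∧ (U ⊔ N (d - j)).relIndex H ≤ m ^ (2 ^ j - 1) := by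
    intro j
    induction j with
    | zero =>
      intro _
      simp only [Nat.sub_zero, hd, pow_zero, le_refl, true_and]
      rw [sup_eq_right.mpr hUH, relIndex_self]
      simp
    | succ j ih =>
      intro hj
      obtain ⟨ih1, ih2⟩ := ih (by omega)
      set i := d - (j + 1) with hi
      have hij : d - j = i + 1 := by omega
      rw [hij] at ih1 ih2
      obtain ⟨hle, hf⟩ := hs i (by omega)
      refine ⟨hle.trans ih1, ?_⟩
      have hmul := relIndex_mul_relIndex (U ⊔ N i) (U ⊔ N (i + 1)) H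
        (sup_le_sup_left hle U) (sup_le hUH ih1)
      rw [← hmul]
      have := hN i
      have := hN (i + 1)
      have hp1 : 1 ≤ 2 ^ j := Nat.one_le_two_pow
      have hexp : 2 ^ (j + 1) - 1 = (2 ^ j - 1) + 1 + (2 ^ j - 1) := by
        rw [pow_succ]; omega
      rcases hf with hab | hb
      · have h1 := step_abelian H U (N i) (N (i + 1)) hle ih1 hUH hcov hab
        calc (U ⊔ N i).relIndex (U ⊔ N (i + 1)) * (U ⊔ N (i + 1)).relIndex H
            ≤ ((U ⊔ N (i + 1)).relIndex H * H.index) * (U ⊔ N (i + 1)).relIndex H :=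
              Nat.mul_le_mul_right _ h1
          _ ≤ (m ^ (2 ^ j - 1) * m) * m ^ (2 ^ j - 1) :=
              Nat.mul_le_mul (Nat.mul_le_mul ih2 (le_max_left _ _)) ih2
          _ = m ^ (2 ^ (j + 1) - 1) := by rw [hexp, pow_add, pow_succ]
      · have h1 := (step_bounded U (N i) (N (i + 1)) hle).trans hb
        calc (U ⊔ N i).relIndex (U ⊔ N (i + 1)) * (U ⊔ N (i + 1)).relIndex H
            ≤ m * m ^ (2 ^ j - 1) := Nat.mul_le_mul (h1.trans (le_max_right _ _)) ih2
          _ = m ^ (2 ^ j - 1 + 1) := by rw [pow_succ]; ring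
          _ ≤ m ^ (2 ^ (j + 1) - 1) := Nat.pow_le_pow_right hm1 (by omega)
  have h := (key d le_rfl).2
  rw [Nat.sub_self, h0, sup_bot_eq] at h
  exact h

/-- the bound in terms of the derived length -/
theorem solvable_bound (d : ℕ) (A : Type u) [Group A] [Finite A] (H U : Subgroup A)
    (hH : H.Normal) (hUH : U ≤ H)
    (hcov : ∀ h ∈ H, ∃ a : A, a * h * a⁻¹ ∈ U)
    (hder : derivedSeries H d = ⊥) :
    U.relIndex H ≤ H.index ^ (2 ^ d - 1) := by
  have h := series_bound d 0 A H U (fun i => (derivedSeries H (d - i)).map H.subtype) hUH hcov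
    (fun i => inferInstance) (by simp [hder]) (by
      simp [← MonoidHom.range_eq_map]) (by
      intro i hi
      refine ⟨Subgroup.map_mono (derivedSeries_antitone H (by omega)), Or.inl ?_⟩
      rw [← Subgroup.map_commutator]
      have e : d - i = (d - (i + 1)) + 1 := by omega
      rw [e, derivedSeries_succ])
  simpa using h

end Pool.Agent.R762.Cov
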