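import Pool.Agent.R762.Cov

/-!
# Covering subgroups which are subnormal
-/

set_option autoImplicit false

namespace Pool.Agent.R762.CovSub

universe u

open Subgroup

/-- the bounding function -/
def bd : ℕ → ℕ → ℕ
  | 0, _ => 1
  | k + 1, n => Nat.factorial (n ^ 2) *
      (Finset.range (Nat.factorial (n ^ 2) + 1)).sup (bd k)

lemma index_normalCore_le {A : Type u} [Group A] [Finite A] (N : Subgroup A) :
    N.normalCore.index ≤ Nat.factorial N.index := by
  classical
  rw [normalCore_eq_ker, index_ker]
  calc Nat.card (MulAction.toPermHom A (A ⧸ N)).range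
      ≤ Nat.card (Equiv.Perm (A ⧸ N)) := Nat.card_le_card_of_injective _ Subtype.coe_injective
    _ = Nat.factorial (Nat.card (A ⧸ N)) := Nat.card_perm
    _ = Nat.factorial N.index := rfl

theorem bound (k : ℕ) : ∀ (A : Type u) [Group A] [Finite A] (H U : Subgroup A)
    (T : ℕ → Subgroup A), H.Normal →
    (∀ h ∈ H, ∃ a : A, a * h * a⁻¹ ∈ U) → T 0 = U → T k = H →
    (∀ i < k, T i ≤ T (i + 1) ∧ ∀ x ∈ T (i + 1), ∀ t ∈ T i, x * t * x⁻¹ ∈ T i) →
    U.relIndex H ≤ bd k H.index := by
  induction k with
  | zero =>
    intro A _ _ H U T hH hcov h0 hk hs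
    have : U = H := by rw [← h0, hk]
    rw [this, relIndex_self]
    exact le_rfl
  | succ k ih =>
    intro A _ _ H U T hH hcov h0 hk hs
    set n := H.index with hn
    set N := T k with hN
    obtain ⟨hNH, hnorm⟩ := hs k (by omega)
    rw [hk] at hNH hnorm
    -- U ≤ N
    have hmono : ∀ j, j ≤ k → T (k - j) ≤ N := by
      intro j
      induction j with
      | zero => intro _; exact le_rfl
      | succ j ihj =>
        intro hj
        have h1 := (hs (k - (j + 1)) (by omega)).1
        have e : k - (j + 1) + 1 = k - j := by omega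
        rw [e] at h1
        exact h1.trans (ihj (by omega))
    have hUN : U ≤ N := by
      have := hmono k le_rfl
      rwa [Nat.sub_self, h0] at this
    -- index of N
    have hcard : Nat.card H ≤ n * Nat.card N := by
      apply Cov.card_le_of_conj H N H
      · intro s hs1 w hw
        exact hnorm s hs1 w hw
      · intro h hh
        obtain ⟨a, ha⟩ := hcov h hh
        exact ⟨a, hUN ha⟩
    have hrel : N.relIndex H ≤ n := by
      have h1 := Cov.card_mul_relIndex_of_le N H hNH
      have hpos : 0 < Nat.card N := Nat.card_pos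
      apply Nat.le_of_mul_le_mul_left _ hpos
      rw [h1, mul_comm]
      exact hcard
    have hNi : N.index ≤ n ^ 2 := by
      rw [← relIndex_mul_index hNH, pow_two]
      exact Nat.mul_le_mul_right _ hrel
    set M := N.normalCore with hM
    have hMN : M ≤ N := normalCore_le N
    have hMi : M.index ≤ Nat.factorial (n ^ 2) :=
      (index_normalCore_le N).trans (Nat.factorial_le hNi)
    have hMnorm : M.Normal := normalCore_normal N
    have key := ih A M (U ⊓ M) (fun i => T i ⊓ M) hMnorm (by
      intro h hh
      obtain ⟨a, ha⟩ := hcov h (hNH (hMN hh))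
      exact ⟨a, ha, hMnorm.conj_mem _ hh a⟩) (by simp only [h0]) (inf_eq_right.mpr hMN) (by
      intro i hi
      obtain ⟨h1, h2⟩ := hs i (by omega)
      refine ⟨inf_le_inf_right M h1, ?_⟩
      rintro x ⟨hx1, hx2⟩ t ⟨ht1, ht2⟩
      exact ⟨h2 x hx1 t ht1, hMnorm.conj_mem _ ht2 x⟩)
    have hsup : bd k M.index ≤
        (Finset.range (Nat.factorial (n ^ 2) + 1)).sup (bd k) :=
      Finset.le_sup (f := bd k) (Finset.mem_range.mpr (by omega))
    have hUi : U.index ≤ Nat.factorial (n ^ 2) *
        (Finset.range (Nat.factorial (n ^ 2) + 1)).sup (bd k) := by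
      have h1 : (U ⊓ M).relIndex M * M.index = (U ⊓ M).index := relIndex_mul_index inf_le_right
      have h2 : U.index ≤ (U ⊓ M).index :=
        Nat.le_of_dvd (Nat.pos_of_ne_zero index_ne_zero_of_finite)
          (index_dvd_of_le inf_le_left)
      calc U.index ≤ (U ⊓ M).index := h2
        _ = (U ⊓ M).relIndex M * M.index := h1.symm
        _ ≤ bd k M.index * Nat.factorial (n ^ 2) := Nat.mul_le_mul key hMi
        _ ≤ (Finset.range (Nat.factorial (n ^ 2) + 1)).sup (bd k) * Nat.factorial (n ^ 2) :=
            Nat.mul_le_mul_right _ hsup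
        _ = _ := mul_comm _ _
    have hle : U.relIndex H ≤ U.index := by
      rw [← relIndex_mul_index (hUN.trans hNH)]
      exact Nat.le_mul_of_pos_right _ (Nat.pos_of_ne_zero index_ne_zero_of_finite)
    exact hle.trans hUi

end Pool.Agent.R762.CovSub
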