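import Mathlib

/-! Squares in a region between two Lipschitz graphs that meet at a tip: the area argument. -/

set_option autoImplicit false
set_option maxHeartbeats 1000000
open Set

namespace Pool.Agent.R762.Cu

/-- two graphs with small slopes that meet at a tip and that carry no square of a certain kind -/
structure Tip (f g : ℝ → ℝ) (δ : ℝ) : Prop where
  δ0 : 0 < δ
  lf : ∀ x y, |f x - f y| ≤ |x - y| / 4
  lg : ∀ x y, |g x - g y| ≤ |x - y| / 4
  f0 : ∀ x ≤ 0, f x = 0
  g0 : ∀ x ≤ 0, g x = 0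
  lt : ∀ x, 0 < x → x ≤ δ → f x < g x
  nosq : ∀ t τ α κ, t ∈ Icc 0 δ → τ ∈ Icc 0 δ → α ∈ Icc 0 δ → κ ∈ Icc 0 δ → τ < t →
    α = t + (g t - g τ) → f α = g t - (t - τ) → κ = τ + (g t - g τ) → f κ = g τ - (t - τ) → False

variable {f g : ℝ → ℝ} {δ : ℝ}

theorem cont_of_lip {φ : ℝ → ℝ} (h : ∀ x y, |φ x - φ y| ≤ |x - y| / 4) : Continuous φ := by
  have : LipschitzWith (1/4) φ := LipschitzWith.of_dist_le_mul fun x y => by
    rw [Real.dist_eq, Real.dist_eq]
    have := h x y
    push_cast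
    linarith
  exact this.continuous

/-- `τ` is the abscissa of the second vertex for `t` -/
def Root (f g : ℝ → ℝ) (t τ : ℝ) : Prop := 0 ≤ τ ∧ τ ≤ t ∧ g t - (t - τ) = f (t + (g t - g τ))

theorem Tip.exists_root (T : Tip f g δ) {t : ℝ} (h0 : 0 ≤ t) (h1 : t ≤ δ) : ∃ τ, Root f g t τ := by
  have cf := cont_of_lip T.lf
  have cg := cont_of_lip T.lg
  rcases eq_or_lt_of_le h0 with h | h
  · refine ⟨0, le_rfl, h0, ?_⟩
    rw [← h, T.g0 0 le_rfl, sub_self, sub_self, T.f0 _ (by norm_num)]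
  · have hψ : ContinuousOn (fun τ => g t - (t - τ) - f (t + (g t - g τ))) (Icc 0 t) := by fun_prop
    have e0 : g t - (t - 0) - f (t + (g t - g 0)) ≤ 0 := by
      have k1 := abs_le.1 (T.lg t 0)
      have k2 := abs_le.1 (T.lf (t + (g t - g 0)) 0)
      rw [T.g0 0 le_rfl, sub_zero, sub_zero, abs_of_pos h] at k1
      rw [T.g0 0 le_rfl, T.f0 0 le_rfl, sub_zero, sub_zero, sub_zero,
        abs_of_nonneg (by linarith)] at k2
      rw [T.g0 0 le_rfl, sub_zero, sub_zero]
      linarith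
    have e1 : 0 ≤ g t - (t - t) - f (t + (g t - g t)) := by
      have := T.lt t h h1
      rw [sub_self, sub_self, sub_zero, add_zero]
      linarith
    obtain ⟨τ, hτ, e⟩ := intermediate_value_Icc h0 hψ (show (0:ℝ) ∈ Icc _ _ from ⟨e0, e1⟩)
    exact ⟨τ, hτ.1, hτ.2, by linarith⟩

theorem Tip.diff (T : Tip f g δ) {t t' τ τ' : ℝ} (h : t' < t) (e : g t - (t - τ) = f (t + (g t - g τ)))
    (e' : g t' - (t' - τ') = f (t' + (g t' - g τ'))) :
    7 / 17 * (t - t') ≤ τ - τ' ∧ τ - τ' ≤ 5 / 3 * (t - t') ∧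
    (t - t') / 17 ≤ (τ + (g t - g τ)) - (τ' + (g t' - g τ')) ∧
    (τ + (g t - g τ)) - (τ' + (g t' - g τ')) ≤ 7 / 3 * (t - t') ∧
    |(t + (g t - g τ)) - (t' + (g t' - g τ'))| ≤ 5 / 3 * (t - t') := by
  have k1 := T.lg t t'
  have k2 := T.lg τ τ'
  have k3 := T.lf (t + (g t - g τ)) (t' + (g t' - g τ'))
  rw [← e, ← e'] at k3
  rw [abs_of_pos (sub_pos.2 h)] at k1
  have k4 : |(t + (g t - g τ)) - (t' + (g t' - g τ'))| ≤ (t - t') * 5 / 4 + |τ - τ'| / 4 := by
    rw [abs_le] at k1 k2 ⊢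
    constructor <;> linarith
  have k5 : |g t - (t - τ) - (g t' - (t' - τ'))| ≤ ((t - t') * 5 / 4 + |τ - τ'| / 4) / 4 :=
    k3.trans (by linarith)
  have pos : 0 < τ - τ' := by
    by_contra hcon
    push Not at hcon
    rw [abs_of_nonpos hcon] at k5 k2
    rw [abs_le] at k1 k2 k5
    linarith [k1.1, k1.2, k5.1, k5.2]
  rw [abs_of_pos pos] at k2 k4 k5
  rw [abs_le] at k1 k2 k5
  obtain ⟨a1, a2⟩ := k1
  obtain ⟨b1, b2⟩ := k2
  obtain ⟨c1, c2⟩ := k5
  refine ⟨by linarith, by linarith, by linarith, by linarith, k4.trans (by linarith)⟩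

theorem Tip.uniq (T : Tip f g δ) {t τ τ' : ℝ} (e : g t - (t - τ) = f (t + (g t - g τ)))
    (e' : g t - (t - τ') = f (t + (g t - g τ'))) : τ = τ' := by
  have k2 := T.lg τ τ'
  have k3 := T.lf (t + (g t - g τ)) (t + (g t - g τ'))
  rw [← e, ← e'] at k3
  have k4 : |t + (g t - g τ) - (t + (g t - g τ'))| ≤ |τ - τ'| / 4 := by
    rw [abs_le] at k2 ⊢
    constructor <;> linarith
  have k5 : g t - (t - τ) - (g t - (t - τ')) = τ - τ' := by ring
  rw [k5] at k3
  have : |τ - τ'| ≤ 0 := by linarith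
  have := abs_eq_zero.1 (le_antisymm this (abs_nonneg _))
  linarith

theorem trap {φ : ℝ → ℝ} (h : ∀ x y, |φ x - φ y| ≤ |x - y| / 4) (x y : ℝ) :
    |(∫ z in x..y, φ z) - (y - x) * ((φ x + φ y) / 2)| ≤ (y - x) ^ 2 / 8 := by
  have c := cont_of_lip h
  have e : (∫ z in x..y, φ z) - (y - x) * ((φ x + φ y) / 2) =
      ∫ z in x..y, (φ z - (φ x + φ y) / 2) := by
    rw [intervalIntegral.integral_sub (c.intervalIntegrable _ _)
      (continuous_const.intervalIntegrable _ _), intervalIntegral.integral_const, smul_eq_mul]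
  rw [e, ← Real.norm_eq_abs]
  have := intervalIntegral.norm_integral_le_of_norm_le_const (a := x) (b := y)
    (f := fun z => φ z - (φ x + φ y) / 2) (C := |y - x| / 8) (fun z hz => by
      rw [Real.norm_eq_abs]
      have k1 := h z x
      have k2 := h z y
      rcases le_total x y with hxy | hxy
      · rw [uIoc_of_le hxy] at hz
        rw [abs_of_nonneg (by linarith [hz.1] : 0 ≤ z - x)] at k1
        rw [abs_of_nonpos (by linarith [hz.2] : z - y ≤ 0)] at k2
        rw [abs_of_nonneg (by linarith : 0 ≤ y - x)]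
        rw [abs_le] at *
        constructor <;> linarith
      · rw [uIoc_of_ge hxy] at hz
        rw [abs_of_nonpos (by linarith [hz.2] : z - x ≤ 0)] at k1
        rw [abs_of_nonneg (by linarith [hz.1] : 0 ≤ z - y)] at k2
        rw [abs_of_nonpos (by linarith : y - x ≤ 0)]
        rw [abs_le] at *
        constructor <;> linarith)
  refine this.trans (le_of_eq ?_)
  rw [div_mul_eq_mul_div, ← sq, sq_abs]

/-- one sided bound from the right end -/
theorem int_le {φ : ℝ → ℝ} (h : ∀ x y, |φ x - φ y| ≤ |x - y| / 4) {x y : ℝ} (hxy : x ≤ y) :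
    ∫ z in x..y, φ z ≤ (y - x) * φ y + (y - x) ^ 2 / 8 := by
  have c := cont_of_lip h
  have h1 : ∫ z in x..y, φ z ≤ ∫ z in x..y, (φ y + (y - z) / 4) := by
    refine intervalIntegral.integral_mono_on hxy (c.intervalIntegrable _ _)
      (Continuous.intervalIntegrable (by fun_prop) _ _) fun z hz => ?_
    have := abs_le.1 (h z y)
    rw [abs_of_nonpos (by linarith [hz.2] : z - y ≤ 0)] at this
    linarith [this.2]
  have h2 : ∫ z in x..y, (φ y + (y - z) / 4) = (y - x) * φ y + (y - x) ^ 2 / 8 := by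
    have hd : ∀ z ∈ uIcc x y, HasDerivAt (fun z => φ y * z - (y - z) ^ 2 / 8)
        (φ y + (y - z) / 4) z := fun z _ => by
      have h1 : HasDerivAt (fun z : ℝ => y - z) (-1) z := by
        simpa using (hasDerivAt_id z).const_sub y
      have h2 := ((hasDerivAt_id z).const_mul (φ y)).sub ((h1.pow 2).div_const 8)
      exact h2.congr_deriv (by push_cast; ring)
    rw [intervalIntegral.integral_eq_sub_of_hasDerivAt hd
      (Continuous.intervalIntegrable (by fun_prop) _ _)]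
    ring
  linarith

theorem quad_drop {Φ : ℝ → ℝ} {K t0 : ℝ} (h0 : 0 < t0)
    (H : ∀ s t, 0 ≤ s → s < t → t ≤ t0 → Φ t - Φ s ≤ K * (t - s) ^ 2) : Φ t0 ≤ Φ 0 := by
  by_contra hcon
  push Not at hcon
  obtain ⟨N, hN⟩ := exists_nat_gt (K * t0 ^ 2 / (Φ t0 - Φ 0))
  have hd : 0 < Φ t0 - Φ 0 := by linarith
  rw [div_lt_iff₀ hd] at hN
  have key : ∀ M : ℕ, 0 < M → K * t0 ^ 2 < M * (Φ t0 - Φ 0) → False := by
    intro M hM hM2
    have hM' : (0:ℝ) < M := by exact_mod_cast hM
    have h1 : ∑ i ∈ Finset.range M, (Φ (((i + 1 : ℕ) : ℝ) * (t0 / M)) - Φ ((i : ℝ) * (t0 / M))) =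
        Φ t0 - Φ 0 := by
      rw [Finset.sum_range_sub (fun i : ℕ => Φ ((i : ℝ) * (t0 / M)))]
      rw [Nat.cast_zero, zero_mul, mul_div_cancel₀ _ hM'.ne']
    have h2 : ∑ i ∈ Finset.range M, (Φ (((i + 1 : ℕ) : ℝ) * (t0 / M)) - Φ ((i : ℝ) * (t0 / M))) ≤
        ∑ i ∈ Finset.range M, K * (t0 / M) ^ 2 := by
      refine Finset.sum_le_sum fun i hi => ?_
      have hi' := Finset.mem_range.1 hi
      have hq : 0 < t0 / M := by positivity
      have := H (i * (t0 / M)) (((i + 1 : ℕ) : ℝ) * (t0 / M)) (by positivity)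
        (by push_cast; nlinarith) (by
          have : ((i + 1 : ℕ) : ℝ) ≤ M := by exact_mod_cast hi'
          calc ((i + 1 : ℕ) : ℝ) * (t0 / M) ≤ M * (t0 / M) := mul_le_mul_of_nonneg_right this hq.le
            _ = t0 := mul_div_cancel₀ _ hM'.ne')
      have e : ((i + 1 : ℕ) : ℝ) * (t0 / M) - i * (t0 / M) = t0 / M := by push_cast; ring
      rwa [e] at this
    rw [h1, Finset.sum_const, Finset.card_range, nsmul_eq_mul] at h2
    have h3 : (M : ℝ) * (K * (t0 / M) ^ 2) = K * t0 ^ 2 / M := by field_simp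
    rw [h3, le_div_iff₀ hM'] at h2
    linarith
  refine key (N + 1) (Nat.succ_pos _) ?_
  push_cast
  nlinarith

/-- the area identity makes the fourth vertex lie below the lower graph -/
theorem Tip.main (T : Tip f g δ) {t τ : ℝ} (h0 : 0 < t) (h1 : t ≤ δ / 2) (hr : Root f g t τ) :
    g τ - (t - τ) < f (τ + (g t - g τ)) := by
  have cf := cont_of_lip T.lf
  have cg := cont_of_lip T.lg
  have hδ := T.δ0
  have ex : ∀ t, ∃ τ, 0 ≤ t → t ≤ δ → Root f g t τ := fun t => by
    by_cases h : 0 ≤ t ∧ t ≤ δ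
    · obtain ⟨τ, hτ⟩ := T.exists_root h.1 h.2
      exact ⟨τ, fun _ _ => hτ⟩
    · exact ⟨0, fun a b => absurd ⟨a, b⟩ h⟩
  choose R hR using ex
  have R0 : R 0 = 0 := le_antisymm (hR 0 le_rfl hδ.le).2.1 (hR 0 le_rfl hδ.le).1
  have hτ : τ = R t := T.uniq hr.2.2 (hR t h0.le (by linarith)).2.2
  rw [hτ]
  have D : ∀ s t, 0 ≤ s → s < t → t ≤ δ → _ := fun s t hs hst ht =>
    T.diff hst (hR t (by linarith) ht).2.2 (hR s hs (by linarith)).2.2
  have lip : ∀ s ∈ Icc (0:ℝ) δ, ∀ t ∈ Icc (0:ℝ) δ, |R s - R t| ≤ 5 / 3 * |s - t| := by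
    intro s hs t ht
    rcases lt_trichotomy s t with h | h | h
    · obtain ⟨d1, d2, -⟩ := D s t hs.1 h ht.2
      rw [abs_sub_comm, abs_sub_comm s, abs_of_pos (by linarith : 0 < t - s), abs_of_nonneg] <;>
        linarith
    · subst h; simp
    · obtain ⟨d1, d2, -⟩ := D t s ht.1 h hs.2
      rw [abs_of_pos (by linarith : 0 < s - t), abs_of_nonneg] <;> linarith
  have cR : ContinuousOn R (Icc 0 δ) := by
    have : LipschitzOnWith (5/3) R (Icc 0 δ) := LipschitzOnWith.of_dist_le_mul fun s hs t ht => by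
      rw [Real.dist_eq, Real.dist_eq]
      push_cast
      exact lip s hs t ht
    exact this.continuousOn
  set E : ℝ → ℝ := fun t => g (R t) - (t - R t) - f (R t + (g t - g (R t))) with hE
  have cE : ContinuousOn E (Icc 0 δ) := by
    have c1 : ContinuousOn (fun t => g (R t)) (Icc 0 δ) := cg.comp_continuousOn cR
    refine ContinuousOn.sub (c1.sub (continuousOn_id.sub cR)) ?_
    exact cf.comp_continuousOn (cR.add (cg.continuousOn.sub c1))
  have nz : ∀ t, 0 < t → t ≤ δ / 2 → E t ≠ 0 := by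
    intro t ht0 ht1 he
    have r := hR t ht0.le (by linarith)
    obtain ⟨d1, d2, d3, d4, d5⟩ := D 0 t le_rfl ht0 (by linarith)
    rw [R0] at d1 d2 d3 d4 d5
    rw [sub_zero, sub_zero] at d1
    rw [sub_zero, sub_self, add_zero, sub_zero] at d3
    have hlt : R t < t := by
      refine lt_of_le_of_ne r.2.1 fun h => ?_
      have := r.2.2
      rw [h, sub_self, sub_self, sub_zero, add_zero] at this
      linarith [T.lt t ht0 (by linarith)]
    have k := abs_le.1 (T.lg t (R t))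
    rw [abs_of_pos (by linarith : 0 < t - R t)] at k
    exact T.nosq t (R t) _ _ ⟨ht0.le, by linarith⟩ ⟨r.1, by linarith⟩
      ⟨by linarith [r.1], by linarith [r.1]⟩ ⟨by linarith, by linarith [r.1]⟩ hlt rfl r.2.2.symm rfl
      (by simp only [hE] at he; linarith)
  by_contra hcon
  push Not at hcon
  have hpos : 0 < E t := lt_of_le_of_ne (by simp only [hE]; linarith) (nz t h0 h1).symm
  have all : ∀ s, 0 < s → s ≤ t → 0 < E s := by
    intro s hs hst
    by_contra hneg
    push Not at hneg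
    obtain ⟨y, hy, hy0⟩ := intermediate_value_Icc hst
      (cE.mono (Icc_subset_Icc hs.le (by linarith))) (show (0:ℝ) ∈ Icc (E s) (E t) from
        ⟨hneg, hpos.le⟩)
    exact nz y (by linarith [hy.1]) (by linarith [hy.2]) hy0
  have E0 : E 0 = 0 := by
    simp only [hE]
    rw [R0, T.g0 0 le_rfl, sub_self, sub_self, add_zero, T.f0 0 le_rfl]
    ring
  have all' : ∀ s, 0 ≤ s → s ≤ t → 0 ≤ E s := by
    intro s hs hst
    rcases eq_or_lt_of_le hs with h | h
    · rw [← h, E0]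
    · exact (all s h hst).le
  -- the area functional
  set Φ : ℝ → ℝ := fun t => ((∫ z in (0:ℝ)..t, g z) - ∫ z in (0:ℝ)..(R t), g z) +
    ((∫ z in (0:ℝ)..(R t + (g t - g (R t))), f z) - ∫ z in (0:ℝ)..(t + (g t - g (R t))), f z) -
    ((t - R t) ^ 2 - (g t - g (R t)) ^ 2) / 2 with hΦ
  have ig : ∀ x y : ℝ, (∫ z in (0:ℝ)..y, g z) - (∫ z in (0:ℝ)..x, g z) = ∫ z in x..y, g z :=
    fun x y => intervalIntegral.integral_interval_sub_left (cg.intervalIntegrable _ _)
      (cg.intervalIntegrable _ _)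
  have if' : ∀ x y : ℝ, (∫ z in (0:ℝ)..y, f z) - (∫ z in (0:ℝ)..x, f z) = ∫ z in x..y, f z :=
    fun x y => intervalIntegral.integral_interval_sub_left (cf.intervalIntegrable _ _)
      (cf.intervalIntegrable _ _)
  have drop := quad_drop (Φ := Φ) (K := 2) h0 (fun s u hs hsu hut => by
    obtain ⟨d1, d2, d3, d4, d5⟩ := D s u hs hsu (by linarith)
    have rs := (hR s hs (by linarith)).2.2
    have ru := (hR u (by linarith) (by linarith)).2.2
    have t1 := abs_le.1 (trap T.lg s u)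
    have t2 := abs_le.1 (trap T.lg (R s) (R u))
    have t3 := abs_le.1 (trap T.lf (R s + (g s - g (R s))) (R u + (g u - g (R u))))
    have t4 := abs_le.1 (trap T.lf (s + (g s - g (R s))) (u + (g u - g (R u))))
    rw [← ig] at t1 t2
    rw [← if'] at t3 t4
    rw [← rs, ← ru] at t4
    have es := all' s hs (by linarith)
    have eu := all' u (by linarith) hut
    simp only [hE] at es eu
    have hu0 : 0 < u - s := by linarith
    -- the fourth vertex
    have m1 : (R u + (g u - g (R u)) - (R s + (g s - g (R s)))) *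
        ((f (R s + (g s - g (R s))) + f (R u + (g u - g (R u)))) / 2) ≤
        (R u + (g u - g (R u)) - (R s + (g s - g (R s)))) *
        ((g (R s) - (s - R s) + (g (R u) - (u - R u))) / 2) :=
      mul_le_mul_of_nonneg_left (by linarith) (by linarith)
    have q1 : (R u - R s) ^ 2 ≤ (5 / 3 * (u - s)) ^ 2 :=
      pow_le_pow_left₀ (by linarith) d2 2
    have q2 : (R u + (g u - g (R u)) - (R s + (g s - g (R s)))) ^ 2 ≤ (7 / 3 * (u - s)) ^ 2 :=
      pow_le_pow_left₀ (by linarith) d4 2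
    have q3 : (u + (g u - g (R u)) - (s + (g s - g (R s)))) ^ 2 ≤ (5 / 3 * (u - s)) ^ 2 := by
      rw [← sq_abs]; exact pow_le_pow_left₀ (abs_nonneg _) d5 2
    have ident : (u - s) * ((g s + g u) / 2) - (R u - R s) * ((g (R s) + g (R u)) / 2) +
        (R u + (g u - g (R u)) - (R s + (g s - g (R s)))) *
        ((g (R s) - (s - R s) + (g (R u) - (u - R u))) / 2) -
        (u + (g u - g (R u)) - (s + (g s - g (R s)))) *
        ((g s - (s - R s) + (g u - (u - R u))) / 2) =
        ((u - R u) ^ 2 - (g u - g (R u)) ^ 2) / 2 - ((s - R s) ^ 2 - (g s - g (R s)) ^ 2) / 2 := by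
      ring
    simp only [hΦ]
    linarith [t1.1, t1.2, t2.1, t2.2, t3.1, t3.2, t4.1, t4.2, sq_nonneg (u - s)])
  have Φ0 : Φ 0 = 0 := by
    simp only [hΦ]
    rw [R0, T.g0 0 le_rfl]
    simp
  -- the value at t is positive
  have r := hR t h0.le (by linarith)
  have hlt : R t < t := by
    refine lt_of_le_of_ne r.2.1 fun h => ?_
    have := r.2.2
    rw [h, sub_self, sub_self, sub_zero, add_zero] at this
    linarith [T.lt t h0 (by linarith)]
  have t1 := abs_le.1 (trap T.lg (R t) t)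
  rw [← ig] at t1
  have t2 := int_le T.lf (x := R t + (g t - g (R t))) (y := t + (g t - g (R t))) (by linarith)
  rw [← if', ← r.2.2] at t2
  have e1 : t + (g t - g (R t)) - (R t + (g t - g (R t))) = t - R t := by ring
  rw [e1] at t2
  rw [Φ0] at drop
  simp only [hΦ] at drop
  have pos : 0 < t - R t := by linarith
  have fin : 0 < (t - R t) ^ 2 / 4 - (t - R t) * (g t - g (R t)) / 2 + (g t - g (R t)) ^ 2 / 2 := by
    nlinarith [sq_nonneg ((t - R t) - 2 * (g t - g (R t))), sq_nonneg (g t - g (R t)),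
      sq_nonneg ((t - R t) / 2 - (g t - g (R t))), mul_pos pos pos]
  linarith [t1.1, t1.2, t2]

end Pool.Agent.R762.Cu
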