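import Pool.Agent.R762.Cu1

/-! Squares in a region between two Lipschitz graphs that meet at a tip: chords across the tip. -/

set_option autoImplicit false
set_option maxHeartbeats 1000000
open Set

namespace Pool.Agent.R762.Cu

variable {f g : ℝ → ℝ} {δ : ℝ}

theorem Tip.mixed (T : Tip f g δ) {s t : ℝ} (ht : 0 < t) (ht2 : t ≤ δ / 2)
    (h2 : f (s - (g t - f s)) ≤ f s + (t - s))
    (h6 : g t + (t - s) ≤ g (t - (g t - f s))) : False := by
  have hδ := T.δ0
  obtain ⟨h, hh⟩ : ∃ h, h = g t - f s := ⟨_, rfl⟩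
  rw [← hh] at h2 h6
  have a1 := T.lf (s - h) s
  have a2 := T.lg (t - h) t
  rw [show s - h - s = -h by ring, abs_neg] at a1
  rw [show t - h - t = -h by ring, abs_neg] at a2
  have a3 := T.lf t s
  have a4 := T.lt t ht (by linarith)
  have hu : |t - s| ≤ |h| / 4 := by
    rw [abs_le] at a1 a2
    rw [abs_le]
    constructor <;> linarith
  have hpos : 0 < h := by
    by_contra hcon
    push Not at hcon
    rw [abs_of_nonpos hcon] at hu
    rw [abs_le] at a3
    linarith [a3.1]
  obtain ⟨τ, r0, r1, r2⟩ := T.exists_root ht.le (by linarith)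
  have hm := T.main ht ht2 ⟨r0, r1, r2⟩
  -- the root is to the left
  have hα : t + (g t - g τ) ≤ s := by
    by_contra hcon
    push Not at hcon
    have k1 := T.lf s (t + (g t - g τ))
    rw [← r2, abs_of_neg (by linarith : s - (t + (g t - g τ)) < 0)] at k1
    have k2 := T.lg (t - h) τ
    have k3 : |t - h - τ| ≤ (t + (g t - g τ) - s) / 4 := by
      rw [hh, abs_le]
      rw [abs_le] at k1
      constructor <;> linarith [k1.1, k1.2]
    have k4 := abs_le.1 (k2.trans (div_le_div_of_nonneg_right k3 (by norm_num : (0:ℝ) ≤ 4)))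
    linarith [k4.1, k4.2]
  have k1 := T.lf (t + (g t - g τ)) s
  rw [← r2, abs_of_nonpos (by linarith : t + (g t - g τ) - s ≤ 0)] at k1
  have k2 := T.lf (τ + (g t - g τ)) (s - h)
  have k3 : |τ + (g t - g τ) - (s - h)| ≤ 5 / 4 * (s - (t + (g t - g τ))) := by
    rw [hh, abs_le]
    rw [abs_le] at k1
    constructor <;> linarith [k1.1, k1.2]
  have k4 := abs_le.1 (k2.trans (div_le_div_of_nonneg_right k3 (by norm_num : (0:ℝ) ≤ 4)))
  rw [abs_le] at k1
  linarith [k4.1, k4.2, k1.1, k1.2]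

theorem Tip.sameF (T : Tip f g δ) {x y : ℝ} (h : y < x) :
    f x + (y - x) < f (x - (f y - f x)) := by
  have k1 := T.lf y x
  have k2 := T.lf (x - (f y - f x)) x
  rw [show x - (f y - f x) - x = -(f y - f x) by ring, abs_neg] at k2
  rw [abs_of_neg (by linarith : y - x < 0)] at k1
  have := abs_le.1 k2
  linarith [this.1]

theorem Tip.sameG (T : Tip f g δ) {x y : ℝ} (h : x < y) :
    g (x - (g y - g x)) < g x + (y - x) := by
  have k1 := T.lg y x
  have k2 := T.lg (x - (g y - g x)) x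
  rw [show x - (g y - g x) - x = -(g y - g x) by ring, abs_neg] at k2
  rw [abs_of_pos (by linarith : 0 < y - x)] at k1
  have := abs_le.1 k2
  linarith [this.2]

/-- extension of a branch to a Lipschitz function on the line -/
theorem branch {S : Set ℝ} {X Y : ℝ → ℝ} (h0 : ∀ x ∈ S, |Y x| ≤ X x / 4)
    (h : ∀ x ∈ S, ∀ y ∈ S, |Y x - Y y| ≤ |X x - X y| / 4) :
    ∃ f : ℝ → ℝ, (∀ x y, |f x - f y| ≤ |x - y| / 4) ∧ (∀ x ≤ 0, f x = 0) ∧
      ∀ x ∈ S, f (X x) = Y x := by
  classical
  have hX : ∀ x ∈ S, 0 ≤ X x := fun x hx => by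
    have := (abs_nonneg _).trans (h0 x hx); linarith
  set f0 : ℝ → ℝ := fun z => if z ≤ 0 then 0 else Y (Function.invFunOn X S z) with hf0
  have val : ∀ x ∈ S, f0 (X x) = Y x := by
    intro x hx
    simp only [hf0]
    split_ifs with hz
    · have : X x = 0 := le_antisymm hz (hX x hx)
      have h1 := h0 x hx
      rw [this, zero_div] at h1
      exact (abs_eq_zero.1 (le_antisymm h1 (abs_nonneg _))).symm
    · have m : Function.invFunOn X S (X x) ∈ S := Function.invFunOn_mem ⟨x, hx, rfl⟩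
      have e : X (Function.invFunOn X S (X x)) = X x := Function.invFunOn_eq ⟨x, hx, rfl⟩
      have h1 := h _ m x hx
      rw [e, sub_self, abs_zero, zero_div] at h1
      exact sub_eq_zero.1 (abs_eq_zero.1 (le_antisymm h1 (abs_nonneg _)))
  have neg : ∀ z ≤ 0, f0 z = 0 := fun z hz => by simp only [hf0, if_pos hz]
  have lip : LipschitzOnWith (1/4) f0 (X '' S ∪ Iic 0) := LipschitzOnWith.of_dist_le_mul (by
    have k : ∀ x ∈ S, ∀ z ≤ 0, |f0 (X x) - f0 z| ≤ |X x - z| / 4 := by
      intro x hx z hz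
      rw [val x hx, neg z hz, sub_zero, abs_of_nonneg (by linarith [hX x hx] : 0 ≤ X x - z)]
      linarith [h0 x hx]
    rintro z hz w hw
    rw [Real.dist_eq, Real.dist_eq]
    push_cast
    suffices |f0 z - f0 w| ≤ |z - w| / 4 by linarith
    rcases hz with ⟨x, hx, rfl⟩ | hz <;> rcases hw with ⟨y, hy, rfl⟩ | hw
    · rw [val x hx, val y hy]; exact h x hx y hy
    · exact k x hx w hw
    · rw [abs_sub_comm, abs_sub_comm z]; exact k y hy z hz
    · rw [neg z hz, neg w hw, sub_self, abs_zero]; positivity)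
  obtain ⟨f, hf, hEq⟩ := lip.extend_real
  refine ⟨f, fun x y => ?_, fun x hx => ?_, fun x hx => ?_⟩
  · have := hf.dist_le_mul x y
    rw [Real.dist_eq, Real.dist_eq] at this
    push_cast at this
    linarith
  · rw [← hEq (Or.inr hx), neg x hx]
  · rw [← hEq (Or.inl ⟨x, hx, rfl⟩), val x hx]

end Pool.Agent.R762.Cu
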