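import Mathlib

/-!
# Fenchel's theorem in every dimension

The tangent indicatrix of a closed curve has length at least `2 π`.
-/

set_option autoImplicit false

namespace Pool.Agent.R762.Fen

open Real MeasureTheory intervalIntegral
open scoped RealInnerProductSpace

variable {E : Type*} [NormedAddCommGroup E] [InnerProductSpace ℝ E]

/-- the velocity of a curve on the unit sphere is orthogonal to it -/
lemma inner_deriv_zero {T T' : ℝ → E} (hT : ∀ t, HasDerivAt T (T' t) t) (h1 : ∀ t, ‖T t‖ = 1)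
    (t : ℝ) : ⟪T t, T' t⟫ = 0 := by
  have h2 : HasDerivAt (fun s => ⟪T s, T s⟫) (⟪T t, T' t⟫ + ⟪T' t, T t⟫) t :=
    (hT t).inner ℝ (hT t)
  have h3 : (fun s => ⟪T s, T s⟫) = fun _ => (1 : ℝ) := by
    funext s
    rw [real_inner_self_eq_norm_sq, h1 s]; norm_num
  rw [h3] at h2
  have h4 := h2.unique (hasDerivAt_const t (1 : ℝ))
  rw [real_inner_comm (T t) (T' t)] at h4
  linarith

/-- spherical distance is at most the length of an arc -/
lemma arccos_le {T T' : ℝ → E} (hT : ∀ t, HasDerivAt T (T' t) t) (hc : Continuous T')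
    (h1 : ∀ t, ‖T t‖ = 1) {a b : ℝ} (hab : a ≤ b) :
    arccos ⟪T a, T b⟫ ≤ ∫ t in a..b, ‖T' t‖ := by
  have hTc : Continuous T := continuous_iff_continuousAt.2 fun t => (hT t).continuousAt
  obtain ⟨u, hu⟩ : ∃ u : ℝ → ℝ, u = fun t => ⟪T a, T t⟫ := ⟨_, rfl⟩
  have hu1 : ∀ t, HasDerivAt u ⟪T a, T' t⟫ t := by
    intro t
    rw [hu]
    have := (hasDerivAt_const t (T a)).inner ℝ (hT t)
    simpa using this
  have hul : ∀ t, u t ^ 2 ≤ 1 := by
    intro t
    have := abs_real_inner_le_norm (T a) (T t)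
    rw [h1, h1, mul_one] at this
    rw [hu]
    have h2 := abs_le.1 this
    simp only
    nlinarith [h2.1, h2.2]
  have hub : ∀ t, |⟪T a, T' t⟫| ≤ ‖T' t‖ * √(1 - u t ^ 2) := by
    intro t
    have e : ⟪T a, T' t⟫ = ⟪T a - u t • T t, T' t⟫ := by
      rw [inner_sub_left, inner_smul_left, inner_deriv_zero hT h1 t]; simp
    have h2 : ‖T a - u t • T t‖ ^ 2 = 1 - u t ^ 2 := by
      rw [norm_sub_sq_real, norm_smul, inner_smul_right, h1, h1]
      have : ⟪T a, T t⟫ = u t := by rw [hu]
      rw [this, Real.norm_eq_abs, mul_one, sq_abs]; ring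
    have h3 : ‖T a - u t • T t‖ = √(1 - u t ^ 2) := by
      rw [← h2, Real.sqrt_sq (norm_nonneg _)]
    rw [e]
    refine (abs_real_inner_le_norm _ _).trans ?_
    rw [h3, mul_comm]
  have key : ∀ l : ℝ, 0 < l → l < 1 →
      arccos (l * u b) - arccos (l * u a) ≤ ∫ t in a..b, ‖T' t‖ := by
    intro l hl0 hl1
    have hlt : ∀ t, (l * u t) ^ 2 < 1 := by
      intro t
      have := hul t
      have h5 : l ^ 2 < 1 := by nlinarith
      nlinarith [sq_nonneg (u t), sq_nonneg l, mul_nonneg (sq_nonneg l) (sq_nonneg (u t))]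
    have hd : ∀ t, HasDerivAt (fun s => arccos (l * u s))
        (-(1 / √(1 - (l * u t) ^ 2)) * (l * ⟪T a, T' t⟫)) t := by
      intro t
      have h5 : l * u t ≠ -1 := by
        intro h; have := hlt t; rw [h] at this; norm_num at this
      have h6 : l * u t ≠ 1 := by
        intro h; have := hlt t; rw [h] at this; norm_num at this
      exact HasDerivAt.comp (h₂ := arccos) (h := fun s => l * u s) t
        (Real.hasDerivAt_arccos h5 h6) ((hu1 t).const_mul l)
    have hcu : Continuous u := continuous_iff_continuousAt.2 fun t => (hu1 t).continuousAt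
    have hcont : Continuous fun t => -(1 / √(1 - (l * u t) ^ 2)) * (l * ⟪T a, T' t⟫) := by
      refine Continuous.mul (Continuous.neg (Continuous.div continuous_const ?_ ?_)) ?_
      · fun_prop
      · intro t
        exact (Real.sqrt_pos.2 (by linarith [hlt t])).ne'
      · exact continuous_const.mul (Continuous.inner continuous_const hc)
    have hint := intervalIntegral.integral_eq_sub_of_hasDerivAt (a := a) (b := b)
      (fun t _ => hd t) (hcont.intervalIntegrable a b)
    rw [← hint]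
    refine intervalIntegral.integral_mono_on hab (hcont.intervalIntegrable a b)
      (hc.norm.intervalIntegrable a b) ?_
    intro t _
    have h7 := hub t
    have h8 : 0 < √(1 - (l * u t) ^ 2) := Real.sqrt_pos.2 (by linarith [hlt t])
    have h9 : l * √(1 - u t ^ 2) ≤ √(1 - (l * u t) ^ 2) := by
      apply Real.le_sqrt_of_sq_le
      rw [mul_pow, Real.sq_sqrt (by linarith [hul t])]
      nlinarith [sq_nonneg (u t), sq_nonneg l]
    have h10 : |-(1 / √(1 - (l * u t) ^ 2)) * (l * ⟪T a, T' t⟫)| ≤ ‖T' t‖ := by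
      rw [abs_mul, abs_neg, abs_of_pos (by positivity), abs_mul, abs_of_pos hl0,
        div_mul_eq_mul_div, one_mul, div_le_iff₀ h8]
      calc l * |⟪T a, T' t⟫| ≤ l * (‖T' t‖ * √(1 - u t ^ 2)) := by gcongr
        _ = ‖T' t‖ * (l * √(1 - u t ^ 2)) := by ring
        _ ≤ ‖T' t‖ * √(1 - (l * u t) ^ 2) := by gcongr
    exact (le_abs_self _).trans h10
  have hua : u a = 1 := by
    rw [hu]
    simp only
    rw [real_inner_self_eq_norm_sq, h1]; norm_num
  have hlim : Filter.Tendsto (fun l : ℝ => arccos (l * u b) - arccos (l * u a))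
      (nhdsWithin 1 (Set.Iio 1)) (nhds (arccos (1 * u b) - arccos (1 * u a))) := by
    apply tendsto_nhdsWithin_of_tendsto_nhds
    apply ContinuousAt.tendsto (f := fun l : ℝ => arccos (l * u b) - arccos (l * u a))
    have : Continuous fun l : ℝ => arccos (l * u b) - arccos (l * u a) := by
      refine Continuous.sub ?_ ?_
      · exact Real.continuous_arccos.comp (continuous_id.mul continuous_const)
      · exact Real.continuous_arccos.comp (continuous_id.mul continuous_const)
    exact this.continuousAt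
  have hev : ∀ᶠ l : ℝ in nhdsWithin 1 (Set.Iio 1),
      arccos (l * u b) - arccos (l * u a) ≤ ∫ t in a..b, ‖T' t‖ := by
    have h11 : Set.Ioo (0 : ℝ) 1 ∈ nhdsWithin (1 : ℝ) (Set.Iio 1) :=
      Ioo_mem_nhdsLT (by norm_num)
    filter_upwards [h11] with l hl
    exact key l hl.1 hl.2
  have := le_of_tendsto hlim hev
  rw [one_mul, one_mul, hua, arccos_one, sub_zero, hu] at this
  exact this

/-- **Fenchel's theorem**: the unit tangent `T` of a closed curve (with speed `ρ`) has length at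
least `2 π`. -/
theorem fenchel {T T' : ℝ → E} {ρ : ℝ → ℝ} {L : ℝ} (hL : 0 < L) (hT : ∀ t, HasDerivAt T (T' t) t)
    (hc : Continuous T') (h1 : ∀ t, ‖T t‖ = 1) (hρ : Continuous ρ) (hρ0 : ∀ t, 0 < ρ t)
    (hcl : T L = T 0) (hint : ∀ v : E, ∫ t in (0 : ℝ)..L, ρ t * ⟪T t, v⟫ = 0) :
    2 * π ≤ ∫ t in (0 : ℝ)..L, ‖T' t‖ := by
  have hTc : Continuous T := continuous_iff_continuousAt.2 fun t => (hT t).continuousAt
  have hI : ∀ a b : ℝ, IntervalIntegrable (fun t => ‖T' t‖) volume a b :=
    fun a b => hc.norm.intervalIntegrable a b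
  obtain ⟨l, hl⟩ : ∃ l, l = ∫ t in (0 : ℝ)..L, ‖T' t‖ := ⟨_, rfl⟩
  have hl0 : 0 ≤ l := by
    rw [hl]
    exact intervalIntegral.integral_nonneg hL.le fun t _ => norm_nonneg _
  -- the half way point
  obtain ⟨s, hs, hsl⟩ : ∃ s ∈ Set.Icc (0 : ℝ) L, ∫ t in (0 : ℝ)..s, ‖T' t‖ = l / 2 := by
    have hcont : ContinuousOn (fun s => ∫ t in (0 : ℝ)..s, ‖T' t‖) (Set.Icc 0 L) :=
      (intervalIntegral.continuous_primitive hI 0).continuousOn
    have := intermediate_value_Icc hL.le hcont
    have hm : l / 2 ∈ Set.Icc (∫ t in (0 : ℝ)..0, ‖T' t‖) (∫ t in (0 : ℝ)..L, ‖T' t‖) := by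
      rw [intervalIntegral.integral_same, ← hl]
      exact ⟨by linarith, by linarith⟩
    obtain ⟨s, hs, hs2⟩ := this hm
    exact ⟨s, hs, hs2⟩
  -- a point of the indicatrix orthogonal to the sum
  obtain ⟨x, hx, hx0⟩ : ∃ x ∈ Set.Icc (0 : ℝ) L, ⟪T x, T 0 + T s⟫ = 0 := by
    by_contra hcon
    push Not at hcon
    have hg : Continuous fun t => ⟪T t, T 0 + T s⟫ := hTc.inner continuous_const
    have hgc : Continuous fun t => ρ t * ⟪T t, T 0 + T s⟫ := hρ.mul hg
    rcases lt_or_gt_of_ne (hcon 0 ⟨le_rfl, hL.le⟩) with h | h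
    · have hneg : ∀ t ∈ Set.Icc (0 : ℝ) L, ⟪T t, T 0 + T s⟫ < 0 := by
        intro t ht
        by_contra hh
        push Not at hh
        have := intermediate_value_Icc ht.1 (hg.continuousOn (s := Set.Icc 0 t))
        obtain ⟨y, hy, hy0⟩ := this ⟨h.le, hh⟩
        exact hcon y ⟨hy.1, hy.2.trans ht.2⟩ hy0
      have hpos : 0 < ∫ t in (0 : ℝ)..L, -(ρ t * ⟪T t, T 0 + T s⟫) := by
        apply intervalIntegral.intervalIntegral_pos_of_pos_on (hgc.neg.intervalIntegrable 0 L) _ hL
        intro t ht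
        have := hneg t ⟨ht.1.le, ht.2.le⟩
        have h5 := hρ0 t
        have h6 : ρ t * ⟪T t, T 0 + T s⟫ < 0 := mul_neg_of_pos_of_neg h5 this
        simpa using h6
      rw [intervalIntegral.integral_neg, hint] at hpos
      simp at hpos
    · have hpos' : ∀ t ∈ Set.Icc (0 : ℝ) L, 0 < ⟪T t, T 0 + T s⟫ := by
        intro t ht
        by_contra hh
        push Not at hh
        have := intermediate_value_Icc' ht.1 (hg.continuousOn (s := Set.Icc 0 t))
        obtain ⟨y, hy, hy0⟩ := this ⟨hh, h.le⟩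
        exact hcon y ⟨hy.1, hy.2.trans ht.2⟩ hy0
      have hpos : 0 < ∫ t in (0 : ℝ)..L, ρ t * ⟪T t, T 0 + T s⟫ := by
        apply intervalIntegral.intervalIntegral_pos_of_pos_on (hgc.intervalIntegrable 0 L) _ hL
        intro t ht
        exact mul_pos (hρ0 t) (hpos' t ⟨ht.1.le, ht.2.le⟩)
      rw [hint] at hpos
      exact lt_irrefl _ hpos
  rw [inner_add_right] at hx0
  have hadd : (∫ t in (0 : ℝ)..s, ‖T' t‖) + ∫ t in s..L, ‖T' t‖ = l := by
    rw [hl]
    exact intervalIntegral.integral_add_adjacent_intervals (hI 0 s) (hI s L)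
  rcases le_total x s with h | h
  · have a1 := arccos_le hT hc h1 hx.1
    have a2 := arccos_le hT hc h1 h
    have e : (∫ t in (0 : ℝ)..x, ‖T' t‖) + ∫ t in x..s, ‖T' t‖ = ∫ t in (0 : ℝ)..s, ‖T' t‖ :=
      intervalIntegral.integral_add_adjacent_intervals (hI 0 x) (hI x s)
    have e2 : ⟪T x, T s⟫ = -⟪T 0, T x⟫ := by
      rw [real_inner_comm (T x) (T 0)]; linarith
    rw [e2, arccos_neg] at a2
    rw [← hl]
    linarith
  · have a1 := arccos_le hT hc h1 h
    have a2 := arccos_le hT hc h1 hx.2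
    have e : (∫ t in s..x, ‖T' t‖) + ∫ t in x..L, ‖T' t‖ = ∫ t in s..L, ‖T' t‖ :=
      intervalIntegral.integral_add_adjacent_intervals (hI s x) (hI x L)
    have e2 : ⟪T x, T L⟫ = -⟪T s, T x⟫ := by
      rw [hcl, real_inner_comm (T x) (T s)]; linarith
    rw [e2, arccos_neg] at a2
    rw [← hl]
    linarith

end Pool.Agent.R762.Fen
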