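import Mathlib
import Pool.Agent.R762.Fen1

/-!
# The Frenet frame of a nondegenerate closed curve is longer than `2 π`
-/

set_option autoImplicit false

namespace Pool.Agent.R762.Fen

open Real MeasureTheory intervalIntegral InnerProductSpace
open scoped RealInnerProductSpace ContDiff

variable {n : ℕ}

/-- the derivatives `γ'(t), γ''(t), …` -/
noncomputable def ders (γ : ℝ → EuclideanSpace ℝ (Fin n)) (t : ℝ) (j : ℕ) : EuclideanSpace ℝ (Fin n) := iteratedDeriv (j + 1) γ t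

/-- the orthogonal (not normalised) frame -/
noncomputable def gs (γ : ℝ → EuclideanSpace ℝ (Fin n)) (i : ℕ) (t : ℝ) : EuclideanSpace ℝ (Fin n) := gramSchmidt ℝ (ders γ t) i

/-- the frame -/
noncomputable def fr (γ : ℝ → EuclideanSpace ℝ (Fin n)) (i : ℕ) (t : ℝ) : EuclideanSpace ℝ (Fin n) := gramSchmidtNormed ℝ (ders γ t) i

/-- the curvatures: `κ_(i+1) = ⟨e_i', e_(i+1)⟩ / |γ'|` -/
noncomputable def curv (γ : ℝ → EuclideanSpace ℝ (Fin n)) (i : ℕ) (t : ℝ) : ℝ :=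
  ⟪deriv (fr γ i) t, fr γ (i + 1) t⟫ / ‖deriv γ t‖

lemma fr_eq (γ : ℝ → EuclideanSpace ℝ (Fin n)) (i : ℕ) (t : ℝ) : fr γ i t = (‖gs γ i t‖)⁻¹ • gs γ i t := rfl

lemma ders_smooth {γ : ℝ → EuclideanSpace ℝ (Fin n)} (h : ContDiff ℝ ∞ γ) (j : ℕ) :
    ContDiff ℝ ∞ (fun t => ders γ t j) := by
  unfold ders
  induction j with
  | zero =>
    rw [show (fun t => iteratedDeriv (0 + 1) γ t) = deriv γ by funext t; simp [iteratedDeriv_one]]
    exact (contDiff_infty_iff_deriv.1 h).2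
  | succ j ih =>
    have e : (fun t => iteratedDeriv (j + 1 + 1) γ t) = deriv (fun t => iteratedDeriv (j + 1) γ t) := by
      funext t; rw [iteratedDeriv_succ]
    rw [e]
    exact (contDiff_infty_iff_deriv.1 ih).2

lemma ders_deriv {γ : ℝ → EuclideanSpace ℝ (Fin n)} (h : ContDiff ℝ ∞ γ) (j : ℕ) (t : ℝ) :
    HasDerivAt (fun t => ders γ t j) (ders γ t (j + 1)) t := by
  have h1 : DifferentiableAt ℝ (fun t => ders γ t j) t :=
    (contDiff_infty_iff_deriv.1 (ders_smooth h j)).1 t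
  have h2 := h1.hasDerivAt
  have e : deriv (fun t => ders γ t j) t = ders γ t (j + 1) := by
    unfold ders
    rw [iteratedDeriv_succ (n := j + 1)]
  rwa [e] at h2

/-- nondegenerate curves -/
def Nd (γ : ℝ → EuclideanSpace ℝ (Fin n)) : Prop := ∀ t, LinearIndependent ℝ (fun j : Fin n => iteratedDeriv (j + 1) γ t)

variable {γ : ℝ → EuclideanSpace ℝ (Fin n)}

lemma li_coe (hN : Nd γ) {i : ℕ} (hi : i < n) (t : ℝ) :
    LinearIndependent ℝ (ders γ t ∘ ((↑) : Set.Iic i → ℕ)) := by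
  have h := (hN t).comp (fun x : Set.Iic i => (⟨x.1, lt_of_le_of_lt x.2 hi⟩ : Fin n)) (by
    intro x y hxy
    apply Subtype.ext
    have := congrArg Fin.val hxy
    exact this)
  exact h

lemma gs_ne (hN : Nd γ) {i : ℕ} (hi : i < n) (t : ℝ) : gs γ i t ≠ 0 :=
  gramSchmidt_ne_zero_coe i (li_coe hN hi t)

lemma fr_norm (hN : Nd γ) {i : ℕ} (hi : i < n) (t : ℝ) : ‖fr γ i t‖ = 1 :=
  gramSchmidtNormed_unit_length_coe i (li_coe hN hi t)

lemma fr_orth (γ : ℝ → EuclideanSpace ℝ (Fin n)) {i j : ℕ} (hij : i ≠ j) (t : ℝ) :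
    ⟪fr γ i t, fr γ j t⟫ = 0 := by
  rw [fr_eq, fr_eq, inner_smul_left, inner_smul_right]
  have : ⟪gs γ i t, gs γ j t⟫ = 0 := gramSchmidt_orthogonal ℝ _ hij
  rw [this]; simp

lemma gs_smooth (h : ContDiff ℝ ∞ γ) (hN : Nd γ) : ∀ i : ℕ, i < n → ContDiff ℝ ∞ (gs γ i) := by
  intro i
  induction i using Nat.strong_induction_on with
  | _ i ih =>
    intro hi
    have e : gs γ i = fun t => ders γ t i - ∑ j ∈ Finset.Iio i,
        (⟪gs γ j t, ders γ t i⟫ / ‖gs γ j t‖ ^ 2) • gs γ j t := by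
      funext t
      unfold gs
      rw [gramSchmidt_def]
      congr 1
      refine Finset.sum_congr rfl fun j _ => ?_
      rw [Submodule.starProjection_singleton]
      rfl
    rw [e]
    refine (ders_smooth h i).sub (ContDiff.sum fun j hj => ?_)
    have hj' : j < i := Finset.mem_Iio.1 hj
    have hs := ih j hj' (hj'.trans hi)
    refine ContDiff.smul (ContDiff.div (hs.inner ℝ (ders_smooth h i)) (hs.norm_sq ℝ) ?_) hs
    intro t
    have := norm_pos_iff.2 (gs_ne hN (hj'.trans hi) t)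
    positivity

lemma fr_smooth (h : ContDiff ℝ ∞ γ) (hN : Nd γ) {i : ℕ} (hi : i < n) :
    ContDiff ℝ ∞ (fr γ i) := by
  have hs := gs_smooth h hN i hi
  have e : fr γ i = fun t => (‖gs γ i t‖)⁻¹ • gs γ i t := funext fun t => fr_eq γ i t
  rw [e]
  exact ContDiff.smul ((hs.norm ℝ fun t => gs_ne hN hi t).inv fun t =>
    (norm_pos_iff.2 (gs_ne hN hi t)).ne') hs

lemma fr_deriv (h : ContDiff ℝ ∞ γ) (hN : Nd γ) {i : ℕ} (hi : i < n) (t : ℝ) :
    HasDerivAt (fr γ i) (deriv (fr γ i) t) t :=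
  ((contDiff_infty_iff_deriv.1 (fr_smooth h hN hi)).1 t).hasDerivAt

lemma fr_deriv_cont (h : ContDiff ℝ ∞ γ) (hN : Nd γ) {i : ℕ} (hi : i < n) :
    Continuous (deriv (fr γ i)) :=
  (contDiff_infty_iff_deriv.1 (fr_smooth h hN hi)).2.continuous

lemma gs_zero (γ : ℝ → EuclideanSpace ℝ (Fin n)) (t : ℝ) : gs γ 0 t = ders γ t 0 := by
  unfold gs
  rw [gramSchmidt_def]
  have : Finset.Iio (0 : ℕ) = ∅ := by ext x; simp
  rw [this]; simp

lemma gs_smul (hN : Nd γ) {i : ℕ} (hi : i < n) (t : ℝ) : gs γ i t = ‖gs γ i t‖ • fr γ i t := by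
  rw [fr_eq, smul_smul, mul_inv_cancel₀ (norm_pos_iff.2 (gs_ne hN hi t)).ne', one_smul]

lemma ders_one (hN : Nd γ) (hn : 1 < n) (t : ℝ) :
    ∃ p q : ℝ, ders γ t 1 = p • fr γ 0 t + q • fr γ 1 t := by
  have h1 : ders γ t 1 = gs γ 1 t + ∑ i ∈ Finset.Iio 1,
      (⟪gs γ i t, ders γ t 1⟫ / ‖gs γ i t‖ ^ 2) • gs γ i t :=
    gramSchmidt_def'' ℝ (ders γ t) 1
  have : Finset.Iio (1 : ℕ) = {0} := by ext x; simp
  rw [this, Finset.sum_singleton] at h1
  refine ⟨⟪gs γ 0 t, ders γ t 1⟫ / ‖gs γ 0 t‖ ^ 2 * ‖gs γ 0 t‖, ‖gs γ 1 t‖, ?_⟩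
  conv_lhs => rw [h1]
  rw [mul_smul, ← gs_smul hN (by omega : 0 < n) t, ← gs_smul hN hn t, add_comm]

/-- two components of frames: the derivative of `⟪e_i, e_j⟫` -/
lemma skew (h : ContDiff ℝ ∞ γ) (hN : Nd γ) {i j : ℕ} (hi : i < n) (hj : j < n) (t : ℝ) :
    ⟪fr γ i t, deriv (fr γ j) t⟫ = -⟪deriv (fr γ i) t, fr γ j t⟫ := by
  have h1 : HasDerivAt (fun s => ⟪fr γ i s, fr γ j s⟫)
      (⟪fr γ i t, deriv (fr γ j) t⟫ + ⟪deriv (fr γ i) t, fr γ j t⟫) t :=
    (fr_deriv h hN hi t).inner ℝ (fr_deriv h hN hj t)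
  have h2 : ∃ c : ℝ, (fun s => ⟪fr γ i s, fr γ j s⟫) = fun _ => c := by
    by_cases hij : i = j
    · subst hij
      refine ⟨1, funext fun s => ?_⟩
      rw [real_inner_self_eq_norm_sq, fr_norm hN hi]; norm_num
    · exact ⟨0, funext fun s => fr_orth γ hij s⟩
  obtain ⟨c, hc⟩ := h2
  rw [hc] at h1
  have := h1.unique (hasDerivAt_const t c)
  linarith

/-- the derivative of the unit tangent is a multiple of the second vector of the frame -/
lemma deriv_zero (h : ContDiff ℝ ∞ γ) (hN : Nd γ) (hn : 1 < n) (t : ℝ) :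
    deriv (fr γ 0) t = ⟪deriv (fr γ 0) t, fr γ 1 t⟫ • fr γ 1 t := by
  have h0 : (0 : ℕ) < n := by omega
  -- `e_0 = a D_0`
  have hs := gs_smooth h hN 0 h0
  have ha : ContDiff ℝ ∞ fun t => (‖gs γ 0 t‖)⁻¹ :=
    (hs.norm ℝ fun t => gs_ne hN h0 t).inv fun t => (norm_pos_iff.2 (gs_ne hN h0 t)).ne'
  have had : HasDerivAt (fun t => (‖gs γ 0 t‖)⁻¹) (deriv (fun t => (‖gs γ 0 t‖)⁻¹) t) t :=
    ((contDiff_infty_iff_deriv.1 ha).1 t).hasDerivAt
  have h1 : HasDerivAt (fr γ 0) ((‖gs γ 0 t‖)⁻¹ • ders γ t 1 +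
      deriv (fun t => (‖gs γ 0 t‖)⁻¹) t • ders γ t 0) t := by
    have h2 := had.smul (ders_deriv h 0 t)
    have e : fr γ 0 = fun t => (‖gs γ 0 t‖)⁻¹ • ders γ t 0 := by
      funext s
      rw [fr_eq]
      rw [gs_zero γ s]
    rw [e]
    exact h2
  have h3 := h1.unique (fr_deriv h hN h0 t)
  obtain ⟨p, q, hpq⟩ := ders_one hN hn t
  have h4 : ders γ t 0 = ‖gs γ 0 t‖ • fr γ 0 t := by
    rw [← gs_smul hN h0 t, gs_zero]
  obtain ⟨x, y, hxy⟩ : ∃ x y : ℝ, deriv (fr γ 0) t = x • fr γ 0 t + y • fr γ 1 t := by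
    refine ⟨(‖gs γ 0 t‖)⁻¹ * p + deriv (fun t => (‖gs γ 0 t‖)⁻¹) t * ‖gs γ 0 t‖,
      (‖gs γ 0 t‖)⁻¹ * q, ?_⟩
    rw [← h3, hpq, h4]
    module
  have h5 : ⟪fr γ 0 t, deriv (fr γ 0) t⟫ = 0 := by
    have := skew h hN h0 h0 t
    rw [real_inner_comm (deriv (fr γ 0) t) (fr γ 0 t)] at this
    linarith [real_inner_comm (deriv (fr γ 0) t) (fr γ 0 t)]
  have hx : x = 0 := by
    rw [hxy, inner_add_right, inner_smul_right, inner_smul_right,
      fr_orth γ (by norm_num : (0 : ℕ) ≠ 1) t,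
      real_inner_self_eq_norm_sq, fr_norm hN h0] at h5
    linarith
  have hy : ⟪deriv (fr γ 0) t, fr γ 1 t⟫ = y := by
    rw [hxy, hx, inner_add_left, inner_smul_left, inner_smul_left, real_inner_self_eq_norm_sq,
      fr_norm hN hn]
    simp
  rw [hy, hxy, hx, zero_smul, zero_add]

/-- the second curvature does not vanish -/
lemma second_ne (h : ContDiff ℝ ∞ γ) (hN : Nd γ) (hn : 2 < n) (t : ℝ) :
    ⟪deriv (fr γ 1) t, fr γ 2 t⟫ ≠ 0 := by
  intro h0
  have h1 : ∀ s, ⟪ders γ s 1, fr γ 2 s⟫ = 0 := by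
    intro s
    rw [fr_eq, inner_smul_right, real_inner_comm]
    have : ⟪gs γ 2 s, ders γ s 1⟫ = 0 := gramSchmidt_inv_triangular ℝ (ders γ s) (by norm_num)
    rw [this, mul_zero]
  have h2 : HasDerivAt (fun s => ⟪ders γ s 1, fr γ 2 s⟫)
      (⟪ders γ t 1, deriv (fr γ 2) t⟫ + ⟪ders γ t 2, fr γ 2 t⟫) t :=
    (ders_deriv h 1 t).inner ℝ (fr_deriv h hN hn t)
  rw [show (fun s => ⟪ders γ s 1, fr γ 2 s⟫) = fun _ => (0 : ℝ) from funext h1] at h2
  have h3 := h2.unique (hasDerivAt_const t (0 : ℝ))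
  obtain ⟨p, q, hpq⟩ := ders_one hN (by omega : 1 < n) t
  have h4 : ⟪fr γ 0 t, deriv (fr γ 2) t⟫ = 0 := by
    rw [skew h hN (by omega) hn t, deriv_zero h hN (by omega) t, inner_smul_left,
      fr_orth γ (by norm_num) t]
    simp
  have h5 : ⟪fr γ 1 t, deriv (fr γ 2) t⟫ = 0 := by
    rw [skew h hN (by omega) hn t, h0, neg_zero]
  have h6 : ⟪ders γ t 1, deriv (fr γ 2) t⟫ = 0 := by
    rw [hpq, inner_add_left, inner_smul_left, inner_smul_left, h4, h5]; simp
  have h7 : ⟪ders γ t 2, fr γ 2 t⟫ = 0 := by linarith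
  have h8 : ders γ t 2 = gs γ 2 t + ∑ i ∈ Finset.Iio 2,
      (⟪gs γ i t, ders γ t 2⟫ / ‖gs γ i t‖ ^ 2) • gs γ i t :=
    gramSchmidt_def'' ℝ (ders γ t) 2
  have h9 : ⟪ders γ t 2, gs γ 2 t⟫ = 0 := by
    rw [gs_smul hN hn t, inner_smul_right, h7, mul_zero]
  rw [h8, inner_add_left, sum_inner, Finset.sum_eq_zero, add_zero, real_inner_self_eq_norm_sq]
    at h9
  · have := norm_pos_iff.2 (gs_ne hN hn t)
    have h10 : 0 < ‖gs γ 2 t‖ ^ 2 := by positivity
    linarith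
  · intro i hi
    have hi' : i < 2 := Finset.mem_Iio.1 hi
    have : ⟪gs γ i t, gs γ 2 t⟫ = 0 := gramSchmidt_orthogonal ℝ _ hi'.ne
    rw [inner_smul_left, this, mul_zero]

/-- the Frenet frame of a nondegenerate closed curve is longer than `2 π` -/
theorem frame_length (hn : 3 ≤ n) (h : ContDiff ℝ ∞ γ) (hp : ∀ t, γ (t + 2 * π) = γ t)
    (hN : Nd γ) :
    2 * π < ∫ t in (0 : ℝ)..(2 * π), √(∑ i ∈ Finset.range (n - 1), curv γ i t ^ 2) *
      ‖deriv γ t‖ := by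
  have h0 : (0 : ℕ) < n := by omega
  have hpi : (0 : ℝ) < 2 * π := by positivity
  have hgd : ∀ t, deriv γ t = ders γ t 0 := by
    intro t; unfold ders; simp [iteratedDeriv_one]
  have hρ0 : ∀ t, 0 < ‖deriv γ t‖ := by
    intro t
    rw [hgd, ← gs_zero]
    exact norm_pos_iff.2 (gs_ne hN h0 t)
  have hρ : Continuous fun t => ‖deriv γ t‖ := (contDiff_infty_iff_deriv.1 h).2.continuous.norm
  have hvel : ∀ t, deriv γ t = ‖deriv γ t‖ • fr γ 0 t := by
    intro t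
    rw [hgd, ← gs_zero]
    exact gs_smul hN h0 t
  have hper : fr γ 0 (2 * π) = fr γ 0 0 := by
    have hd : deriv γ (2 * π) = deriv γ 0 := by
      have e : γ = fun t => γ (t + 2 * π) := funext fun t => (hp t).symm
      conv_rhs => rw [e]
      rw [deriv_comp_add_const]
      simp
    rw [fr_eq, fr_eq, gs_zero, gs_zero, ← hgd, ← hgd, hd]
  have hF := fenchel (T := fr γ 0) (T' := deriv (fr γ 0)) (ρ := fun t => ‖deriv γ t‖) hpi
    (fun t => fr_deriv h hN h0 t) (fr_deriv_cont h hN h0) (fun t => fr_norm hN h0 t) hρ hρ0 hper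
    (by
      intro v
      have e : (fun t => ‖deriv γ t‖ * ⟪fr γ 0 t, v⟫) = fun t => ⟪deriv γ t, v⟫ := by
        funext t
        conv_rhs => rw [hvel t]
        rw [inner_smul_left]; simp
      rw [e]
      have hd : ∀ t, HasDerivAt (fun s => ⟪γ s, v⟫) ⟪deriv γ t, v⟫ t := by
        intro t
        have h1 : HasDerivAt γ (deriv γ t) t :=
          ((contDiff_infty_iff_deriv.1 h).1 t).hasDerivAt
        have := h1.inner ℝ (hasDerivAt_const t v)
        simpa using this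
      rw [intervalIntegral.integral_eq_sub_of_hasDerivAt (fun t _ => hd t)
        (((contDiff_infty_iff_deriv.1 h).2.continuous.inner continuous_const).intervalIntegrable
          _ _)]
      have := hp 0
      rw [zero_add] at this
      rw [this, sub_self])
  refine lt_of_le_of_lt hF ?_
  have hcurv : ∀ i, i < n - 1 → Continuous (curv γ i) := by
    intro i hi
    unfold curv
    exact Continuous.div ((fr_deriv_cont h hN (by omega)).inner
      (fr_smooth h hN (by omega : i + 1 < n)).continuous) hρ fun t => (hρ0 t).ne'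
  have hlt : ∀ t, ‖deriv (fr γ 0) t‖ < √(∑ i ∈ Finset.range (n - 1), curv γ i t ^ 2) *
      ‖deriv γ t‖ := by
    intro t
    have e1 : ‖deriv (fr γ 0) t‖ = |curv γ 0 t| * ‖deriv γ t‖ := by
      have e2 := deriv_zero h hN (by omega) t
      have e3 : ‖deriv (fr γ 0) t‖ = |⟪deriv (fr γ 0) t, fr γ 1 t⟫| := by
        conv_lhs => rw [e2]
        rw [norm_smul, fr_norm hN (by omega), mul_one, Real.norm_eq_abs]
      rw [e3]
      unfold curv
      rw [abs_div, abs_of_pos (hρ0 t), div_mul_cancel₀ _ (hρ0 t).ne']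
    rw [e1]
    refine mul_lt_mul_of_pos_right ?_ (hρ0 t)
    rw [← Real.sqrt_sq_eq_abs]
    apply Real.sqrt_lt_sqrt (sq_nonneg _)
    have h2 : curv γ 1 t ≠ 0 := by
      unfold curv
      exact div_ne_zero (second_ne h hN (by omega) t) (hρ0 t).ne'
    have h3 : ∑ i ∈ ({0, 1} : Finset ℕ), curv γ i t ^ 2 ≤
        ∑ i ∈ Finset.range (n - 1), curv γ i t ^ 2 := by
      apply Finset.sum_le_sum_of_subset_of_nonneg
      · intro i hi
        simp only [Finset.mem_insert, Finset.mem_singleton] at hi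
        rw [Finset.mem_range]
        omega
      · intro i _ _
        positivity
    rw [Finset.sum_pair (by norm_num)] at h3
    have h4 : 0 < curv γ 1 t ^ 2 := by positivity
    linarith
  have hc2 : Continuous fun t => √(∑ i ∈ Finset.range (n - 1), curv γ i t ^ 2) * ‖deriv γ t‖ := by
    refine Continuous.mul (Real.continuous_sqrt.comp ?_) hρ
    exact continuous_finsetSum _ fun i hi => (hcurv i (Finset.mem_range.1 hi)).pow 2
  exact intervalIntegral.integral_lt_integral_of_continuousOn_of_le_of_exists_lt hpi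
    (fr_deriv_cont h hN h0).norm.continuousOn hc2.continuousOn (fun t _ => (hlt t).le)
    ⟨0, ⟨le_rfl, hpi.le⟩, hlt 0⟩

end Pool.Agent.R762.Fen
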