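import Mathlib

/-! Isoptics of compact convex sets: support functions and corner points. -/

set_option autoImplicit false

namespace Pool.Agent.R762.Iso

open Real Set Filter Topology

/-- the component of `V` in the direction `φ` -/
noncomputable def du (V : ℂ) (φ : ℝ) : ℝ := V.re * cos φ + V.im * sin φ

/-- the component of `V` in the direction `φ + π / 2` -/
noncomputable def dv (V : ℂ) (φ : ℝ) : ℝ := -V.re * sin φ + V.im * cos φ

/-- support function -/
noncomputable def hh (S : Set ℂ) (φ : ℝ) : ℝ := sSup ((fun V => du V φ) '' S)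

structure Body (S : Set ℂ) : Prop where
  cpt : IsCompact S
  two : ∃ A ∈ S, ∃ B ∈ S, A ≠ B

lemma du_add (V : ℂ) (θ γ : ℝ) : du V (θ + γ) = du V θ * cos γ + dv V θ * sin γ := by
  unfold du dv; rw [cos_add, sin_add]; ring

lemma dv_add (V : ℂ) (θ γ : ℝ) : dv V (θ + γ) = -du V θ * sin γ + dv V θ * cos γ := by
  unfold du dv; rw [cos_add, sin_add]; ring

lemma du_sub (V W : ℂ) (θ : ℝ) : du (V - W) θ = du V θ - du W θ := by
  unfold du; simp only [Complex.sub_re, Complex.sub_im]; ring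

lemma dv_sub (V W : ℂ) (θ : ℝ) : dv (V - W) θ = dv V θ - dv W θ := by
  unfold dv; simp only [Complex.sub_re, Complex.sub_im]; ring

lemma sq_eq (V : ℂ) (θ : ℝ) : ‖V‖ ^ 2 = du V θ ^ 2 + dv V θ ^ 2 := by
  rw [← Complex.normSq_eq_norm_sq, Complex.normSq_apply]
  unfold du dv
  have := sin_sq_add_cos_sq θ
  linear_combination (-(V.re ^ 2 + V.im ^ 2)) * this

lemma eq_zero_of {V : ℂ} {θ : ℝ} (h1 : du V θ = 0) (h2 : dv V θ = 0) : V = 0 := by
  have := sq_eq V θ
  rw [h1, h2] at this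
  have h3 : ‖V‖ ^ 2 = 0 := by rw [this]; ring
  exact norm_eq_zero.1 (pow_eq_zero_iff two_ne_zero |>.1 h3)

lemma eq_of {V W : ℂ} {θ β : ℝ} (hβ : 0 < sin β) (h1 : du V θ = du W θ)
    (h2 : du V (θ + β) = du W (θ + β)) : V = W := by
  rw [← sub_eq_zero]
  have e1 : du (V - W) θ = 0 := by rw [du_sub, h1, sub_self]
  have e2 : du (V - W) (θ + β) = 0 := by rw [du_sub, h2, sub_self]
  apply eq_zero_of e1
  rw [du_add, e1, zero_mul, zero_add] at e2
  exact (mul_eq_zero.1 e2).resolve_right hβ.ne'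

lemma du_cont (V : ℂ) : Continuous (du V) := by unfold du; fun_prop

lemma dv_cont (V : ℂ) : Continuous (dv V) := by unfold dv; fun_prop

lemma du_per (V : ℂ) (φ : ℝ) : du V (φ + 2 * π) = du V φ := by
  unfold du; rw [cos_add_two_pi, sin_add_two_pi]

lemma du_cont2 : Continuous (fun p : ℂ × ℝ => du p.1 p.2) := by
  unfold du
  have h1 : Continuous fun p : ℂ × ℝ => p.1.re := Complex.continuous_re.comp continuous_fst
  have h2 : Continuous fun p : ℂ × ℝ => p.1.im := Complex.continuous_im.comp continuous_fst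
  fun_prop

variable {S : Set ℂ}

lemma hh_cont (hS : IsCompact S) : Continuous (hh S) := by
  apply hS.continuous_sSup
  exact du_cont2.comp (continuous_snd.prodMk continuous_fst)

lemma le_hh (hS : IsCompact S) {V : ℂ} (hV : V ∈ S) (φ : ℝ) : du V φ ≤ hh S φ := by
  apply le_csSup
  · apply (hS.image_of_continuousOn _).bddAbove
    exact (du_cont2.comp (continuous_id.prodMk continuous_const)).continuousOn
  · exact ⟨V, hV, rfl⟩

lemma ex_hh (hS : IsCompact S) (hne : S.Nonempty) (φ : ℝ) : ∃ V ∈ S, du V φ = hh S φ := by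
  have hc : ContinuousOn (fun V => du V φ) S :=
    (du_cont2.comp (continuous_id.prodMk continuous_const)).continuousOn
  obtain ⟨V, hV, h⟩ := hS.exists_sSup_image_eq hne hc
  exact ⟨V, hV, h.symm⟩

lemma hh_per (φ : ℝ) : hh S (φ + 2 * π) = hh S φ := by
  unfold hh; simp only [du_per]

lemma Body.ne (hS : Body S) : S.Nonempty := by
  obtain ⟨A, hA, -⟩ := hS.two
  exact ⟨A, hA⟩

/-- the intersection point of the support lines of the directions `θ` and `θ + β` -/
noncomputable def PP (S : Set ℂ) (β θ : ℝ) : ℂ :=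
  ⟨hh S θ * cos θ - (hh S (θ + β) - hh S θ * cos β) / sin β * sin θ,
   hh S θ * sin θ + (hh S (θ + β) - hh S θ * cos β) / sin β * cos θ⟩

lemma du_PP (β θ : ℝ) : du (PP S β θ) θ = hh S θ := by
  unfold du PP
  have := sin_sq_add_cos_sq θ
  simp only
  linear_combination (hh S θ) * this

lemma dv_PP (β θ : ℝ) : dv (PP S β θ) θ = (hh S (θ + β) - hh S θ * cos β) / sin β := by
  unfold dv PP
  have := sin_sq_add_cos_sq θ
  simp only
  linear_combination ((hh S (θ + β) - hh S θ * cos β) / sin β) * this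

lemma du_PP' {β : ℝ} (hβ : 0 < sin β) (θ : ℝ) : du (PP S β θ) (θ + β) = hh S (θ + β) := by
  rw [du_add, du_PP, dv_PP, div_mul_cancel₀ _ hβ.ne']; ring

lemma PP_eq {β : ℝ} (hβ : 0 < sin β) {θ : ℝ} {V : ℂ} (h1 : du V θ = hh S θ)
    (h2 : du V (θ + β) = hh S (θ + β)) : PP S β θ = V :=
  eq_of hβ (by rw [du_PP, h1]) (by rw [du_PP' hβ, h2])

lemma PP_cont (hS : IsCompact S) (β : ℝ) : Continuous (PP S β) := by
  have := hh_cont hS
  have h1 : Continuous fun θ => hh S θ * cos θ - (hh S (θ + β) - hh S θ * cos β) / sin β * sin θ := by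
    fun_prop
  have h2 : Continuous fun θ => hh S θ * sin θ + (hh S (θ + β) - hh S θ * cos β) / sin β * cos θ := by
    fun_prop
  have e : PP S β = fun θ => ((hh S θ * cos θ - (hh S (θ + β) - hh S θ * cos β) / sin β * sin θ : ℝ) : ℂ)
      + ((hh S θ * sin θ + (hh S (θ + β) - hh S θ * cos β) / sin β * cos θ : ℝ) : ℂ) * Complex.I := by
    funext θ
    apply Complex.ext
    · simp only [PP, Complex.add_re, Complex.mul_re, Complex.ofReal_re, Complex.ofReal_im,
        Complex.I_re, Complex.I_im]; ring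
    · simp only [PP, Complex.add_im, Complex.mul_im, Complex.ofReal_re, Complex.ofReal_im,
        Complex.I_re, Complex.I_im]; ring
  rw [e]
  exact (Complex.continuous_ofReal.comp h1).add ((Complex.continuous_ofReal.comp h2).mul
    continuous_const)

/-- contact points lie clockwise of the intersection point on the first line -/
lemma contact1 (hS : Body S) {β θ : ℝ} (hβ : 0 < sin β) {A : ℂ} (hA : A ∈ S)
    (h : du A θ = hh S θ) : dv A θ ≤ dv (PP S β θ) θ := by
  have h1 := le_hh hS.cpt hA (θ + β)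
  rw [← du_PP' hβ, du_add, du_add, h, du_PP] at h1
  have h2 : dv A θ * sin β ≤ dv (PP S β θ) θ * sin β := by linarith
  exact le_of_mul_le_mul_right h2 hβ

/-- contact points lie counterclockwise of the intersection point on the second line -/
lemma contact2 (hS : Body S) {β θ : ℝ} (hβ : 0 < sin β) {B : ℂ} (hB : B ∈ S)
    (h : du B (θ + β) = hh S (θ + β)) : dv (PP S β θ) (θ + β) ≤ dv B (θ + β) := by
  have h1 := le_hh hS.cpt hB θ
  have e : θ = θ + β + -β := by ring
  have e1 := du_add B (θ + β) (-β)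
  have e2 := du_add (PP S β θ) (θ + β) (-β)
  rw [← e] at e1 e2
  rw [← du_PP (S := S) β θ, e1, e2, h, du_PP' hβ, cos_neg, sin_neg] at h1
  have h2 : dv (PP S β θ) (θ + β) * sin β ≤ dv B (θ + β) * sin β := by linarith
  exact le_of_mul_le_mul_right h2 hβ

/-- a corner point has all the directions between two of its directions -/
lemma corner (hS : Body S) {β θ : ℝ} (hβ : 0 < β) (hβ' : β < π) {V : ℂ} (hV : V ∈ S)
    (h1 : du V θ = hh S θ) (h2 : du V (θ + β) = hh S (θ + β)) {φ : ℝ}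
    (hφ : φ ∈ Icc θ (θ + β)) : hh S φ = du V φ := by
  apply le_antisymm _ (le_hh hS.cpt hV φ)
  obtain ⟨X, hX, e⟩ := ex_hh hS.cpt hS.ne φ
  rw [← e]
  obtain ⟨γ, hγ⟩ : ∃ γ, φ = θ + γ := ⟨φ - θ, by ring⟩
  have hγ0 : 0 ≤ γ := by linarith [hφ.1]
  have hγ1 : γ ≤ β := by linarith [hφ.2]
  have s0 : 0 < sin β := sin_pos_of_pos_of_lt_pi hβ hβ'
  have s1 : 0 ≤ sin γ := sin_nonneg_of_nonneg_of_le_pi hγ0 (by linarith)
  have s2 : 0 ≤ sin (β - γ) := sin_nonneg_of_nonneg_of_le_pi (by linarith) (by linarith)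
  have k1 := le_hh hS.cpt hX θ
  have k2 := le_hh hS.cpt hX (θ + β)
  rw [← h1] at k1
  rw [← h2] at k2
  have key : ∀ W : ℂ, du W φ * sin β = du W θ * sin (β - γ) + du W (θ + β) * sin γ := by
    intro W
    rw [hγ, du_add, du_add, sin_sub]; ring
  have h3 : du X φ * sin β ≤ du V φ * sin β := by
    rw [key, key]
    exact add_le_add (mul_le_mul_of_nonneg_right k1 s2) (mul_le_mul_of_nonneg_right k2 s1)
  exact le_of_mul_le_mul_right h3 s0

/-- uniqueness of the contact point in the interior of the normal cone -/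
lemma corner_unique (hS : Body S) {a b θ : ℝ} {V W : ℂ} (hg : ∀ φ ∈ Icc a b, hh S φ = du V φ)
    (ha : a < θ) (hb : θ < b) (hW : W ∈ S) (h : du W θ = hh S θ) : W = V := by
  have h0 : du (W - V) θ = 0 := by
    rw [du_sub, h, hg θ ⟨ha.le, hb.le⟩, sub_self]
  have hle : ∀ γ, θ + γ ∈ Icc a b → dv (W - V) θ * sin γ ≤ 0 := by
    intro γ hγ
    have h1 := le_hh hS.cpt hW (θ + γ)
    rw [hg _ hγ] at h1
    have h2 : du (W - V) (θ + γ) ≤ 0 := by rw [du_sub]; linarith
    rw [du_add, h0] at h2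
    linarith
  obtain ⟨e, he⟩ : ∃ e, e = min (min (θ - a) (b - θ)) 1 := ⟨_, rfl⟩
  have he0 : 0 < e := by
    rw [he]; exact lt_min (lt_min (by linarith) (by linarith)) one_pos
  have he1 : e ≤ θ - a := by rw [he]; exact (min_le_left _ _).trans (min_le_left _ _)
  have he2 : e ≤ b - θ := by rw [he]; exact (min_le_left _ _).trans (min_le_right _ _)
  have he3 : e ≤ 1 := by rw [he]; exact min_le_right _ _
  have hs : 0 < sin e := sin_pos_of_pos_of_lt_pi he0 (by linarith [Real.pi_gt_three])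
  have k1 := hle e ⟨by linarith, by linarith⟩
  have k2 := hle (-e) ⟨by linarith, by linarith⟩
  rw [sin_neg] at k2
  have h1 : dv (W - V) θ = 0 := by
    apply le_antisymm
    · by_contra hc
      push Not at hc
      linarith [mul_pos hc hs]
    · by_contra hc
      push Not at hc
      nlinarith [mul_neg_of_neg_of_pos hc hs]
  exact sub_eq_zero.1 (eq_zero_of h0 h1)

/-- the right end of an interval of zeros -/
lemma right_end {g : ℝ → ℝ} (hg : Continuous g) (h0 : ∀ φ, 0 ≤ g φ) {a b : ℝ} (hab : a ≤ b)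
    (hz : ∀ φ ∈ Icc a b, g φ = 0) (hex : ∃ φ, b ≤ φ ∧ 0 < g φ) :
    ∃ c, b ≤ c ∧ (∀ φ ∈ Icc a c, g φ = 0) ∧ ∀ ε > 0, ∃ φ, c < φ ∧ φ < c + ε ∧ 0 < g φ := by
  obtain ⟨Z, hZ⟩ : ∃ Z : Set ℝ, Z = {φ | b ≤ φ ∧ 0 < g φ} := ⟨_, rfl⟩
  have hne : Z.Nonempty := by rw [hZ]; exact hex
  have hbd : BddBelow Z := ⟨b, fun x hx => by rw [hZ] at hx; exact hx.1⟩
  have hbc : b ≤ sInf Z := le_csInf hne fun x hx => by rw [hZ] at hx; exact hx.1
  have h1 : ∀ φ, b ≤ φ → φ < sInf Z → g φ = 0 := by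
    intro φ hφ hlt
    by_contra hcon
    have : φ ∈ Z := by rw [hZ]; exact ⟨hφ, lt_of_le_of_ne (h0 φ) (Ne.symm hcon)⟩
    exact absurd (csInf_le hbd this) (not_le.2 hlt)
  have h2 : g (sInf Z) = 0 := by
    rcases hbc.lt_or_eq with h | h
    · by_contra hcon
      have hpos : 0 < g (sInf Z) := lt_of_le_of_ne (h0 _) (Ne.symm hcon)
      have hev : ∀ᶠ x in 𝓝 (sInf Z), 0 < g x := hg.continuousAt.eventually (lt_mem_nhds hpos)
      obtain ⟨ε, hε, hball⟩ := Metric.eventually_nhds_iff.1 hev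
      obtain ⟨x, hx⟩ : ∃ x, x = max b (sInf Z - ε / 2) := ⟨_, rfl⟩
      have hx1 : b ≤ x := by rw [hx]; exact le_max_left _ _
      have hx2 : x < sInf Z := by rw [hx]; exact max_lt h (by linarith)
      have hx3 : sInf Z - ε / 2 ≤ x := by rw [hx]; exact le_max_right _ _
      have h3 := hball (y := x) (by rw [Real.dist_eq, abs_lt]; constructor <;> linarith)
      rw [h1 x hx1 hx2] at h3
      exact lt_irrefl _ h3
    · rw [← h]; exact hz b ⟨hab, le_rfl⟩
  refine ⟨sInf Z, hbc, fun φ hφ => ?_, fun ε hε => ?_⟩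
  · rcases le_total φ b with h | h
    · exact hz φ ⟨hφ.1, h⟩
    · rcases hφ.2.lt_or_eq with h' | h'
      · exact h1 φ h h'
      · rw [h']; exact h2
  · obtain ⟨φ, hφ, hlt⟩ := exists_lt_of_csInf_lt hne (show sInf Z < sInf Z + ε by linarith)
    have hφ1 := csInf_le hbd hφ
    rw [hZ] at hφ
    refine ⟨φ, lt_of_le_of_ne hφ1 fun h => ?_, hlt, hφ.2⟩
    have := hφ.2
    rw [← h, h2] at this
    exact lt_irrefl _ this

/-- the left end of an interval of zeros -/
lemma left_end {g : ℝ → ℝ} (hg : Continuous g) (h0 : ∀ φ, 0 ≤ g φ) {a b : ℝ} (hab : a ≤ b)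
    (hz : ∀ φ ∈ Icc a b, g φ = 0) (hex : ∃ φ, φ ≤ a ∧ 0 < g φ) :
    ∃ c, c ≤ a ∧ (∀ φ ∈ Icc c b, g φ = 0) ∧ ∀ ε > 0, ∃ φ, c - ε < φ ∧ φ < c ∧ 0 < g φ := by
  obtain ⟨φ, h1, h2⟩ := hex
  obtain ⟨c, hc1, hc2, hc3⟩ := right_end (g := fun x => g (-x)) (hg.comp continuous_neg)
    (fun x => h0 _) (a := -b) (b := -a) (by linarith)
    (fun x hx => hz _ ⟨by linarith [hx.2], by linarith [hx.1]⟩) ⟨-φ, by linarith, by simpa using h2⟩
  refine ⟨-c, by linarith, fun x hx => ?_, fun ε hε => ?_⟩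
  · have := hc2 (-x) ⟨by linarith [hx.2], by linarith [hx.1]⟩
    simpa using this
  · obtain ⟨x, hx1, hx2, hx3⟩ := hc3 ε hε
    exact ⟨-x, by linarith, by linarith, hx3⟩

/-- the support function is somewhere larger than that of a point -/
lemma ex_pos (hS : Body S) (V : ℂ) : ∃ φ, ∀ n : ℤ, 0 < hh S (φ + n * (2 * π)) - du V (φ + n * (2 * π)) := by
  obtain ⟨X, hX, hne⟩ : ∃ X ∈ S, X ≠ V := by
    obtain ⟨A, hA, B, hB, hAB⟩ := hS.two
    by_cases h : A = V
    · exact ⟨B, hB, fun h' => hAB (by rw [h, h'])⟩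
    · exact ⟨A, hA, h⟩
  have hD : X - V ≠ 0 := sub_ne_zero.2 hne
  refine ⟨Complex.arg (X - V), fun n => ?_⟩
  have h1 := le_hh hS.cpt hX (Complex.arg (X - V) + n * (2 * π))
  have h2 : 0 < du (X - V) (Complex.arg (X - V) + n * (2 * π)) := by
    unfold du
    rw [cos_add_int_mul_two_pi, sin_add_int_mul_two_pi, Complex.cos_arg hD, Complex.sin_arg]
    have hn : 0 < ‖X - V‖ := norm_pos_iff.2 hD
    have h3 : (X - V).re * ((X - V).re / ‖X - V‖) + (X - V).im * ((X - V).im / ‖X - V‖) =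
        ‖X - V‖ := by
      have h4 := Complex.normSq_apply (X - V)
      rw [Complex.normSq_eq_norm_sq] at h4
      field_simp
      linarith
    rw [h3]; exact hn
  rw [du_sub] at h2
  linarith

end Pool.Agent.R762.Iso
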