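import Mathlib
import Pool.Agent.R762.Iso1

/-! Isoptics of compact convex sets: the angle of sight and circular isoptics. -/

set_option autoImplicit false

namespace Pool.Agent.R762.Iso

open Real Set Filter Topology

variable {S : Set ℂ}

/-- The angle of sight. -/
noncomputable def sight (S : Set ℂ) (P : ℂ) : ℝ :=
  sSup {a | ∃ X ∈ S, ∃ Y ∈ S, a = InnerProductGeometry.angle (X - P) (Y - P)}

lemma re_im {v : ℂ} {x : ℝ} (h : v = -(‖v‖ : ℂ) * Complex.exp (x * Complex.I)) :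
    v.re = -‖v‖ * cos x ∧ v.im = -‖v‖ * sin x := by
  have h1 : (-(‖v‖ : ℂ) * Complex.exp (x * Complex.I)).re = -‖v‖ * cos x := by
    rw [Complex.exp_mul_I]
    simp [Complex.add_re, Complex.mul_re, Complex.cos_ofReal_re, Complex.sin_ofReal_re]
  have h2 : (-(‖v‖ : ℂ) * Complex.exp (x * Complex.I)).im = -‖v‖ * sin x := by
    rw [Complex.exp_mul_I]
    simp [Complex.add_re, Complex.mul_re, Complex.cos_ofReal_re, Complex.sin_ofReal_re]
  rw [← h] at h1 h2
  exact ⟨h1, h2⟩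

lemma polar (v : ℂ) (θ : ℝ) : ∃ a : ℝ, a ∈ Ioc (-π) π ∧ v.re = -‖v‖ * cos (a + θ) ∧
    v.im = -‖v‖ * sin (a + θ) := by
  obtain ⟨z, hz⟩ : ∃ z : ℂ, z = -v * Complex.exp ((-θ : ℝ) * Complex.I) := ⟨_, rfl⟩
  refine ⟨Complex.arg z, ⟨Complex.neg_pi_lt_arg z, Complex.arg_le_pi z⟩, ?_⟩
  have hn : ‖z‖ = ‖v‖ := by
    rw [hz, norm_mul, norm_neg, Complex.norm_exp_ofReal_mul_I, mul_one]
  apply re_im
  have h1 := Complex.norm_mul_exp_arg_mul_I z
  rw [hn] at h1
  have h2 : Complex.exp ((Complex.arg z + θ : ℝ) * Complex.I) =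
      Complex.exp (Complex.arg z * Complex.I) * Complex.exp (θ * Complex.I) := by
    rw [← Complex.exp_add]; congr 1; push_cast; ring
  rw [h2, neg_mul, ← mul_assoc, h1, hz, mul_assoc, ← Complex.exp_add]
  push_cast
  rw [show -(θ:ℂ) * Complex.I + θ * Complex.I = 0 by ring, Complex.exp_zero]
  ring

lemma inner_eq (v w : ℂ) : inner ℝ v w = v.re * w.re + v.im * w.im := by
  rw [Complex.inner]
  simp only [Complex.mul_re, Complex.conj_re, Complex.conj_im]
  ring

/-- two vectors in the cone make an angle of at most `π - β` -/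
lemma angle_le {β θ : ℝ} (hβ : 0 < β) (hβ' : β < π) {v w : ℂ} (hv : v ≠ 0) (hw : w ≠ 0)
    (v1 : du v θ ≤ 0) (v2 : du v (θ + β) ≤ 0) (w1 : du w θ ≤ 0) (w2 : du w (θ + β) ≤ 0) :
    InnerProductGeometry.angle v w ≤ π - β := by
  have key : ∀ v : ℂ, v ≠ 0 → du v θ ≤ 0 → du v (θ + β) ≤ 0 → ∃ a ∈ Icc (β - π / 2) (π / 2),
      v.re = -‖v‖ * cos (a + θ) ∧ v.im = -‖v‖ * sin (a + θ) := by
    intro v hv h1 h2
    obtain ⟨a, ha, e1, e2⟩ := polar v θ
    have hn : 0 < ‖v‖ := norm_pos_iff.2 hv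
    have f1 : du v θ = -(‖v‖ * cos a) := by
      unfold du; rw [e1, e2]
      have : cos a = cos (a + θ) * cos θ + sin (a + θ) * sin θ := by
        rw [← cos_sub]; congr 1; ring
      rw [this]; ring
    have f2 : du v (θ + β) = -(‖v‖ * cos (a - β)) := by
      unfold du; rw [e1, e2]
      have : cos (a - β) = cos (a + θ) * cos (θ + β) + sin (a + θ) * sin (θ + β) := by
        rw [← cos_sub]; congr 1; ring
      rw [this]; ring
    have g1 : 0 ≤ cos a := by
      by_contra hc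
      push Not at hc
      linarith [mul_neg_of_pos_of_neg hn hc]
    have g2 : 0 ≤ cos (a - β) := by
      by_contra hc
      push Not at hc
      linarith [mul_neg_of_pos_of_neg hn hc]
    have b1 : a ≤ π / 2 := by
      by_contra hc
      push Not at hc
      linarith [cos_neg_of_pi_div_two_lt_of_lt hc (by linarith [ha.2])]
    have b2 : -(π / 2) ≤ a := by
      by_contra hc
      push Not at hc
      have := cos_neg_of_pi_div_two_lt_of_lt (x := -a) (by linarith) (by linarith [ha.1])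
      rw [cos_neg] at this
      linarith
    have b3 : β - π / 2 ≤ a := by
      by_contra hc
      push Not at hc
      have := cos_neg_of_pi_div_two_lt_of_lt (x := β - a) (by linarith) (by linarith)
      rw [← cos_neg, neg_sub] at this
      linarith
    exact ⟨a, ⟨b3, b1⟩, e1, e2⟩
  obtain ⟨a, ha, a1, a2⟩ := key v hv v1 v2
  obtain ⟨b, hb, b1, b2⟩ := key w hw w1 w2
  have hnv : 0 < ‖v‖ := norm_pos_iff.2 hv
  have hnw : 0 < ‖w‖ := norm_pos_iff.2 hw
  have e : inner ℝ v w / (‖v‖ * ‖w‖) = cos (a - b) := by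
    rw [inner_eq, a1, a2, b1, b2, show a - b = (a + θ) - (b + θ) by ring, cos_sub]
    field_simp
  rw [InnerProductGeometry.angle, e, ← cos_abs, arccos_cos (abs_nonneg _)]
  · rw [abs_le]; constructor <;> linarith [ha.1, ha.2, hb.1, hb.2]
  · rw [abs_le]; constructor <;> linarith [ha.1, ha.2, hb.1, hb.2]

/-- the angle of sight from the intersection point of two support lines -/
lemma sight_PP (hS : Body S) {β : ℝ} (hβ : 0 < β) (hβ' : β < π) {θ : ℝ} (hP : PP S β θ ∉ S) :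
    sight S (PP S β θ) = π - β := by
  have s0 : 0 < sin β := sin_pos_of_pos_of_lt_pi hβ hβ'
  obtain ⟨P, hPdef⟩ : ∃ P, P = PP S β θ := ⟨_, rfl⟩
  rw [← hPdef] at hP ⊢
  have p1 : du P θ = hh S θ := by rw [hPdef]; exact du_PP β θ
  have p2 : du P (θ + β) = hh S (θ + β) := by rw [hPdef]; exact du_PP' s0 θ
  apply IsGreatest.csSup_eq
  constructor
  · obtain ⟨A, hA, eA⟩ := ex_hh hS.cpt hS.ne θ
    obtain ⟨B, hB, eB⟩ := ex_hh hS.cpt hS.ne (θ + β)
    refine ⟨A, hA, B, hB, ?_⟩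
    have cA := contact1 hS s0 hA eA
    have cB := contact2 hS s0 hB eB
    rw [← hPdef] at cA cB
    -- the components
    have a0 : du (A - P) θ = 0 := by rw [du_sub, eA, p1, sub_self]
    have b0 : du (B - P) (θ + β) = 0 := by rw [du_sub, eB, p2, sub_self]
    have a1 : dv (A - P) θ < 0 := by
      have h1 : dv (A - P) θ ≤ 0 := by rw [dv_sub]; linarith
      refine lt_of_le_of_ne h1 fun h => hP ?_
      rw [← sub_eq_zero.1 (eq_zero_of a0 h)]; exact hA
    have b1 : 0 < dv (B - P) (θ + β) := by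
      have h1 : 0 ≤ dv (B - P) (θ + β) := by rw [dv_sub]; linarith
      refine lt_of_le_of_ne h1 fun h => hP ?_
      rw [← sub_eq_zero.1 (eq_zero_of b0 h.symm)]; exact hB
    have nA : ‖A - P‖ = -dv (A - P) θ := by
      have h1 := sq_eq (A - P) θ
      rw [a0] at h1
      have h2 : ‖A - P‖ ^ 2 = (-dv (A - P) θ) ^ 2 := by rw [h1]; ring
      exact (pow_left_inj₀ (norm_nonneg _) (by linarith) two_ne_zero).1 h2
    have nB : ‖B - P‖ = dv (B - P) (θ + β) := by
      have h1 := sq_eq (B - P) (θ + β)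
      rw [b0] at h1
      have h2 : ‖B - P‖ ^ 2 = (dv (B - P) (θ + β)) ^ 2 := by rw [h1]; ring
      exact (pow_left_inj₀ (norm_nonneg _) b1.le two_ne_zero).1 h2
    have rcmp : ∀ (V : ℂ) (φ : ℝ), V.re = du V φ * cos φ - dv V φ * sin φ ∧
        V.im = du V φ * sin φ + dv V φ * cos φ := by
      intro V φ
      unfold du dv
      have := sin_sq_add_cos_sq φ
      constructor
      · linear_combination (-V.re) * this
      · linear_combination (-V.im) * this
    obtain ⟨rA1, rA2⟩ := rcmp (A - P) θ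
    obtain ⟨rB1, rB2⟩ := rcmp (B - P) (θ + β)
    rw [a0] at rA1 rA2
    rw [b0] at rB1 rB2
    have e : inner ℝ (A - P) (B - P) / (‖A - P‖ * ‖B - P‖) = cos (π - β) := by
      rw [inner_eq, rA1, rA2, rB1, rB2, nA, nB, cos_pi_sub]
      have hc : cos β = cos (θ + β) * cos θ + sin (θ + β) * sin θ := by
        rw [← cos_sub]; congr 1; ring
      rw [hc]
      have h1 := a1.ne
      have h2 := b1.ne'
      field_simp
      ring
    rw [InnerProductGeometry.angle, e, arccos_cos (by linarith) (by linarith)]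
  · rintro _ ⟨X, hX, Y, hY, rfl⟩
    have key : ∀ X ∈ S, X - P ≠ 0 ∧ du (X - P) θ ≤ 0 ∧ du (X - P) (θ + β) ≤ 0 := by
      intro X hX
      refine ⟨fun h => hP (by rw [← sub_eq_zero.1 h]; exact hX), ?_, ?_⟩
      · rw [du_sub, p1]; linarith [le_hh hS.cpt hX θ]
      · rw [du_sub, p2]; linarith [le_hh hS.cpt hX (θ + β)]
    obtain ⟨x0, x1, x2⟩ := key X hX
    obtain ⟨y0, y1, y2⟩ := key Y hY
    exact angle_le hβ hβ' x0 y0 x1 x2 y1 y2

lemma g_cont (hS : Body S) (V : ℂ) : Continuous fun φ => hh S φ - du V φ :=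
  (hh_cont hS.cpt).sub (du_cont V)

lemma ex_right (hS : Body S) (V : ℂ) (b : ℝ) : ∃ φ, b ≤ φ ∧ 0 < hh S φ - du V φ := by
  obtain ⟨φ, hφ⟩ := ex_pos hS V
  have hπ := Real.pi_pos
  obtain ⟨n, hn⟩ := exists_int_gt ((b - φ) / (2 * π))
  rw [div_lt_iff₀ (by positivity)] at hn
  exact ⟨φ + n * (2 * π), by linarith, hφ n⟩

lemma ex_left (hS : Body S) (V : ℂ) (b : ℝ) : ∃ φ, φ ≤ b ∧ 0 < hh S φ - du V φ := by
  obtain ⟨φ, hφ⟩ := ex_pos hS V
  have hπ := Real.pi_pos
  obtain ⟨n, hn⟩ := exists_int_lt ((b - φ) / (2 * π))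
  rw [lt_div_iff₀ (by positivity)] at hn
  exact ⟨φ + n * (2 * π), by linarith, hφ n⟩

/-- If `φ` is just outside the normal cone of `V`, the intersection point is not in `S`. -/
lemma not_mem_right (hS : Body S) {β a c φ : ℝ} (hβ : 0 < β) (hβ' : β < π) {V : ℂ}
    (hz : ∀ φ ∈ Icc a c, hh S φ - du V φ = 0) (h1 : a < φ - β) (h2 : φ - β < c)
    (h3 : 0 < hh S φ - du V φ) : PP S β (φ - β) ∉ S := by
  intro hmem
  have s0 : 0 < sin β := sin_pos_of_pos_of_lt_pi hβ hβ'
  have h4 := corner_unique hS (V := V) (fun x hx => sub_eq_zero.1 (hz x hx)) h1 h2 hmem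
    (du_PP β (φ - β))
  have h5 := du_PP' (S := S) s0 (φ - β)
  rw [h4, sub_add_cancel] at h5
  linarith

lemma not_mem_left (hS : Body S) {β a c φ : ℝ} (hβ : 0 < β) (hβ' : β < π) {V : ℂ}
    (hz : ∀ φ ∈ Icc a c, hh S φ - du V φ = 0) (h1 : a < φ + β) (h2 : φ + β < c)
    (h3 : 0 < hh S φ - du V φ) : PP S β φ ∉ S := by
  intro hmem
  have s0 : 0 < sin β := sin_pos_of_pos_of_lt_pi hβ hβ'
  have h4 := corner_unique hS (V := V) (fun x hx => sub_eq_zero.1 (hz x hx)) h1 h2 hmem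
    (du_PP' s0 φ)
  have h5 := du_PP (S := S) β φ
  rw [h4] at h5
  linarith

/-- all the intersection points are on the circle that contains the isoptic -/
lemma on_sphere (hS : Body S) {β : ℝ} (hβ : 0 < β) (hβ' : β < π) {O : ℂ} {R : ℝ}
    (hiso : ∀ P, P ∉ S → sight S P = π - β → ‖P - O‖ = R) (θ : ℝ) : ‖PP S β θ - O‖ = R := by
  have s0 : 0 < sin β := sin_pos_of_pos_of_lt_pi hβ hβ'
  by_cases hmem : PP S β θ ∉ S
  · exact hiso _ hmem (sight_PP hS hβ hβ' hmem)
  · push Not at hmem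
    obtain ⟨V, hV⟩ : ∃ V, V = PP S β θ := ⟨_, rfl⟩
    rw [← hV] at hmem ⊢
    have v1 : du V θ = hh S θ := by rw [hV]; exact du_PP β θ
    have v2 : du V (θ + β) = hh S (θ + β) := by rw [hV]; exact du_PP' s0 θ
    have hz : ∀ φ ∈ Icc θ (θ + β), hh S φ - du V φ = 0 := fun φ hφ =>
      sub_eq_zero.2 (corner hS hβ hβ' hmem v1 v2 hφ)
    obtain ⟨c, hc1, hc2, hc3⟩ := right_end (g_cont hS V)
      (fun φ => sub_nonneg.2 (le_hh hS.cpt hmem φ)) (by linarith) hz (ex_right hS V _)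
    have hPc : PP S β (c - β) = V := by
      apply PP_eq s0
      · exact (sub_eq_zero.1 (hc2 _ ⟨by linarith, by linarith⟩)).symm
      · rw [sub_add_cancel]
        exact (sub_eq_zero.1 (hc2 _ ⟨by linarith, le_rfl⟩)).symm
    by_contra hne
    rw [← hPc] at hne
    have hcont : Continuous fun x => ‖PP S β x - O‖ :=
      ((PP_cont hS.cpt β).sub continuous_const).norm
    have hev := hcont.continuousAt.eventually_ne hne
    obtain ⟨ε, hε, hball⟩ := Metric.eventually_nhds_iff.1 hev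
    obtain ⟨φ, hφ1, hφ2, hφ3⟩ := hc3 (min ε β) (lt_min hε hβ)
    have hφ4 : φ < c + ε := hφ2.trans_le (by linarith [min_le_left ε β])
    have hφ5 : φ < c + β := hφ2.trans_le (by linarith [min_le_right ε β])
    have hnot := not_mem_right hS hβ hβ' hc2 (φ := φ) (by linarith) (by linarith) hφ3
    apply hball (y := φ - β) (by rw [Real.dist_eq, abs_lt]; constructor <;> linarith)
    exact hiso _ hnot (sight_PP hS hβ hβ' hnot)

/-- the normal cone of a point has an angle of at most `π` -/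
lemma cone_le (hS : Body S) {V : ℂ} {a c : ℝ} (hz : ∀ φ ∈ Icc a c, hh S φ - du V φ = 0) :
    c - a ≤ π := by
  by_contra hcon
  push Not at hcon
  obtain ⟨A, hA, B, hB, hAB⟩ := hS.two
  have hπ := Real.pi_pos
  have key : ∀ X ∈ S, X = V := by
    intro X hX
    have h1 : ∀ φ ∈ Icc a c, du (X - V) φ ≤ 0 := fun φ hφ => by
      rw [du_sub]; linarith [le_hh hS.cpt hX φ, hz φ hφ]
    have h2 : ∀ φ, a ≤ φ → φ + π ≤ c → du (X - V) φ = 0 := by
      intro φ hφ1 hφ2
      apply le_antisymm (h1 φ ⟨hφ1, by linarith⟩)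
      have h3 := h1 (φ + π) ⟨by linarith, hφ2⟩
      unfold du at h3 ⊢
      rw [cos_add_pi, sin_add_pi] at h3
      linarith
    obtain ⟨e, he⟩ : ∃ e, e = min (c - a - π) 1 := ⟨_, rfl⟩
    have he0 : 0 < e := by rw [he]; exact lt_min (by linarith) one_pos
    have he1 : e ≤ c - a - π := by rw [he]; exact min_le_left _ _
    have he2 : e ≤ 1 := by rw [he]; exact min_le_right _ _
    have hs : 0 < sin e := sin_pos_of_pos_of_lt_pi he0 (by linarith [Real.pi_gt_three])
    have k1 := h2 a le_rfl (by linarith)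
    have k2 := h2 (a + e) (by linarith) (by linarith)
    rw [du_add, k1, zero_mul, zero_add] at k2
    exact sub_eq_zero.1 (eq_zero_of k1 ((mul_eq_zero.1 k2).resolve_right hs.ne'))
  exact hAB ((key A hA).trans (key B hB).symm)

/-- the circle equation -/
lemma circle_eq {β : ℝ} (hβ : 0 < sin β) {O : ℂ} {R : ℝ} {θ : ℝ} (h : ‖PP S β θ - O‖ = R) :
    (hh S θ - du O θ) ^ 2 + (hh S (θ + β) - du O (θ + β)) ^ 2 -
      2 * (hh S θ - du O θ) * (hh S (θ + β) - du O (θ + β)) * cos β = R ^ 2 * sin β ^ 2 := by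
  have h1 := sq_eq (PP S β θ - O) θ
  rw [h] at h1
  have e1 : du (PP S β θ - O) θ = hh S θ - du O θ := by rw [du_sub, du_PP]
  have e2 : du (PP S β θ - O) (θ + β) = hh S (θ + β) - du O (θ + β) := by
    rw [du_sub, du_PP' hβ]
  rw [← e1, ← e2, h1, du_add]
  have := sin_sq_add_cos_sq β
  linear_combination (-(du (PP S β θ - O) θ) ^ 2) * this + (du (PP S β θ - O) θ) ^ 2 * 0 * this
    + 0 * h1

end Pool.Agent.R762.Iso
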