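import Mathlib
import Pool.Agent.R762.Iso2

/-! Isoptics of compact convex sets: the period lemma and the classification. -/

set_option autoImplicit false

namespace Pool.Agent.R762.Iso

open Real Set Filter Topology

variable {S : Set ℂ}

/-- a point at distance `R` from `O` on a line through another such point -/
lemma chord {P V O : ℂ} {R φ : ℝ} (h1 : ‖P - O‖ = R) (h2 : ‖V - O‖ = R)
    (h3 : du (P - V) φ = 0) (h4 : P ≠ V) : dv (P - V) φ = -2 * dv (V - O) φ := by
  have e1 := sq_eq (P - O) φ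
  have e2 := sq_eq (V - O) φ
  have e3 : P - O = (P - V) - (O - V) := by ring
  have e4 : V - O = 0 - (O - V) := by ring
  have hu : du (P - O) φ = du (V - O) φ := by
    have := h3
    rw [du_sub] at this ⊢
    rw [du_sub]; linarith
  have hv : dv (P - O) φ = dv (P - V) φ + dv (V - O) φ := by
    rw [dv_sub, dv_sub, dv_sub]; ring
  rw [h1, hu, hv] at e1
  rw [h2] at e2
  have h5 : dv (P - V) φ * (dv (P - V) φ + 2 * dv (V - O) φ) = 0 := by
    linear_combination e2 - e1
  rcases mul_eq_zero.1 h5 with h | h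
  · exact absurd (sub_eq_zero.1 (eq_zero_of h3 h)) h4
  · linarith

lemma dv_le_norm (V : ℂ) (φ : ℝ) : |dv V φ| ≤ ‖V‖ := by
  apply abs_le_of_sq_le_sq _ (norm_nonneg _)
  rw [sq_eq V φ]
  linarith [sq_nonneg (du V φ)]

/-- The tangency at the right end of the normal cone. -/
lemma tan_right (hS : Body S) {β : ℝ} (hβ : 0 < β) (hβ' : β < π) {O : ℂ} {R : ℝ}
    (hR : ∀ θ, ‖PP S β θ - O‖ = R) {V : ℂ} {a c : ℝ}
    (hac : a + 2 * β ≤ c) (hz : ∀ φ ∈ Icc a c, hh S φ - du V φ = 0)
    (hc : ∀ ε > 0, ∃ φ, c < φ ∧ φ < c + ε ∧ 0 < hh S φ - du V φ) :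
    dv (V - O) (c - β) = 0 := by
  have s0 : 0 < sin β := sin_pos_of_pos_of_lt_pi hβ hβ'
  have hPc : PP S β (c - β) = V := by
    apply PP_eq s0
    · exact (sub_eq_zero.1 (hz _ ⟨by linarith, by linarith⟩)).symm
    · rw [sub_add_cancel]
      exact (sub_eq_zero.1 (hz _ ⟨by linarith, le_rfl⟩)).symm
  by_contra hne
  have hF : Continuous fun x => |2 * dv (V - O) x| - ‖PP S β x - V‖ :=
    ((continuous_const.mul (dv_cont _)).abs).sub ((PP_cont hS.cpt β).sub continuous_const).norm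
  have hpos : 0 < |2 * dv (V - O) (c - β)| - ‖PP S β (c - β) - V‖ := by
    rw [hPc, sub_self, norm_zero, sub_zero]
    exact abs_pos.2 (mul_ne_zero two_ne_zero hne)
  have hev : ∀ᶠ x in 𝓝 (c - β), 0 < |2 * dv (V - O) x| - ‖PP S β x - V‖ :=
    hF.continuousAt.eventually (lt_mem_nhds hpos)
  obtain ⟨ε, hε, hball⟩ := Metric.eventually_nhds_iff.1 hev
  obtain ⟨φ, hφ1, hφ2, hφ3⟩ := hc (min ε β) (lt_min hε hβ)
  have hφ4 : φ < c + ε := hφ2.trans_le (by linarith [min_le_left ε β])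
  have hφ5 : φ < c + β := hφ2.trans_le (by linarith [min_le_right ε β])
  have h1 := hball (y := φ - β) (by rw [Real.dist_eq, abs_lt]; constructor <;> linarith)
  have hV0 : ‖V - O‖ = R := by rw [← hPc]; exact hR _
  have hu : du (PP S β (φ - β) - V) (φ - β) = 0 := by
    rw [du_sub, du_PP]; exact hz _ ⟨by linarith, by linarith⟩
  have hPV : PP S β (φ - β) ≠ V := by
    intro h
    have h5 := du_PP' (S := S) s0 (φ - β)
    rw [h, sub_add_cancel] at h5
    linarith
  have h2 := chord (hR (φ - β)) hV0 hu hPV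
  have h3 := dv_le_norm (PP S β (φ - β) - V) (φ - β)
  rw [h2, neg_mul, abs_neg] at h3
  linarith

/-- The tangency at the left end of the normal cone. -/
lemma tan_left (hS : Body S) {β : ℝ} (hβ : 0 < β) (hβ' : β < π) {O : ℂ} {R : ℝ}
    (hR : ∀ θ, ‖PP S β θ - O‖ = R) {V : ℂ} {a c : ℝ}
    (hac : a + 2 * β ≤ c) (hz : ∀ φ ∈ Icc a c, hh S φ - du V φ = 0)
    (hc : ∀ ε > 0, ∃ φ, a - ε < φ ∧ φ < a ∧ 0 < hh S φ - du V φ) :
    dv (V - O) (a + β) = 0 := by
  have s0 : 0 < sin β := sin_pos_of_pos_of_lt_pi hβ hβ'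
  have hPc : PP S β a = V := by
    apply PP_eq s0
    · exact (sub_eq_zero.1 (hz _ ⟨by linarith, by linarith⟩)).symm
    · exact (sub_eq_zero.1 (hz _ ⟨by linarith, by linarith⟩)).symm
  by_contra hne
  have hF : Continuous fun x => |2 * dv (V - O) (x + β)| - ‖PP S β x - V‖ :=
    ((continuous_const.mul ((dv_cont _).comp (continuous_id.add continuous_const))).abs).sub
      ((PP_cont hS.cpt β).sub continuous_const).norm
  have hpos : 0 < |2 * dv (V - O) (a + β)| - ‖PP S β a - V‖ := by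
    rw [hPc, sub_self, norm_zero, sub_zero]
    exact abs_pos.2 (mul_ne_zero two_ne_zero hne)
  have hev : ∀ᶠ x in 𝓝 a, 0 < |2 * dv (V - O) (x + β)| - ‖PP S β x - V‖ :=
    hF.continuousAt.eventually (lt_mem_nhds hpos)
  obtain ⟨ε, hε, hball⟩ := Metric.eventually_nhds_iff.1 hev
  obtain ⟨φ, hφ1, hφ2, hφ3⟩ := hc (min ε β) (lt_min hε hβ)
  have hφ4 : a - ε < φ := by linarith [min_le_left ε β]
  have hφ5 : a - β < φ := by linarith [min_le_right ε β]
  have h1 := hball (y := φ) (by rw [Real.dist_eq, abs_lt]; constructor <;> linarith)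
  have hV0 : ‖V - O‖ = R := by rw [← hPc]; exact hR _
  have hu : du (PP S β φ - V) (φ + β) = 0 := by
    rw [du_sub, du_PP' s0]; exact hz _ ⟨by linarith, by linarith⟩
  have hPV : PP S β φ ≠ V := by
    intro h
    have h5 := du_PP (S := S) β φ
    rw [h] at h5
    linarith
  have h2 := chord (hR φ) hV0 hu hPV
  have h3 := dv_le_norm (PP S β φ - V) (φ + β)
  rw [h2, neg_mul, abs_neg] at h3
  linarith

/-- **The period lemma**: if all the intersection points of support lines at the turning angle `β`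
are on a circle about `O`, the support function about `O` has the period `2 β`. -/
lemma period (hS : Body S) {β : ℝ} (hβ : 0 < β) (hβ' : β < π) {O : ℂ} {R : ℝ}
    (hR : ∀ θ, ‖PP S β θ - O‖ = R) (θ : ℝ) :
    hh S (θ + 2 * β) - du O (θ + 2 * β) = hh S θ - du O θ := by
  have s0 : 0 < sin β := sin_pos_of_pos_of_lt_pi hβ hβ'
  have e2 : θ + 2 * β = θ + β + β := by ring
  have c1 := circle_eq s0 (hR θ)
  have c2 := circle_eq s0 (hR (θ + β))
  rw [e2]
  obtain ⟨H0, hH0⟩ : ∃ x, x = hh S θ - du O θ := ⟨_, rfl⟩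
  obtain ⟨H1, hH1⟩ : ∃ x, x = hh S (θ + β) - du O (θ + β) := ⟨_, rfl⟩
  obtain ⟨H2, hH2⟩ : ∃ x, x = hh S (θ + β + β) - du O (θ + β + β) := ⟨_, rfl⟩
  rw [← hH0, ← hH1] at c1
  rw [← hH1, ← hH2] at c2
  rw [← hH0, ← hH2]
  have hfac : (H2 - H0) * (H0 + H2 - 2 * cos β * H1) = 0 := by
    linear_combination c2 - c1
  rcases mul_eq_zero.1 hfac with h | hmid
  · linarith
  -- the two intersection points agree
  obtain ⟨V, hV⟩ : ∃ V, V = PP S β θ := ⟨_, rfl⟩
  have v0 : du V θ = hh S θ := by rw [hV]; exact du_PP β θ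
  have v1 : du V (θ + β) = hh S (θ + β) := by rw [hV]; exact du_PP' s0 θ
  have three : ∀ W : ℂ, du W θ + du W (θ + β + β) = 2 * cos β * du W (θ + β) := by
    intro W
    rw [du_add W (θ + β), du_add, dv_add]
    have := sin_sq_add_cos_sq β
    linear_combination (-(du W θ)) * this
  have v2 : du V (θ + β + β) = hh S (θ + β + β) := by
    have t1 := three V
    have t2 := three O
    rw [v0, v1] at t1
    rw [hH0, hH1, hH2] at hmid
    linear_combination t1 - hmid - t2
  have hV' : PP S β (θ + β) = V := PP_eq s0 v1 v2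
  -- `V` is in `S`
  have hVS : V ∈ S := by
    obtain ⟨X, hX, eX⟩ := ex_hh hS.cpt hS.ne (θ + β)
    have k1 := contact1 hS s0 hX eX
    have k2 := contact2 hS s0 hX eX
    rw [hV'] at k1
    rw [← hV] at k2
    have hXV : X = V := by
      rw [← sub_eq_zero]
      apply eq_zero_of (θ := θ + β)
      · rw [du_sub, eX, v1, sub_self]
      · rw [dv_sub]; linarith
    rw [← hXV]; exact hX
  have hz0 : ∀ φ ∈ Icc θ (θ + 2 * β), hh S φ - du V φ = 0 := by
    intro φ hφ
    rcases le_total φ (θ + β) with h | h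
    · exact sub_eq_zero.2 (corner hS hβ hβ' hVS v0 v1 ⟨hφ.1, h⟩)
    · exact sub_eq_zero.2 (corner hS hβ hβ' hVS v1 v2 ⟨h, by linarith [hφ.2]⟩)
  have hnn : ∀ φ, 0 ≤ hh S φ - du V φ := fun φ => sub_nonneg.2 (le_hh hS.cpt hVS φ)
  obtain ⟨c, hc1, hc2, hc3⟩ := right_end (g_cont hS V) hnn (by linarith) hz0 (ex_right hS V _)
  obtain ⟨a, ha1, ha2, ha3⟩ := left_end (g_cont hS V) hnn (by linarith) hc2 (ex_left hS V _)
  have hcone := cone_le hS ha2
  have tr := tan_right hS hβ hβ' hR (by linarith) ha2 hc3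
  have tl := tan_left hS hβ hβ' hR (by linarith) ha2 ha3
  obtain ⟨D, hD⟩ : ∃ D, D = V - O := ⟨_, rfl⟩
  rw [← hD] at tr tl
  obtain ⟨γ, hγ⟩ : ∃ γ, γ = c - β - (a + β) := ⟨_, rfl⟩
  have hγ0 : 0 ≤ γ := by linarith
  have hγ1 : γ < π := by linarith
  have f0 : H0 = du D θ := by rw [hH0, hD, du_sub, v0]
  have f2 : H2 = du D (θ + β + β) := by rw [hH2, hD, du_sub, v2]
  have e3 : a + β = (c - β) + -γ := by rw [hγ]; ring
  rw [e3, dv_add, tr, zero_mul, add_zero, sin_neg] at tl
  have hprod : du D (c - β) * sin γ = 0 := by linarith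
  rcases mul_eq_zero.1 hprod with h | h
  · have hD0 := eq_zero_of h tr
    rw [f0, f2, hD0]
    simp [du]
  · have hγz : γ = 0 := by
      by_contra hne
      have : 0 < sin γ := sin_pos_of_pos_of_lt_pi (lt_of_le_of_ne hγ0 (Ne.symm hne)) hγ1
      linarith
    have hca : c - β = θ + β := by
      have h1 : c - β = a + β := by linarith
      linarith
    rw [hca] at tr
    rw [f0, f2, du_add D (θ + β), tr]
    have e4 : θ = θ + β + -β := by ring
    have e5 := du_add D (θ + β) (-β)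
    rw [← e4, tr, cos_neg] at e5
    rw [e5]; ring

/-- two circles of the kind are concentric -/
lemma concentric (hS : Body S) {β₁ β₂ : ℝ} (h1 : 0 < β₁) (h1' : β₁ < π) (h2 : 0 < β₂)
    (h2' : β₂ < π) {O₁ O₂ : ℂ} {R₁ R₂ : ℝ} (hR₁ : ∀ θ, ‖PP S β₁ θ - O₁‖ = R₁)
    (hR₂ : ∀ θ, ‖PP S β₂ θ - O₂‖ = R₂) : O₁ = O₂ := by
  have s1 : 0 < sin β₁ := sin_pos_of_pos_of_lt_pi h1 h1'
  have s2 : 0 < sin β₂ := sin_pos_of_pos_of_lt_pi h2 h2'
  have key : ∀ θ, du (O₁ - O₂) (θ + β₁ + β₂) = 0 := by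
    intro θ
    have p1 := period hS h1 h1' hR₁ θ
    have p2 := period hS h1 h1' hR₁ (θ + 2 * β₂)
    have p3 := period hS h2 h2' hR₂ θ
    have p4 := period hS h2 h2' hR₂ (θ + 2 * β₁)
    have e : θ + 2 * β₂ + 2 * β₁ = θ + 2 * β₁ + 2 * β₂ := by ring
    rw [e] at p2
    have q1 : ∀ W : ℂ, ∀ x β : ℝ, du W (x + 2 * β) - du W x = 2 * sin β * dv W (x + β) := by
      intro W x β
      have e1 : x + 2 * β = (x + β) + β := by ring
      have e2 : x = (x + β) + -β := by ring
      have e3 := du_add W (x + β) (-β)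
      rw [← e2, cos_neg, sin_neg] at e3
      rw [e1, du_add W (x + β) β, e3]; ring
    have q2 : ∀ W : ℂ, ∀ x β : ℝ, dv W (x + 2 * β) - dv W x = -(2 * sin β * du W (x + β)) := by
      intro W x β
      have e1 : x + 2 * β = (x + β) + β := by ring
      have e2 : x = (x + β) + -β := by ring
      have e3 := dv_add W (x + β) (-β)
      rw [← e2, cos_neg, sin_neg] at e3
      rw [e1, dv_add W (x + β) β, e3]; ring
    have a1 := q1 O₁ θ β₂
    have a2 := q1 O₁ (θ + 2 * β₁) β₂
    have a3 := q1 O₂ θ β₂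
    have a4 := q1 O₂ (θ + 2 * β₁) β₂
    have e5 : θ + 2 * β₁ + β₂ = θ + β₂ + 2 * β₁ := by ring
    rw [e5] at a2 a4
    have b1 := q2 O₁ (θ + β₂) β₁
    have b2 := q2 O₂ (θ + β₂) β₁
    have e6 : θ + β₂ + β₁ = θ + β₁ + β₂ := by ring
    rw [e6] at b1 b2
    have : sin β₁ * (sin β₂ * du (O₁ - O₂) (θ + β₁ + β₂)) = 0 := by
      rw [du_sub]
      linear_combination ((a2 - a1) + 2 * sin β₂ * b1 - (a4 - a3) - 2 * sin β₂ * b2 +
        (p2 - p1) - (p4 - p3)) / 4
    exact (mul_eq_zero.1 ((mul_eq_zero.1 this).resolve_left s1.ne')).resolve_left s2.ne'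
  have k1 := key (0 - β₁ - β₂)
  have k2 := key (π / 2 - β₁ - β₂)
  rw [show (0:ℝ) - β₁ - β₂ + β₁ + β₂ = 0 by ring] at k1
  rw [show π / 2 - β₁ - β₂ + β₁ + β₂ = π / 2 by ring] at k2
  unfold du at k1 k2
  rw [cos_zero, sin_zero] at k1
  rw [cos_pi_div_two, sin_pi_div_two] at k2
  apply sub_eq_zero.1
  apply Complex.ext
  · rw [Complex.zero_re]; linarith
  · rw [Complex.zero_im]; linarith

/-- a continuous function with a constant square is constant -/
lemma const_of_sq {f : ℝ → ℝ} (hf : Continuous f) {c : ℝ} (h : ∀ x, f x ^ 2 = c) :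
    ∀ x y, f x = f y := by
  intro x y
  by_cases hc : c = 0
  · have h1 := h x
    have h2 := h y
    rw [hc] at h1 h2
    rw [pow_eq_zero_iff two_ne_zero |>.1 h1, pow_eq_zero_iff two_ne_zero |>.1 h2]
  · have hne : ∀ x, f x ≠ 0 := fun x hx => hc (by rw [← h x, hx]; ring)
    have hsq : f x ^ 2 = f y ^ 2 := by rw [h, h]
    rcases sq_eq_sq_iff_eq_or_eq_neg.1 hsq with h1 | h1
    · exact h1
    · exfalso
      have h0 : (0:ℝ) ∈ uIcc (f x) (f y) := by
        rw [mem_uIcc, h1]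
        rcases le_total (f y) 0 with h | h
        · right; constructor <;> linarith
        · left; constructor <;> linarith
      obtain ⟨z, -, hz⟩ := intermediate_value_uIcc (hf.continuousOn) h0
      exact hne z hz

/-- the group of periods -/
def periods (H : ℝ → ℝ) : AddSubgroup ℝ where
  carrier := {t | ∀ x, H (x + t) = H x}
  zero_mem' := fun x => by rw [add_zero]
  add_mem' := by
    intro a b ha hb x
    rw [← add_assoc, hb, ha]
  neg_mem' := by
    intro a ha x
    have := ha (x + -a)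
    rw [neg_add_cancel_right] at this
    exact this.symm

lemma const_of_periods {H : ℝ → ℝ} (hH : Continuous H) {β₁ β₂ C₁ C₂ : ℝ}
    (h1 : 0 < β₁) (h1' : β₁ < π) (h2 : 0 < β₂) (h2' : β₂ < π) (hne : β₁ ≠ β₂)
    (p1 : ∀ x, H (x + 2 * β₁) = H x) (p2 : ∀ x, H (x + 2 * β₂) = H x)
    (q1 : ∀ x, H x ^ 2 + H (x + β₁) ^ 2 - 2 * H x * H (x + β₁) * cos β₁ = C₁)
    (q2 : ∀ x, H x ^ 2 + H (x + β₂) ^ 2 - 2 * H x * H (x + β₂) * cos β₂ = C₂) :
    ∀ x y, H x = H y := by
  rcases AddSubgroup.dense_or_cyclic (periods H) with hd | ⟨p, hp⟩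
  · intro x y
    have hcl : IsClosed {t | H (x + t) = H x} :=
      isClosed_eq (hH.comp (continuous_const.add continuous_id)) continuous_const
    have : ∀ t, H (x + t) = H x := by
      intro t
      have h3 : (periods H : Set ℝ) ⊆ {t | H (x + t) = H x} := fun t ht => ht x
      have h4 := hcl.closure_subset_iff.2 h3
      rw [hd.closure_eq] at h4
      exact h4 (mem_univ t)
    have h5 := this (y - x)
    rw [add_sub_cancel] at h5
    exact h5.symm
  · have hpp : ∀ k : ℤ, ∀ x, H (x + k * p) = H x := by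
      intro k
      have hm : (k : ℝ) * p ∈ periods H := by
        rw [hp, AddSubgroup.mem_closure_singleton]
        exact ⟨k, by rw [zsmul_eq_mul]⟩
      exact hm
    have hn : ∀ β, (∀ x, H (x + 2 * β) = H x) → ∃ n : ℤ, 2 * β = n * p := by
      intro β hβ
      have hm : 2 * β ∈ periods H := hβ
      rw [hp, AddSubgroup.mem_closure_singleton] at hm
      obtain ⟨n, hn⟩ := hm
      exact ⟨n, by rw [← hn, zsmul_eq_mul]⟩
    obtain ⟨n₁, hn₁⟩ := hn β₁ p1
    obtain ⟨n₂, hn₂⟩ := hn β₂ p2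
    have even_case : ∀ (β C : ℝ) (n : ℤ), 0 < β → β < π → 2 * β = n * p → Even n →
        (∀ x, H x ^ 2 + H (x + β) ^ 2 - 2 * H x * H (x + β) * cos β = C) →
        ∀ x y, H x = H y := by
      intro β C n hb hb' hnp hev hq
      obtain ⟨k, hk⟩ := hev
      have hβk : β = k * p := by
        have : (n : ℝ) = k + k := by rw [hk]; push_cast; ring
        rw [this] at hnp; linarith
      have hper : ∀ x, H (x + β) = H x := by intro x; rw [hβk]; exact hpp k x
      have hcos : cos β < 1 := by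
        have h3 := cos_lt_cos_of_nonneg_of_le_pi (x := 0) (y := β) le_rfl hb'.le hb
        rwa [cos_zero] at h3
      apply const_of_sq hH (c := C / (2 * (1 - cos β)))
      intro x
      have h3 := hq x
      rw [hper] at h3
      have h4 : (2 * (1 - cos β)) ≠ 0 := by
        have : 0 < 1 - cos β := by linarith
        positivity
      rw [eq_div_iff h4, ← h3]; ring
    rcases Int.even_or_odd n₁ with he1 | ho1
    · exact even_case β₁ C₁ n₁ h1 h1' hn₁ he1 q1
    rcases Int.even_or_odd n₂ with he2 | ho2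
    · exact even_case β₂ C₂ n₂ h2 h2' hn₂ he2 q2
    obtain ⟨k₁, hk₁⟩ := ho1
    obtain ⟨k₂, hk₂⟩ := ho2
    have r1 : ∀ x, H (x + β₁) = H (x + p / 2) := by
      intro x
      have : β₁ = p / 2 + k₁ * p := by
        have : (n₁ : ℝ) = 2 * k₁ + 1 := by rw [hk₁]; push_cast; ring
        rw [this] at hn₁; linarith
      rw [this, ← add_assoc]; exact hpp k₁ _
    have r2 : ∀ x, H (x + β₂) = H (x + p / 2) := by
      intro x
      have : β₂ = p / 2 + k₂ * p := by
        have : (n₂ : ℝ) = 2 * k₂ + 1 := by rw [hk₂]; push_cast; ring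
        rw [this] at hn₂; linarith
      rw [this, ← add_assoc]; exact hpp k₂ _
    have hcc : cos β₁ - cos β₂ ≠ 0 := by
      intro h3
      exact hne (injOn_cos ⟨h1.le, h1'.le⟩ ⟨h2.le, h2'.le⟩ (sub_eq_zero.1 h3))
    obtain ⟨K, hK⟩ : ∃ K, K = (C₂ - C₁) / (2 * (cos β₁ - cos β₂)) := ⟨_, rfl⟩
    have hxy : ∀ x, H x * H (x + p / 2) = K := by
      intro x
      have a1 := q1 x
      have a2 := q2 x
      rw [r1] at a1
      rw [r2] at a2
      rw [hK, eq_div_iff (by exact mul_ne_zero two_ne_zero hcc), ← a1, ← a2]; ring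
    have hss : ∀ x, H x ^ 2 + H (x + p / 2) ^ 2 = C₁ + 2 * K * cos β₁ := by
      intro x
      have a1 := q1 x
      rw [r1] at a1
      rw [← hxy x]; linarith
    have hHp : Continuous fun x => H (x + p / 2) := hH.comp (continuous_id.add continuous_const)
    have d1 := const_of_sq (f := fun x => H x + H (x + p / 2)) (hH.add hHp)
      (c := C₁ + 2 * K * cos β₁ + 2 * K) (fun x => by
        rw [← hss x, ← hxy x]; ring)
    have d2 := const_of_sq (f := fun x => H x - H (x + p / 2)) (hH.sub hHp)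
      (c := C₁ + 2 * K * cos β₁ - 2 * K) (fun x => by
        rw [← hss x, ← hxy x]; ring)
    intro x y
    have d3 := d1 x y
    have d4 := d2 x y
    linarith

end Pool.Agent.R762.Iso
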