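import Mathlib
import Pool.Agent.R762.Iso3

/-! Isoptics of compact convex sets: discs. -/

set_option autoImplicit false

namespace Pool.Agent.R762.Iso

open Real Set Filter Topology

variable {S : Set ℂ}

lemma du_arg {V : ℂ} (hV : V ≠ 0) (γ : ℝ) : du V (Complex.arg V + γ) = ‖V‖ * cos γ := by
  have hn : 0 < ‖V‖ := norm_pos_iff.2 hV
  have h4 := Complex.normSq_apply V
  rw [Complex.normSq_eq_norm_sq] at h4
  rw [du_add]
  have h1 : du V (Complex.arg V) = ‖V‖ := by
    unfold du
    rw [Complex.cos_arg hV, Complex.sin_arg]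
    field_simp
    linarith
  have h2 : dv V (Complex.arg V) = 0 := by
    unfold dv
    rw [Complex.cos_arg hV, Complex.sin_arg]
    field_simp
    ring
  rw [h1, h2]; ring

lemma du_le_norm (V : ℂ) (φ : ℝ) : du V φ ≤ ‖V‖ := by
  apply (le_abs_self _).trans
  apply abs_le_of_sq_le_sq _ (norm_nonneg _)
  rw [sq_eq V φ]
  linarith [sq_nonneg (dv V φ)]

/-- a convex set with constant width function about a point is a disc -/
lemma ball_of_const (hS : Body S) (hc : Convex ℝ S) {O : ℂ} {r : ℝ}
    (h : ∀ φ, hh S φ - du O φ = r) : 0 < r ∧ S = Metric.closedBall O r := by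
  have h1 : ∀ X ∈ S, X ≠ O → ‖X - O‖ ≤ r := by
    intro X hX hne
    have h2 := du_arg (sub_ne_zero.2 hne) 0
    rw [add_zero, cos_zero, mul_one, du_sub] at h2
    rw [← h2, ← h (Complex.arg (X - O))]
    linarith [le_hh hS.cpt hX (Complex.arg (X - O))]
  have hr : 0 < r := by
    obtain ⟨A, hA, B, hB, hAB⟩ := hS.two
    by_cases hAO : A = O
    · have hB' : B ≠ O := fun h' => hAB (by rw [hAO, h'])
      exact (norm_pos_iff.2 (sub_ne_zero.2 hB')).trans_le (h1 B hB hB')
    · exact (norm_pos_iff.2 (sub_ne_zero.2 hAO)).trans_le (h1 A hA hAO)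
  refine ⟨hr, Subset.antisymm (fun X hX => ?_) (fun Y hY => ?_)⟩
  · rw [Metric.mem_closedBall, dist_eq_norm]
    by_cases hne : X = O
    · rw [hne, sub_self, norm_zero]; exact hr.le
    · exact h1 X hX hne
  · by_contra hYS
    obtain ⟨f, u, hf1, hf2⟩ := geometric_hahn_banach_closed_point hc hS.cpt.isClosed hYS
    obtain ⟨w, hw⟩ : ∃ w : ℂ, w = ⟨f 1, f Complex.I⟩ := ⟨_, rfl⟩
    have hfX : ∀ X : ℂ, f X = X.re * w.re + X.im * w.im := by
      intro X
      have e : X = X.re • (1:ℂ) + X.im • Complex.I := by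
        apply Complex.ext <;> simp
      conv_lhs => rw [e]
      rw [map_add, map_smul, map_smul, hw, smul_eq_mul, smul_eq_mul]
    have hw0 : w ≠ 0 := by
      intro h0
      obtain ⟨A, hA⟩ := hS.ne
      have e1 := hf1 A hA
      rw [hfX, h0] at e1
      rw [hfX, h0] at hf2
      simp only [Complex.zero_re, Complex.zero_im] at e1 hf2
      linarith
    have hn : 0 < ‖w‖ := norm_pos_iff.2 hw0
    have hfd : ∀ X : ℂ, f X = ‖w‖ * du X (Complex.arg w) := by
      intro X
      rw [hfX]
      unfold du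
      rw [Complex.cos_arg hw0, Complex.sin_arg]
      field_simp
    obtain ⟨X, hX, e⟩ := ex_hh hS.cpt hS.ne (Complex.arg w)
    have h3 := hf1 X hX
    rw [hfd] at h3 hf2
    have h4 : du X (Complex.arg w) < du Y (Complex.arg w) :=
      lt_of_mul_lt_mul_left (h3.trans hf2) hn.le
    rw [Metric.mem_closedBall, dist_eq_norm] at hY
    have h5 := du_le_norm (Y - O) (Complex.arg w)
    rw [du_sub] at h5
    have h6 := h (Complex.arg w)
    rw [← e] at h6
    linarith

/-- the isoptic of a set at the angle `α` -/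
def isoptic (S : Set ℂ) (α : ℝ) : Set ℂ := {P | P ∉ S ∧ sight S P = α}

lemma two_of_ball {O : ℂ} {r : ℝ} (hr : 0 < r) : Body (Metric.closedBall O r) := by
  refine ⟨isCompact_closedBall O r, O, Metric.mem_closedBall_self hr.le, O + r, ?_, ?_⟩
  · rw [Metric.mem_closedBall, dist_eq_norm, add_sub_cancel_left, Complex.norm_real,
      Real.norm_eq_abs, abs_of_pos hr]
  · intro h
    have : (r : ℂ) = 0 := by
      have h2 : O + r - O = 0 := by rw [← h, sub_self]
      rwa [add_sub_cancel_left] at h2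
    exact hr.ne' (by exact_mod_cast this)

lemma hh_ball {O : ℂ} {r : ℝ} (hr : 0 < r) (φ : ℝ) :
    hh (Metric.closedBall O r) φ = du O φ + r := by
  apply le_antisymm
  · obtain ⟨X, hX, e⟩ := ex_hh (two_of_ball (O := O) hr).cpt (two_of_ball hr).ne φ
    rw [← e]
    rw [Metric.mem_closedBall, dist_eq_norm] at hX
    have := du_le_norm (X - O) φ
    rw [du_sub] at this
    linarith
  · have hmem : O + (⟨r * cos φ, r * sin φ⟩ : ℂ) ∈ Metric.closedBall O r := by
      rw [Metric.mem_closedBall, dist_eq_norm, add_sub_cancel_left]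
      have h1 : ‖(⟨r * cos φ, r * sin φ⟩ : ℂ)‖ ^ 2 = r ^ 2 := by
        rw [← Complex.normSq_eq_norm_sq, Complex.normSq_apply]
        have := sin_sq_add_cos_sq φ
        linear_combination (r ^ 2) * this
      exact ((pow_left_inj₀ (norm_nonneg _) hr.le two_ne_zero).1 h1).le
    have h2 := le_hh (two_of_ball (O := O) hr).cpt hmem φ
    have h3 : du (O + (⟨r * cos φ, r * sin φ⟩ : ℂ)) φ = du O φ + r := by
      unfold du
      simp only [Complex.add_re, Complex.add_im]
      have := sin_sq_add_cos_sq φ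
      linear_combination r * this
    linarith

/-- the isoptics of a disc -/
lemma isoptic_ball {O : ℂ} {r : ℝ} (hr : 0 < r) {α : ℝ} (hα : α ∈ Ioo 0 π) :
    isoptic (Metric.closedBall O r) α = Metric.sphere O (r / sin (α / 2)) := by
  have hB := two_of_ball (O := O) hr
  have hs2 : 0 < sin (α / 2) :=
    sin_pos_of_pos_of_lt_pi (by linarith [hα.1]) (by linarith [hα.2, Real.pi_pos])
  -- points outside
  have key : ∀ P : ℂ, r < ‖P - O‖ → sight (Metric.closedBall O r) P =
      π - 2 * arccos (r / ‖P - O‖) := by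
    intro P hP
    have hn : 0 < ‖P - O‖ := hr.trans hP
    have hq0 : 0 < r / ‖P - O‖ := div_pos hr hn
    have hq1 : r / ‖P - O‖ < 1 := (div_lt_one hn).2 hP
    obtain ⟨b, hb⟩ : ∃ b, b = arccos (r / ‖P - O‖) := ⟨_, rfl⟩
    have hb0 : 0 < b := by rw [hb]; exact arccos_pos.2 hq1
    have hb1 : b < π / 2 := by rw [hb]; exact arccos_lt_pi_div_two.2 hq0
    have hcb : cos b = r / ‖P - O‖ := by
      rw [hb]; exact cos_arccos (by linarith) hq1.le
    have hne : P - O ≠ 0 := norm_pos_iff.1 hn
    have hPP : PP (Metric.closedBall O r) (2 * b) (Complex.arg (P - O) - b) = P := by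
      apply PP_eq (sin_pos_of_pos_of_lt_pi (by linarith) (by linarith))
      · have h1 := du_arg hne (-b)
        rw [cos_neg, hcb, mul_div_cancel₀ _ hn.ne', du_sub, ← sub_eq_add_neg] at h1
        rw [hh_ball hr]; linarith
      · have h1 := du_arg hne b
        rw [hcb, mul_div_cancel₀ _ hn.ne', du_sub] at h1
        rw [hh_ball hr, show Complex.arg (P - O) - b + 2 * b = Complex.arg (P - O) + b by ring]
        linarith
    have hnot : P ∉ Metric.closedBall O r := by
      rw [Metric.mem_closedBall, dist_eq_norm, not_le]; exact hP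
    have h2 := sight_PP hB (β := 2 * b) (by linarith) (by linarith)
      (θ := Complex.arg (P - O) - b) (by rw [hPP]; exact hnot)
    rw [hPP] at h2
    rw [h2, hb]
  ext P
  constructor
  · rintro ⟨h1, h2⟩
    rw [Metric.mem_closedBall, dist_eq_norm, not_le] at h1
    have hn : 0 < ‖P - O‖ := hr.trans h1
    have hq0 : 0 < r / ‖P - O‖ := div_pos hr hn
    have hq1 : r / ‖P - O‖ < 1 := (div_lt_one hn).2 h1
    rw [key P h1] at h2
    rw [Metric.mem_sphere, dist_eq_norm]
    have h3 : sin (α / 2) = r / ‖P - O‖ := by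
      rw [← h2, show (π - 2 * arccos (r / ‖P - O‖)) / 2 = π / 2 - arccos (r / ‖P - O‖) by ring,
        sin_pi_div_two_sub, cos_arccos (by linarith) hq1.le]
    rw [h3]; field_simp
  · intro h
    rw [Metric.mem_sphere, dist_eq_norm] at h
    have hlt : sin (α / 2) < 1 := by
      rw [← sin_pi_div_two]
      exact sin_lt_sin_of_lt_of_le_pi_div_two (by linarith [hα.1, Real.pi_pos]) le_rfl
        (by linarith [hα.2])
    have h1 : r < ‖P - O‖ := by
      rw [h, lt_div_iff₀ hs2]; nlinarith
    refine ⟨by rw [Metric.mem_closedBall, dist_eq_norm, not_le]; exact h1, ?_⟩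
    rw [key P h1, h, show r / (r / sin (α / 2)) = sin (α / 2) by field_simp,
      ← cos_pi_div_two_sub, arccos_cos (by linarith [hα.2]) (by linarith [hα.1, Real.pi_pos])]
    ring

lemma sight_of_point {S : Set ℂ} {V : ℂ} (h : ∀ X ∈ S, X = V) (P : ℂ) (hP : P ∉ S) :
    sight S P = 0 := by
  unfold sight
  by_cases hne : S.Nonempty
  · obtain ⟨A, hA⟩ := hne
    have hAV := h A hA
    have e : {a | ∃ X ∈ S, ∃ Y ∈ S, a = InnerProductGeometry.angle (X - P) (Y - P)} = {0} := by
      ext a
      constructor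
      · rintro ⟨X, hX, Y, hY, rfl⟩
        rw [h X hX, h Y hY, mem_singleton_iff]
        apply InnerProductGeometry.angle_self
        intro h0
        exact hP (by rw [← sub_eq_zero.1 h0, ← hAV]; exact hA)
      · intro ha
        rw [mem_singleton_iff] at ha
        refine ⟨A, hA, A, hA, ?_⟩
        rw [ha, InnerProductGeometry.angle_self]
        intro h0
        exact hP (by rw [← sub_eq_zero.1 h0]; exact hA)
    rw [e, csSup_singleton]
  · rw [Set.not_nonempty_iff_eq_empty] at hne
    rw [hne]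
    simp

/-- **Main theorem** -/
theorem main {S : Set ℂ} (hcpt : IsCompact S) (hconv : Convex ℝ S) {α₁ α₂ : ℝ}
    (h1 : α₁ ∈ Ioo 0 π) (h2 : α₂ ∈ Ioo 0 π) (hne : α₁ ≠ α₂) (hex : (isoptic S α₁).Nonempty)
    {O₁ O₂ : ℂ} {R₁ R₂ : ℝ} (hC₁ : isoptic S α₁ ⊆ Metric.sphere O₁ R₁)
    (hC₂ : isoptic S α₂ ⊆ Metric.sphere O₂ R₂) :
    O₁ = O₂ ∧ ∃ r, 0 < r ∧ S = Metric.closedBall O₁ r := by
  have hS : Body S := by
    refine ⟨hcpt, ?_⟩
    by_contra hcon
    push Not at hcon
    obtain ⟨P, hP, hP'⟩ := hex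
    obtain ⟨V, hV⟩ : ∃ V, ∀ X ∈ S, X = V := by
      by_cases hn : S.Nonempty
      · obtain ⟨V, hV⟩ := hn
        exact ⟨V, fun X hX => hcon X hX V hV⟩
      · rw [Set.not_nonempty_iff_eq_empty] at hn
        exact ⟨0, fun X hX => by rw [hn] at hX; exact absurd hX (notMem_empty X)⟩
    rw [sight_of_point hV P hP] at hP'
    linarith [h1.1]
  have k1 := on_sphere hS (β := π - α₁) (by linarith [h1.2]) (by linarith [h1.1]) (O := O₁)
    (R := R₁) (fun P hP hP' => by
      have := hC₁ (show P ∈ isoptic S α₁ from ⟨hP, by rw [hP']; ring⟩)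
      rwa [Metric.mem_sphere, dist_eq_norm] at this)
  have k2 := on_sphere hS (β := π - α₂) (by linarith [h2.2]) (by linarith [h2.1]) (O := O₂)
    (R := R₂) (fun P hP hP' => by
      have := hC₂ (show P ∈ isoptic S α₂ from ⟨hP, by rw [hP']; ring⟩)
      rwa [Metric.mem_sphere, dist_eq_norm] at this)
  have b1 : 0 < π - α₁ := by linarith [h1.2]
  have b1' : π - α₁ < π := by linarith [h1.1]
  have b2 : 0 < π - α₂ := by linarith [h2.2]
  have b2' : π - α₂ < π := by linarith [h2.1]
  have hO := concentric hS b1 b1' b2 b2' k1 k2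
  refine ⟨hO, ?_⟩
  rw [← hO] at k2
  have hcont : Continuous fun φ => hh S φ - du O₁ φ := g_cont hS O₁
  have hconst := const_of_periods hcont b1 b1' b2 b2' (fun h => hne (by linarith))
    (period hS b1 b1' k1) (period hS b2 b2' k2)
    (fun x => circle_eq (sin_pos_of_pos_of_lt_pi b1 b1') (k1 x))
    (fun x => circle_eq (sin_pos_of_pos_of_lt_pi b2 b2') (k2 x))
  have := ball_of_const hS hconv (O := O₁) (r := hh S 0 - du O₁ 0) (fun φ => hconst φ 0)
  exact ⟨_, this⟩

end Pool.Agent.R762.Iso
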