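import Mathlib

/-!
Step maps for mixed circle / segment chains in the annulus between the unit circle
and the circle of radius `R` centred at `-d`.
-/

namespace Pool.Agent.R762.Mx

/-- The alphabet `{c, s}` (circle, segment). -/
inductive Letter
  | c
  | s
  deriving DecidableEq

open Real

/-- power of the point `e^{ix}` with respect to the outer circle (up to sign) -/
noncomputable def nn (R d x : ℝ) : ℝ := R ^ 2 - 1 - d ^ 2 - 2 * d * cos x
noncomputable def KK (R d : ℝ) : ℝ := (R + 1) ^ 2 - d ^ 2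
noncomputable def WW (R d x : ℝ) : ℝ := R + 1 + d * cos x
noncomputable def UU (R d x : ℝ) : ℝ := R + 1 - d * cos x
noncomputable def VV (R d x : ℝ) : ℝ := R - 1 - d * cos x
noncomputable def SS (R d x : ℝ) : ℝ := √(KK R d * VV R d x / 2)
noncomputable def QQ (R d x : ℝ) : ℝ := √(R ^ 2 - (1 + d * cos x) ^ 2)

/-- half-angle tangents of the counterclockwise steps -/
noncomputable def tau (R d : ℝ) : Letter → Letter → ℝ → ℝ
  | .s, .s, x => d * sin x + QQ R d x
  | .c, .s, x => √(nn R d x / (2 * WW R d x))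
  | .s, .c, x => (d * sin x + SS R d x) / UU R d x
  | .c, .c, x => nn R d x / (2 * (√(R * KK R d) - d * sin x))

/-- counterclockwise step maps (angle of the contact point with the inner circle) -/
noncomputable def TT (R d : ℝ) (A B : Letter) (x : ℝ) : ℝ := x + 2 * arctan (tau R d A B x)

/-- defining equation of `tau` -/
def rel (R d : ℝ) : Letter → Letter → ℝ → ℝ → Prop
  | .s, .s, x, t => t ^ 2 - 2 * d * sin x * t = nn R d x
  | .c, .s, x, t => 2 * WW R d x * t ^ 2 = nn R d x
  | .s, .c, x, t => 2 * UU R d x * t ^ 2 - 4 * d * sin x * t = nn R d x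
  | .c, .c, x, t => t * (2 * (√(R * KK R d) - d * sin x)) = nn R d x

theorem cos_two_arctan (t : ℝ) : cos (2 * arctan t) = (1 - t ^ 2) / (1 + t ^ 2) := by
  have h : (1 + t ^ 2) ≠ 0 := by positivity
  rw [cos_two_mul, cos_sq_arctan]
  field_simp
  ring

theorem sin_two_arctan (t : ℝ) : sin (2 * arctan t) = 2 * t / (1 + t ^ 2) := by
  have h : (1 + t ^ 2) ≠ 0 := by positivity
  have h2 : √(1 + t ^ 2) * √(1 + t ^ 2) = 1 + t ^ 2 := mul_self_sqrt (by positivity)
  have h3 : √(1 + t ^ 2) ≠ 0 := by positivity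
  rw [sin_two_mul, sin_arctan, cos_arctan]
  field_simp
  rw [sq_sqrt (by positivity)]

theorem cos_step (x t : ℝ) :
    cos (x + 2 * arctan t) = (cos x * (1 - t ^ 2) - 2 * t * sin x) / (1 + t ^ 2) := by
  rw [cos_add, cos_two_arctan, sin_two_arctan]; ring

theorem sin_step (x t : ℝ) :
    sin (x + 2 * arctan t) = (sin x * (1 - t ^ 2) + 2 * t * cos x) / (1 + t ^ 2) := by
  rw [sin_add, cos_two_arctan, sin_two_arctan]; ring

theorem rel_flip (R d : ℝ) (A B : Letter) (z t : ℝ) (h : rel R d B A z t) :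
    rel R d A B (-(z + 2 * arctan t)) t := by
  have h1 : (1 + t ^ 2) ≠ 0 := by positivity
  have hsc := sin_sq_add_cos_sq z
  cases A <;> cases B <;> simp only [rel, nn, WW, UU, cos_neg, sin_neg, cos_step, sin_step] at h ⊢
  · -- c c
    field_simp
    have e : R ^ 2 - 1 - d ^ 2 = t * (2 * (√(R * KK R d) - d * sin z)) + 2 * d * cos z := by
      linarith
    have e2 : R ^ 2 = t * (2 * (√(R * KK R d) - d * sin z)) + 2 * d * cos z + 1 + d ^ 2 := by
      linarith
    rw [e2]; ring
  · -- A = c, B = s : z is s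
    field_simp
    have e2 : R ^ 2 = 2 * (R + 1 - d * cos z) * t ^ 2 - 4 * d * sin z * t + 2 * d * cos z + 1 + d ^ 2 := by
      linarith
    have : (R ^ 2 - (2 * (R + 1 - d * cos z) * t ^ 2 - 4 * d * sin z * t + 2 * d * cos z + 1 + d ^ 2)) = 0 := by linarith
    linear_combination (-(1 + t ^ 2)) * this
  · -- A = s, B = c
    field_simp
    have : (R ^ 2 - (2 * (R + 1 + d * cos z) * t ^ 2 + 2 * d * cos z + 1 + d ^ 2)) = 0 := by linarith
    linear_combination (-(1 + t ^ 2)) * this
  · field_simp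
    have : (R ^ 2 - (t ^ 2 - 2 * d * sin z * t + 2 * d * cos z + 1 + d ^ 2)) = 0 := by linarith
    linear_combination (-(1 + t ^ 2)) * this

/-- admissible parameters -/
structure Adm (R d : ℝ) : Prop where
  h0 : 0 ≤ d
  h1 : d + 1 < R

/-- admissible parameters, allowing the tangent case -/
structure Adm' (R d : ℝ) : Prop where
  h0 : 0 ≤ d
  h1 : d + 1 ≤ R

theorem Adm.adm' {R d : ℝ} (h : Adm R d) : Adm' R d := ⟨h.h0, h.h1.le⟩

theorem dcos_le {R d : ℝ} (h : Adm' R d) (x : ℝ) : d * cos x ≤ d := by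
  nlinarith [h.h0, cos_le_one x]

theorem le_dcos {R d : ℝ} (h : Adm' R d) (x : ℝ) : -d ≤ d * cos x := by
  nlinarith [h.h0, neg_one_le_cos x]

theorem dsin_le {R d : ℝ} (h : Adm' R d) (x : ℝ) : d * sin x ≤ d := by
  nlinarith [h.h0, sin_le_one x]

theorem le_dsin {R d : ℝ} (h : Adm' R d) (x : ℝ) : -d ≤ d * sin x := by
  nlinarith [h.h0, neg_one_le_sin x]

theorem WW_ge {R d : ℝ} (h : Adm' R d) (x : ℝ) : 2 ≤ WW R d x := by
  unfold WW; linarith [le_dcos h x, h.h1]

theorem UU_ge {R d : ℝ} (h : Adm' R d) (x : ℝ) : 2 ≤ UU R d x := by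
  unfold UU; linarith [dcos_le h x, h.h1]

theorem VV_nonneg {R d : ℝ} (h : Adm' R d) (x : ℝ) : 0 ≤ VV R d x := by
  unfold VV; linarith [dcos_le h x, h.h1]

theorem VV_pos {R d : ℝ} (h : Adm R d) (x : ℝ) : 0 < VV R d x := by
  unfold VV; linarith [dcos_le h.adm' x, h.h1]

theorem KK_gt {R d : ℝ} (h : Adm' R d) : 4 * R ≤ KK R d := by
  unfold KK; nlinarith [h.h0, h.h1]

theorem nn_nonneg {R d : ℝ} (h : Adm' R d) (x : ℝ) : 0 ≤ nn R d x := by
  unfold nn; nlinarith [dcos_le h x, h.h1, h.h0]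

theorem nn_pos {R d : ℝ} (h : Adm R d) (x : ℝ) : 0 < nn R d x := by
  unfold nn; nlinarith [dcos_le h.adm' x, h.h1, h.h0]

theorem RK_gt {R d : ℝ} (h : Adm' R d) : d ^ 2 < R * KK R d := by
  have := KK_gt h
  nlinarith [h.h0, h.h1]

theorem G_gt {R d : ℝ} (h : Adm' R d) : d < √(R * KK R d) := by
  apply lt_sqrt_of_sq_lt
  exact RK_gt h

theorem Gd_pos {R d : ℝ} (h : Adm' R d) (x : ℝ) : 0 < √(R * KK R d) - d * sin x := by
  linarith [G_gt h, dsin_le h x]

theorem QQ_sq {R d : ℝ} (h : Adm' R d) (x : ℝ) : QQ R d x ^ 2 = R ^ 2 - (1 + d * cos x) ^ 2 := by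
  unfold QQ
  rw [sq_sqrt]
  nlinarith [dcos_le h x, le_dcos h x, h.h1, h.h0]

theorem QQ_sq' {R d : ℝ} (h : Adm' R d) (x : ℝ) :
    QQ R d x ^ 2 = d ^ 2 * sin x ^ 2 + nn R d x := by
  rw [QQ_sq h]; unfold nn; nlinarith [sin_sq_add_cos_sq x]

theorem QQ_nonneg (R d x : ℝ) : 0 ≤ QQ R d x := sqrt_nonneg _

theorem SS_nonneg (R d x : ℝ) : 0 ≤ SS R d x := sqrt_nonneg _

theorem SS_sq {R d : ℝ} (h : Adm' R d) (x : ℝ) : SS R d x ^ 2 = KK R d * VV R d x / 2 := by
  unfold SS
  rw [sq_sqrt]
  have := KK_gt h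
  have := VV_nonneg h x
  have : 0 ≤ KK R d := by linarith [h.h0, h.h1]
  positivity

theorem SS_sq' {R d : ℝ} (h : Adm' R d) (x : ℝ) :
    SS R d x ^ 2 = d ^ 2 * sin x ^ 2 + UU R d x * nn R d x / 2 := by
  rw [SS_sq h]; unfold nn KK VV UU
  have := sin_sq_add_cos_sq x
  have e : sin x ^ 2 = 1 - cos x ^ 2 := by linarith
  rw [e]; ring

theorem QQ_gt {R d : ℝ} (h : Adm R d) (x : ℝ) : |d * sin x| < QQ R d x := by
  apply abs_lt_of_sq_lt_sq _ (QQ_nonneg _ _ _)
  rw [QQ_sq' h.adm', mul_pow]; linarith [nn_pos h x]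

theorem QQ_ge {R d : ℝ} (h : Adm' R d) (x : ℝ) : |d * sin x| ≤ QQ R d x := by
  apply abs_le_of_sq_le_sq _ (QQ_nonneg _ _ _)
  rw [QQ_sq' h, mul_pow]; linarith [nn_nonneg h x]

theorem SS_gt {R d : ℝ} (h : Adm R d) (x : ℝ) : |d * sin x| < SS R d x := by
  apply abs_lt_of_sq_lt_sq _ (SS_nonneg _ _ _)
  have := nn_pos h x
  have := UU_ge h.adm' x
  rw [SS_sq' h.adm', mul_pow]
  have : 0 < UU R d x * nn R d x / 2 := by positivity
  linarith

theorem QQ_pos {R d : ℝ} (h : Adm R d) (x : ℝ) : 0 < QQ R d x :=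
  lt_of_le_of_lt (abs_nonneg _) (QQ_gt h x)

theorem SS_pos {R d : ℝ} (h : Adm R d) (x : ℝ) : 0 < SS R d x :=
  lt_of_le_of_lt (abs_nonneg _) (SS_gt h x)

theorem tau_pos {R d : ℝ} (h : Adm R d) (A B : Letter) (x : ℝ) : 0 < tau R d A B x := by
  have h1 := nn_pos h x
  have h2 := WW_ge h.adm' x
  have h3 := UU_ge h.adm' x
  have h4 := abs_lt.1 (QQ_gt h x)
  have h5 := abs_lt.1 (SS_gt h x)
  have h6 := Gd_pos h.adm' x
  cases A <;> cases B <;> simp only [tau]
  · positivity
  · positivity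
  · apply div_pos <;> linarith
  · linarith

theorem tau_rel {R d : ℝ} (h : Adm' R d) (A B : Letter) (x : ℝ) :
    rel R d A B x (tau R d A B x) := by
  have h1 := nn_nonneg h x
  have h2 := WW_ge h x
  have h3 := UU_ge h x
  have h4 := QQ_sq' h x
  have h5 := SS_sq' h x
  have h6 := Gd_pos h x
  cases A <;> cases B <;> simp only [tau, rel]
  · field_simp
  · rw [sq_sqrt (by positivity)]; field_simp
  · have : UU R d x ≠ 0 := by linarith
    field_simp
    linear_combination (2 : ℝ) * h5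
  · linear_combination h4

theorem rel_unique {R d : ℝ} (h : Adm R d) (A B : Letter) (x t : ℝ) (ht : 0 < t)
    (hr : rel R d A B x t) : t = tau R d A B x := by
  have h0 := tau_pos h A B x
  have h1 := tau_rel h.adm' A B x
  have hn := nn_pos h x
  have h2 := WW_ge h.adm' x
  have h3 := UU_ge h.adm' x
  have h6 := Gd_pos h.adm' x
  set u := tau R d A B x with hu
  clear_value u
  cases A <;> cases B <;> simp only [rel] at hr h1
  · have : (t - u) * (2 * (√(R * KK R d) - d * sin x)) = 0 := by linarith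
    rcases mul_eq_zero.1 this with h | h
    · linarith
    · linarith
  · have : (t - u) * (t + u) * (2 * WW R d x) = 0 := by linarith
    rcases mul_eq_zero.1 this with h | h
    · rcases mul_eq_zero.1 h with h | h <;> linarith
    · linarith
  · -- 2 U t^2 - 4 d s t = n = 2 U u^2 - 4 d s u
    by_contra hne
    have e : (t - u) * (2 * UU R d x * (t + u) - 4 * d * sin x) = 0 := by linarith
    rcases mul_eq_zero.1 e with h | h
    · exact hne (by linarith)
    · -- 4 d s = 2 U (t+u): then 2Ut^2 - 2U(t+u)t = -2Utu = n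
      have : -(2 * UU R d x * t * u) = nn R d x := by
        linear_combination hr - t * h
      have : 0 < 2 * UU R d x * t * u := by positivity
      linarith
  · by_contra hne
    have e : (t - u) * ((t + u) - 2 * d * sin x) = 0 := by linarith
    rcases mul_eq_zero.1 e with h | h
    · exact hne (by linarith)
    · have : -(t * u) = nn R d x := by
        linear_combination hr - t * h
      have : 0 < t * u := by positivity
      linarith

/-- key identity: the reflected backward step has the same tangent -/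
theorem tau_flip {R d : ℝ} (h : Adm R d) (A B : Letter) (z : ℝ) :
    tau R d A B (-(TT R d B A z)) = tau R d B A z := by
  symm
  apply rel_unique h A B _ _ (tau_pos h B A z)
  exact rel_flip R d A B z _ (tau_rel h.adm' B A z)

theorem TT_flip {R d : ℝ} (h : Adm R d) (A B : Letter) (z : ℝ) :
    TT R d A B (-(TT R d B A z)) = -z := by
  have := tau_flip h A B z
  unfold TT at this ⊢
  rw [this]; ring

theorem tau_periodic (R d : ℝ) (A B : Letter) (x : ℝ) :
    tau R d A B (x + 2 * π) = tau R d A B x := by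
  cases A <;> cases B <;> simp [tau, nn, WW, UU, SS, VV, QQ]

theorem TT_periodic (R d : ℝ) (A B : Letter) (x : ℝ) :
    TT R d A B (x + 2 * π) = TT R d A B x + 2 * π := by
  unfold TT; rw [tau_periodic]; ring

theorem TT_gt {R d : ℝ} (h : Adm R d) (A B : Letter) (x : ℝ) : x < TT R d A B x := by
  unfold TT
  have := arctan_pos.2 (tau_pos h A B x)
  linarith

theorem TT_surj {R d : ℝ} (h : Adm R d) (A B : Letter) : Function.Surjective (TT R d A B) := by
  intro y
  refine ⟨-(TT R d B A (-y)), ?_⟩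
  rw [TT_flip h]; ring

theorem TT_inj {R d : ℝ} (h : Adm R d) (A B : Letter) : Function.Injective (TT R d A B) := by
  intro x y hxy
  have h1 := TT_flip h B A x
  have h2 := TT_flip h B A y
  rw [hxy] at h1
  linarith

theorem tau_contOn (R : ℝ) (A B : Letter) :
    ContinuousOn (fun p : ℝ × ℝ => tau R p.1 A B p.2) {p | Adm' R p.1} := by
  have e1 : Continuous (fun p : ℝ × ℝ => nn R p.1 p.2) := by unfold nn; fun_prop
  have e2 : Continuous (fun p : ℝ × ℝ => WW R p.1 p.2) := by unfold WW; fun_prop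
  have e3 : Continuous (fun p : ℝ × ℝ => UU R p.1 p.2) := by unfold UU; fun_prop
  have e4 : Continuous (fun p : ℝ × ℝ => QQ R p.1 p.2) := by unfold QQ; fun_prop
  have e5 : Continuous (fun p : ℝ × ℝ => SS R p.1 p.2) := by unfold SS KK VV; fun_prop
  have e6 : Continuous (fun p : ℝ × ℝ => √(R * KK R p.1)) := by unfold KK; fun_prop
  cases A <;> cases B <;> simp only [tau]
  · apply ContinuousOn.div
    · exact e1.continuousOn
    · exact (by fun_prop : Continuous fun p : ℝ × ℝ => 2 * (√(R * KK R p.1) - p.1 * sin p.2)).continuousOn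
    · intro p hp
      have := Gd_pos hp p.2
      positivity
  · apply ContinuousOn.sqrt
    apply ContinuousOn.div
    · exact e1.continuousOn
    · exact (by fun_prop : Continuous fun p : ℝ × ℝ => 2 * WW R p.1 p.2).continuousOn
    · intro p hp
      have := WW_ge hp p.2
      positivity
  · apply ContinuousOn.div
    · exact (by fun_prop : Continuous fun p : ℝ × ℝ => p.1 * sin p.2 + SS R p.1 p.2).continuousOn
    · exact e3.continuousOn
    · intro p hp
      have := UU_ge hp p.2
      positivity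
  · exact (by fun_prop : Continuous fun p : ℝ × ℝ => p.1 * sin p.2 + QQ R p.1 p.2).continuousOn

end Pool.Agent.R762.Mx
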