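import Mathlib
import Pool.Agent.R762.Mx1

/-!
Derivatives of the step maps and orbits.
-/

namespace Pool.Agent.R762.Mx

open Real

noncomputable def rho (R d x : ℝ) : ℝ := nn R d x / (2 * WW R d x)

theorem rho_pos {R d : ℝ} (h : Adm R d) (x : ℝ) : 0 < rho R d x := by
  have h1 := nn_pos h x
  have h2 := WW_ge h.adm' x
  unfold rho; positivity

theorem tau_cs_sq {R d : ℝ} (h : Adm R d) (x : ℝ) : tau R d .c .s x ^ 2 = rho R d x := by
  have := (rho_pos h x).le
  unfold rho at *
  simp only [tau]
  rw [sq_sqrt this]

/-- density weights -/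
noncomputable def MM (R d : ℝ) : Letter → ℝ → ℝ
  | .s, x => SS R d x
  | .c, x => WW R d x * tau R d .c .s x

/-- squared cocycle -/
noncomputable def JJ (R d : ℝ) : Letter → Letter → ℝ → ℝ → ℝ
  | .s, .s, x, y => WW R d y / WW R d x
  | .c, .c, x, y => rho R d y / rho R d x
  | _, _, _, _ => 1

theorem MM_pos {R d : ℝ} (h : Adm R d) (A : Letter) (x : ℝ) : 0 < MM R d A x := by
  have h2 := WW_ge h.adm' x
  have h3 := tau_pos h .c .s x
  have h4 := SS_pos h x
  cases A <;> simp only [MM]
  · positivity
  · exact h4

theorem JJ_pos {R d : ℝ} (h : Adm R d) (A B : Letter) (x y : ℝ) : 0 < JJ R d A B x y := by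
  have h2 := WW_ge h.adm' x
  have h2' := WW_ge h.adm' y
  have h3 := rho_pos h x
  have h3' := rho_pos h y
  cases A <;> cases B <;> simp only [JJ] <;> positivity

theorem MM_periodic (R d : ℝ) (A : Letter) (x : ℝ) : MM R d A (x + 2 * π) = MM R d A x := by
  cases A <;> simp [MM, tau_periodic, WW, SS, VV]

theorem tau_cs_neg (R d x : ℝ) : tau R d .c .s (-x) = tau R d .c .s x := by
  simp [tau, nn, WW]

theorem hasDerivAt_TT {R d : ℝ} {A B : Letter} {x t' : ℝ}
    (ht : HasDerivAt (fun x => tau R d A B x) t' x) :
    HasDerivAt (TT R d A B) (1 + 2 * t' / (1 + tau R d A B x ^ 2)) x := by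
  have h2 := (hasDerivAt_id x).add (ht.arctan.const_mul 2)
  refine HasDerivAt.congr_deriv (f := TT R d A B) h2 ?_
  ring

theorem TT_deriv {R d : ℝ} (h : Adm R d) (A B : Letter) (x : ℝ) :
    ∃ D, HasDerivAt (TT R d A B) D x ∧
      D ^ 2 = MM R d B (TT R d A B x) ^ 2 / MM R d A x ^ 2 *
        JJ R d A B x (TT R d A B x) := by
  have hn := nn_pos h x
  have hW := WW_ge h.adm' x
  have hU := UU_ge h.adm' x
  have hG := Gd_pos h.adm' x
  have hS := SS_pos h x
  have hQ := QQ_pos h x
  have hcos := hasDerivAt_cos x
  have hsin := hasDerivAt_sin x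
  have hnn : HasDerivAt (fun x => nn R d x) (2 * d * sin x) x := by
    exact ((hcos.const_mul (2 * d)).const_sub (R ^ 2 - 1 - d ^ 2)).congr_deriv (by ring)
  have hWW : HasDerivAt (fun x => WW R d x) (-(d * sin x)) x := by
    exact ((hcos.const_mul d).const_add (R + 1)).congr_deriv (by ring)
  have hUU : HasDerivAt (fun x => UU R d x) (d * sin x) x := by
    exact ((hcos.const_mul d).const_sub (R + 1)).congr_deriv (by ring)
  have hVV : HasDerivAt (fun x => VV R d x) (d * sin x) x := by
    exact ((hcos.const_mul d).const_sub (R - 1)).congr_deriv (by ring)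
  have hflip := tau_flip h B A x
  have htpos := tau_pos h A B x
  have hrel := tau_rel h.adm' A B x
  cases A <;> cases B
  · -- cc
    have hd : HasDerivAt (fun x => tau R d .c .c x)
        ((2 * d * sin x * (2 * (√(R * KK R d) - d * sin x)) -
          nn R d x * (2 * (-(d * cos x)))) / (2 * (√(R * KK R d) - d * sin x)) ^ 2) x := by
      simp only [tau]
      apply HasDerivAt.div hnn
      · exact (((hsin.const_mul d).const_sub (√(R * KK R d))).const_mul 2)
      · positivity
    refine ⟨_, hasDerivAt_TT hd, ?_⟩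
    have hny : nn R d (TT R d .c .c x) =
        2 * tau R d .c .c x * (√(R * KK R d) + d * sin (TT R d .c .c x)) := by
      have e := tau_rel h.adm' .c .c (-(TT R d .c .c x))
      rw [hflip] at e
      simp only [rel, nn, cos_neg, sin_neg] at e
      unfold nn
      linarith
    have hny2 : nn R d (TT R d .c .c x) / nn R d x = 1 + 2 * ((2 * d * sin x * (2 * (√(R * KK R d) - d * sin x)) -
          nn R d x * (2 * (-(d * cos x)))) / (2 * (√(R * KK R d) - d * sin x)) ^ 2) /
          (1 + tau R d .c .c x ^ 2) := by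
      rw [hny]
      unfold TT
      rw [sin_step]
      simp only [rel] at hrel
      set t := tau R d .c .c x with ht
      rw [← hrel]
      clear_value t
      have : 1 + t ^ 2 ≠ 0 := by positivity
      set G := √(R * KK R d) with hGdef
      clear_value G
      have hE : G - d * sin x ≠ 0 := hG.ne'
      field_simp
      ring
    rw [← hny2]
    simp only [MM, JJ, mul_pow, tau_cs_sq h]
    unfold rho
    have hn' := nn_pos h (TT R d .c .c x)
    have hW' := WW_ge h.adm' (TT R d .c .c x)
    field_simp
  · -- cs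
    have hf : HasDerivAt (fun x => nn R d x / (2 * WW R d x))
        ((2 * d * sin x * (2 * WW R d x) - nn R d x * (2 * (-(d * sin x)))) / (2 * WW R d x) ^ 2) x := by
      apply HasDerivAt.div hnn (hWW.const_mul 2)
      positivity
    have hd : HasDerivAt (fun x => tau R d .c .s x)
        (((2 * d * sin x * (2 * WW R d x) - nn R d x * (2 * (-(d * sin x)))) / (2 * WW R d x) ^ 2) /
        (2 * √(nn R d x / (2 * WW R d x)))) x := by
      simp only [tau]
      exact hf.sqrt (by positivity)
    refine ⟨_, hasDerivAt_TT hd, ?_⟩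
    have hSy : SS R d (TT R d .c .s x) =
        tau R d .c .s x * UU R d (TT R d .c .s x) + d * sin (TT R d .c .s x) := by
      have e := hflip
      have hU' := UU_ge h.adm' (TT R d .c .s x)
      simp only [tau, SS, VV, UU, cos_neg, sin_neg] at e ⊢
      simp only [UU] at hU'
      rw [← e]
      field_simp
      ring
    have hD : 1 + 2 * (((2 * d * sin x * (2 * WW R d x) - nn R d x * (2 * (-(d * sin x)))) / (2 * WW R d x) ^ 2) /
        (2 * √(nn R d x / (2 * WW R d x)))) / (1 + tau R d .c .s x ^ 2) =
        SS R d (TT R d .c .s x) / (WW R d x * tau R d .c .s x) := by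
      have e1 : √(nn R d x / (2 * WW R d x)) = tau R d .c .s x := rfl
      rw [e1, hSy]
      unfold TT UU
      rw [sin_step, cos_step]
      simp only [rel] at hrel
      set t := tau R d .c .s x with ht
      rw [← hrel]
      clear_value t
      have : 1 + t ^ 2 ≠ 0 := by positivity
      have hWx : WW R d x = R + 1 + d * cos x := rfl
      have hW0 : WW R d x ≠ 0 := by linarith
      have hR : R = WW R d x - 1 - d * cos x := by rw [hWx]; ring
      set w := WW R d x with hw
      clear_value w
      subst hR
      field_simp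
      ring
    rw [hD]
    simp only [MM, JJ]
    ring
  · -- sc
    have hSd : HasDerivAt (fun x => SS R d x) ((KK R d * (d * sin x) / 2) / (2 * SS R d x)) x := by
      unfold SS
      have : HasDerivAt (fun x => KK R d * VV R d x / 2) (KK R d * (d * sin x) / 2) x :=
        (hVV.const_mul (KK R d)).div_const 2
      apply this.sqrt
      have h1 := KK_gt h.adm'
      have h2 := VV_pos h x
      have h3 : 0 < KK R d := by linarith [h.h0, h.h1]
      positivity
    have hd : HasDerivAt (fun x => tau R d .s .c x)
        (((d * cos x + KK R d * (d * sin x) / 2 / (2 * SS R d x)) * UU R d x -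
          (d * sin x + SS R d x) * (d * sin x)) / UU R d x ^ 2) x := by
      simp only [tau]
      exact HasDerivAt.div ((hsin.const_mul d).add hSd) hUU (by positivity)
    refine ⟨_, hasDerivAt_TT hd, ?_⟩
    have hty : tau R d .c .s (TT R d .s .c x) = tau R d .s .c x := by
      rw [← hflip, tau_cs_neg]
    have hD : WW R d (TT R d .s .c x) * tau R d .s .c x / SS R d x =
        1 + 2 * (((d * cos x + KK R d * (d * sin x) / 2 / (2 * SS R d x)) * UU R d x -
          (d * sin x + SS R d x) * (d * sin x)) / UU R d x ^ 2) / (1 + tau R d .s .c x ^ 2) := by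
      unfold WW TT
      rw [cos_step]
      simp only [rel] at hrel
      have hSt : SS R d x = tau R d .s .c x * UU R d x - d * sin x := by
        simp only [tau]; field_simp; ring
      set t := tau R d .s .c x with ht
      clear_value t
      have : 1 + t ^ 2 ≠ 0 := by positivity
      have hK : KK R d = 2 * (UU R d x * (1 + t ^ 2) + 2 * d * cos x - 2 * t * d * sin x) := by
        unfold KK
        have : nn R d x = R ^ 2 - 1 - d ^ 2 - 2 * d * cos x := rfl
        have : UU R d x = R + 1 - d * cos x := rfl
        linarith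
      rw [hK]
      have hR : R = UU R d x - 1 + d * cos x := by unfold UU; ring
      have hU0 : UU R d x ≠ 0 := by linarith
      have hS0 : SS R d x ≠ 0 := hS.ne'
      set S := SS R d x with hSdef
      set u := UU R d x with hu
      clear_value u S
      have hR2 : R + 1 = u + d * cos x := by linarith
      rw [hR2]
      field_simp
      rw [hSt]
      ring
    rw [← hD]
    simp only [MM, JJ, hty]
    ring
  · -- ss
    have hf : HasDerivAt (fun x => R ^ 2 - (1 + d * cos x) ^ 2)
        (2 * (1 + d * cos x) * (d * sin x)) x := by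
      exact ((((hcos.const_mul d).const_add 1).pow 2).const_sub (R ^ 2)).congr_deriv (by push_cast; ring)
    have hQd : HasDerivAt (fun x => QQ R d x) ((2 * (1 + d * cos x) * (d * sin x)) / (2 * QQ R d x)) x := by
      unfold QQ
      apply hf.sqrt
      have := QQ_sq h.adm' x
      have : 0 < QQ R d x ^ 2 := by positivity
      linarith
    have hd : HasDerivAt (fun x => tau R d .s .s x)
        (d * cos x + 2 * (1 + d * cos x) * (d * sin x) / (2 * QQ R d x)) x := by
      simp only [tau]
      exact (hsin.const_mul d).add hQd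
    refine ⟨_, hasDerivAt_TT hd, ?_⟩
    have hQy : QQ R d (TT R d .s .s x) = tau R d .s .s x + d * sin (TT R d .s .s x) := by
      have e := hflip
      have e2 : tau R d .s .s (-(TT R d .s .s x)) =
        -(d * sin (TT R d .s .s x)) + QQ R d (TT R d .s .s x) := by
        simp [tau, QQ]
      linarith
    have hD : QQ R d (TT R d .s .s x) / QQ R d x =
        1 + 2 * (d * cos x + 2 * (1 + d * cos x) * (d * sin x) / (2 * QQ R d x)) /
          (1 + tau R d .s .s x ^ 2) := by
      rw [hQy]
      unfold TT
      rw [sin_step]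
      have hQt : QQ R d x = tau R d .s .s x - d * sin x := by simp [tau]
      have hQ0 : QQ R d x ≠ 0 := hQ.ne'
      set t := tau R d .s .s x with ht
      set q := QQ R d x with hq
      clear_value t q
      have : 1 + t ^ 2 ≠ 0 := by positivity
      field_simp
      rw [hQt]
      ring
    rw [← hD]
    have q1 : QQ R d x ^ 2 = VV R d x * WW R d x := by
      rw [QQ_sq h.adm']; unfold VV WW; ring
    have q2 : QQ R d (TT R d .s .s x) ^ 2 = VV R d (TT R d .s .s x) * WW R d (TT R d .s .s x) := by
      rw [QQ_sq h.adm']; unfold VV WW; ring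
    have hV := VV_pos h x
    have h1 := KK_gt h.adm'
    have h3 : 0 < KK R d := by linarith [h.h0, h.h1]
    simp only [MM, JJ, SS_sq h.adm', div_pow, q1, q2]
    field_simp

/-- orbit of the counterclockwise chain -/
noncomputable def orb (R d : ℝ) (a : ℕ → Letter) (x : ℝ) : ℕ → ℝ
  | 0 => x
  | (i + 1) => TT R d (a i) (a (i + 1)) (orb R d a x i)

theorem orb_deriv {R d : ℝ} (h : Adm R d) (a : ℕ → Letter) (x : ℝ) (n : ℕ) :
    ∃ D, HasDerivAt (fun x => orb R d a x n) D x ∧
      D ^ 2 = MM R d (a n) (orb R d a x n) ^ 2 / MM R d (a 0) x ^ 2 *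
        ∏ i ∈ Finset.range n, JJ R d (a i) (a (i + 1)) (orb R d a x i) (orb R d a x (i + 1)) := by
  induction n with
  | zero =>
    refine ⟨1, hasDerivAt_id x, ?_⟩
    have := MM_pos h (a 0) x
    simp only [orb, Finset.range_zero, Finset.prod_empty]
    field_simp
  | succ k ih =>
    obtain ⟨D, hD, hD2⟩ := ih
    obtain ⟨E, hE, hE2⟩ := TT_deriv h (a k) (a (k + 1)) (orb R d a x k)
    refine ⟨E * D, hE.comp x hD, ?_⟩
    rw [Finset.prod_range_succ, mul_pow, hD2, hE2]
    simp only [orb]
    have h1 := MM_pos h (a 0) x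
    have h2 := MM_pos h (a k) (orb R d a x k)
    field_simp

theorem prod_JJ {R d : ℝ} (h : Adm R d) (a : ℕ → Letter) (n : ℕ) (ha : a n = a 0)
    (hF : ∀ x, orb R d a x n = x + 2 * π) (x : ℝ) :
    ∏ i ∈ Finset.range n, JJ R d (a i) (a (i + 1)) (orb R d a x i) (orb R d a x (i + 1)) = 1 := by
  obtain ⟨D, hD, hD2⟩ := orb_deriv h a x n
  have h1 : HasDerivAt (fun x => orb R d a x n) 1 x := by
    have : (fun x => orb R d a x n) = fun x => x + 2 * π := funext hF
    rw [this]
    exact (hasDerivAt_id x).add_const _
  have h2 : D = 1 := hD.unique h1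
  rw [h2, hF, ha, MM_periodic] at hD2
  have h3 := MM_pos h (a 0) x
  have : MM R d (a 0) x ^ 2 / MM R d (a 0) x ^ 2 = 1 := by field_simp
  rw [this] at hD2
  linarith

theorem orb_add {R d : ℝ} (a : ℕ → Letter) (x : ℝ) (j i : ℕ) :
    orb R d a x (j + i) = orb R d (fun k => a (j + k)) (orb R d a x j) i := by
  induction i with
  | zero => rfl
  | succ k ih =>
    show TT R d (a (j + k)) (a (j + k + 1)) (orb R d a x (j + k)) = _
    rw [ih]
    rfl

theorem orb_surj {R d : ℝ} (h : Adm R d) (a : ℕ → Letter) (n : ℕ) :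
    Function.Surjective (fun x => orb R d a x n) := by
  induction n with
  | zero => intro y; exact ⟨y, rfl⟩
  | succ k ih =>
    intro y
    obtain ⟨z, hz⟩ := TT_surj h (a k) (a (k + 1)) y
    obtain ⟨x, hx⟩ := ih z
    refine ⟨x, ?_⟩
    show TT R d (a k) (a (k + 1)) (orb R d a x k) = y
    have hx' : orb R d a x k = z := hx
    rw [hx', hz]

theorem orb_period {R d : ℝ} (a : ℕ → Letter) (x : ℝ) (n : ℕ) :
    orb R d a (x + 2 * π) n = orb R d a x n + 2 * π := by
  induction n with
  | zero => rfl
  | succ k ih =>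
    show TT R d (a k) (a (k + 1)) (orb R d a (x + 2 * π) k) = _
    rw [ih, TT_periodic]
    rfl

theorem orb_lt {R d : ℝ} (h : Adm R d) (a : ℕ → Letter) (x : ℝ) : StrictMono (orb R d a x) := by
  apply strictMono_nat_of_lt_succ
  intro n
  exact TT_gt h _ _ _

theorem orb_shift {R d : ℝ} (h : Adm R d) (a : ℕ → Letter) (n : ℕ) (ha : ∀ i, a (i + n) = a i)
    (hF : ∀ x, orb R d a x n = x + 2 * π) (j : ℕ) (z : ℝ) :
    orb R d (fun k => a (j + k)) z n = z + 2 * π := by
  obtain ⟨x, hx⟩ := orb_surj h a j z
  have hx' : orb R d a x j = z := hx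
  rw [← hx', ← orb_add, add_comm j n, orb_add, hF]
  have : (fun k => a (n + k)) = a := by
    funext k; rw [add_comm]; exact ha k
  rw [this, orb_period]

end Pool.Agent.R762.Mx
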