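import Mathlib
import Pool.Agent.R762.Mx2

/-!
Estimates in thin-waisted annuli `R` huge, `d = R - 1 - g`, `0 < g < 40`.
-/

namespace Pool.Agent.R762.Mx

open Real

theorem orb_cont {R : ℝ} (hR : 1000 ≤ R) (a : ℕ → Letter) (n : ℕ) :
    ContinuousOn (fun g => orb R (R - 1 - g) a 0 n) (Set.Icc 0 40) := by
  induction n with
  | zero => exact continuousOn_const
  | succ k ih =>
    have h1 : ContinuousOn (fun g => tau R (R - 1 - g) (a k) (a (k + 1)) (orb R (R - 1 - g) a 0 k))
        (Set.Icc 0 40) := by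
      have h2 : ContinuousOn (fun g : ℝ => ((R - 1 - g, orb R (R - 1 - g) a 0 k) : ℝ × ℝ))
          (Set.Icc 0 40) := by
        apply ContinuousOn.prodMk _ ih
        fun_prop
      exact (tau_contOn R (a k) (a (k + 1))).comp h2 (fun g hg => ⟨by linarith [hg.2], by linarith [hg.1]⟩)
    show ContinuousOn (fun g => orb R (R - 1 - g) a 0 k +
      2 * arctan (tau R (R - 1 - g) (a k) (a (k + 1)) (orb R (R - 1 - g) a 0 k))) (Set.Icc 0 40)
    exact ih.add (continuousOn_const.mul (continuous_arctan.comp_continuousOn h1))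

theorem tau_zero (R : ℝ) (A B : Letter) : tau R (R - 1) A B 0 = 0 := by
  have e1 : nn R (R - 1) 0 = 0 := by unfold nn; simp; ring
  have e2 : VV R (R - 1) 0 = 0 := by unfold VV; simp
  have e3 : R ^ 2 - (1 + (R - 1) * cos 0) ^ 2 = 0 := by simp
  cases A <;> cases B <;> simp only [tau, e1, SS, e2, QQ, e3] <;> simp

theorem orb_zero (R : ℝ) (a : ℕ → Letter) (n : ℕ) :
    orb R (R - 1) a 0 n = 0 := by
  induction n with
  | zero => rfl
  | succ k ih =>
    show TT R (R - 1) (a k) (a (k + 1)) (orb R (R - 1) a 0 k) = 0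
    rw [ih]; unfold TT; rw [tau_zero R]; simp

theorem nn_eq (R g x : ℝ) :
    nn R (R - 1 - g) x = g * (2 * R - g) + 2 * (R - 1 - g) * (1 - cos x) := by
  unfold nn; ring

theorem KK_eq (R g : ℝ) : KK R (R - 1 - g) = (2 + g) * (2 * R - g) := by
  unfold KK; ring

theorem adm_of {R g : ℝ} (hR : 1000 ≤ R) (hg0 : 0 < g) (hg : g ≤ 40) : Adm R (R - 1 - g) :=
  ⟨by linarith, by linarith⟩

theorem WW_le {R g : ℝ} (hR : 1000 ≤ R) (hg0 : 0 < g) (hg : g ≤ 40) (x : ℝ) :
    WW R (R - 1 - g) x ≤ 2 * R := by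
  have := dcos_le (adm_of hR hg0 hg).adm' x
  unfold WW; linarith

theorem UU_le {R g : ℝ} (hR : 1000 ≤ R) (hg0 : 0 < g) (hg : g ≤ 40) (x : ℝ) :
    UU R (R - 1 - g) x ≤ 2 * R := by
  have := le_dcos (adm_of hR hg0 hg).adm' x
  unfold UU; linarith

theorem G_le {R g : ℝ} (hR : 1000 ≤ R) (hg0 : 0 < g) (hg : g ≤ 40) :
    √(R * KK R (R - 1 - g)) ≤ 10 * R := by
  apply sqrt_le_iff.2
  constructor
  · linarith
  · rw [KK_eq]
    have h1 : (2 + g) * (2 * R - g) ≤ 42 * (2 * R) := by
      apply mul_le_mul (by linarith) (by linarith) (by linarith) (by norm_num)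
    have h2 : R * ((2 + g) * (2 * R - g)) ≤ R * (42 * (2 * R)) :=
      mul_le_mul_of_nonneg_left h1 (by linarith)
    nlinarith

theorem tau_ge_two {R : ℝ} (hR : 1000 ≤ R) (A B : Letter) (x : ℝ) :
    2 ≤ tau R (R - 1 - 40) A B x := by
  have had := adm_of (g := 40) hR (by norm_num) le_rfl
  have ht := tau_pos had A B x
  have hr := tau_rel had.adm' A B x
  have hn : 70 * R ≤ nn R (R - 1 - 40) x := by
    rw [nn_eq]
    nlinarith [cos_le_one x]
  have hW := WW_le (g := 40) hR (by norm_num) le_rfl x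
  have hU := UU_le (g := 40) hR (by norm_num) le_rfl x
  have hG := G_le (g := 40) hR (by norm_num) le_rfl
  have hs1 := dsin_le had.adm' x
  have hs2 := le_dsin had.adm' x
  have hW0 := WW_ge had.adm' x
  have hU0 := UU_ge had.adm' x
  have hG0 := Gd_pos had.adm' x
  by_contra hlt
  push Not at hlt
  set t := tau R (R - 1 - 40) A B x with htd
  clear_value t
  have ht2 : t ^ 2 ≤ 4 := by nlinarith
  set p := (R - 1 - 40) * sin x with hp
  clear_value p
  cases A <;> cases B <;> simp only [rel] at hr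
  · have : t * (2 * (√(R * KK R (R - 1 - 40)) - (R - 1 - 40) * sin x)) ≤ 2 * (2 * (11 * R)) := by
      apply mul_le_mul hlt.le _ (by linarith) (by norm_num)
      linarith
    linarith
  · have : 2 * WW R (R - 1 - 40) x * t ^ 2 ≤ 2 * (2 * R) * 4 := by
      apply mul_le_mul (by linarith) ht2 (by positivity) (by linarith)
    linarith
  · have h1 : 2 * UU R (R - 1 - 40) x * t ^ 2 ≤ 2 * (2 * R) * 4 := by
      apply mul_le_mul (by linarith) ht2 (by positivity) (by linarith)
    have h2 : -(4 * (R - 1 - 40) * sin x * t) ≤ 8 * R := by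
      rw [show 4 * (R - 1 - 40) * sin x * t = 4 * p * t by rw [hp]; ring]
      nlinarith
    linarith
  · have h2 : -(2 * (R - 1 - 40) * sin x * t) ≤ 4 * R := by
      rw [show 2 * (R - 1 - 40) * sin x * t = 2 * p * t by rw [hp]; ring]
      nlinarith
    linarith

theorem arctan_two_gt : π / 3 < arctan 2 := by
  have h1 : arctan (√3) = π / 3 := by
    rw [← tan_pi_div_three]
    exact arctan_tan (by linarith [pi_pos]) (by linarith [pi_pos])
  rw [← h1]
  apply arctan_strictMono
  rw [sqrt_lt' (by norm_num)]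
  norm_num

theorem orb_forty {R : ℝ} (hR : 1000 ≤ R) (a : ℕ → Letter) (x : ℝ) (n : ℕ) :
    x + n * (2 * arctan 2) ≤ orb R (R - 1 - 40) a x n := by
  induction n with
  | zero => simp [orb]
  | succ k ih =>
    show _ ≤ orb R (R - 1 - 40) a x k + 2 * arctan (tau R (R - 1 - 40) (a k) (a (k + 1)) (orb R (R - 1 - 40) a x k))
    have h1 := arctan_strictMono.monotone (tau_ge_two hR (a k) (a (k + 1)) (orb R (R - 1 - 40) a x k))
    push_cast
    linarith

theorem exists_closing {R : ℝ} (hR : 1000 ≤ R) (a : ℕ → Letter) (n : ℕ) (hn : 3 ≤ n) :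
    ∃ g, 0 < g ∧ g < 40 ∧ orb R (R - 1 - g) a 0 n = 2 * π := by
  have h1 := intermediate_value_Icc (by norm_num : (0 : ℝ) ≤ 40) (orb_cont hR a n)
  have h0 : orb R (R - 1 - 0) a 0 n = 0 := by rw [sub_zero]; exact orb_zero R a n
  have h40 : 2 * π < orb R (R - 1 - 40) a 0 n := by
    have h2 := orb_forty hR a 0 n
    have h3 := arctan_two_gt
    have h4 : (3 : ℝ) ≤ n := by exact_mod_cast hn
    have h5 : 3 * (2 * arctan 2) ≤ n * (2 * arctan 2) := by
      apply mul_le_mul_of_nonneg_right h4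
      linarith [pi_pos]
    linarith
  obtain ⟨g, hg, hg2⟩ := h1 (show 2 * π ∈ _ from ⟨by show orb R (R - 1 - 0) a 0 n ≤ 2 * π; rw [h0]; positivity, h40.le⟩)
  have hg2 : orb R (R - 1 - g) a 0 n = 2 * π := hg2
  refine ⟨g, ?_, ?_, hg2⟩
  · rcases hg.1.eq_or_lt with e | e
    · exfalso
      rw [← e, h0] at hg2
      linarith [pi_pos]
    · exact e
  · rcases hg.2.eq_or_lt with e | e
    · exfalso
      rw [e] at hg2
      linarith
    · exact e

theorem arctan_ge_sixth {t : ℝ} (ht : 0.9 ≤ t) : π / 6 ≤ arctan t := by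
  have h1 : arctan (1 / √3) = π / 6 := by
    rw [← tan_pi_div_six]
    exact arctan_tan (by linarith [pi_pos]) (by linarith [pi_pos])
  rw [← h1]
  apply arctan_strictMono.monotone
  have h2 : (1.2 : ℝ) ≤ √3 := by
    apply le_sqrt_of_sq_le; norm_num
  rw [div_le_iff₀ (by positivity)]
  nlinarith

theorem JJ_le {R g : ℝ} (hR : 1000 ≤ R) (hg0 : 0 < g) (hg : g ≤ 40) (A B : Letter) (x : ℝ)
    (hx : A = .s → 0 ≤ cos x) (hy : -(1 / 2) ≤ cos (TT R (R - 1 - g) A B x)) :
    JJ R (R - 1 - g) A B x (TT R (R - 1 - g) A B x) ≤ 12 := by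
  have had := adm_of hR hg0 hg
  have hWx := WW_le hR hg0 hg x
  have hWy := WW_le hR hg0 hg (TT R (R - 1 - g) A B x)
  have hWx0 := WW_ge had.adm' x
  have hWy0 := WW_ge had.adm' (TT R (R - 1 - g) A B x)
  cases A <;> cases B
  · -- cc
    simp only [JJ, rho]
    have hnx := nn_pos had x
    have hny := nn_pos had (TT R (R - 1 - g) .c .c x)
    have ht := tau_pos had .c .c x
    have hflip := tau_flip had .c .c x
    have hrel := tau_rel had.adm' .c .c x
    have hrel2 := tau_rel had.adm' .c .c (-(TT R (R - 1 - g) .c .c x))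
    rw [hflip] at hrel2
    simp only [rel, sin_neg] at hrel hrel2
    have hK := KK_gt had.adm'
    have hG : 2 * R ≤ √(R * KK R (R - 1 - g)) := by
      apply le_sqrt_of_sq_le
      nlinarith
    have h1 := dsin_le had.adm' x
    have h2 := dsin_le had.adm' (TT R (R - 1 - g) .c .c x)
    have e : nn R (R - 1 - g) (-(TT R (R - 1 - g) .c .c x)) = nn R (R - 1 - g) (TT R (R - 1 - g) .c .c x) := by
      simp [nn]
    rw [e] at hrel2
    have h3 : nn R (R - 1 - g) (TT R (R - 1 - g) .c .c x) ≤ 3 * nn R (R - 1 - g) x := by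
      rw [← hrel, ← hrel2]
      have : (√(R * KK R (R - 1 - g)) - (R - 1 - g) * -sin (TT R (R - 1 - g) .c .c x)) ≤
        3 * (√(R * KK R (R - 1 - g)) - (R - 1 - g) * sin x) := by linarith
      nlinarith
    have h4 : 2 * R ≤ 4 * WW R (R - 1 - g) (TT R (R - 1 - g) .c .c x) := by
      have : -((R - 1 - g) / 2) ≤ (R - 1 - g) * cos (TT R (R - 1 - g) .c .c x) := by
        nlinarith [had.h0]
      unfold WW
      linarith
    rw [div_div_div_eq, div_le_iff₀ (by positivity)]
    have h5 : 2 * WW R (R - 1 - g) x ≤ 4 * (2 * WW R (R - 1 - g) (TT R (R - 1 - g) .c .c x)) := by linarith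
    calc nn R (R - 1 - g) (TT R (R - 1 - g) .c .c x) * (2 * WW R (R - 1 - g) x)
        ≤ (3 * nn R (R - 1 - g) x) * (4 * (2 * WW R (R - 1 - g) (TT R (R - 1 - g) .c .c x))) := by
          apply mul_le_mul h3 h5 (by positivity) (by positivity)
      _ = _ := by ring
  · simp only [JJ]; norm_num
  · simp only [JJ]; norm_num
  · simp only [JJ]
    rw [div_le_iff₀ (by positivity)]
    have hc := hx rfl
    have : R ≤ WW R (R - 1 - g) x := by
      have : 0 ≤ (R - 1 - g) * cos x := by
        have := had.h0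
        positivity
      unfold WW; linarith
    linarith

theorem cos_ge_half {x : ℝ} (h1 : π + π / 3 ≤ x) (h2 : x ≤ 2 * π + π / 2) : -(1 / 2) ≤ cos x := by
  have h3 : cos x = cos |x - 2 * π| := by
    rw [cos_abs, cos_sub_two_pi]
  rw [h3]
  have h4 : cos (π - π / 3) = -(1 / 2) := by
    rw [cos_pi_sub, cos_pi_div_three]
  rw [← h4]
  apply cos_le_cos_of_nonneg_of_le_pi (abs_nonneg _) (by linarith [pi_pos])
  apply abs_le.2
  constructor <;> linarith [pi_pos]

theorem cos_nonneg' {x : ℝ} (h1 : π + π / 2 ≤ x) (h2 : x ≤ 2 * π + π / 2) : 0 ≤ cos x := by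
  rw [← cos_sub_two_pi]
  apply cos_nonneg_of_mem_Icc
  constructor <;> linarith

theorem nn_pi (R g : ℝ) : nn R (R - 1 - g) π = (2 + g) * (2 * R - 2 - g) := by
  unfold nn; rw [cos_pi]; ring

theorem WW_pi (R g : ℝ) : WW R (R - 1 - g) π = 2 + g := by
  unfold WW; rw [cos_pi]; ring

theorem UU_pi (R g : ℝ) : UU R (R - 1 - g) π = 2 * R - g := by
  unfold UU; rw [cos_pi]; ring

theorem VV_pi (R g : ℝ) : VV R (R - 1 - g) π = 2 * R - 2 - g := by
  unfold VV; rw [cos_pi]; ring

theorem rho_pi_ge {R g : ℝ} (hR : 1000 ≤ R) (hg0 : 0 < g) (hg : g ≤ 40) :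
    R / 22 ≤ rho R (R - 1 - g) π := by
  unfold rho; rw [WW_pi, nn_pi, le_div_iff₀ (by positivity)]
  nlinarith

/-- a segment whose successor touches at angle `π + 2π` -/
theorem last_le {R g : ℝ} (hR : 1000 ≤ R) (hg0 : 0 < g) (hg : g ≤ 40) (A : Letter) (z : ℝ)
    (hz : TT R (R - 1 - g) .s A z = π + 2 * π) : z ≤ 2 * π + π / 2 := by
  have had := adm_of hR hg0 hg
  have e2 := tau_flip had A .s z
  rw [hz] at e2
  have e3 : 1 ≤ tau R (R - 1 - g) A .s (-(π + 2 * π)) := by
    have e4 : cos (-(π + 2 * π)) = -1 := by rw [cos_neg, cos_add_two_pi, cos_pi]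
    have e5 : sin (-(π + 2 * π)) = 0 := by rw [sin_neg, sin_add_two_pi, sin_pi, neg_zero]
    cases A
    · have e6 : tau R (R - 1 - g) .c .s (-(π + 2 * π)) = √(rho R (R - 1 - g) π) := by
        simp only [tau, rho, nn, WW, e4, cos_pi]
      rw [e6]
      apply le_sqrt_of_sq_le
      have := rho_pi_ge hR hg0 hg
      linarith
    · simp only [tau, QQ, e4, e5]
      have : 1 ≤ √(R ^ 2 - (1 + (R - 1 - g) * -1) ^ 2) := by
        apply le_sqrt_of_sq_le
        nlinarith
      linarith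
  have e7 : π / 4 ≤ arctan (tau R (R - 1 - g) .s A z) := by
    rw [← e2, ← arctan_one]
    exact arctan_strictMono.monotone e3
  have e8 : z + 2 * arctan (tau R (R - 1 - g) .s A z) = π + 2 * π := hz
  linarith

theorem first_ge {R g : ℝ} (hR : 1000 ≤ R) (hg0 : 0 < g) (hg : g ≤ 40) (A : Letter) :
    π + π / 3 ≤ TT R (R - 1 - g) A .c π := by
  have e2 : 0.9 ≤ tau R (R - 1 - g) A .c π := by
    cases A
    · simp only [tau, sin_pi, mul_zero, sub_zero, nn_pi]
      have hKK := KK_eq R g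
      have hG : √(R * KK R (R - 1 - g)) ≤ (2 + g) * R := by
        apply sqrt_le_iff.2
        constructor
        · positivity
        · rw [hKK]
          have h1 : (2 * R - g) ≤ (2 + g) * R := by nlinarith
          have : R * ((2 + g) * (2 * R - g)) ≤ R * ((2 + g) * ((2 + g) * R)) := by gcongr
          linarith
      have hG0 : 0 < √(R * KK R (R - 1 - g)) := by
        rw [hKK]; apply sqrt_pos.2
        have : 0 < 2 * R - g := by linarith
        positivity
      rw [le_div_iff₀ (by positivity)]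
      have h3 : 1.8 * R ≤ 2 * R - 2 - g := by linarith
      have h4 : (2 + g) * (1.8 * R) ≤ (2 + g) * (2 * R - 2 - g) := by gcongr
      linarith
    · simp only [tau, sin_pi, mul_zero, zero_add, UU_pi]
      rw [le_div_iff₀ (by linarith)]
      unfold SS
      apply le_sqrt_of_sq_le
      rw [KK_eq, VV_pi]
      have h5 : (0.9 : ℝ) ^ 2 * (2 * R - g) ≤ (2 * R - 2 - g) := by norm_num; linarith
      have h6 : 0 ≤ 2 * R - g := by linarith
      have h7 : 0 ≤ 2 * R - 2 - g := by linarith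
      calc (0.9 * (2 * R - g)) ^ 2 = (0.9 ^ 2 * (2 * R - g)) * (2 * R - g) := by ring
        _ ≤ (2 * R - 2 - g) * (2 * R - g) := by gcongr
        _ = 2 * (2 * R - g) * (2 * R - 2 - g) / 2 := by ring
        _ ≤ (2 + g) * (2 * R - g) * (2 * R - 2 - g) / 2 := by gcongr; linarith
  have e3 := arctan_ge_sixth e2
  unfold TT
  linarith

theorem cs_ge {R g : ℝ} (hR : 1000 ≤ R) (hg0 : 0 < g) (hg : g ≤ 40) (z : ℝ)
    (hz : π + π / 3 ≤ z) : π + π / 2 ≤ TT R (R - 1 - g) .c .s z := by
  have had := adm_of hR hg0 hg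
  have hlt := TT_gt had .c .s z
  by_cases hc : π + π / 2 ≤ z
  · linarith
  · push Not at hc
    have hcos : cos z ≤ 0 := by
      apply cos_nonpos_of_pi_div_two_le_of_le <;> linarith [pi_pos]
    have e2 : 0.9 ≤ tau R (R - 1 - g) .c .s z := by
      simp only [tau]
      apply le_sqrt_of_sq_le
      have hw := WW_ge had.adm' z
      rw [le_div_iff₀ (by positivity)]
      have h8 : WW R (R - 1 - g) z ≤ R + 1 := by
        have : (R - 1 - g) * cos z ≤ 0 := mul_nonpos_of_nonneg_of_nonpos had.h0 hcos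
        unfold WW; linarith
      have h9 : 2 * (R - 1 - g) ≤ nn R (R - 1 - g) z := by
        rw [nn_eq]
        have : 0 ≤ g * (2 * R - g) := by
          have : 0 ≤ 2 * R - g := by linarith
          positivity
        have : 0 ≤ (R - 1 - g) * -cos z := by
          apply mul_nonneg had.h0; linarith
        linarith
      have h10 : (0.9 : ℝ) ^ 2 * (2 * WW R (R - 1 - g) z) ≤ 0.9 ^ 2 * (2 * (R + 1)) := by gcongr
      have h11 : (0.9 : ℝ) ^ 2 * (2 * (R + 1)) ≤ 2 * (R - 1 - g) := by norm_num; linarith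
      linarith
    have e3 := arctan_ge_sixth e2
    unfold TT
    linarith

theorem rho_le {R g : ℝ} (hR : 1000 ≤ R) (hg0 : 0 < g) (hg : g ≤ 40) (z : ℝ)
    (hc : -(1 / 2) ≤ cos z) : rho R (R - 1 - g) z ≤ 83 := by
  have had := adm_of hR hg0 hg
  unfold rho
  have hw := WW_ge had.adm' z
  rw [div_le_iff₀ (by positivity)]
  have h4 : -((R - 1 - g) / 2) ≤ (R - 1 - g) * cos z := by nlinarith [had.h0]
  have h5 : R / 2 ≤ WW R (R - 1 - g) z := by unfold WW; linarith
  have h6 : nn R (R - 1 - g) z ≤ 83 * R := by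
    rw [nn_eq]
    have h9 : (R - 1 - g) * (1 - cos z) ≤ R * (3 / 2) := by
      have := had.h0
      have h7 : 1 - cos z ≤ 3 / 2 := by linarith
      have h8 : 0 ≤ 1 - cos z := by linarith [cos_le_one z]
      apply mul_le_mul _ h7 h8 (by linarith)
      linarith
    have h10 : g * (2 * R - g) ≤ 40 * (2 * R) := by
      apply mul_le_mul hg (by linarith) (by linarith) (by norm_num)
    linarith
  linarith

theorem ends_le {R g : ℝ} (hR : 1000 ≤ R) (hg0 : 0 < g) (hg : g ≤ 40) (A : Letter) (y z : ℝ)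
    (hy : -(1 / 2) ≤ cos y) (hz : 0 ≤ cos z) :
    JJ R (R - 1 - g) A .c π y * JJ R (R - 1 - g) .s A z (π + 2 * π) ≤ 1826 / R := by
  have had := adm_of hR hg0 hg
  have hrhopi := rho_pi_ge hR hg0 hg
  cases A
  · simp only [JJ, mul_one]
    have h3 := rho_le hR hg0 hg y hy
    have hp := rho_pos had π
    rw [div_le_div_iff₀ hp (by linarith)]
    nlinarith [rho_pos had y]
  · simp only [JJ, one_mul]
    have hw : WW R (R - 1 - g) (π + 2 * π) = 2 + g := by
      rw [← WW_pi R g]; unfold WW; rw [cos_add_two_pi]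
    rw [hw]
    have hw2 : R ≤ WW R (R - 1 - g) z := by
      have : 0 ≤ (R - 1 - g) * cos z := mul_nonneg had.h0 hz
      unfold WW; linarith
    rw [div_le_div_iff₀ (by linarith) (by linarith)]
    nlinarith

theorem no_id {R g : ℝ} (hg0 : 0 < g) (hg : g ≤ 40) (n : ℕ) (hn : 3 ≤ n)
    (hR : 2000 * 12 ^ n ≤ R) (b : ℕ → Letter) (hb : b n = b 0) (hs : b (n - 1) = .s)
    (h1 : b 1 = .c) (hF : ∀ x, orb R (R - 1 - g) b x n = x + 2 * π) : False := by
  have hR' : 1000 ≤ R := by
    have : (1 : ℝ) ≤ 12 ^ n := one_le_pow₀ (by norm_num)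
    linarith
  have had := adm_of hR' hg0 hg
  obtain ⟨k, rfl⟩ : ∃ k, n = k + 2 := ⟨n - 2, by omega⟩
  have hk1 : k + 2 - 1 = k + 1 := by omega
  rw [hk1] at hs
  have hxn : orb R (R - 1 - g) b π (k + 2) = π + 2 * π := hF π
  have hmono : StrictMono (orb R (R - 1 - g) b π) := orb_lt had b π
  have hprod := prod_JJ had b (k + 2) hb hF π
  have hsucc : ∀ i, orb R (R - 1 - g) b π (i + 1) =
    TT R (R - 1 - g) (b i) (b (i + 1)) (orb R (R - 1 - g) b π i) := fun i => rfl
  have hx0 : orb R (R - 1 - g) b π 0 = π := rfl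
  generalize orb R (R - 1 - g) b π = x at *
  -- x_{n-1} ≤ 5π/2
  have hlast : x (k + 1) ≤ 2 * π + π / 2 := by
    apply last_le hR' hg0 hg (b 0)
    rw [← hxn, hsucc (k + 1), hs, hb]
  -- x_1 ≥ 4π/3
  have hx1 : π + π / 3 ≤ x 1 := by
    rw [hsucc 0, h1, hx0]
    exact first_ge hR' hg0 hg (b 0)
  -- range of the middle points
  have hrange : ∀ i, 1 ≤ i → i ≤ k + 1 → π + π / 3 ≤ x i ∧ x i ≤ 2 * π + π / 2 := by
    intro i hi1 hi2
    exact ⟨hx1.trans (hmono.monotone hi1), (hmono.monotone hi2).trans hlast⟩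
  have hsseg : ∀ i, 1 ≤ i → i ≤ k + 1 → b i = .s → π + π / 2 ≤ x i := by
    intro i hi1
    induction i, hi1 using Nat.le_induction with
    | base => intro _ h; rw [h1] at h; exact absurd h (by decide)
    | succ j hj ih =>
      intro hj2 hbj
      have hr := hrange j hj (by omega)
      have hlt := hmono (Nat.lt_succ_self j)
      cases hbj' : b j with
      | s => exact (ih (by omega) hbj').trans hlt.le
      | c =>
        rw [hsucc j, hbj, hbj']
        exact cs_ge hR' hg0 hg _ hr.1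
  -- middle factors
  have hmid : ∏ i ∈ Finset.range k, JJ R (R - 1 - g) (b (i + 1)) (b (i + 1 + 1)) (x (i + 1)) (x (i + 1 + 1)) ≤
      12 ^ k := by
    calc _ ≤ ∏ i ∈ Finset.range k, (12 : ℝ) := by
          apply Finset.prod_le_prod
          · intro i _
            exact (JJ_pos had _ _ _ _).le
          · intro i hi
            have hi' := Finset.mem_range.1 hi
            rw [hsucc (i + 1)]
            apply JJ_le hR' hg0 hg
            · intro hA
              exact cos_nonneg' (hsseg (i + 1) (by omega) (by omega) hA) (hrange (i + 1) (by omega) (by omega)).2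
            · rw [← hsucc (i + 1)]
              exact cos_ge_half (hrange (i + 1 + 1) (by omega) (by omega)).1 (hrange (i + 1 + 1) (by omega) (by omega)).2
      _ = 12 ^ k := by simp
  have hends : JJ R (R - 1 - g) (b 0) (b 1) (x 0) (x 1) * JJ R (R - 1 - g) (b (k + 1)) (b (k + 2)) (x (k + 1)) (x (k + 2)) ≤
      1826 / R := by
    rw [hb, hs, h1, hxn, hx0]
    have hr := hrange 1 le_rfl (by omega)
    exact ends_le hR' hg0 hg (b 0) _ _ (cos_ge_half hr.1 hr.2)
      (cos_nonneg' (hsseg (k + 1) (by omega) le_rfl hs) hlast)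
  rw [Finset.prod_range_succ, Finset.prod_range_succ', mul_assoc] at hprod
  have hfin : (∏ i ∈ Finset.range k, JJ R (R - 1 - g) (b (i + 1)) (b (i + 1 + 1)) (x (i + 1)) (x (i + 1 + 1))) *
      (JJ R (R - 1 - g) (b 0) (b 1) (x 0) (x 1) * JJ R (R - 1 - g) (b (k + 1)) (b (k + 2)) (x (k + 1)) (x (k + 2))) ≤
      12 ^ k * (1826 / R) := by
    apply mul_le_mul hmid hends _ (by positivity)
    exact mul_nonneg (JJ_pos had _ _ _ _).le (JJ_pos had _ _ _ _).le
  have h12 : (12 : ℝ) ^ k * (1826 / R) < 1 := by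
    rw [mul_div_assoc', div_lt_one (by linarith)]
    have h13 : (12 : ℝ) ^ (k + 2) = 144 * 12 ^ k := by ring
    rw [h13] at hR
    have : (0 : ℝ) < 12 ^ k := by positivity
    linarith
  have h14 := hfin.trans_lt h12
  rw [show (0 : ℕ) + 1 = 1 from rfl] at hprod
  rw [hprod] at h14
  exact lt_irrefl _ h14

end Pool.Agent.R762.Mx
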