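import Mathlib
import Pool.Agent.R762.Mx2

/-!
# Mixed Poncelet-Steiner chains: definitions

The Euclidean plane is `ℂ`.
-/

namespace Pool.Agent.R762.Mx

open Real

/-- An annulus: the region between the inner circle (centre `I`, radius `r`) and the outer
circle (centre `O`, radius `R`), the inner circle lying inside the outer one; the circles need
not be concentric. -/
structure Annulus where
  O : ℂ
  R : ℝ
  I : ℂ
  r : ℝ
  r_pos : 0 < r
  inside : dist O I + r < R

/-- the outer circle `k` -/
def Annulus.outer (a : Annulus) : Set ℂ := Metric.sphere a.O a.R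

/-- the inner circle `ω` -/
def Annulus.inner (a : Annulus) : Set ℂ := Metric.sphere a.I a.r

/-- the closed region between the two circles -/
def Annulus.region (a : Annulus) : Set ℂ := Metric.closedBall a.O a.R \ Metric.ball a.I a.r

/-- `u` and `v` have exactly one common point, namely `p` (for two of our circles, or a circle
and a chord, this is tangency with contact point `p`). -/
def MeetAt (u v : Set ℂ) (p : ℂ) : Prop := u ∩ v = {p}

/-- A circle inscribed in the annulus: a circle whose disc lies in the closed region and which is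
tangent to the inner and to the outer circle. -/
def IsInscribed (a : Annulus) (u : Set ℂ) : Prop :=
  ∃ (P : ℂ) (ρ : ℝ), 0 < ρ ∧ u = Metric.sphere P ρ ∧ Metric.closedBall P ρ ⊆ a.region ∧
    (∃ t, MeetAt u a.inner t) ∧ (∃ t, MeetAt u a.outer t)

/-- A chord of the outer circle tangent to the inner circle. -/
def IsTangentChord (a : Annulus) (u : Set ℂ) : Prop :=
  ∃ p q : ℂ, p ∈ a.outer ∧ q ∈ a.outer ∧ p ≠ q ∧ u = segment ℝ p q ∧ ∃ t, MeetAt u a.inner t

/-- the elements of a chain -/
def IsElt (a : Annulus) : Letter → Set ℂ → Prop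
  | .c, u => IsInscribed a u
  | .s, u => IsTangentChord a u

/-- Consecutive elements `u` (of type `A`) and `v` (of type `B`) with contact point `p`: they
are tangent at `p` if one of them is a circle, and they share the endpoint `p` if both are
segments. -/
def Contact (a : Annulus) (A B : Letter) (u v : Set ℂ) (p : ℂ) : Prop :=
  MeetAt u v p ∧ (A = .s → B = .s → p ∈ a.outer)

/-- The points `p, q` of the element `u` are separated on `u`: for a circle by its contact
points with the inner and the outer circle (two points of a circle are separated by two others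
if and only if they lie strictly on opposite sides of the line through these), for a segment by
its contact point with the inner circle. -/
def Sep (a : Annulus) : Letter → Set ℂ → ℂ → ℂ → Prop
  | .c, u, p, q => ∃ t t', MeetAt u a.inner t ∧ MeetAt u a.outer t' ∧
      (line[ℝ, t, t']).SOppSide p q
  | .s, u, p, q => ∃ t, MeetAt u a.inner t ∧ Sbtw ℝ p t q

/-- the letter of the cyclic word `w` at position `i` (indices start at `0` and are read modulo
the length) -/
def ltr (w : List Letter) (i : ℕ) : Letter := w.getD (i % w.length) .c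

/-- `u 0, …, u n` (`n` the length of `w`) is a `w`-chain in the annulus `a`. -/
structure IsChain (a : Annulus) (w : List Letter) (u : ℕ → Set ℂ) : Prop where
  elt : ∀ i, i ≤ w.length → IsElt a (ltr w i) (u i)
  link : ∃ p : ℕ → ℂ,
    (∀ i, i < w.length → Contact a (ltr w i) (ltr w (i + 1)) (u i) (u (i + 1)) (p i)) ∧
    (∀ i, 1 ≤ i → i < w.length → Sep a (ltr w i) (u i) (p (i - 1)) (p i))

/-- A chain closes if its last element is its first one. -/
def Closes (w : List Letter) (u : ℕ → Set ℂ) : Prop := u w.length = u 0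

/-- `w` is a closure sequence: in every annulus, if some `w`-chain closes, then every `w`-chain
closes (whatever its initial element and whatever the choices made later), and in at least one
annulus some `w`-chain closes. -/
def IsClosureSeq (w : List Letter) : Prop :=
  (∀ a : Annulus, (∃ u, IsChain a w u ∧ Closes w u) → ∀ u, IsChain a w u → Closes w u) ∧
  (∃ a : Annulus, ∃ u, IsChain a w u ∧ Closes w u)

theorem mem_sphere_iff' {z P : ℂ} {ρ : ℝ} (h : 0 ≤ ρ) :
    z ∈ Metric.sphere P ρ ↔ (z.re - P.re) ^ 2 + (z.im - P.im) ^ 2 = ρ ^ 2 := by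
  rw [Metric.mem_sphere, Complex.dist_eq_re_im, Real.sqrt_eq_iff_eq_sq (by positivity) h]

theorem mem_closedBall_iff' {z P : ℂ} {ρ : ℝ} (h : 0 ≤ ρ) :
    z ∈ Metric.closedBall P ρ ↔ (z.re - P.re) ^ 2 + (z.im - P.im) ^ 2 ≤ ρ ^ 2 := by
  rw [Metric.mem_closedBall, Complex.dist_eq_re_im, Real.sqrt_le_left h]

theorem core {zx zy px py qx qy m s : ℝ} (h : (px - qx) ^ 2 + (py - qy) ^ 2 = s ^ 2) :
    ((zx - px) ^ 2 + (zy - py) ^ 2 = (m * s) ^ 2 ∧
      (zx - qx) ^ 2 + (zy - qy) ^ 2 = ((1 - m) * s) ^ 2) ↔
    (zx = px + m * (qx - px) ∧ zy = py + m * (qy - py)) := by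
  constructor
  · rintro ⟨e1, e2⟩
    have e : (zx - px - m * (qx - px)) ^ 2 + (zy - py - m * (qy - py)) ^ 2 = 0 := by
      linear_combination (1 - m) * e1 + m * e2 - m * (1 - m) * h
    have e3 : (zx - px - m * (qx - px)) ^ 2 = 0 := by
      nlinarith [sq_nonneg (zx - px - m * (qx - px)), sq_nonneg (zy - py - m * (qy - py))]
    have e4 : (zy - py - m * (qy - py)) ^ 2 = 0 := by
      nlinarith [sq_nonneg (zx - px - m * (qx - px)), sq_nonneg (zy - py - m * (qy - py))]
    have e3 := pow_eq_zero_iff (two_ne_zero) |>.1 e3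
    have e4 := pow_eq_zero_iff (two_ne_zero) |>.1 e4
    constructor <;> linarith
  · rintro ⟨rfl, rfl⟩
    constructor
    · linear_combination m ^ 2 * h
    · linear_combination (1 - m) ^ 2 * h

/-- point of the unit circle -/
noncomputable def E (x : ℝ) : ℂ := ⟨cos x, sin x⟩

/-- point at signed distance `t` on the tangent of the unit circle at `E x` -/
noncomputable def Lp (x t : ℝ) : ℂ := ⟨cos x - t * sin x, sin x + t * cos x⟩

/-- centre of the inscribed circle touching the inner circle at `E x` -/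
noncomputable def PP (R d x : ℝ) : ℂ := ⟨(1 + rho R d x) * cos x, (1 + rho R d x) * sin x⟩

/-- the standard annulus -/
noncomputable def std (R d : ℝ) (h : Adm R d) : Annulus where
  O := ⟨-d, 0⟩
  R := R
  I := 0
  r := 1
  r_pos := one_pos
  inside := by
    rw [Complex.dist_eq_re_im]
    simp only [Complex.zero_re, Complex.zero_im, sub_zero]
    have : √((-d) ^ 2 + 0 ^ 2) = d := by
      rw [show (-d) ^ 2 + 0 ^ 2 = d ^ 2 by ring]
      exact sqrt_sq h.h0
    rw [this]; exact h.h1

/-- elements of the chain in the standard annulus, indexed by the angle of the contact point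
with the inner circle -/
noncomputable def elt (R d : ℝ) : Letter → ℝ → Set ℂ
  | .c, x => Metric.sphere (PP R d x) (rho R d x)
  | .s, x => segment ℝ (Lp x (-(tau R d .s .s (-x)))) (Lp x (tau R d .s .s x))

theorem rho_neg (R d x : ℝ) : rho R d (-x) = rho R d x := by simp [rho, nn, WW]

theorem one_add_rho {R d : ℝ} (h : Adm R d) (x : ℝ) :
    (1 + rho R d x) * (2 * WW R d x) = KK R d := by
  have := WW_ge h.adm' x
  have e : nn R d x + 2 * WW R d x = KK R d := by unfold nn WW KK; ring
  unfold rho
  field_simp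
  linarith

theorem rho_lt {R d : ℝ} (h : Adm R d) (x : ℝ) : rho R d x < R := by
  have h1 := one_add_rho h x
  have h2 := WW_ge h.adm' x
  have h3 : KK R d < (1 + R) * (2 * WW R d x) := by
    have h4 := le_dcos h.adm' x
    have : (1 + R) * (2 * (R + 1 - d)) ≤ (1 + R) * (2 * WW R d x) := by
      unfold WW
      apply mul_le_mul_of_nonneg_left _ (by linarith [h.h0, h.h1])
      linarith
    have h5 : KK R d < (1 + R) * (2 * (R + 1 - d)) := by
      unfold KK
      nlinarith [h.h0, h.h1]
    linarith
  rw [← h1] at h3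
  have := lt_of_mul_lt_mul_right h3 (by linarith)
  linarith

theorem PO {R d : ℝ} (h : Adm R d) (x : ℝ) :
    ((PP R d x).re - (-d)) ^ 2 + ((PP R d x).im - 0) ^ 2 = (R - rho R d x) ^ 2 := by
  have h1 := one_add_rho h x
  have h2 := sin_sq_add_cos_sq x
  unfold WW KK at h1
  simp only [PP]
  linear_combination (1 + rho R d x) ^ 2 * h2 + h1

theorem P0 (R d x : ℝ) :
    ((PP R d x).re) ^ 2 + ((PP R d x).im) ^ 2 = (1 + rho R d x) ^ 2 := by
  have h2 := sin_sq_add_cos_sq x
  simp only [PP]
  linear_combination (1 + rho R d x) ^ 2 * h2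

theorem Lp_inj {x t t' : ℝ} (h : Lp x t = Lp x t') : t = t' := by
  have h1 := congrArg Complex.re h
  have h2 := congrArg Complex.im h
  simp only [Lp] at h1 h2
  have h3 := sin_sq_add_cos_sq x
  linear_combination (-(t - t')) * h3 + (-sin x) * h1 + cos x * h2

theorem mem_seg {x t1 t2 : ℝ} (h : t1 ≤ t2) (z : ℂ) :
    z ∈ segment ℝ (Lp x t1) (Lp x t2) ↔ ∃ t, t1 ≤ t ∧ t ≤ t2 ∧ z = Lp x t := by
  rw [segment_eq_image]
  constructor
  · rintro ⟨m, ⟨h0, h1⟩, rfl⟩
    refine ⟨(1 - m) * t1 + m * t2, by nlinarith, by nlinarith, ?_⟩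
    apply Complex.ext <;> simp [Lp] <;> ring
  · rintro ⟨t, h1, h2, rfl⟩
    rcases h.eq_or_lt with e | e
    · refine ⟨0, ⟨le_rfl, zero_le_one⟩, ?_⟩
      have : t = t1 := by linarith
      simp [this]
    · have h3 : t2 - t1 ≠ 0 := by linarith
      refine ⟨(t - t1) / (t2 - t1), ⟨div_nonneg (by linarith) (by linarith), (div_le_one (by linarith)).2 (by linarith)⟩, ?_⟩
      have e1 : (1 - (t - t1) / (t2 - t1)) * t1 + (t - t1) / (t2 - t1) * t2 = t := by
        field_simp; ring
      apply Complex.ext
      · simp only [Lp, Complex.add_re, Complex.smul_re, smul_eq_mul]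
        linear_combination (-sin x) * e1
      · simp only [Lp, Complex.add_im, Complex.smul_im, smul_eq_mul]
        linear_combination (cos x) * e1

theorem mem_elt_s {R d : ℝ} (h : Adm R d) (x : ℝ) (z : ℂ) :
    z ∈ elt R d .s x ↔ ∃ t, -(tau R d .s .s (-x)) ≤ t ∧ t ≤ tau R d .s .s x ∧ z = Lp x t := by
  have h1 := tau_pos h .s .s x
  have h2 := tau_pos h .s .s (-x)
  exact mem_seg (by linarith) z

theorem mem_elt_c {R d : ℝ} (h : Adm R d) (x : ℝ) (z : ℂ) :
    z ∈ elt R d .c x ↔ (z.re - (1 + rho R d x) * cos x) ^ 2 + (z.im - (1 + rho R d x) * sin x) ^ 2 =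
      rho R d x ^ 2 := by
  exact mem_sphere_iff' (rho_pos h x).le

/-- points of a tangent inside the outer disc -/
theorem Lp_mem_disc {R d : ℝ} (h : Adm R d) (x t : ℝ) :
    ((Lp x t).re - (-d)) ^ 2 + ((Lp x t).im - 0) ^ 2 ≤ R ^ 2 ↔
      (-(tau R d .s .s (-x)) ≤ t ∧ t ≤ tau R d .s .s x) := by
  have h1 := QQ_sq' h.adm' x
  have h2 := sin_sq_add_cos_sq x
  have h3 : ((Lp x t).re - (-d)) ^ 2 + ((Lp x t).im - 0) ^ 2 - R ^ 2 =
      (t - d * sin x) ^ 2 - QQ R d x ^ 2 := by
    rw [h1]; simp only [Lp, nn]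
    linear_combination (1 + t ^ 2) * h2
  have hQ := QQ_pos h x
  have e1 : -(tau R d .s .s (-x)) = d * sin x - QQ R d x := by
    simp [tau, QQ]; ring
  have e2 : tau R d .s .s x = d * sin x + QQ R d x := rfl
  rw [e1, e2, ← sub_nonpos, h3, sub_nonpos, sq_le_sq, abs_of_pos hQ, abs_le]
  constructor
  · rintro ⟨a, b⟩; constructor <;> linarith
  · rintro ⟨a, b⟩; constructor <;> linarith

theorem Lp_mem_outer {R d : ℝ} (h : Adm R d) (x t : ℝ)
    (ht : t = -(tau R d .s .s (-x)) ∨ t = tau R d .s .s x) : Lp x t ∈ (std R d h).outer := by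
  have h1 := QQ_sq' h.adm' x
  have h2 := sin_sq_add_cos_sq x
  have hR : 0 < R := by linarith [h.h0, h.h1]
  show Lp x t ∈ Metric.sphere (⟨-d, 0⟩ : ℂ) R
  rw [mem_sphere_iff' hR.le]
  have e1 : -(tau R d .s .s (-x)) = d * sin x - QQ R d x := by
    simp [tau, QQ]; ring
  have e2 : tau R d .s .s x = d * sin x + QQ R d x := rfl
  have h3 : (t - d * sin x) ^ 2 = QQ R d x ^ 2 := by
    rcases ht with ht | ht
    · rw [ht, e1]; ring
    · rw [ht, e2]; ring
  rw [h1] at h3
  simp only [Lp, nn] at *
  linear_combination h3 + (1 + t ^ 2) * h2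

theorem meet_inner {R d : ℝ} (h : Adm R d) (A : Letter) (x : ℝ) :
    MeetAt (elt R d A x) (std R d h).inner (E x) := by
  have hsc := sin_sq_add_cos_sq x
  have hρ := rho_pos h x
  unfold MeetAt
  ext z
  rw [Set.mem_inter_iff, Set.mem_singleton_iff]
  have hin : z ∈ (std R d h).inner ↔ (z.re - 0) ^ 2 + (z.im - 0) ^ 2 = 1 ^ 2 :=
    mem_sphere_iff' (P := 0) (ρ := 1) zero_le_one
  rw [hin]
  cases A
  · rw [mem_elt_c h]
    have hc := @core z.re z.im 0 0 ((1 + rho R d x) * cos x) ((1 + rho R d x) * sin x)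
      (1 / (1 + rho R d x)) (1 + rho R d x) (by linear_combination (1 + rho R d x) ^ 2 * hsc)
    have hne : 1 + rho R d x ≠ 0 := by positivity
    have e1 : (1 / (1 + rho R d x) * (1 + rho R d x)) ^ 2 = 1 ^ 2 := by field_simp
    have e2 : ((1 - 1 / (1 + rho R d x)) * (1 + rho R d x)) ^ 2 = rho R d x ^ 2 := by
      field_simp; ring
    rw [e1, e2] at hc
    rw [and_comm, hc]
    have e3 : 0 + 1 / (1 + rho R d x) * ((1 + rho R d x) * cos x - 0) = cos x := by
      field_simp; ring
    have e4 : 0 + 1 / (1 + rho R d x) * ((1 + rho R d x) * sin x - 0) = sin x := by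
      field_simp; ring
    rw [e3, e4, Complex.ext_iff]
    rfl
  · rw [mem_elt_s h]
    constructor
    · rintro ⟨⟨t, _, _, rfl⟩, h2⟩
      have : t ^ 2 = 0 := by
        simp only [Lp] at h2
        linear_combination h2 - (1 + t ^ 2) * hsc
      have : t = 0 := pow_eq_zero_iff (two_ne_zero) |>.1 this
      subst this
      apply Complex.ext <;> simp [Lp, E]
    · rintro rfl
      refine ⟨⟨0, ?_, (tau_pos h .s .s x).le, ?_⟩, ?_⟩
      · linarith [tau_pos h .s .s (-x)]
      · apply Complex.ext <;> simp [Lp, E]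
      · simp only [E]; linear_combination hsc

/-- contact point of an inscribed circle with the outer circle -/
noncomputable def TO (R d x : ℝ) : ℂ :=
  ⟨-d + R / (R - rho R d x) * ((PP R d x).re + d), R / (R - rho R d x) * (PP R d x).im⟩

theorem meet_outer {R d : ℝ} (h : Adm R d) (x : ℝ) :
    MeetAt (elt R d .c x) (std R d h).outer (TO R d x) := by
  have hR : 0 < R := by linarith [h.h0, h.h1]
  have hlt := rho_lt h x
  unfold MeetAt
  ext z
  rw [Set.mem_inter_iff, Set.mem_singleton_iff]
  have hin : z ∈ (std R d h).outer ↔ (z.re - (-d)) ^ 2 + (z.im - 0) ^ 2 = R ^ 2 :=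
    mem_sphere_iff' hR.le
  rw [hin, mem_elt_c h]
  have hPO := PO h x
  have hc := @core z.re z.im (-d) 0 (PP R d x).re (PP R d x).im
      (R / (R - rho R d x)) (R - rho R d x) (by linear_combination hPO)
  have hne : R - rho R d x ≠ 0 := by linarith
  have e1 : (R / (R - rho R d x) * (R - rho R d x)) ^ 2 = R ^ 2 := by field_simp
  have e2 : ((1 - R / (R - rho R d x)) * (R - rho R d x)) ^ 2 = rho R d x ^ 2 := by
    field_simp; ring
  rw [e1, e2] at hc
  have e5 : (PP R d x).re = (1 + rho R d x) * cos x := rfl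
  have e6 : (PP R d x).im = (1 + rho R d x) * sin x := rfl
  rw [← e5, ← e6, and_comm, hc, Complex.ext_iff]
  simp only [TO]
  constructor
  · rintro ⟨a, b⟩; constructor <;> linarith
  · rintro ⟨a, b⟩; constructor <;> linarith

theorem isElt {R d : ℝ} (h : Adm R d) (A : Letter) (x : ℝ) :
    IsElt (std R d h) A (elt R d A x) := by
  have hR : 0 < R := by linarith [h.h0, h.h1]
  cases A
  · refine ⟨PP R d x, rho R d x, rho_pos h x, rfl, ?_, ⟨E x, meet_inner h .c x⟩, ⟨TO R d x, meet_outer h x⟩⟩
    intro z hz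
    have hρ := rho_pos h x
    have hd1 : dist (PP R d x) (⟨-d, 0⟩ : ℂ) = R - rho R d x := by
      rw [Complex.dist_eq_re_im, sqrt_eq_iff_eq_sq (by positivity) (by linarith [rho_lt h x])]
      exact PO h x
    have hd2 : dist (PP R d x) 0 = 1 + rho R d x := by
      rw [Complex.dist_eq_re_im, sqrt_eq_iff_eq_sq (by positivity) (by positivity)]
      simp only [Complex.zero_re, Complex.zero_im, sub_zero]
      exact P0 R d x
    rw [Metric.mem_closedBall] at hz
    constructor
    · show dist z (⟨-d, 0⟩ : ℂ) ≤ R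
      have := dist_triangle z (PP R d x) (⟨-d, 0⟩ : ℂ)
      linarith
    · show ¬ (dist z 0 < 1)
      have := dist_triangle (PP R d x) z 0
      rw [dist_comm (PP R d x) z] at this
      linarith
  · refine ⟨_, _, Lp_mem_outer h x _ (Or.inl rfl), Lp_mem_outer h x _ (Or.inr rfl), ?_, rfl, E x,
      meet_inner h .s x⟩
    intro he
    have := Lp_inj he
    linarith [tau_pos h .s .s x, tau_pos h .s .s (-x)]

end Pool.Agent.R762.Mx
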