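import Mathlib
import Pool.Agent.R762.Mx4

/-!
Contact points and separation for the standard elements.
-/

namespace Pool.Agent.R762.Mx

open Real

/-- complex conjugation, explicitly -/
def cj (z : ℂ) : ℂ := ⟨z.re, -z.im⟩

theorem cj_cj (z : ℂ) : cj (cj z) = z := by simp [cj]

theorem mem_elt_neg {R d : ℝ} (h : Adm R d) (A : Letter) (x : ℝ) (z : ℂ) :
    cj z ∈ elt R d A (-x) ↔ z ∈ elt R d A x := by
  cases A
  · rw [mem_elt_c h, mem_elt_c h, rho_neg, cos_neg, sin_neg]
    simp only [cj]
    constructor <;> intro e <;> linear_combination e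
  · rw [mem_elt_s h, mem_elt_s h, neg_neg]
    constructor
    · rintro ⟨t, h1, h2, e⟩
      refine ⟨-t, by linarith, by linarith, ?_⟩
      have e1 := congrArg Complex.re e
      have e2 := congrArg Complex.im e
      simp only [cj, Lp, cos_neg, sin_neg] at e1 e2
      apply Complex.ext <;> simp only [Lp] <;> linarith
    · rintro ⟨t, h1, h2, rfl⟩
      refine ⟨-t, by linarith, by linarith, ?_⟩
      apply Complex.ext <;> simp [Lp, cj]
      ring

/-- contact point of consecutive elements -/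
noncomputable def cp (R d : ℝ) : Letter → Letter → ℝ → ℂ
  | .s, .s, x => Lp x (tau R d .s .s x)
  | .s, .c, x => Lp x (2 * tau R d .s .c x)
  | .c, .s, x => Lp (TT R d .c .s x) (-(2 * tau R d .c .s x))
  | .c, .c, x =>
    ⟨(PP R d x).re + rho R d x / (rho R d x + rho R d (TT R d .c .c x)) *
        ((PP R d (TT R d .c .c x)).re - (PP R d x).re),
      (PP R d x).im + rho R d x / (rho R d x + rho R d (TT R d .c .c x)) *
        ((PP R d (TT R d .c .c x)).im - (PP R d x).im)⟩

theorem cos_TT (R d : ℝ) (A B : Letter) (x : ℝ) :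
    (1 + tau R d A B x ^ 2) * cos (TT R d A B x) =
      cos x * (1 - tau R d A B x ^ 2) - 2 * tau R d A B x * sin x := by
  unfold TT
  rw [cos_step]
  have : (1 + tau R d A B x ^ 2) ≠ 0 := by positivity
  field_simp

theorem sin_TT (R d : ℝ) (A B : Letter) (x : ℝ) :
    (1 + tau R d A B x ^ 2) * sin (TT R d A B x) =
      sin x * (1 - tau R d A B x ^ 2) + 2 * tau R d A B x * cos x := by
  unfold TT
  rw [sin_step]
  have : (1 + tau R d A B x ^ 2) ≠ 0 := by positivity
  field_simp

theorem rho_TT_sc {R d : ℝ} (h : Adm R d) (x : ℝ) :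
    rho R d (TT R d .s .c x) = tau R d .s .c x ^ 2 := by
  rw [← tau_cs_sq h, ← tau_flip h .c .s x, tau_cs_neg]

theorem meet_sc {R d : ℝ} (h : Adm R d) (x : ℝ) :
    MeetAt (elt R d .s x) (elt R d .c (TT R d .s .c x)) (cp R d .s .c x) := by
  have hsc := sin_sq_add_cos_sq x
  have hc := cos_TT R d .s .c x
  have hs := sin_TT R d .s .c x
  have hr := rho_TT_sc h x
  have key : ∀ t : ℝ, ((Lp x t).re - (1 + rho R d (TT R d .s .c x)) * cos (TT R d .s .c x)) ^ 2 +
      ((Lp x t).im - (1 + rho R d (TT R d .s .c x)) * sin (TT R d .s .c x)) ^ 2 =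
      rho R d (TT R d .s .c x) ^ 2 + (t - 2 * tau R d .s .c x) ^ 2 := by
    intro t
    rw [hr, hc, hs]
    simp only [Lp]
    linear_combination (tau R d .s .c x ^ 4 + (t - 2 * tau R d .s .c x) ^ 2) * hsc
  unfold MeetAt
  ext z
  rw [Set.mem_inter_iff, Set.mem_singleton_iff, mem_elt_s h, mem_elt_c h]
  simp only [cp]
  constructor
  · rintro ⟨⟨t, _, _, rfl⟩, h2⟩
    rw [key] at h2
    have : (t - 2 * tau R d .s .c x) ^ 2 = 0 := by linarith
    have : t - 2 * tau R d .s .c x = 0 := pow_eq_zero_iff (two_ne_zero) |>.1 this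
    rw [show t = 2 * tau R d .s .c x by linarith]
  · rintro rfl
    refine ⟨?_, ?_⟩
    · have h1 : Lp x (2 * tau R d .s .c x) ∈ elt R d .c (TT R d .s .c x) := by
        rw [mem_elt_c h, key]; ring
      obtain ⟨P, ρ, hρ, he, hsub, _⟩ := isElt h .c (TT R d .s .c x)
      rw [he] at h1
      have h2 := (hsub (Metric.sphere_subset_closedBall h1)).1
      have hR : 0 ≤ R := by linarith [h.h0, h.h1]
      have h3 := (mem_closedBall_iff' (P := (⟨-d, 0⟩ : ℂ)) hR).1 h2
      obtain ⟨h4, h5⟩ := (Lp_mem_disc h x _).1 h3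
      exact ⟨_, h4, h5, rfl⟩
    · rw [key]; ring

theorem meet_ss {R d : ℝ} (h : Adm R d) (x : ℝ) :
    MeetAt (elt R d .s x) (elt R d .s (TT R d .s .s x)) (cp R d .s .s x) := by
  have hsc := sin_sq_add_cos_sq x
  have hc := cos_TT R d .s .s x
  have hs := sin_TT R d .s .s x
  have ht := tau_pos h .s .s x
  have hfl := tau_flip h .s .s x
  set y := TT R d .s .s x with hy
  set τ := tau R d .s .s x with hτ
  have hne : 1 + τ ^ 2 ≠ 0 := by positivity
  have e0 : Lp x τ = Lp y (-τ) := by
    apply Complex.ext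
    · simp only [Lp]
      apply mul_left_cancel₀ hne
      linear_combination (-1) * hc - τ * hs
    · simp only [Lp]
      apply mul_left_cancel₀ hne
      linear_combination (-1) * hs + τ * hc
  unfold MeetAt
  ext z
  rw [Set.mem_inter_iff, Set.mem_singleton_iff, mem_elt_s h, mem_elt_s h]
  simp only [cp]
  constructor
  · rintro ⟨⟨t, _, _, rfl⟩, ⟨t', _, _, e⟩⟩
    have e1 := congrArg Complex.re e
    have e2 := congrArg Complex.im e
    simp only [Lp] at e1 e2
    -- rotate
    have e3 : (1 + τ ^ 2) = (1 - τ ^ 2) - 2 * τ * t' := by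
      linear_combination (1 + τ ^ 2) * (cos x * e1 + sin x * e2) + cos x * (hc - t' * hs) +
        sin x * (hs + t' * hc) - (1 + τ ^ 2) * hsc + ((1 - τ ^ 2) - 2 * τ * t') * hsc
    have e4 : t' = -τ := by
      have : 2 * τ * (t' + τ) = 0 := by linarith
      rcases mul_eq_zero.1 this with h' | h'
      · linarith
      · linarith
    rw [e, e4, e0]
  · rintro rfl
    refine ⟨⟨τ, ?_, le_rfl, rfl⟩, ⟨-τ, ?_, ?_, e0⟩⟩
    · linarith [tau_pos h .s .s (-x)]
    · rw [hfl]
    · linarith [tau_pos h .s .s y]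

/-- the tangency identity for consecutive circles -/
theorem cc_ident {R d : ℝ} (h : Adm R d) (x : ℝ) :
    KK R d ^ 2 * tau R d .c .c x ^ 2 =
      nn R d x * nn R d (TT R d .c .c x) * (1 + tau R d .c .c x ^ 2) := by
  have hsc := sin_sq_add_cos_sq x
  have hs := sin_TT R d .c .c x
  have hrel := tau_rel h.adm' .c .c x
  have hrel2 := tau_rel h.adm' .c .c (-(TT R d .c .c x))
  rw [tau_flip h .c .c x] at hrel2
  have e : nn R d (-(TT R d .c .c x)) = nn R d (TT R d .c .c x) := by simp [nn]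
  simp only [rel, sin_neg, e] at hrel hrel2
  have hG : √(R * KK R d) ^ 2 = R * KK R d := by
    apply sq_sqrt
    have := RK_gt h.adm'
    nlinarith [sq_nonneg d]
  have hn0 : R ^ 2 - 1 - d ^ 2 = tau R d .c .c x * (2 * (√(R * KK R d) - d * sin x)) + 2 * d * cos x := by
    rw [hrel]; unfold nn; ring
  have hK0 : KK R d ^ 2 = (R ^ 2 - 1 - d ^ 2) ^ 2 + 4 * R * KK R d - 4 * d ^ 2 := by
    unfold KK; ring
  rw [hn0] at hK0
  rw [← hrel, ← hrel2, hK0]
  set G := √(R * KK R d) with hGd
  set t := tau R d .c .c x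
  set sy := sin (TT R d .c .c x)
  clear_value G t sy
  have hRK : R * KK R d = G ^ 2 := hG.symm
  linear_combination (4 * t ^ 2) * hRK - 4 * t ^ 2 * (G - d * sin x) * d * hs + 4 * d ^ 2 * t ^ 2 * hsc

theorem meet_cc {R d : ℝ} (h : Adm R d) (x : ℝ) :
    MeetAt (elt R d .c x) (elt R d .c (TT R d .c .c x)) (cp R d .c .c x) := by
  have hsc := sin_sq_add_cos_sq x
  have hc := cos_TT R d .c .c x
  have hs := sin_TT R d .c .c x
  have hid := cc_ident h x
  have hρ := rho_pos h x
  have hρ' := rho_pos h (TT R d .c .c x)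
  have hK := one_add_rho h x
  have hK' := one_add_rho h (TT R d .c .c x)
  have hW := WW_ge h.adm' x
  have hW' := WW_ge h.adm' (TT R d .c .c x)
  have hn : nn R d x = 2 * WW R d x * rho R d x := by unfold rho; field_simp
  have hn' : nn R d (TT R d .c .c x) = 2 * WW R d (TT R d .c .c x) * rho R d (TT R d .c .c x) := by
    unfold rho; field_simp
  have ht2 : (1 + rho R d x) * (1 + rho R d (TT R d .c .c x)) * tau R d .c .c x ^ 2 =
      rho R d x * rho R d (TT R d .c .c x) * (1 + tau R d .c .c x ^ 2) := by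
    have hne : 4 * WW R d x * WW R d (TT R d .c .c x) ≠ 0 := by positivity
    apply mul_left_cancel₀ hne
    rw [hn, hn'] at hid
    calc _ = ((1 + rho R d x) * (2 * WW R d x)) * ((1 + rho R d (TT R d .c .c x)) *
          (2 * WW R d (TT R d .c .c x))) * tau R d .c .c x ^ 2 := by ring
      _ = KK R d ^ 2 * tau R d .c .c x ^ 2 := by rw [hK, hK']; ring
      _ = _ := by rw [hid]; ring
  have hdist : ((PP R d x).re - (PP R d (TT R d .c .c x)).re) ^ 2 +
      ((PP R d x).im - (PP R d (TT R d .c .c x)).im) ^ 2 =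
      (rho R d x + rho R d (TT R d .c .c x)) ^ 2 := by
    simp only [PP]
    have hsc' := sin_sq_add_cos_sq (TT R d .c .c x)
    set y := TT R d .c .c x
    set t := tau R d .c .c x
    set a := rho R d x
    set b := rho R d y
    have hne : 1 + t ^ 2 ≠ 0 := by positivity
    apply mul_left_cancel₀ hne
    have hcc : (1 + t ^ 2) * (cos x * cos y + sin x * sin y) = 1 - t ^ 2 := by
      linear_combination cos x * hc + sin x * hs + (1 - t ^ 2) * hsc
    linear_combination (1 + t ^ 2) * (1 + a) ^ 2 * hsc + (1 + t ^ 2) * (1 + b) ^ 2 * hsc' -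
      2 * (1 + a) * (1 + b) * hcc + 4 * ht2
  unfold MeetAt
  ext z
  rw [Set.mem_inter_iff, Set.mem_singleton_iff, mem_elt_c h, mem_elt_c h]
  set a := rho R d x
  set y := TT R d .c .c x
  set b := rho R d y
  have hcore := @core z.re z.im _ _ _ _ (a / (a + b)) (a + b) hdist
  have hne : a + b ≠ 0 := by positivity
  have e1 : (a / (a + b) * (a + b)) ^ 2 = a ^ 2 := by field_simp
  have e2 : ((1 - a / (a + b)) * (a + b)) ^ 2 = b ^ 2 := by field_simp; ring
  rw [e1, e2] at hcore
  exact hcore.trans (by rw [Complex.ext_iff]; rfl)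

theorem meet_of_flip {R d : ℝ} (h : Adm R d) (A B : Letter) (x : ℝ) (p : ℂ)
    (hm : MeetAt (elt R d B (-(TT R d A B x))) (elt R d A (-x)) p) :
    MeetAt (elt R d A x) (elt R d B (TT R d A B x)) (cj p) := by
  unfold MeetAt at *
  ext z
  rw [Set.mem_inter_iff, Set.mem_singleton_iff, ← mem_elt_neg h A x, ← mem_elt_neg h B, and_comm,
    ← Set.mem_inter_iff, hm, Set.mem_singleton_iff]
  constructor
  · intro e; rw [← e, cj_cj]
  · rintro rfl; rw [cj_cj]

theorem meet_cs {R d : ℝ} (h : Adm R d) (x : ℝ) :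
    MeetAt (elt R d .c x) (elt R d .s (TT R d .c .s x)) (cp R d .c .s x) := by
  have h1 := meet_sc h (-(TT R d .c .s x))
  rw [TT_flip h] at h1
  have h2 := meet_of_flip h .c .s x _ h1
  convert h2 using 1
  simp only [cp]
  rw [tau_flip h]
  apply Complex.ext <;> simp [Lp, cj]
  ring

theorem meet {R d : ℝ} (h : Adm R d) (A B : Letter) (x : ℝ) :
    MeetAt (elt R d A x) (elt R d B (TT R d A B x)) (cp R d A B x) := by
  cases A <;> cases B
  · exact meet_cc h x
  · exact meet_cs h x
  · exact meet_sc h x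
  · exact meet_ss h x

theorem cp_flip {R d : ℝ} (h : Adm R d) (A B : Letter) (x : ℝ) :
    cj (cp R d A B x) = cp R d B A (-(TT R d A B x)) := by
  have h1 := meet h B A (-(TT R d A B x))
  rw [TT_flip h] at h1
  have h2 := meet_of_flip h A B x _ h1
  have h3 := meet h A B x
  unfold MeetAt at h2 h3
  rw [h3] at h2
  have := Set.singleton_eq_singleton_iff.1 h2
  rw [this, cj_cj]

theorem contact {R d : ℝ} (h : Adm R d) (A B : Letter) (x : ℝ) :
    Contact (std R d h) A B (elt R d A x) (elt R d B (TT R d A B x)) (cp R d A B x) := by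
  refine ⟨meet h A B x, ?_⟩
  rintro rfl rfl
  exact Lp_mem_outer h x _ (Or.inr rfl)

end Pool.Agent.R762.Mx
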