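import Mathlib
import Pool.Agent.R762.Mx5
import Pool.Agent.R762.Mx3

/-!
Separation, and chains from orbits of the step maps.
-/

namespace Pool.Agent.R762.Mx

open Real

/-- side function of the line joining the two contact points of an inscribed circle -/
noncomputable def side (R d x : ℝ) (p : ℂ) : ℝ :=
  (p.im - sin x) * ((R + 1) * cos x + d) - (p.re - cos x) * ((R + 1) * sin x)

/-- forward side of an element -/
def Pos (R d : ℝ) : Letter → ℝ → ℂ → Prop
  | .s, x, p => ∃ t, 0 < t ∧ p = Lp x t
  | .c, x, p => 0 < side R d x p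

theorem pos_cs {R d : ℝ} (h : Adm R d) (x : ℝ) : Pos R d .c x (cp R d .c .s x) := by
  have hsc := sin_sq_add_cos_sq x
  have hc := cos_TT R d .c .s x
  have hs := sin_TT R d .c .s x
  have ht := tau_pos h .c .s x
  have hS := SS_pos h (TT R d .c .s x)
  have hU := UU_ge h.adm' (TT R d .c .s x)
  have hfl := tau_flip h .s .c x
  have e1 : SS R d (TT R d .c .s x) =
      tau R d .c .s x * UU R d (TT R d .c .s x) + d * sin (TT R d .c .s x) := by
    have e2 : tau R d .s .c (-(TT R d .c .s x)) = (-(d * sin (TT R d .c .s x)) + SS R d (TT R d .c .s x)) / UU R d (TT R d .c .s x) := by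
      simp [tau, SS, VV, UU]
    rw [e2] at hfl
    rw [← hfl]; field_simp; ring
  show 0 < side R d x (Lp (TT R d .c .s x) (-(2 * tau R d .c .s x)))
  unfold UU at e1
  set y := TT R d .c .s x
  set t := tau R d .c .s x
  have hne : 0 < 1 + t ^ 2 := by positivity
  have e3 : (1 + t ^ 2) * SS R d y = (1 + t ^ 2) * (t * (R + 1 + d * cos x) + d * sin x) := by
    rw [e1]
    linear_combination (-(t * d)) * hc + d * hs
  have e4 : SS R d y = t * (R + 1 + d * cos x) + d * sin x := mul_left_cancel₀ hne.ne' e3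
  have e5 : (1 + t ^ 2) * side R d x (Lp y (-(2 * t))) = 2 * t ^ 2 * SS R d y := by
    rw [e4]
    simp only [side, Lp]
    linear_combination (((R + 1) * cos x + d) - 2 * t * ((R + 1) * sin x)) * hs +
      (-(2 * t) * ((R + 1) * cos x + d) - (R + 1) * sin x) * hc + 2 * t ^ 3 * (R + 1) * hsc
  have e6 : 0 < 2 * t ^ 2 * SS R d y := by positivity
  rw [← e5] at e6
  exact (pos_iff_pos_of_mul_pos e6).1 hne

theorem pos_cc {R d : ℝ} (h : Adm R d) (x : ℝ) : Pos R d .c x (cp R d .c .c x) := by
  have hsc := sin_sq_add_cos_sq x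
  have hc := cos_TT R d .c .c x
  have hs := sin_TT R d .c .c x
  have ht := tau_pos h .c .c x
  have hid := cc_ident h x
  have hρ := rho_pos h x
  have hρ' := rho_pos h (TT R d .c .c x)
  have hK := one_add_rho h x
  have hK' := one_add_rho h (TT R d .c .c x)
  have hW := WW_ge h.adm' x
  have hW' := WW_ge h.adm' (TT R d .c .c x)
  have hn : nn R d x = 2 * WW R d x * rho R d x := by unfold rho; field_simp
  have hn' : nn R d (TT R d .c .c x) = 2 * WW R d (TT R d .c .c x) * rho R d (TT R d .c .c x) := by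
    unfold rho; field_simp
  have hrel := tau_rel h.adm' .c .c x
  simp only [rel] at hrel
  have hG : 0 < √(R * KK R d) := by linarith [G_gt h.adm', h.h0]
  have ht2 : (1 + rho R d x) * (1 + rho R d (TT R d .c .c x)) * tau R d .c .c x ^ 2 =
      rho R d x * rho R d (TT R d .c .c x) * (1 + tau R d .c .c x ^ 2) := by
    have hne : 4 * WW R d x * WW R d (TT R d .c .c x) ≠ 0 := by positivity
    apply mul_left_cancel₀ hne
    rw [hn, hn'] at hid
    calc _ = ((1 + rho R d x) * (2 * WW R d x)) * ((1 + rho R d (TT R d .c .c x)) *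
          (2 * WW R d (TT R d .c .c x))) * tau R d .c .c x ^ 2 := by ring
      _ = KK R d ^ 2 * tau R d .c .c x ^ 2 := by rw [hK, hK']; ring
      _ = _ := by rw [hid]; ring
  show 0 < side R d x (cp R d .c .c x)
  simp only [cp, side, PP]
  rw [hn] at hrel
  have hWx : WW R d x = R + 1 + d * cos x := rfl
  rw [hWx] at hrel hW
  set y := TT R d .c .c x
  set t := tau R d .c .c x
  set a := rho R d x
  set b := rho R d y
  set G := √(R * KK R d)
  have hne : 0 < 1 + t ^ 2 := by positivity
  have hab : 0 < a + b := by positivity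
  have ht3 : t ^ 2 * (1 + a + b) = a * b := by linear_combination ht2
  have hbt : 0 < b - t ^ 2 := by
    have : (b - t ^ 2) * (1 + a + b) = b * (1 + b) := by linear_combination (-1) * ht3
    have h2 : 0 < (b - t ^ 2) * (1 + a + b) := by rw [this]; positivity
    exact (pos_iff_pos_of_mul_pos h2).2 (by positivity)
  have key : t * ((b - t ^ 2) * (d * sin x) + (1 + b) * t * (R + 1 + d * cos x)) =
      t * ((b - t ^ 2) * G) := by
    linear_combination (-(b - t ^ 2) / 2) * hrel + (R + 1 + d * cos x) * ht3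
  have key2 := mul_left_cancel₀ ht.ne' key
  have e5 : (1 + t ^ 2) * (((1 + a) * sin x + a / (a + b) * ((1 + b) * sin y - (1 + a) * sin x) - sin x) *
        ((R + 1) * cos x + d) -
      ((1 + a) * cos x + a / (a + b) * ((1 + b) * cos y - (1 + a) * cos x) - cos x) *
        ((R + 1) * sin x)) = a / (a + b) * (2 * ((b - t ^ 2) * G)) := by
    rw [← key2]
    have hne2 : a + b ≠ 0 := hab.ne'
    field_simp
    linear_combination a * (1 + b) * ((R + 1) * cos x + d) * hs - a * (1 + b) * ((R + 1) * sin x) * hc +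
      2 * t * a * (1 + b) * (R + 1) * hsc
  have e6 : 0 < a / (a + b) * (2 * ((b - t ^ 2) * G)) := by positivity
  rw [← e5] at e6
  exact (pos_iff_pos_of_mul_pos e6).1 hne

theorem pos_next {R d : ℝ} (h : Adm R d) (A B : Letter) (x : ℝ) : Pos R d A x (cp R d A B x) := by
  cases A <;> cases B
  · exact pos_cc h x
  · exact pos_cs h x
  · exact ⟨_, by linarith [tau_pos h .s .c x], rfl⟩
  · exact ⟨_, tau_pos h .s .s x, rfl⟩

theorem lineMap_re (p q : ℂ) (m : ℝ) :
    (AffineMap.lineMap p q m : ℂ).re = p.re + m * (q.re - p.re) := by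
  simp [AffineMap.lineMap_apply]; ring

theorem lineMap_im (p q : ℂ) (m : ℝ) :
    (AffineMap.lineMap p q m : ℂ).im = p.im + m * (q.im - p.im) := by
  simp [AffineMap.lineMap_apply]; ring

theorem mem_line_iff {t t' z : ℂ} (hne : t ≠ t') :
    z ∈ line[ℝ, t, t'] ↔ (z.im - t.im) * (t'.re - t.re) - (z.re - t.re) * (t'.im - t.im) = 0 := by
  rw [mem_affineSpan_pair_iff_exists_lineMap_eq]
  constructor
  · rintro ⟨r, rfl⟩
    rw [lineMap_re, lineMap_im]
    ring
  · intro e
    have hpos : 0 < (t'.re - t.re) ^ 2 + (t'.im - t.im) ^ 2 := by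
      by_contra hcon
      apply hne
      apply Complex.ext <;> nlinarith [sq_nonneg (t'.re - t.re), sq_nonneg (t'.im - t.im)]
    refine ⟨((z.re - t.re) * (t'.re - t.re) + (z.im - t.im) * (t'.im - t.im)) /
      ((t'.re - t.re) ^ 2 + (t'.im - t.im) ^ 2), ?_⟩
    apply Complex.ext
    · rw [lineMap_re]
      field_simp
      linear_combination (t'.im - t.im) * e
    · rw [lineMap_im]
      field_simp
      linear_combination (-(t'.re - t.re)) * e

theorem sOpp {t t' p q : ℂ}
    (hp : (p.im - t.im) * (t'.re - t.re) - (p.re - t.re) * (t'.im - t.im) < 0)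
    (hq : 0 < (q.im - t.im) * (t'.re - t.re) - (q.re - t.re) * (t'.im - t.im)) :
    (line[ℝ, t, t']).SOppSide p q := by
  have hne : t ≠ t' := by
    rintro rfl
    simp at hp
  set fp := (p.im - t.im) * (t'.re - t.re) - (p.re - t.re) * (t'.im - t.im) with hfp
  set fq := (q.im - t.im) * (t'.re - t.re) - (q.re - t.re) * (t'.im - t.im) with hfq
  have h1 : p ∉ line[ℝ, t, t'] := by rw [mem_line_iff hne]; exact hp.ne
  have h2 : q ∉ line[ℝ, t, t'] := by rw [mem_line_iff hne]; exact hq.ne'
  have hd : 0 < fq - fp := by linarith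
  set m : ℝ := -fp / (fq - fp) with hm
  have hm2 : m * (fq - fp) = -fp := by rw [hm]; field_simp
  have hm0 : 0 < m := by rw [hm]; apply div_pos <;> linarith
  have hm1 : m < 1 := by rw [hm, div_lt_one hd]; linarith
  have hz : AffineMap.lineMap p q m ∈ line[ℝ, t, t'] := by
    rw [mem_line_iff hne]
    rw [lineMap_re, lineMap_im]
    rw [hfp, hfq] at hm2
    linear_combination hm2
  have hpq : p ≠ q := by
    rintro rfl
    linarith
  have hb : Sbtw ℝ p (AffineMap.lineMap p q m) q := by
    rw [sbtw_lineMap_iff]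
    exact ⟨hpq, hm0, hm1⟩
  exact hb.sOppSide_of_notMem_of_mem h1 hz

theorem sep {R d : ℝ} (h : Adm R d) (A : Letter) (x : ℝ) (p q : ℂ)
    (hp : Pos R d A (-x) (cj p)) (hq : Pos R d A x q) :
    Sep (std R d h) A (elt R d A x) p q := by
  cases A
  · refine ⟨E x, TO R d x, meet_inner h .c x, meet_outer h x, ?_⟩
    have hρ := rho_pos h x
    have hlt := rho_lt h x
    have hne : R - rho R d x ≠ 0 := by linarith
    have e1 : (TO R d x).re - (E x).re = rho R d x / (R - rho R d x) * ((R + 1) * cos x + d) := by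
      simp only [TO, PP, E]; field_simp; ring
    have e2 : (TO R d x).im - (E x).im = rho R d x / (R - rho R d x) * ((R + 1) * sin x) := by
      simp only [TO, PP, E]; field_simp; ring
    have hm : 0 < rho R d x / (R - rho R d x) := div_pos hρ (by linarith)
    have hp' : side R d x p < 0 := by
      have : 0 < side R d (-x) (cj p) := hp
      have e : side R d (-x) (cj p) = - side R d x p := by
        simp only [side, cj, cos_neg, sin_neg]; ring
      linarith
    have hq' : 0 < side R d x q := hq
    apply sOpp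
    · rw [e1, e2]
      have : (p.im - (E x).im) * (rho R d x / (R - rho R d x) * ((R + 1) * cos x + d)) -
        (p.re - (E x).re) * (rho R d x / (R - rho R d x) * ((R + 1) * sin x)) =
        rho R d x / (R - rho R d x) * side R d x p := by simp only [side, E]; ring
      rw [this]
      exact mul_neg_of_pos_of_neg hm hp'
    · rw [e1, e2]
      have : (q.im - (E x).im) * (rho R d x / (R - rho R d x) * ((R + 1) * cos x + d)) -
        (q.re - (E x).re) * (rho R d x / (R - rho R d x) * ((R + 1) * sin x)) =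
        rho R d x / (R - rho R d x) * side R d x q := by simp only [side, E]; ring
      rw [this]
      exact mul_pos hm hq'
  · obtain ⟨t1, ht1, e1⟩ := hp
    obtain ⟨t2, ht2, rfl⟩ := hq
    have e2 : p = Lp x (-t1) := by
      rw [← cj_cj p, e1]
      apply Complex.ext <;> simp [Lp, cj]
      ring
    refine ⟨E x, meet_inner h .s x, ?_⟩
    have e3 : E x = AffineMap.lineMap p (Lp x t2) (t1 / (t1 + t2)) := by
      rw [e2]
      apply Complex.ext
      · rw [lineMap_re]; simp only [Lp, E]; field_simp; ring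
      · rw [lineMap_im]; simp only [Lp, E]; field_simp; ring
    rw [e3, sbtw_lineMap_iff]
    refine ⟨?_, by positivity, (div_lt_one (by positivity)).2 (by linarith)⟩
    rw [e2]
    intro e4
    have := Lp_inj e4
    linarith

theorem ltr_add (w : List Letter) (i : ℕ) : ltr w (i + w.length) = ltr w i := by
  simp [ltr]

/-- chains from orbits -/
theorem isChain_orb {R d : ℝ} (h : Adm R d) (w : List Letter) (x : ℝ) :
    IsChain (std R d h) w (fun i => elt R d (ltr w i) (orb R d (ltr w) x i)) := by
  refine ⟨fun i _ => isElt h _ _, fun i => cp R d (ltr w i) (ltr w (i + 1)) (orb R d (ltr w) x i),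
    fun i _ => contact h _ _ _, ?_⟩
  intro i hi _
  obtain ⟨j, rfl⟩ : ∃ j, i = j + 1 := ⟨i - 1, by omega⟩
  apply sep h
  · simp only [Nat.add_sub_cancel]
    rw [cp_flip h]
    exact pos_next h _ _ _
  · exact pos_next h _ _ _

theorem elt_periodic (R d : ℝ) (A : Letter) (x : ℝ) : elt R d A (x + 2 * π) = elt R d A x := by
  have e : -(x + 2 * π) = -x - 2 * π := by ring
  cases A
  · simp [elt, PP, rho, nn, WW]
  · simp [elt, Lp, tau, QQ, e]

theorem orb_cont_x {R d : ℝ} (h : Adm R d) (a : ℕ → Letter) (n : ℕ) :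
    Continuous (fun x => orb R d a x n) := by
  rw [continuous_iff_continuousAt]
  intro x
  obtain ⟨D, hD, _⟩ := orb_deriv h a x n
  exact hD.continuousAt

theorem E_eq {x y : ℝ} (h : E x = E y) : ∃ k : ℤ, x = y + 2 * π * k := by
  have h1 : cos x = cos y := by
    have := congrArg Complex.re h
    simpa only [E] using this
  have h2 : sin x = sin y := by
    have := congrArg Complex.im h
    simpa only [E] using this
  have h3 : (x : Real.Angle) = y := Real.Angle.cos_sin_inj h1 h2
  rw [Real.Angle.angle_eq_iff_two_pi_dvd_sub] at h3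
  obtain ⟨k, hk⟩ := h3
  exact ⟨k, by linarith⟩

theorem elt_eq {R d : ℝ} (h : Adm R d) {A : Letter} {x y : ℝ} (e : elt R d A x = elt R d A y) :
    ∃ k : ℤ, x = y + 2 * π * k := by
  have h1 := meet_inner h A x
  have h2 := meet_inner h A y
  unfold MeetAt at h1 h2
  rw [e, h2] at h1
  exact E_eq (Set.singleton_eq_singleton_iff.1 h1).symm

/-- if every chain closes and one of them closes after one turn, all do -/
theorem all_one {R d : ℝ} (h : Adm R d) (a : ℕ → Letter) (n : ℕ) (x0 : ℝ)
    (h0 : orb R d a x0 n = x0 + 2 * π)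
    (hall : ∀ x, ∃ k : ℤ, orb R d a x n = x + 2 * π * k) (x : ℝ) :
    orb R d a x n = x + 2 * π := by
  have hpi := pi_pos
  have hcont : Continuous (fun x => orb R d a x n - x) := (orb_cont_x h a n).sub continuous_id
  obtain ⟨k, hk⟩ := hall x
  have hnot : ∀ m : ℤ, (2 * (m : ℝ) + 1) * π ∉ Set.range (fun x => orb R d a x n - x) := by
    rintro m ⟨z, hz⟩
    obtain ⟨l, hl⟩ := hall z
    have hz : orb R d a z n - z = (2 * (m : ℝ) + 1) * π := hz
    rw [hl] at hz
    have : (2 * (l : ℝ)) * π = (2 * (m : ℝ) + 1) * π := by linarith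
    have := mul_right_cancel₀ hpi.ne' this
    have : 2 * l = 2 * m + 1 := by exact_mod_cast this
    omega
  rcases lt_trichotomy k 1 with hlt | heq | hgt
  · exfalso
    apply hnot 0
    apply mem_range_of_exists_le_of_exists_ge hcont
    · refine ⟨x, ?_⟩
      show orb R d a x n - x ≤ _
      rw [hk]
      have : (k : ℝ) ≤ 0 := by exact_mod_cast Int.lt_add_one_iff.1 (by omega)
      push_cast
      nlinarith
    · refine ⟨x0, ?_⟩
      show _ ≤ orb R d a x0 n - x0
      rw [h0]
      push_cast
      linarith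
  · rw [hk, heq]; push_cast; ring
  · exfalso
    apply hnot 1
    apply mem_range_of_exists_le_of_exists_ge hcont
    · refine ⟨x0, ?_⟩
      show orb R d a x0 n - x0 ≤ _
      rw [h0]
      push_cast
      linarith
    · refine ⟨x, ?_⟩
      show _ ≤ orb R d a x n - x
      rw [hk]
      have : (2 : ℝ) ≤ k := by exact_mod_cast hgt
      push_cast
      nlinarith

theorem per_two {w : List Letter} (hn : 3 ≤ w.length) (hw : IsClosureSeq w) (j : ℕ)
    (hj : ltr w j = .s) : ltr w (j + 2) = .s := by
  by_contra hc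
  have hc : ltr w (j + 2) = .c := by
    cases h : ltr w (j + 2)
    · rfl
    · exact absurd h hc
  set n := w.length with hnd
  have h12 : (1 : ℝ) ≤ 12 ^ n := one_le_pow₀ (by norm_num)
  have hR : (1000 : ℝ) ≤ 2000 * 12 ^ n := by linarith
  obtain ⟨g, hg0, hg, hclose⟩ := exists_closing hR (ltr w) n hn
  have had := adm_of hR hg0 hg.le
  have hall : ∀ x, ∃ k : ℤ, orb (2000 * 12 ^ n) (2000 * 12 ^ n - 1 - g) (ltr w) x n = x + 2 * π * k := by
    intro x
    have h0 : Closes w (fun i => elt (2000 * 12 ^ n) (2000 * 12 ^ n - 1 - g) (ltr w i)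
        (orb (2000 * 12 ^ n) (2000 * 12 ^ n - 1 - g) (ltr w) 0 i)) := by
      show elt _ _ (ltr w w.length) (orb _ _ (ltr w) 0 w.length) = elt _ _ (ltr w 0) 0
      have : ltr w w.length = ltr w 0 := by simpa using ltr_add w 0
      rw [this, ← hnd, hclose]
      simpa using elt_periodic (2000 * 12 ^ n) (2000 * 12 ^ n - 1 - g) (ltr w 0) 0
    have h1 := hw.1 (std _ _ had) ⟨_, isChain_orb had w 0, h0⟩ _ (isChain_orb had w x)
    have h2 : elt (2000 * 12 ^ n) (2000 * 12 ^ n - 1 - g) (ltr w w.length)
      (orb (2000 * 12 ^ n) (2000 * 12 ^ n - 1 - g) (ltr w) x w.length) = elt _ _ (ltr w 0) x := h1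
    have : ltr w w.length = ltr w 0 := by simpa using ltr_add w 0
    rw [this] at h2
    exact elt_eq had h2
  have h1 := all_one had (ltr w) n 0 (by rw [hclose]; ring) hall
  have hper : ∀ i, ltr w (i + n) = ltr w i := ltr_add w
  have h2 := orb_shift had (ltr w) n hper h1 (j + 1)
  apply no_id hg0 hg.le n hn le_rfl (fun k => ltr w (j + 1 + k)) _ _ _ h2
  · exact hper (j + 1)
  · show ltr w (j + 1 + (n - 1)) = .s
    have : j + 1 + (n - 1) = j + n := by omega
    rw [this, hper]; exact hj
  · exact hc

end Pool.Agent.R762.Mx
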