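import Mathlib
import Pool.Agent.R762.Mx6

/-!
Short words, combinatorics of two-periodic words, and the classification.
-/

namespace Pool.Agent.R762.Mx

open Real

theorem elt_nontrivial (a : Annulus) (A : Letter) (u : Set ℂ) (h : IsElt a A u) (p : ℂ) :
    u ≠ {p} := by
  rintro rfl
  cases A
  · obtain ⟨P, ρ, hρ, he, _⟩ := h
    have h1 : P + ρ ∈ Metric.sphere P ρ := by
      simp [abs_of_pos hρ]
    have h2 : P - ρ ∈ Metric.sphere P ρ := by
      simp [abs_of_pos hρ]
    rw [← he, Set.mem_singleton_iff] at h1 h2
    rw [← h2] at h1
    have := congrArg Complex.re h1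
    simp at this
    linarith
  · obtain ⟨x, y, _, _, hne, he, _⟩ := h
    have h1 : x ∈ segment ℝ x y := left_mem_segment ℝ x y
    have h2 : y ∈ segment ℝ x y := right_mem_segment ℝ x y
    rw [← he, Set.mem_singleton_iff] at h1 h2
    exact hne (h1.trans h2.symm)

theorem not_sep_self (a : Annulus) (A : Letter) (u : Set ℂ) (p : ℂ) : ¬ Sep a A u p p := by
  cases A
  · rintro ⟨t, t', _, _, h⟩
    exact h.2.1 (AffineSubspace.wOppSide_self_iff.1 h.1)
  · rintro ⟨t, _, h⟩
    exact h.2.1 ((wbtw_self_iff ℝ).1 h.1)

theorem length_ge_three {w : List Letter} (hne : w ≠ []) (a : Annulus) (u : ℕ → Set ℂ)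
    (hu : IsChain a w u) (hc : Closes w u) : 3 ≤ w.length := by
  have h0 : 0 < w.length := List.length_pos_iff.2 hne
  obtain ⟨p, hp, hs⟩ := hu.link
  by_contra hlt
  push Not at hlt
  have : w.length = 1 ∨ w.length = 2 := by omega
  unfold Closes at hc
  rcases this with h1 | h2
  · rw [h1] at hc
    have h3 := (hp 0 (by omega)).1
    unfold MeetAt at h3
    rw [zero_add, hc, Set.inter_self] at h3
    exact elt_nontrivial a _ _ (hu.elt 0 (by omega)) _ h3
  · rw [h2] at hc
    have h3 := (hp 0 (by omega)).1
    have h4 := (hp 1 (by omega)).1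
    unfold MeetAt at h3 h4
    rw [show (1 : ℕ) + 1 = 2 from rfl, hc, Set.inter_comm] at h4
    rw [zero_add] at h3
    rw [h3] at h4
    have h5 := Set.singleton_eq_singleton_iff.1 h4
    have h6 := hs 1 le_rfl (by omega)
    rw [show (1 : ℕ) - 1 = 0 from rfl, h5] at h6
    exact not_sep_self _ _ _ _ h6

theorem flatten_form (x y : Letter) : ∀ (m : ℕ) (w : List Letter), w.length = 2 * m →
    (∀ i, i < w.length → w.getD i .c = if i % 2 = 0 then x else y) →
    w = (List.replicate m [x, y]).flatten := by
  intro m
  induction m with
  | zero => intro w hw _; simpa using hw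
  | succ k ih =>
    intro w hw hi
    match w, hw, hi with
    | p :: q :: w', hw, hi =>
      have h0 := hi 0 (by simp)
      have h1 := hi 1 (by simp)
      simp at h0 h1
      have h2 := ih w' (by simp at hw; omega) (by
        intro i hi'
        have := hi (i + 2) (by simp; omega)
        simpa using this)
      rw [List.replicate_succ, List.flatten_cons, ← h2, h0, h1]
      rfl
    | [p], hw, _ => simp at hw; omega
    | [], hw, _ => simp at hw

theorem replicate_form (x : Letter) : ∀ (w : List Letter),
    (∀ i, i < w.length → w.getD i .c = x) → w = List.replicate w.length x := by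
  intro w
  induction w with
  | nil => intro _; rfl
  | cons p w' ih =>
    intro hi
    have h0 := hi 0 (by simp)
    simp at h0
    have h2 := ih (by
        intro i hi'
        have := hi (i + 1) (by simp; omega)
        simpa using this)
    rw [List.length_cons, List.replicate_succ, ← h2, h0]

/-- the four families -/
def Listed (w : List Letter) : Prop :=
  (∃ n, 3 ≤ n ∧ (w = List.replicate n .s ∨ w = List.replicate n .c)) ∨
  (∃ n, 2 ≤ n ∧ (w = (List.replicate n [.c, .s]).flatten ∨ w = (List.replicate n [.s, .c]).flatten))

theorem listed_of_per {w : List Letter} (hn : 3 ≤ w.length)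
    (h : ∀ j, ltr w j = .s → ltr w (j + 2) = .s) : Listed w := by
  have hper := ltr_add w
  have hpern : ∀ m j, ltr w (j + m * w.length) = ltr w j := by
    intro m
    induction m with
    | zero => intro j; simp
    | succ k ih => intro j; rw [Nat.succ_mul, ← add_assoc, hper, ih]
  have hs : ∀ m j, ltr w j = .s → ltr w (j + 2 * m) = .s := by
    intro m
    induction m with
    | zero => intro j hj; exact hj
    | succ k ih => intro j hj; rw [Nat.mul_succ, ← add_assoc]; exact h _ (ih j hj)
  have h2 : ∀ j, ltr w (j + 2) = ltr w j := by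
    intro j
    cases hj : ltr w j
    · cases hj2 : ltr w (j + 2)
      · rfl
      · exfalso
        have h3 := hs (w.length - 1) (j + 2) hj2
        have : j + 2 + 2 * (w.length - 1) = j + 2 * w.length := by omega
        rw [this, hpern, hj] at h3
        exact absurd h3 (by decide)
    · exact h j hj
  have hval : ∀ i, ltr w i = if i % 2 = 0 then ltr w 0 else ltr w 1 := by
    intro i
    induction i using Nat.strong_induction_on with
    | _ i ih =>
      match i with
      | 0 => rfl
      | 1 => rfl
      | k + 2 =>
        rw [h2, ih k (by omega)]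
        have : (k + 2) % 2 = k % 2 := by omega
        rw [this]
  have hget : ∀ i, i < w.length → w.getD i .c = if i % 2 = 0 then ltr w 0 else ltr w 1 := by
    intro i hi
    rw [← hval i]
    unfold ltr
    rw [Nat.mod_eq_of_lt hi]
  by_cases heq : ltr w 0 = ltr w 1
  · left
    refine ⟨w.length, hn, ?_⟩
    have h3 : ∀ i, i < w.length → w.getD i .c = ltr w 0 := by
      intro i hi
      rw [hget i hi, ← heq]; simp
    have h4 := replicate_form _ w h3
    cases h5 : ltr w 0
    · right; rw [← h5]; exact h4
    · left; rw [← h5]; exact h4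
  · right
    have heven : w.length % 2 = 0 := by
      by_contra hodd
      have h5 := hval w.length
      rw [if_neg hodd] at h5
      have h6 : ltr w w.length = ltr w 0 := by simpa using hper 0
      exact heq (h6.symm.trans h5)
    obtain ⟨m, hm⟩ : ∃ m, w.length = 2 * m := ⟨w.length / 2, by omega⟩
    refine ⟨m, by omega, ?_⟩
    have h4 := flatten_form _ _ m w hm hget
    cases h5 : ltr w 0 <;> cases h6 : ltr w 1
    · rw [h5, h6] at heq; exact absurd rfl heq
    · left; rw [← h5, ← h6]; exact h4
    · right; rw [← h5, ← h6]; exact h4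
    · rw [h5, h6] at heq; exact absurd rfl heq

theorem classification (w : List Letter) (hne : w ≠ []) (hw : IsClosureSeq w) : Listed w := by
  obtain ⟨a, u, hu, hc⟩ := hw.2
  have hn := length_ge_three hne a u hu hc
  exact listed_of_per hn (fun j hj => per_two hn hw j hj)

end Pool.Agent.R762.Mx
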