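import Mathlib
import Pool.Agent.R762.Mx7

/-!
Completeness, part 1: the elements of the standard annulus.
-/

namespace Pool.Agent.R762.Mx

open Real

theorem std_O (R d : ℝ) (h : Adm R d) : (std R d h).O = ⟨-d, 0⟩ := rfl

theorem arg_re (z : ℂ) : z.re = ‖z‖ * cos (Complex.arg z) := (Complex.norm_mul_cos_arg z).symm
theorem arg_im (z : ℂ) : z.im = ‖z‖ * sin (Complex.arg z) := (Complex.norm_mul_sin_arg z).symm

theorem inscribed_std {R d : ℝ} (h : Adm R d) (u : Set ℂ) (hu : IsInscribed (std R d h) u) :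
    ∃ x, u = elt R d .c x := by
  obtain ⟨P, ρ, hρ, rfl, hsub, ⟨t, ht⟩, ⟨t', ht'⟩⟩ := hu
  have hR : 0 < R := by linarith [h.h0, h.h1]
  -- ‖P‖ = 1 + ρ
  have h1 : ‖P‖ = 1 + ρ := by
    apply le_antisymm
    · have hmem : t ∈ Metric.sphere P ρ ∩ (std R d h).inner := by
        rw [ht]; exact Set.mem_singleton t
      have h2 : dist t P = ρ := hmem.1
      have h3 : dist t 0 = 1 := hmem.2
      have h4 := dist_triangle P t 0
      rw [dist_comm P t, dist_zero_right] at h4
      linarith
    · by_contra hlt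
      push Not at hlt
      by_cases hle : ‖P‖ ≤ ρ
      · have h2 : (0 : ℂ) ∈ Metric.closedBall P ρ := by
          rw [Metric.mem_closedBall, dist_comm, dist_zero_right]; exact hle
        apply (hsub h2).2
        show dist (0 : ℂ) 0 < 1
        simp
      · push Not at hle
        have hP : 0 < ‖P‖ := by linarith
        have h2 : ((1 - ρ / ‖P‖ : ℝ) : ℂ) * P ∈ Metric.closedBall P ρ := by
          rw [Metric.mem_closedBall, dist_eq_norm]
          have : ((1 - ρ / ‖P‖ : ℝ) : ℂ) * P - P = ((-(ρ / ‖P‖) : ℝ) : ℂ) * P := by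
            push_cast; ring
          rw [this, norm_mul, Complex.norm_real, Real.norm_eq_abs, abs_neg, abs_of_pos (by positivity)]
          rw [div_mul_cancel₀ _ hP.ne']
        apply (hsub h2).2
        show dist (((1 - ρ / ‖P‖ : ℝ) : ℂ) * P) 0 < 1
        rw [dist_zero_right, norm_mul, Complex.norm_real, Real.norm_eq_abs, abs_of_pos]
        · have : (1 - ρ / ‖P‖) * ‖P‖ = ‖P‖ - ρ := by field_simp
          rw [this]; linarith
        · have : ρ / ‖P‖ < 1 := (div_lt_one hP).2 hle
          linarith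
  -- dist P O = R - ρ
  have h2 : dist P (⟨-d, 0⟩ : ℂ) = R - ρ := by
    apply le_antisymm
    · set O : ℂ := ⟨-d, 0⟩ with hO
      by_cases hPO : P = O
      · have h3 : P + (ρ : ℂ) ∈ Metric.closedBall P ρ := by
          rw [Metric.mem_closedBall, dist_eq_norm]
          simp [abs_of_pos hρ]
        have h4 : dist (P + (ρ : ℂ)) O ≤ R := (hsub h3).1
        rw [← hPO, dist_eq_norm] at h4
        simp [abs_of_pos hρ] at h4
        rw [← hPO, dist_self]; linarith
      · have hpos : 0 < ‖P - O‖ := norm_pos_iff.2 (sub_ne_zero.2 hPO)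
        have h3 : P + ((ρ / ‖P - O‖ : ℝ) : ℂ) * (P - O) ∈ Metric.closedBall P ρ := by
          rw [Metric.mem_closedBall, dist_eq_norm, add_sub_cancel_left, norm_mul, Complex.norm_real,
            Real.norm_eq_abs, abs_of_pos (by positivity), div_mul_cancel₀ _ hpos.ne']
        have h4 : dist (P + ((ρ / ‖P - O‖ : ℝ) : ℂ) * (P - O)) O ≤ R := (hsub h3).1
        have h5 : P + ((ρ / ‖P - O‖ : ℝ) : ℂ) * (P - O) - O = ((1 + ρ / ‖P - O‖ : ℝ) : ℂ) * (P - O) := by
          push_cast; ring
        rw [dist_eq_norm, h5, norm_mul, Complex.norm_real, Real.norm_eq_abs, abs_of_pos (by positivity)] at h4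
        have h6 : (1 + ρ / ‖P - O‖) * ‖P - O‖ = ‖P - O‖ + ρ := by field_simp
        rw [h6] at h4
        rw [dist_eq_norm]; linarith
    · have hmem : t' ∈ Metric.sphere P ρ ∩ (std R d h).outer := by
        rw [ht']; exact Set.mem_singleton t'
      have h3 : dist t' P = ρ := hmem.1
      have h4 : dist t' (⟨-d, 0⟩ : ℂ) = R := hmem.2
      have h5 := dist_triangle t' P (⟨-d, 0⟩ : ℂ)
      linarith
  refine ⟨Complex.arg P, ?_⟩
  set x := Complex.arg P with hx
  have hre : P.re = (1 + ρ) * cos x := by rw [arg_re, h1]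
  have him : P.im = (1 + ρ) * sin x := by rw [arg_im, h1]
  have h3 : (P.re - (-d)) ^ 2 + (P.im - 0) ^ 2 = (R - ρ) ^ 2 := by
    rw [Complex.dist_eq_re_im] at h2
    have h4 : 0 ≤ R - ρ := by rw [← h2]; positivity
    exact (sqrt_eq_iff_eq_sq (by positivity) h4).1 h2
  have hρ2 : ρ = rho R d x := by
    have hW := WW_ge h.adm' x
    have h4 : (1 + ρ) * (2 * WW R d x) = KK R d := by
      rw [hre, him] at h3
      unfold WW KK
      linear_combination h3 - (1 + ρ) ^ 2 * sin_sq_add_cos_sq x
    have h5 := one_add_rho h x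
    have h6 : (ρ - rho R d x) * (2 * WW R d x) = 0 := by linear_combination h4 - h5
    rcases mul_eq_zero.1 h6 with h7 | h7
    · linarith
    · linarith
  show Metric.sphere P ρ = Metric.sphere (PP R d x) (rho R d x)
  have : P = PP R d x := by
    apply Complex.ext
    · rw [hre]; simp only [PP]; rw [← hρ2]
    · rw [him]; simp only [PP]; rw [← hρ2]
  rw [this, ← hρ2]

theorem outer_norm_gt {R d : ℝ} (h : Adm R d) {p : ℂ} (hp : p ∈ (std R d h).outer) :
    1 < p.re ^ 2 + p.im ^ 2 := by
  have hR : 0 < R := by linarith [h.h0, h.h1]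
  have h1 : (p.re - (-d)) ^ 2 + (p.im - 0) ^ 2 = R ^ 2 := (mem_sphere_iff' hR.le).1 hp
  by_contra hlt
  push Not at hlt
  have h2 : p.re ≤ 1 := by nlinarith [sq_nonneg p.im]
  have : (1 + d) ^ 2 < R ^ 2 := by nlinarith [h.h0, h.h1]
  nlinarith [h.h0]

theorem Lp_outer_cases {R d : ℝ} (h : Adm R d) (x t : ℝ) (ht : Lp x t ∈ (std R d h).outer) :
    t = -(tau R d .s .s (-x)) ∨ t = tau R d .s .s x := by
  have hR : 0 < R := by linarith [h.h0, h.h1]
  have h0 : ((Lp x t).re - (-d)) ^ 2 + ((Lp x t).im - 0) ^ 2 = R ^ 2 := (mem_sphere_iff' hR.le).1 ht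
  have h1 := QQ_sq' h.adm' x
  have h2 := sin_sq_add_cos_sq x
  have h3 : (t - d * sin x) ^ 2 = QQ R d x ^ 2 := by
    rw [h1]
    simp only [Lp, nn] at *
    linear_combination h0 - (1 + t ^ 2) * h2
  have e1 : -(tau R d .s .s (-x)) = d * sin x - QQ R d x := by
    simp [tau, QQ]; ring
  have e2 : tau R d .s .s x = d * sin x + QQ R d x := rfl
  rw [e1, e2]
  rcases sq_eq_sq_iff_eq_or_eq_neg.1 h3 with h4 | h4
  · right; linarith
  · left; linarith

theorem chord_std {R d : ℝ} (h : Adm R d) (u : Set ℂ) (hu : IsTangentChord (std R d h) u) :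
    ∃ x, u = elt R d .s x := by
  obtain ⟨p, q, hp, hq, hpq, rfl, ⟨t, ht⟩⟩ := hu
  have hmem : t ∈ segment ℝ p q ∩ (std R d h).inner := by
    rw [ht]; exact Set.mem_singleton t
  have ht1 : (t.re - 0) ^ 2 + (t.im - 0) ^ 2 = 1 ^ 2 :=
    (mem_sphere_iff' (P := 0) (ρ := 1) zero_le_one).1 hmem.2
  obtain ⟨m, hm, hmt⟩ := (segment_eq_image ℝ p q ▸ hmem.1 : t ∈ _ '' _)
  have hre : t.re = p.re + m * (q.re - p.re) := by
    rw [← hmt]; simp; ring
  have him : t.im = p.im + m * (q.im - p.im) := by
    rw [← hmt]; simp; ring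
  have hp1 := outer_norm_gt h hp
  have hq1 := outer_norm_gt h hq
  set vx := q.re - p.re with hvx
  set vy := q.im - p.im with hvy
  have hV : 0 < vx ^ 2 + vy ^ 2 := by
    by_contra hcon
    apply hpq
    apply Complex.ext <;> nlinarith [sq_nonneg vx, sq_nonneg vy]
  set V := vx ^ 2 + vy ^ 2 with hVdef
  set a := t.re * vx + t.im * vy with ha
  have hf0 : 0 < m * (m * V - 2 * a) := by
    have e1 : p.re = t.re - m * vx := by linarith
    have e2 : p.im = t.im - m * vy := by linarith
    rw [e1, e2] at hp1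
    rw [hVdef, ha]
    nlinarith
  have hf1 : 0 < (1 - m) * (2 * a + (1 - m) * V) := by
    have e1 : q.re = t.re + (1 - m) * vx := by linarith
    have e2 : q.im = t.im + (1 - m) * vy := by linarith
    rw [e1, e2] at hq1
    rw [hVdef, ha]
    nlinarith
  have hm0 : 0 < m := by
    rcases hm.1.eq_or_lt with e | e
    · rw [← e] at hf0; simp at hf0
    · exact e
  have hm1 : 0 < 1 - m := by
    rcases hm.2.eq_or_lt with e | e
    · rw [e] at hf1; simp at hf1
    · linarith
  have hg0 : 0 < m * V - 2 * a := (pos_iff_pos_of_mul_pos hf0).1 hm0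
  have hg1 : 0 < 2 * a + (1 - m) * V := (pos_iff_pos_of_mul_pos hf1).1 hm1
  -- second intersection point
  have ha0 : a = 0 := by
    set m' := m - 2 * a / V with hm'
    have e0 : 2 * a / V * V = 2 * a := by field_simp
    have hm'0 : 0 ≤ m' := by
      have : m' * V = m * V - 2 * a := by rw [hm']; linear_combination (-1) * e0
      have h3 : 0 < m' * V := by rw [this]; exact hg0
      exact ((pos_iff_pos_of_mul_pos h3).2 hV).le
    have hm'1 : m' ≤ 1 := by
      have : (1 - m') * V = 2 * a + (1 - m) * V := by rw [hm']; linear_combination e0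
      have h3 : 0 < (1 - m') * V := by rw [this]; exact hg1
      have := (pos_iff_pos_of_mul_pos h3).2 hV
      linarith
    have hz : (⟨p.re + m' * vx, p.im + m' * vy⟩ : ℂ) ∈ segment ℝ p q ∩ (std R d h).inner := by
      constructor
      · rw [segment_eq_image]
        refine ⟨m', ⟨hm'0, hm'1⟩, ?_⟩
        apply Complex.ext <;> simp [hvx, hvy] <;> ring
      · apply (mem_sphere_iff' (P := 0) (ρ := 1) zero_le_one).2
        show (p.re + m' * vx - 0) ^ 2 + (p.im + m' * vy - 0) ^ 2 = 1 ^ 2
        have e1 : p.re = t.re - m * vx := by linarith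
        have e2 : p.im = t.im - m * vy := by linarith
        rw [e1, e2, hm']
        have e3 : (t.re - m * vx + (m - 2 * a / V) * vx - 0) ^ 2 + (t.im - m * vy + (m - 2 * a / V) * vy - 0) ^ 2
          = (t.re - 0) ^ 2 + (t.im - 0) ^ 2 - 2 * (2 * a / V) * (t.re * vx + t.im * vy) + (2 * a / V) * ((2 * a / V) * (vx ^ 2 + vy ^ 2)) := by ring
        rw [e3, ← hVdef, e0, ht1, ← ha]; ring
    rw [ht] at hz
    have hz := Set.mem_singleton_iff.1 hz
    have e1 := congrArg Complex.re hz
    have e2 := congrArg Complex.im hz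
    simp only at e1 e2
    have e3 : (2 * a / V) * vx = 0 := by rw [hre, hm'] at e1; linear_combination (-1) * e1
    have e4 : (2 * a / V) * vy = 0 := by rw [him, hm'] at e2; linear_combination (-1) * e2
    have e5 : (2 * a / V) * V = 0 := by rw [hVdef]; linear_combination vx * e3 + vy * e4
    linarith
  -- angle
  refine ⟨Complex.arg t, ?_⟩
  have hnt : ‖t‖ = 1 := by
    have := hmem.2
    have h3 : dist t 0 = 1 := this
    rwa [dist_zero_right] at h3
  set x := Complex.arg t with hx
  have hct : t.re = cos x := by rw [arg_re, hnt, one_mul]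
  have hst : t.im = sin x := by rw [arg_im, hnt, one_mul]
  set l := vy * cos x - vx * sin x with hl
  have hsc := sin_sq_add_cos_sq x
  have hvx2 : vx = -(l * sin x) := by
    rw [ha, hct, hst] at ha0
    rw [hl]; linear_combination cos x * ha0 - vx * hsc
  have hvy2 : vy = l * cos x := by
    rw [ha, hct, hst] at ha0
    rw [hl]; linear_combination sin x * ha0 - vy * hsc
  have hpL : p = Lp x (-(m * l)) := by
    apply Complex.ext
    · simp only [Lp]
      rw [← hct]
      linear_combination (-1) * hre - m * hvx2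
    · simp only [Lp]
      rw [← hst]
      linear_combination (-1) * him - m * hvy2
  have hqL : q = Lp x ((1 - m) * l) := by
    apply Complex.ext
    · simp only [Lp]
      rw [← hct]
      have : q.re = p.re + vx := by rw [hvx]; ring
      rw [this]
      linear_combination (-1) * hre + (1 - m) * hvx2
    · simp only [Lp]
      rw [← hst]
      have : q.im = p.im + vy := by rw [hvy]; ring
      rw [this]
      linear_combination (-1) * him + (1 - m) * hvy2
  rw [hpL] at hp
  rw [hqL] at hq
  have hp2 := Lp_outer_cases h x _ hp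
  have hq2 := Lp_outer_cases h x _ hq
  rw [hpL, hqL]
  rcases hp2 with e1 | e1 <;> rcases hq2 with e2 | e2
  · exfalso; apply hpq; rw [hpL, hqL, e1, e2]
  · rw [e1, e2]; rfl
  · rw [e1, e2, segment_symm]; rfl
  · exfalso; apply hpq; rw [hpL, hqL, e1, e2]

theorem elt_std {R d : ℝ} (h : Adm R d) (A : Letter) (u : Set ℂ) (hu : IsElt (std R d h) A u) :
    ∃ x, u = elt R d A x := by
  cases A
  · exact inscribed_std h u hu
  · exact chord_std h u hu

end Pool.Agent.R762.Mx
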