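import Mathlib
import Pool.Agent.R762.Mx9

/-!
Completeness, part 2: contacts of the elements of the standard annulus.
-/

namespace Pool.Agent.R762.Mx

open Real

theorem tau_int (R d : ℝ) (A B : Letter) (x : ℝ) (k : ℤ) :
    tau R d A B (x + 2 * π * k) = tau R d A B x := by
  have h : Function.Periodic (tau R d A B) (2 * π) := tau_periodic R d A B
  have h1 := h.int_mul k x
  rw [← h1]; congr 1; ring

theorem TT_int (R d : ℝ) (A B : Letter) (x : ℝ) (k : ℤ) :
    TT R d A B (x + 2 * π * k) = TT R d A B x + 2 * π * k := by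
  unfold TT; rw [tau_int]; ring

theorem elt_int (R d : ℝ) (A : Letter) (x : ℝ) (k : ℤ) :
    elt R d A (x + 2 * π * k) = elt R d A x := by
  have h : Function.Periodic (elt R d A) (2 * π) := elt_periodic R d A
  have h1 := h.int_mul k x
  rw [← h1]; congr 1; ring

theorem E_int (x : ℝ) (k : ℤ) : E (x + 2 * π * k) = E x := by
  have h1 : cos (x + 2 * π * k) = cos x := by
    rw [show x + 2 * π * k = x + k * (2 * π) by ring]; exact cos_add_int_mul_two_pi x k
  have h2 : sin (x + 2 * π * k) = sin x := by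
    rw [show x + 2 * π * k = x + k * (2 * π) by ring]; exact sin_add_int_mul_two_pi x k
  unfold E; rw [h1, h2]

/-- `y` is the forward or the backward neighbour of `x`, or the contact is degenerate -/
def Nb (R d : ℝ) (A B : Letter) (x y : ℝ) (p : ℂ) : Prop :=
  (∃ k : ℤ, y = TT R d A B x + 2 * π * k) ∨ (∃ k : ℤ, -y = TT R d A B (-x) + 2 * π * k) ∨
    (p = E x ∧ p = E y)

theorem core_sc {R d : ℝ} (h : Adm R d) (x y : ℝ) (p : ℂ)
    (hm : MeetAt (elt R d .s x) (elt R d .c y) p) : Nb R d .s .c x y p := by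
  have hR : 0 ≤ R := by linarith [h.h0, h.h1]
  have hx := sin_sq_add_cos_sq x
  have hy := sin_sq_add_cos_sq y
  have hρ := rho_pos h y
  have hmem : p ∈ elt R d .s x ∩ elt R d .c y := by rw [hm]; exact Set.mem_singleton p
  obtain ⟨t0, _, _, hp⟩ := (mem_elt_s h x p).1 hmem.1
  have hc := (mem_elt_c h y p).1 hmem.2
  set ρ := rho R d y with hρd
  set CC := cos y * cos x + sin y * sin x with hCC
  set SN := sin y * cos x - cos y * sin x with hSN
  have hCS : CC ^ 2 + SN ^ 2 = 1 := by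
    rw [hCC, hSN]; linear_combination (sin y ^ 2 + cos y ^ 2) * hx + hy
  have key : ∀ t : ℝ, ((Lp x t).re - (1 + ρ) * cos y) ^ 2 + ((Lp x t).im - (1 + ρ) * sin y) ^ 2 =
      (1 - (1 + ρ) * CC) ^ 2 + (t - (1 + ρ) * SN) ^ 2 := by
    intro t
    simp only [Lp]
    rw [hCC, hSN] at *
    linear_combination (1 + t ^ 2) * hx + (1 + ρ) ^ 2 * hy - (1 + ρ) ^ 2 * hCS
  rw [hp, key] at hc
  have hz : Lp x (2 * (1 + ρ) * SN - t0) ∈ elt R d .s x ∩ elt R d .c y := by
    have h1 : Lp x (2 * (1 + ρ) * SN - t0) ∈ elt R d .c y := by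
      rw [mem_elt_c h, key]; linear_combination hc
    refine ⟨?_, h1⟩
    obtain ⟨P, r, hr, he, hsub, _⟩ := isElt h .c y
    rw [he] at h1
    have h2 := (hsub (Metric.sphere_subset_closedBall h1)).1
    have h3 := (mem_closedBall_iff' (P := (⟨-d, 0⟩ : ℂ)) hR).1 h2
    obtain ⟨h4, h5⟩ := (Lp_mem_disc h x _).1 h3
    exact (mem_elt_s h x _).2 ⟨_, h4, h5, rfl⟩
  rw [hm] at hz
  have hz := Set.mem_singleton_iff.1 hz
  rw [hp] at hz
  have ht := Lp_inj hz
  have ht0 : t0 = (1 + ρ) * SN := by linarith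
  have hsq : (1 - (1 + ρ) * CC) ^ 2 = ρ ^ 2 := by
    rw [ht0] at hc; linear_combination hc
  rcases sq_eq_sq_iff_eq_or_eq_neg.1 hsq with h1 | h1
  · -- CC = (1-ρ)/(1+ρ)
    have hτ := tau_cs_sq h y
    have hτ0 := tau_pos h .c .s y
    rw [← hρd] at hτ
    set τ := tau R d .c .s y with hτd
    have hne : 1 + τ ^ 2 ≠ 0 := by positivity
    have hC2 : CC = cos (2 * arctan τ) := by
      rw [cos_two_arctan, eq_div_iff hne, hτ]; linarith
    have hS2 : SN ^ 2 = sin (2 * arctan τ) ^ 2 := by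
      have := sin_sq_add_cos_sq (2 * arctan τ)
      rw [← hC2] at this; linarith
    have hcosyx : cos (y - x) = cos (2 * arctan τ) := by rw [cos_sub, ← hC2]
    rcases sq_eq_sq_iff_eq_or_eq_neg.1 hS2 with h2 | h2
    · left
      have hsinyx : sin (y - x) = sin (2 * arctan τ) := by rw [sin_sub, ← h2]
      obtain ⟨k, hk⟩ := @E_eq (y - x) (2 * arctan τ) (by unfold E; rw [hcosyx, hsinyx])
      refine ⟨k, ?_⟩
      have h3 := TT_flip h .s .c (-y)
      have h4 : TT R d .c .s (-y) = -(x + 2 * π * k) := by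
        unfold TT; rw [tau_cs_neg, ← hτd]; linarith
      rw [h4, neg_neg, neg_neg, TT_int] at h3
      exact h3.symm
    · right; left
      have hsinyx : sin (y - x) = -sin (2 * arctan τ) := by rw [sin_sub, ← h2]
      obtain ⟨k, hk⟩ := @E_eq (y - x) (-(2 * arctan τ)) (by
        unfold E; rw [hcosyx, hsinyx, cos_neg, sin_neg])
      refine ⟨-k, ?_⟩
      have h3 := TT_flip h .s .c y
      have h4 : TT R d .c .s y = x + 2 * π * k := by
        unfold TT; rw [← hτd]; linarith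
      rw [h4, show -(x + 2 * π * (k : ℝ)) = -x + 2 * π * ((-k : ℤ) : ℝ) by push_cast; ring, TT_int] at h3
      exact h3.symm
  · right; right
    have h2 : (1 + ρ) * (CC - 1) = 0 := by linarith
    have h3 : CC = 1 := by
      rcases mul_eq_zero.1 h2 with h4 | h4
      · linarith
      · linarith
    have h4 : SN = 0 := by
      have : SN ^ 2 = 0 := by rw [h3] at hCS; linarith
      exact pow_eq_zero_iff (two_ne_zero) |>.1 this
    have h5 : p = E x := by
      rw [hp, ht0, h4]; apply Complex.ext <;> simp [Lp, E]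
    refine ⟨h5, ?_⟩
    rw [h5]
    have e1 : cos y = cos x := by
      rw [h3] at hCC; rw [h4] at hSN
      linear_combination cos x * hCC.symm - sin x * hSN.symm - cos y * hx
    have e2 : sin y = sin x := by
      rw [h3] at hCC; rw [h4] at hSN
      linear_combination sin x * hCC.symm + cos x * hSN.symm - sin y * hx
    unfold E; rw [e1, e2]

theorem core_cs {R d : ℝ} (h : Adm R d) (x y : ℝ) (p : ℂ)
    (hm : MeetAt (elt R d .c x) (elt R d .s y) p) : Nb R d .c .s x y p := by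
  have hm' : MeetAt (elt R d .s y) (elt R d .c x) p := by
    unfold MeetAt at *; rw [Set.inter_comm]; exact hm
  rcases core_sc h y x p hm' with ⟨k, hk⟩ | ⟨k, hk⟩ | ⟨h1, h2⟩
  · right; left
    refine ⟨k, ?_⟩
    have h3 := TT_flip h .c .s y
    have h4 : TT R d .s .c y = -(-x + 2 * π * k) := by rw [hk]; ring
    rw [h4, neg_neg, TT_int] at h3
    linarith
  · left
    refine ⟨k, ?_⟩
    have h3 := TT_flip h .c .s (-y)
    have h4 : TT R d .s .c (-y) = -(x + 2 * π * k) := by rw [show x = -(TT R d .s .c (-y) + 2 * π * k) by linarith]; ring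
    rw [h4, neg_neg, TT_int, neg_neg] at h3
    linarith
  · right; right; exact ⟨h2, h1⟩

theorem core_ss {R d : ℝ} (h : Adm R d) (x y : ℝ) (p : ℂ)
    (hm : MeetAt (elt R d .s x) (elt R d .s y) p) (ho : p ∈ (std R d h).outer) :
    Nb R d .s .s x y p := by
  have hx := sin_sq_add_cos_sq x
  have hy := sin_sq_add_cos_sq y
  have hmem : p ∈ elt R d .s x ∩ elt R d .s y := by rw [hm]; exact Set.mem_singleton p
  obtain ⟨t, _, _, hp⟩ := (mem_elt_s h x p).1 hmem.1
  obtain ⟨t', _, _, hp'⟩ := (mem_elt_s h y p).1 hmem.2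
  have e1 := congrArg Complex.re (hp.symm.trans hp')
  have e2 := congrArg Complex.im (hp.symm.trans hp')
  simp only [Lp] at e1 e2
  have hne1 : 0 < 1 + t ^ 2 := by positivity
  have hsq : t' ^ 2 = t ^ 2 := by
    have h3 : (cos x - t * sin x) ^ 2 + (sin x + t * cos x) ^ 2 =
      (cos y - t' * sin y) ^ 2 + (sin y + t' * cos y) ^ 2 := by rw [e1, e2]
    linear_combination (-1) * h3 + (1 + t ^ 2) * hx - (1 + t' ^ 2) * hy
  rcases sq_eq_sq_iff_eq_or_eq_neg.1 hsq with h1 | h1
  · exfalso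
    rw [h1] at e1 e2
    have e3 : (1 + t ^ 2) * (cos x - cos y) = 0 := by linear_combination e1 + t * e2
    have e4 : (1 + t ^ 2) * (sin x - sin y) = 0 := by linear_combination e2 - t * e1
    have e5 : cos x = cos y := by
      rcases mul_eq_zero.1 e3 with h3 | h3 <;> linarith
    have e6 : sin x = sin y := by
      rcases mul_eq_zero.1 e4 with h3 | h3 <;> linarith
    obtain ⟨k, hk⟩ := @E_eq x y (by unfold E; rw [e5, e6])
    rw [hk, elt_int] at hm
    unfold MeetAt at hm
    rw [Set.inter_self] at hm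
    exact elt_nontrivial _ _ _ (isElt h .s y) p hm
  · rw [h1] at e1 e2
    have hEy : ∃ k : ℤ, y = x + 2 * arctan t + 2 * π * k := by
      apply E_eq
      unfold E
      have c1 : (1 + t ^ 2) * cos y = cos x * (1 - t ^ 2) - 2 * t * sin x := by
        linear_combination (-1) * e1 + t * e2
      have c2 : (1 + t ^ 2) * sin y = sin x * (1 - t ^ 2) + 2 * t * cos x := by
        linear_combination (-1) * e2 - t * e1
      rw [cos_step, sin_step, ← c1, ← c2]
      congr 1 <;> field_simp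
    obtain ⟨k, hk⟩ := hEy
    rw [hp] at ho
    rcases Lp_outer_cases h x t ho with h2 | h2
    · right; left
      refine ⟨-k, ?_⟩
      unfold TT
      rw [hk, h2, arctan_neg]; push_cast; ring
    · left
      refine ⟨k, ?_⟩
      unfold TT
      rw [hk, h2]

theorem half_angle {D : ℝ} (hD : 1 + cos D ≠ 0) :
    ∃ k : ℤ, D = 2 * arctan (sin D / (1 + cos D)) + 2 * π * k := by
  apply E_eq
  unfold E
  have hsc := sin_sq_add_cos_sq D
  have e : 1 + (sin D / (1 + cos D)) ^ 2 = 2 / (1 + cos D) := by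
    field_simp; linear_combination hsc
  rw [cos_two_arctan, sin_two_arctan, e]
  congr 1
  · field_simp
    linear_combination hsc
  · field_simp

theorem circ_geom (x1 y1 x2 y2 px py a b : ℝ) (hV : 0 < (x2 - x1) ^ 2 + (y2 - y1) ^ 2)
    (hp1 : (px - x1) ^ 2 + (py - y1) ^ 2 = a ^ 2) (hp2 : (px - x2) ^ 2 + (py - y2) ^ 2 = b ^ 2)
    (huniq : ∀ zx zy : ℝ, (zx - x1) ^ 2 + (zy - y1) ^ 2 = a ^ 2 →
      (zx - x2) ^ 2 + (zy - y2) ^ 2 = b ^ 2 → zx = px ∧ zy = py) :
    (x2 - x1) ^ 2 + (y2 - y1) ^ 2 = (a + b) ^ 2 ∨ (x2 - x1) ^ 2 + (y2 - y1) ^ 2 = (a - b) ^ 2 := by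
  obtain ⟨vx, rfl⟩ : ∃ vx, x2 = x1 + vx := ⟨x2 - x1, by ring⟩
  obtain ⟨vy, rfl⟩ : ∃ vy, y2 = y1 + vy := ⟨y2 - y1, by ring⟩
  obtain ⟨qx, rfl⟩ : ∃ qx, px = x1 + qx := ⟨px - x1, by ring⟩
  obtain ⟨qy, rfl⟩ : ∃ qy, py = y1 + qy := ⟨py - y1, by ring⟩
  have hV' : 0 < vx ^ 2 + vy ^ 2 := by
    have e : (x1 + vx - x1) ^ 2 + (y1 + vy - y1) ^ 2 = vx ^ 2 + vy ^ 2 := by ring
    rwa [e] at hV
  have q1 : qx ^ 2 + qy ^ 2 = a ^ 2 := by rw [← hp1]; ring
  have q2 : (qx - vx) ^ 2 + (qy - vy) ^ 2 = b ^ 2 := by rw [← hp2]; ring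
  obtain ⟨m, hm⟩ : ∃ m, m * (vx ^ 2 + vy ^ 2) = 2 * (qx * vy - qy * vx) :=
    ⟨2 * (qx * vy - qy * vx) / (vx ^ 2 + vy ^ 2), by field_simp⟩
  obtain ⟨z1, z2⟩ := huniq (x1 + qx - m * vy) (y1 + qy + m * vx)
    (by linear_combination q1 + m * hm) (by linear_combination q2 + m * hm)
  have e1 : m * vy = 0 := by linarith
  have e2 : m * vx = 0 := by linarith
  have hcr : qx * vy - qy * vx = 0 := by
    have : m * (vx ^ 2 + vy ^ 2) = 0 := by linear_combination vx * e2 + vy * e1
    linarith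
  have q3 : 2 * (qx * vx + qy * vy) = a ^ 2 + (vx ^ 2 + vy ^ 2) - b ^ 2 := by
    linear_combination q1 - q2
  have q4 : (qx * vx + qy * vy) ^ 2 = a ^ 2 * (vx ^ 2 + vy ^ 2) := by
    linear_combination (vx ^ 2 + vy ^ 2) * q1 - (qx * vy - qy * vx) * hcr
  have hkey : ((vx ^ 2 + vy ^ 2) - (a + b) ^ 2) * ((vx ^ 2 + vy ^ 2) - (a - b) ^ 2) = 0 := by
    linear_combination 4 * q4 - (a ^ 2 + (vx ^ 2 + vy ^ 2) - b ^ 2 + 2 * (qx * vx + qy * vy)) * q3
  rcases mul_eq_zero.1 hkey with h1 | h1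
  · left; linear_combination h1
  · right; linear_combination h1

theorem cc_fac (R d K G n n' t sx cx : ℝ) (hx : sx ^ 2 + cx ^ 2 = 1)
    (hK : K ^ 2 = (R ^ 2 - 1 - d ^ 2) ^ 2 + 4 * R * K - 4 * d ^ 2) (hG : G ^ 2 = R * K)
    (hn : R ^ 2 - 1 - d ^ 2 = n + 2 * d * cx) (hid : K ^ 2 * t ^ 2 = n * n' * (1 + t ^ 2))
    (hn' : n' * (1 + t ^ 2) = (R ^ 2 - 1 - d ^ 2) * (1 + t ^ 2) -
      2 * d * (cx * (1 - t ^ 2) - 2 * t * sx)) :
    (2 * t * (G - d * sx) - n) * (2 * t * (G + d * sx) + n) = 0 := by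
  have e1 : K ^ 2 * t ^ 2 = n * ((R ^ 2 - 1 - d ^ 2) * (1 + t ^ 2) -
      2 * d * (cx * (1 - t ^ 2) - 2 * t * sx)) := by rw [← hn', hid]; ring
  rw [hK, hn] at e1
  linear_combination e1 + 4 * t ^ 2 * hG - 4 * d ^ 2 * t ^ 2 * hx

theorem core_cc {R d : ℝ} (h : Adm R d) (x y : ℝ) (p : ℂ)
    (hm : MeetAt (elt R d .c x) (elt R d .c y) p) : Nb R d .c .c x y p := by
  have hx := sin_sq_add_cos_sq x
  have hy := sin_sq_add_cos_sq y
  have ha := rho_pos h x
  have hb := rho_pos h y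
  have hmem : p ∈ elt R d .c x ∩ elt R d .c y := by rw [hm]; exact Set.mem_singleton p
  have hp1 := (mem_elt_c h x p).1 hmem.1
  have hp2 := (mem_elt_c h y p).1 hmem.2
  have hnoteq : ∀ k : ℤ, x ≠ y + 2 * π * k := by
    intro k hk
    rw [hk, elt_int] at hm
    unfold MeetAt at hm
    rw [Set.inter_self] at hm
    exact elt_nontrivial _ _ _ (isElt h .c y) p hm
  have hcosne : cos (y - x) ≠ 1 := by
    intro hc
    obtain ⟨k, hk⟩ := (cos_eq_one_iff _).1 hc
    exact hnoteq (-k) (by push_cast; linarith)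
  have huniq : ∀ zx zy : ℝ, (zx - (1 + rho R d x) * cos x) ^ 2 + (zy - (1 + rho R d x) * sin x) ^ 2 = rho R d x ^ 2 →
      (zx - (1 + rho R d y) * cos y) ^ 2 + (zy - (1 + rho R d y) * sin y) ^ 2 = rho R d y ^ 2 → zx = p.re ∧ zy = p.im := by
    intro zx zy h1 h2
    have hz : (⟨zx, zy⟩ : ℂ) ∈ elt R d .c x ∩ elt R d .c y :=
      ⟨(mem_elt_c h x _).2 h1, (mem_elt_c h y _).2 h2⟩
    rw [hm] at hz
    have hz := Set.mem_singleton_iff.1 hz
    exact ⟨congrArg Complex.re hz, congrArg Complex.im hz⟩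
  have hK := one_add_rho h x
  have hK' := one_add_rho h y
  have hW := WW_ge h.adm' x
  have hW' := WW_ge h.adm' y
  have hn : nn R d x = 2 * WW R d x * rho R d x := by unfold rho; field_simp
  have hn' : nn R d y = 2 * WW R d y * rho R d y := by unfold rho; field_simp
  have hCx : cos (y - x) = cos y * cos x + sin y * sin x := cos_sub y x
  have htan : (1 + rho R d x) * (1 + rho R d y) * (1 - cos (y - x)) = 2 * (rho R d x * rho R d y) := by
    generalize rho R d x = a at *
    generalize rho R d y = b at *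
    rw [hCx] at hcosne ⊢
    have hVexp : ((1 + b) * cos y - (1 + a) * cos x) ^ 2 + ((1 + b) * sin y - (1 + a) * sin x) ^ 2 =
        (a - b) ^ 2 + 2 * ((1 + a) * (1 + b) * (1 - (cos y * cos x + sin y * sin x))) := by
      linear_combination (1 + a) ^ 2 * hx + (1 + b) ^ 2 * hy
    have hle : cos y * cos x + sin y * sin x ≤ 1 := by rw [← hCx]; exact cos_le_one _
    have hlt : cos y * cos x + sin y * sin x < 1 := lt_of_le_of_ne hle hcosne
    have hpos : 0 < (1 + a) * (1 + b) * (1 - (cos y * cos x + sin y * sin x)) := by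
      have : 0 < 1 - (cos y * cos x + sin y * sin x) := by linarith
      positivity
    have hV : 0 < ((1 + b) * cos y - (1 + a) * cos x) ^ 2 + ((1 + b) * sin y - (1 + a) * sin x) ^ 2 := by
      rw [hVexp]; linarith [sq_nonneg (a - b)]
    rcases circ_geom _ _ _ _ _ _ _ _ hV hp1 hp2 huniq with h1 | h1
    · rw [hVexp] at h1; linear_combination h1 / 2
    · exfalso; rw [hVexp] at h1; linarith
  have hcosm : 1 + cos (y - x) ≠ 0 := by
    intro hc
    have h8 : cos (y - x) = -1 := by linarith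
    rw [h8] at htan
    have h9 : 2 + 2 * rho R d x + 2 * rho R d y = 0 := by linear_combination htan
    linarith
  obtain ⟨k, hk⟩ := half_angle hcosm
  have hsD := sin_sq_add_cos_sq (y - x)
  have e1 : (sin (y - x) / (1 + cos (y - x))) ^ 2 * (1 + cos (y - x)) = 1 - cos (y - x) := by
    field_simp; linear_combination hsD
  generalize ht : sin (y - x) / (1 + cos (y - x)) = t at *
  have hid : KK R d ^ 2 * t ^ 2 = nn R d x * nn R d y * (1 + t ^ 2) := by
    rw [hn, hn']
    have e3 : KK R d ^ 2 = ((1 + rho R d x) * (2 * WW R d x)) * ((1 + rho R d y) * (2 * WW R d y)) := by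
      rw [hK, hK']; ring
    rw [e3]
    generalize rho R d x = a at *
    generalize rho R d y = b at *
    generalize cos (y - x) = C at *
    apply mul_right_cancel₀ hcosm
    have e2 : (1 + t ^ 2) * (1 + C) = 2 := by linear_combination e1
    linear_combination (4 * WW R d x * WW R d y) * ((1 + a) * (1 + b) * e1 - a * b * e2 + htan)
  have hyx : y = x + 2 * arctan t + 2 * π * k := by linarith
  have hcy : cos y = cos (x + 2 * arctan t) := by
    rw [hyx, show x + 2 * arctan t + 2 * π * k = (x + 2 * arctan t) + k * (2 * π) by ring]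
    exact cos_add_int_mul_two_pi _ k
  have hny : nn R d y * (1 + t ^ 2) = (R ^ 2 - 1 - d ^ 2) * (1 + t ^ 2) -
      2 * d * (cos x * (1 - t ^ 2) - 2 * t * sin x) := by
    unfold nn; rw [hcy, cos_step]; field_simp
  have hG2 : √(R * KK R d) ^ 2 = R * KK R d := by
    apply sq_sqrt
    exact (lt_of_le_of_lt (sq_nonneg d) (RK_gt h.adm')).le
  have hGp := Gd_pos h.adm' x
  have hGm := Gd_pos h.adm' (-x)
  rw [sin_neg] at hGm
  have hfac := cc_fac R d (KK R d) (√(R * KK R d)) (nn R d x) (nn R d y) t (sin x) (cos x) hx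
    (by unfold KK; ring) hG2 (by unfold nn; ring) hid hny
  rcases mul_eq_zero.1 hfac with h1 | h1
  · left
    refine ⟨k, ?_⟩
    have h2 : tau R d .c .c x = t := by
      simp only [tau]
      rw [div_eq_iff (by positivity)]
      linarith
    unfold TT; rw [h2]; exact hyx
  · right; left
    refine ⟨-k, ?_⟩
    have h2 : tau R d .c .c (-x) = -t := by
      simp only [tau, sin_neg]
      rw [div_eq_iff (by positivity)]
      have : nn R d (-x) = nn R d x := by simp [nn]
      rw [this]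
      linarith
    unfold TT; rw [h2, arctan_neg, hyx]; push_cast; ring

theorem core_all {R d : ℝ} (h : Adm R d) (A B : Letter) (x y : ℝ) (p : ℂ)
    (hc : Contact (std R d h) A B (elt R d A x) (elt R d B y) p) : Nb R d A B x y p := by
  cases A <;> cases B
  · exact core_cc h x y p hc.1
  · exact core_cs h x y p hc.1
  · exact core_sc h x y p hc.1
  · exact core_ss h x y p hc.1 (hc.2 rfl rfl)

end Pool.Agent.R762.Mx
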