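import Mathlib
import Pool.Agent.R762.Mx10

/-!
Completeness, part 3: every chain of the standard annulus is an orbit or a mirrored orbit.
-/

namespace Pool.Agent.R762.Mx

open Real

theorem meet_unique {u v : Set ℂ} {p q : ℂ} (h1 : MeetAt u v p) (h2 : MeetAt u v q) : p = q := by
  unfold MeetAt at h1 h2
  rw [h1] at h2
  exact Set.singleton_eq_singleton_iff.1 h2

theorem sOpp_cr {t t' p q : ℂ} (h : (line[ℝ, t, t']).SOppSide p q) (hne : t ≠ t') :
    ((p.im - t.im) * (t'.re - t.re) - (p.re - t.re) * (t'.im - t.im)) *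
    ((q.im - t.im) * (t'.re - t.re) - (q.re - t.re) * (t'.im - t.im)) < 0 := by
  obtain ⟨hw, hp, hq⟩ := h
  rw [mem_line_iff hne] at hp hq
  obtain ⟨z, hz, ⟨m, hm, rfl⟩⟩ := AffineSubspace.wOppSide_iff_exists_wbtw.1 hw
  rw [mem_line_iff hne, lineMap_re, lineMap_im] at hz
  set fp := (p.im - t.im) * (t'.re - t.re) - (p.re - t.re) * (t'.im - t.im)
  set fq := (q.im - t.im) * (t'.re - t.re) - (q.re - t.re) * (t'.im - t.im)
  have e : (1 - m) * fp + m * fq = 0 := by linear_combination hz
  have hm0 : m ≠ 0 := by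
    rintro rfl
    apply hp; linarith
  have hm1 : m ≠ 1 := by
    rintro rfl
    apply hq; linarith
  have h0 : 0 < m := lt_of_le_of_ne hm.1 (Ne.symm hm0)
  have h1 : 0 < 1 - m := by
    have := lt_of_le_of_ne hm.2 hm1
    linarith
  have e2 : m * (fp * fq) = -((1 - m) * fp ^ 2) := by linear_combination fp * e
  have h2 : 0 < (1 - m) * fp ^ 2 := by
    have : 0 < fp ^ 2 := by positivity
    positivity
  have h3 : m * (fp * fq) < 0 := by rw [e2]; linarith
  by_contra hcon
  push Not at hcon
  have : 0 ≤ m * (fp * fq) := by positivity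
  linarith

/-- separation data in the standard annulus -/
theorem sep_c {R d : ℝ} (h : Adm R d) (x : ℝ) (p q : ℂ)
    (hs : Sep (std R d h) .c (elt R d .c x) p q) : side R d x p * side R d x q < 0 := by
  obtain ⟨t, t', ht, ht', hopp⟩ := hs
  have e1 := meet_unique ht (meet_inner h .c x)
  have e2 := meet_unique ht' (meet_outer h x)
  subst e1 e2
  have hρ := rho_pos h x
  have hlt := rho_lt h x
  have hne : R - rho R d x ≠ 0 := by linarith
  have f1 : (TO R d x).re - (E x).re = rho R d x / (R - rho R d x) * ((R + 1) * cos x + d) := by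
    simp only [TO, PP, E]; field_simp; ring
  have f2 : (TO R d x).im - (E x).im = rho R d x / (R - rho R d x) * ((R + 1) * sin x) := by
    simp only [TO, PP, E]; field_simp; ring
  have hm : 0 < rho R d x / (R - rho R d x) := div_pos hρ (by linarith)
  have hneq : E x ≠ TO R d x := by
    intro he
    have g1 : (R + 1) * cos x + d = 0 := by
      rw [← he, sub_self] at f1
      rcases mul_eq_zero.1 f1.symm with h1 | h1
      · linarith
      · exact h1
    have g2 : (R + 1) * sin x = 0 := by
      rw [← he, sub_self] at f2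
      rcases mul_eq_zero.1 f2.symm with h1 | h1
      · linarith
      · exact h1
    have hsc := sin_sq_add_cos_sq x
    have : (R + 1) ^ 2 = d ^ 2 := by
      have g3 : (R + 1) * cos x = -d := by linarith
      linear_combination (-(R + 1) ^ 2) * hsc + ((R + 1) * sin x) * g2 + ((R + 1) * cos x - d) * g3
    nlinarith [h.h0, h.h1]
  have h3 := sOpp_cr hopp hneq
  rw [f1, f2] at h3
  set r := rho R d x / (R - rho R d x)
  have e3 : ((p.im - (E x).im) * (r * ((R + 1) * cos x + d)) - (p.re - (E x).re) * (r * ((R + 1) * sin x))) *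
    ((q.im - (E x).im) * (r * ((R + 1) * cos x + d)) - (q.re - (E x).re) * (r * ((R + 1) * sin x))) =
    r ^ 2 * (side R d x p * side R d x q) := by
    simp only [side, E]; ring
  rw [e3] at h3
  have : 0 < r ^ 2 := by positivity
  by_contra hcon
  push Not at hcon
  have : 0 ≤ r ^ 2 * (side R d x p * side R d x q) := by positivity
  linarith

theorem side_cj (R d x : ℝ) (p : ℂ) : side R d (-x) (cj p) = -side R d x p := by
  simp only [side, cj, cos_neg, sin_neg]; ring

theorem side_E (R d x : ℝ) : side R d x (E x) = 0 := by simp [side, E]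

theorem sep_s {R d : ℝ} (h : Adm R d) (x : ℝ) (p q : ℂ)
    (hs : Sep (std R d h) .s (elt R d .s x) p q) : Sbtw ℝ p (E x) q := by
  obtain ⟨t, ht, hopp⟩ := hs
  have e1 := meet_unique ht (meet_inner h .s x)
  subst e1
  exact hopp

theorem pos_s_not {x t1 t2 : ℝ} (h1 : 0 < t1) (h2 : 0 < t2) : ¬ Sbtw ℝ (Lp x t1) (E x) (Lp x t2) := by
  rintro ⟨⟨m, hm, he⟩, _, _⟩
  have e1 := congrArg Complex.re he
  have e2 := congrArg Complex.im he
  rw [lineMap_re] at e1
  rw [lineMap_im] at e2
  simp only [Lp, E] at e1 e2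
  have hsc := sin_sq_add_cos_sq x
  have e3 : (1 - m) * t1 + m * t2 = 0 := by
    linear_combination (-sin x) * e1 + cos x * e2 - ((1 - m) * t1 + m * t2) * hsc
  have h3 : 0 ≤ 1 - m := by linarith [hm.2]
  have h4 : 0 ≤ m := hm.1
  rcases h4.eq_or_lt with e | e
  · rw [← e] at e3; linarith
  · have : 0 < m * t2 := by positivity
    have : 0 ≤ (1 - m) * t1 := by positivity
    linarith

theorem sep_not_deg {R d : ℝ} (h : Adm R d) (A : Letter) (x : ℝ) (p q : ℂ)
    (hs : Sep (std R d h) A (elt R d A x) p q) : p ≠ E x ∧ q ≠ E x := by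
  cases A
  · have h1 := sep_c h x p q hs
    constructor
    · rintro rfl; rw [side_E] at h1; linarith
    · rintro rfl; rw [side_E] at h1; linarith
  · have h1 := sep_s h x p q hs
    exact ⟨h1.2.1.symm, h1.2.2.symm⟩

/-- both contact points cannot lie on the forward side -/
theorem sep_not_pos {R d : ℝ} (h : Adm R d) (A : Letter) (x : ℝ) (p q : ℂ)
    (hs : Sep (std R d h) A (elt R d A x) p q) (hp : Pos R d A x p) (hq : Pos R d A x q) : False := by
  cases A
  · have h1 := sep_c h x p q hs
    have hp' : 0 < side R d x p := hp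
    have hq' : 0 < side R d x q := hq
    have := mul_pos hp' hq'
    linarith
  · have h1 := sep_s h x p q hs
    obtain ⟨t1, ht1, rfl⟩ := hp
    obtain ⟨t2, ht2, rfl⟩ := hq
    exact pos_s_not ht1 ht2 h1

/-- both contact points cannot lie on the backward side -/
theorem sep_not_neg {R d : ℝ} (h : Adm R d) (A : Letter) (x : ℝ) (p q : ℂ)
    (hs : Sep (std R d h) A (elt R d A x) p q) (hp : Pos R d A (-x) (cj p))
    (hq : Pos R d A (-x) (cj q)) : False := by
  cases A
  · have h1 := sep_c h x p q hs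
    have hp' : 0 < side R d (-x) (cj p) := hp
    have hq' : 0 < side R d (-x) (cj q) := hq
    rw [side_cj] at hp' hq'
    nlinarith
  · have h1 := sep_s h x p q hs
    obtain ⟨t1, ht1, e1⟩ := hp
    obtain ⟨t2, ht2, e2⟩ := hq
    have e1' : p = Lp x (-t1) := by
      rw [← cj_cj p, e1]
      apply Complex.ext <;> simp [Lp, cj]
      ring
    have e2' : q = Lp x (-t2) := by
      rw [← cj_cj q, e2]
      apply Complex.ext <;> simp [Lp, cj]
      ring
    rw [e1', e2'] at h1
    obtain ⟨⟨m, hm, he⟩, _, _⟩ := h1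
    have e3 := congrArg Complex.re he
    have e4 := congrArg Complex.im he
    rw [lineMap_re] at e3
    rw [lineMap_im] at e4
    simp only [Lp, E] at e3 e4
    have hsc := sin_sq_add_cos_sq x
    have e5 : (1 - m) * t1 + m * t2 = 0 := by
      linear_combination (sin x) * e3 - cos x * e4 - ((1 - m) * t1 + m * t2) * hsc
    have h3 : 0 ≤ 1 - m := by linarith [hm.2]
    have h4 : 0 ≤ m := hm.1
    rcases h4.eq_or_lt with e | e
    · rw [← e] at e5; linarith
    · have : 0 < m * t2 := by positivity
      have : 0 ≤ (1 - m) * t1 := by positivity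
      linarith

theorem cj_E (x : ℝ) : cj (E x) = E (-x) := by simp [cj, E]

/-- trichotomy for a contact -/
theorem tri {R d : ℝ} (h : Adm R d) (A B : Letter) (x : ℝ) (v : Set ℂ) (p : ℂ)
    (hv : IsElt (std R d h) B v)
    (hc : Contact (std R d h) A B (elt R d A x) v p) :
    (v = elt R d B (TT R d A B x) ∧ p = cp R d A B x) ∨
    (v = elt R d B (-(TT R d A B (-x))) ∧ cj p = cp R d A B (-x)) ∨
    (p = E x ∧ ∃ y, v = elt R d B y ∧ p = E y) := by
  obtain ⟨y, rfl⟩ := elt_std h B v hv
  rcases core_all h A B x y p hc with ⟨k, hk⟩ | ⟨k, hk⟩ | ⟨h1, h2⟩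
  · left
    have e : elt R d B y = elt R d B (TT R d A B x) := by rw [hk, elt_int]
    refine ⟨e, ?_⟩
    have h3 := hc.1
    rw [e] at h3
    exact meet_unique h3 (meet h A B x)
  · right; left
    have e : elt R d B y = elt R d B (-(TT R d A B (-x))) := by
      rw [show y = -(TT R d A B (-x)) + 2 * π * ((-k : ℤ) : ℝ) by push_cast; linarith, elt_int]
    refine ⟨e, ?_⟩
    have h3 := hc.1
    rw [e] at h3
    have h4 := meet h A B (-x)
    have h5 : MeetAt (elt R d A x) (elt R d B (-(TT R d A B (-x)))) (cj (cp R d A B (-x))) := by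
      unfold MeetAt at *
      ext z
      rw [Set.mem_inter_iff, Set.mem_singleton_iff, ← mem_elt_neg h A x, ← mem_elt_neg h B, neg_neg,
        ← Set.mem_inter_iff, h4, Set.mem_singleton_iff]
      constructor
      · intro e; rw [← e, cj_cj]
      · rintro rfl; rw [cj_cj]
    rw [meet_unique h3 h5, cj_cj]
  · right; right
    exact ⟨h1, y, rfl, h2⟩

/-- the previous contact point lies on the backward side -/
theorem prev_neg {R d : ℝ} (h : Adm R d) (A B : Letter) (x : ℝ) :
    Pos R d B (-(TT R d A B x)) (cj (cp R d A B x)) := by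
  rw [cp_flip h]; exact pos_next h _ _ _

theorem complete_std {R d : ℝ} (h : Adm R d) (w : List Letter) (hn : 2 ≤ w.length)
    (u : ℕ → Set ℂ) (hu : IsChain (std R d h) w u) :
    ∃ x, (∀ i, i ≤ w.length → u i = elt R d (ltr w i) (orb R d (ltr w) x i)) ∨
      (∀ i, i ≤ w.length → u i = elt R d (ltr w i) (-(orb R d (ltr w) x i))) := by
  obtain ⟨p, hp, hs⟩ := hu.link
  obtain ⟨x, hx⟩ := elt_std h _ _ (hu.elt 0 (by omega))
  have hc0 := hp 0 (by omega)
  rw [hx] at hc0
  rcases tri h _ _ x _ _ (hu.elt 1 (by omega)) hc0 with ⟨h1, h2⟩ | ⟨h1, h2⟩ | ⟨h1, y, h2, h3⟩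
  · refine ⟨x, Or.inl ?_⟩
    have key : ∀ i, 1 ≤ i → i ≤ w.length → u i = elt R d (ltr w i) (orb R d (ltr w) x i) ∧
        p (i - 1) = cp R d (ltr w (i - 1)) (ltr w i) (orb R d (ltr w) x (i - 1)) := by
      intro i hi
      induction i, hi using Nat.le_induction with
      | base => intro _; exact ⟨h1, h2⟩
      | succ j hj ih =>
        intro hj2
        obtain ⟨i1, i2⟩ := ih (by omega)
        have hc := hp j (by omega)
        have hsj := hs j hj (by omega)
        rw [i1] at hc hsj
        have hneg : Pos R d (ltr w j) (-(orb R d (ltr w) x j)) (cj (p (j - 1))) := by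
          rw [i2]
          have := prev_neg h (ltr w (j - 1)) (ltr w j) (orb R d (ltr w) x (j - 1))
          obtain ⟨l, rfl⟩ : ∃ l, j = l + 1 := ⟨j - 1, by omega⟩
          exact this
        rcases tri h _ _ _ _ _ (hu.elt (j + 1) (by omega)) hc with ⟨g1, g2⟩ | ⟨g1, g2⟩ | ⟨g1, _⟩
        · exact ⟨g1, g2⟩
        · exfalso
          apply sep_not_neg h _ _ _ _ hsj hneg
          rw [g2]; exact pos_next h _ _ _
        · exact absurd g1 (sep_not_deg h _ _ _ _ hsj).2
    intro i hi
    rcases Nat.eq_zero_or_pos i with rfl | h0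
    · exact hx
    · exact (key i h0 hi).1
  · refine ⟨-x, Or.inr ?_⟩
    have key : ∀ i, 1 ≤ i → i ≤ w.length → u i = elt R d (ltr w i) (-(orb R d (ltr w) (-x) i)) ∧
        cj (p (i - 1)) = cp R d (ltr w (i - 1)) (ltr w i) (orb R d (ltr w) (-x) (i - 1)) := by
      intro i hi
      induction i, hi using Nat.le_induction with
      | base => intro _; exact ⟨h1, h2⟩
      | succ j hj ih =>
        intro hj2
        obtain ⟨i1, i2⟩ := ih (by omega)
        have hc := hp j (by omega)
        have hsj := hs j hj (by omega)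
        rw [i1] at hc hsj
        have hpos : Pos R d (ltr w j) (-(orb R d (ltr w) (-x) j)) (p (j - 1)) := by
          have := prev_neg h (ltr w (j - 1)) (ltr w j) (orb R d (ltr w) (-x) (j - 1))
          rw [← i2, cj_cj] at this
          obtain ⟨l, rfl⟩ : ∃ l, j = l + 1 := ⟨j - 1, by omega⟩
          exact this
        rcases tri h _ _ _ _ _ (hu.elt (j + 1) (by omega)) hc with ⟨g1, g2⟩ | ⟨g1, g2⟩ | ⟨g1, _⟩
        · exfalso
          apply sep_not_pos h _ _ _ _ hsj hpos
          rw [g2]; exact pos_next h _ _ _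
        · rw [neg_neg] at g1 g2
          exact ⟨g1, g2⟩
        · exact absurd g1 (sep_not_deg h _ _ _ _ hsj).2
    intro i hi
    rcases Nat.eq_zero_or_pos i with rfl | h0
    · show u 0 = elt R d (ltr w 0) (-(-x))
      rw [neg_neg]; exact hx
    · exact (key i h0 hi).1
  · exfalso
    have hs1 := hs 1 le_rfl (by omega)
    rw [h2] at hs1
    exact (sep_not_deg h _ _ _ _ hs1).1 h3

/-- closing chains and orbits -/
theorem closes_iff {R d : ℝ} (h : Adm R d) (w : List Letter) (hn : 2 ≤ w.length)
    (u : ℕ → Set ℂ) (hu : IsChain (std R d h) w u) :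
    ∃ x, (Closes w u ↔ ∃ k : ℤ, orb R d (ltr w) x w.length = x + 2 * π * k) := by
  have hlast : ltr w w.length = ltr w 0 := by simpa using ltr_add w 0
  obtain ⟨x, hx | hx⟩ := complete_std h w hn u hu
  · refine ⟨x, ?_⟩
    unfold Closes
    rw [hx _ le_rfl, hx 0 (by omega), hlast]
    constructor
    · intro e; exact elt_eq h e
    · rintro ⟨k, hk⟩; rw [hk, elt_int]; rfl
  · refine ⟨x, ?_⟩
    unfold Closes
    rw [hx _ le_rfl, hx 0 (by omega), hlast]
    constructor
    · intro e
      obtain ⟨k, hk⟩ := elt_eq h e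
      refine ⟨-k, ?_⟩
      have : orb R d (ltr w) x 0 = x := rfl
      rw [this] at hk
      push_cast; linarith
    · rintro ⟨k, hk⟩
      have : orb R d (ltr w) x 0 = x := rfl
      rw [hk, this, show -(x + 2 * π * (k : ℝ)) = -x + 2 * π * ((-k : ℤ) : ℝ) by push_cast; ring, elt_int]

end Pool.Agent.R762.Mx
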