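import Mathlib
import Pool.Agent.R762.Mx7

/-!
The porism for the listed words, in coordinates.
-/

namespace Pool.Agent.R762.Mx

open Real

theorem TT_cont {R d : ℝ} (h : Adm R d) (A B : Letter) : Continuous (TT R d A B) := by
  rw [continuous_iff_continuousAt]
  intro x
  obtain ⟨D, hD, _⟩ := TT_deriv h A B x
  exact hD.continuousAt

theorem TT_mono {R d : ℝ} (h : Adm R d) (A B : Letter) : StrictMono (TT R d A B) := by
  rcases (TT_cont h A B).strictMono_of_inj (TT_inj h A B) with h1 | h1
  · exact h1
  · exfalso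
    have h2 := h1 (show (0 : ℝ) < 0 + 2 * π by positivity)
    rw [TT_periodic] at h2
    linarith [pi_pos]

theorem orb_mono {R d : ℝ} (h : Adm R d) (a : ℕ → Letter) (n : ℕ) :
    StrictMono (fun x => orb R d a x n) := by
  induction n with
  | zero => intro x y hxy; exact hxy
  | succ k ih => intro x y hxy; exact TT_mono h _ _ (ih hxy)

/-- abstract porism -/
theorem porism_abs (F G : ℝ → ℝ) (hF : StrictMono F) (hGc : Continuous G) (hG0 : ∀ x, 0 < G x)
    (hGp : ∀ x, G (x + 2 * π) = G x)
    (hd : ∀ x, ∃ D, HasDerivAt F D x ∧ D ^ 2 = G (F x) / G x)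
    (x0 : ℝ) (k : ℤ) (h0 : F x0 = x0 + 2 * π * k) (x : ℝ) : F x = x + 2 * π * k := by
  set m : ℝ → ℝ := fun x => 1 / √(G x) with hm
  have hmc : Continuous m := by
    rw [hm]
    exact continuous_const.div hGc.sqrt (fun x => (sqrt_pos.2 (hG0 x)).ne')
  have hm0 : ∀ x, 0 < m x := fun x => by rw [hm]; have := sqrt_pos.2 (hG0 x); positivity
  set H : ℝ → ℝ := fun x => ∫ t in (0 : ℝ)..x, m t with hH
  have hHd : ∀ x, HasDerivAt H (m x) x := fun x =>
    intervalIntegral.integral_hasDerivAt_right (hmc.intervalIntegrable _ _)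
      (hmc.stronglyMeasurableAtFilter _ _) hmc.continuousAt
  have hHmono : StrictMono H := by
    apply strictMono_of_deriv_pos
    intro x
    rw [(hHd x).deriv]
    exact hm0 x
  have hGk : ∀ x, m (x + 2 * π * k) = m x := by
    intro x
    have hper : Function.Periodic G (2 * π) := hGp
    have h1 := hper.int_mul k x
    have : G (x + 2 * π * k) = G x := by
      rw [← h1]; congr 1; ring
    simp only [hm, this]
  have hc1 : ∀ x y, H (F x) - H x = H (F y) - H y := by
    apply is_const_of_deriv_eq_zero
    · intro x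
      obtain ⟨D, hD, _⟩ := hd x
      exact (((hHd (F x)).comp x hD).sub (hHd x)).differentiableAt
    · intro x
      obtain ⟨D, hD, hD2⟩ := hd x
      have hDn : 0 ≤ D := by
        rw [← hD.deriv]
        exact hF.monotone.deriv_nonneg
      have h5 : HasDerivAt (fun x => H (F x) - H x) (m (F x) * D - m x) x :=
        ((hHd (F x)).comp x hD).sub (hHd x)
      rw [h5.deriv]
      have h1 : D = √(G (F x)) / √(G x) := by
        rw [← sqrt_div (hG0 _).le, ← hD2, sqrt_sq hDn]
      have h2 := sqrt_pos.2 (hG0 (F x))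
      have h3 := sqrt_pos.2 (hG0 x)
      rw [h1, hm]
      field_simp
      ring
  have hc2 : ∀ x y, H (x + 2 * π * k) - H x = H (y + 2 * π * k) - H y := by
    apply is_const_of_deriv_eq_zero
    · intro x
      exact (((hHd (x + 2 * π * k)).comp x ((hasDerivAt_id x).add_const _)).sub (hHd x)).differentiableAt
    · intro x
      have h6 : HasDerivAt (fun x : ℝ => x + 2 * π * (k : ℝ)) 1 x := (hasDerivAt_id x).add_const _
      have h7 : HasDerivAt (H ∘ fun x : ℝ => x + 2 * π * (k : ℝ)) (m (x + 2 * π * k) * 1) x :=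
        HasDerivAt.comp x (hHd (x + 2 * π * k)) h6
      have h5 : HasDerivAt (fun x => H (x + 2 * π * k) - H x) (m (x + 2 * π * k) * 1 - m x) x :=
        h7.sub (hHd x)
      rw [h5.deriv, hGk]; ring
  apply hHmono.injective
  have e1 := hc1 x x0
  have e2 := hc2 x x0
  rw [h0] at e1
  linarith

theorem WW_cont (R d : ℝ) : Continuous (WW R d) := by unfold WW; fun_prop
theorem nn_cont (R d : ℝ) : Continuous (nn R d) := by unfold nn; fun_prop
theorem SS_cont (R d : ℝ) : Continuous (SS R d) := by unfold SS VV; fun_prop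

theorem rho_cont {R d : ℝ} (h : Adm R d) : Continuous (rho R d) := by
  unfold rho
  exact (nn_cont R d).div (continuous_const.mul (WW_cont R d)) (fun x => by
    have := WW_ge h.adm' x
    positivity)

theorem MM_sq {R d : ℝ} (h : Adm R d) (A : Letter) (x : ℝ) :
    MM R d A x ^ 2 = match A with
      | .s => SS R d x ^ 2
      | .c => WW R d x ^ 2 * rho R d x := by
  cases A
  · simp only [MM, mul_pow, tau_cs_sq h]
  · rfl

theorem porism_s {R d : ℝ} (h : Adm R d) (a : ℕ → Letter) (ha : ∀ i, a i = .s) (n : ℕ)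
    (x0 : ℝ) (k : ℤ) (h0 : orb R d a x0 n = x0 + 2 * π * k) (x : ℝ) :
    orb R d a x n = x + 2 * π * k := by
  apply porism_abs (fun x => orb R d a x n) (fun x => SS R d x ^ 2 * WW R d x) (orb_mono h a n)
    (((SS_cont R d).pow 2).mul (WW_cont R d)) _ _ _ x0 k h0 x
  · intro x
    have := SS_pos h x
    have := WW_ge h.adm' x
    positivity
  · intro x; simp [SS, VV, WW]
  · intro x
    obtain ⟨D, hD, hD2⟩ := orb_deriv h a x n
    refine ⟨D, hD, ?_⟩
    have hprod : ∏ i ∈ Finset.range n, JJ R d (a i) (a (i + 1)) (orb R d a x i) (orb R d a x (i + 1)) =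
        WW R d (orb R d a x n) / WW R d x := by
      clear hD2 hD h0
      induction n with
      | zero =>
        have := WW_ge h.adm' x
        simp only [Finset.range_zero, Finset.prod_empty, orb]
        field_simp
      | succ k ih =>
        rw [Finset.prod_range_succ, ih, ha, ha]
        have := WW_ge h.adm' (orb R d a x k)
        simp only [JJ]
        field_simp
    rw [hD2, hprod, ha, ha, MM_sq h, MM_sq h]
    have := SS_pos h x
    have := WW_ge h.adm' x
    field_simp

theorem porism_c {R d : ℝ} (h : Adm R d) (a : ℕ → Letter) (ha : ∀ i, a i = .c) (n : ℕ)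
    (x0 : ℝ) (k : ℤ) (h0 : orb R d a x0 n = x0 + 2 * π * k) (x : ℝ) :
    orb R d a x n = x + 2 * π * k := by
  apply porism_abs (fun x => orb R d a x n) (fun x => WW R d x ^ 2 * rho R d x * rho R d x) (orb_mono h a n)
    ((((WW_cont R d).pow 2).mul (rho_cont h)).mul (rho_cont h)) _ _ _ x0 k h0 x
  · intro x
    have := rho_pos h x
    have := WW_ge h.adm' x
    positivity
  · intro x; simp [rho, nn, WW]
  · intro x
    obtain ⟨D, hD, hD2⟩ := orb_deriv h a x n
    refine ⟨D, hD, ?_⟩
    have hprod : ∏ i ∈ Finset.range n, JJ R d (a i) (a (i + 1)) (orb R d a x i) (orb R d a x (i + 1)) =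
        rho R d (orb R d a x n) / rho R d x := by
      clear hD2 hD h0
      induction n with
      | zero =>
        have := rho_pos h x
        simp only [Finset.range_zero, Finset.prod_empty, orb]
        field_simp
      | succ k ih =>
        rw [Finset.prod_range_succ, ih, ha, ha]
        have := rho_pos h (orb R d a x k)
        simp only [JJ]
        field_simp
    rw [hD2, hprod, ha, ha, MM_sq h, MM_sq h]
    have := rho_pos h x
    have := WW_ge h.adm' x
    field_simp

theorem porism_alt {R d : ℝ} (h : Adm R d) (a : ℕ → Letter) (ha : ∀ i, a i ≠ a (i + 1)) (n : ℕ)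
    (hn : a n = a 0)
    (x0 : ℝ) (k : ℤ) (h0 : orb R d a x0 n = x0 + 2 * π * k) (x : ℝ) :
    orb R d a x n = x + 2 * π * k := by
  have hMc : Continuous (fun x => MM R d (a 0) x ^ 2) := by
    have : (fun x => MM R d (a 0) x ^ 2) = fun x => match a 0 with
      | .s => SS R d x ^ 2
      | .c => WW R d x ^ 2 * rho R d x := by
      funext x; exact MM_sq h _ x
    rw [this]
    cases a 0
    · exact ((WW_cont R d).pow 2).mul (rho_cont h)
    · exact (SS_cont R d).pow 2
  apply porism_abs (fun x => orb R d a x n) (fun x => MM R d (a 0) x ^ 2) (orb_mono h a n)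
    hMc _ _ _ x0 k h0 x
  · intro x
    have := MM_pos h (a 0) x
    positivity
  · intro x; simp only [MM_periodic]
  · intro x
    obtain ⟨D, hD, hD2⟩ := orb_deriv h a x n
    refine ⟨D, hD, ?_⟩
    have hprod : ∏ i ∈ Finset.range n, JJ R d (a i) (a (i + 1)) (orb R d a x i) (orb R d a x (i + 1)) =
        1 := by
      apply Finset.prod_eq_one
      intro i _
      have := ha i
      cases h1 : a i <;> cases h2 : a (i + 1) <;> simp_all [JJ]
    rw [hD2, hprod, hn, mul_one]

end Pool.Agent.R762.Mx
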