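import Mathlib
import Pool.Agent.R762.Mx11
import Pool.Agent.R762.Mx8

/-!
Transport of chains by similarities, and the listed words are closure sequences.
-/

namespace Pool.Agent.R762.Mx

open Real

/-- the similarity `z ↦ c (z - z₀)` -/
noncomputable def sim (c z₀ : ℂ) : ℂ →ᵃ[ℝ] ℂ where
  toFun z := c * (z - z₀)
  linear := LinearMap.mulLeft ℝ c
  map_vadd' p v := by
    simp only [vadd_eq_add, LinearMap.mulLeft_apply]
    ring

theorem sim_apply (c z₀ z : ℂ) : sim c z₀ z = c * (z - z₀) := rfl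

theorem sim_dist (c z₀ z w : ℂ) : dist (sim c z₀ z) (sim c z₀ w) = ‖c‖ * dist z w := by
  rw [sim_apply, sim_apply, dist_eq_norm, dist_eq_norm, ← norm_mul]
  congr 1; ring

theorem sim_inj {c : ℂ} (hc : c ≠ 0) (z₀ : ℂ) : Function.Injective (sim c z₀) := by
  intro z w h
  rw [sim_apply, sim_apply] at h
  have := mul_left_cancel₀ hc h
  exact sub_left_inj.1 this

theorem sim_surj {c : ℂ} (hc : c ≠ 0) (z₀ w : ℂ) : ∃ z, sim c z₀ z = w := by
  refine ⟨w / c + z₀, ?_⟩
  rw [sim_apply]; field_simp; ring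

theorem sim_sphere {c : ℂ} (hc : c ≠ 0) (z₀ P : ℂ) (ρ : ℝ) :
    sim c z₀ '' Metric.sphere P ρ = Metric.sphere (sim c z₀ P) (‖c‖ * ρ) := by
  have hk : 0 < ‖c‖ := norm_pos_iff.2 hc
  ext w
  obtain ⟨z, rfl⟩ := sim_surj hc z₀ w
  rw [(sim_inj hc z₀).mem_set_image, Metric.mem_sphere, Metric.mem_sphere, sim_dist]
  constructor
  · intro h; rw [h]
  · intro h; exact mul_left_cancel₀ hk.ne' h

theorem sim_meet {c : ℂ} (hc : c ≠ 0) (z₀ : ℂ) {u v : Set ℂ} {p : ℂ} (h : MeetAt u v p) :
    MeetAt (sim c z₀ '' u) (sim c z₀ '' v) (sim c z₀ p) := by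
  unfold MeetAt at *
  rw [← Set.image_inter (sim_inj hc z₀), h, Set.image_singleton]

/-- normalisation of an annulus -/
theorem normalise (a : Annulus) : ∃ (c : ℂ) (hc : c ≠ 0)
    (h : Adm (a.R / a.r) (dist a.O a.I / a.r)),
    sim c a.I '' a.outer = (std _ _ h).outer ∧ sim c a.I '' a.inner = (std _ _ h).inner ∧
    (∀ z, sim c a.I z ∈ (std _ _ h).region ↔ z ∈ a.region) := by
  have hr := a.r_pos
  have hd0 : 0 ≤ dist a.O a.I := dist_nonneg
  have hadm : Adm (a.R / a.r) (dist a.O a.I / a.r) := by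
    constructor
    · positivity
    · rw [div_add_one hr.ne', div_lt_div_iff_of_pos_right hr]
      exact a.inside
  obtain ⟨c, hc, hcn, hcO⟩ : ∃ c : ℂ, c ≠ 0 ∧ ‖c‖ = 1 / a.r ∧
      c * (a.O - a.I) = ⟨-(dist a.O a.I / a.r), 0⟩ := by
    by_cases he : a.O = a.I
    · refine ⟨((1 / a.r : ℝ) : ℂ), ?_, ?_, ?_⟩
      · exact_mod_cast (by positivity : (1 / a.r : ℝ) ≠ 0)
      · rw [Complex.norm_real, Real.norm_eq_abs, abs_of_pos (by positivity)]
      · rw [he]; simp [Complex.ext_iff]
    · have hne : a.O - a.I ≠ 0 := sub_ne_zero.2 he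
      have hpos : 0 < ‖a.O - a.I‖ := norm_pos_iff.2 hne
      refine ⟨((-(‖a.O - a.I‖ / a.r) : ℝ) : ℂ) / (a.O - a.I), ?_, ?_, ?_⟩
      · apply div_ne_zero _ hne
        exact_mod_cast (by
          have : 0 < ‖a.O - a.I‖ / a.r := by positivity
          linarith : (-(‖a.O - a.I‖ / a.r) : ℝ) ≠ 0)
      · rw [norm_div, Complex.norm_real, Real.norm_eq_abs, abs_neg, abs_of_pos (by positivity)]
        field_simp
      · rw [div_mul_cancel₀ _ hne, dist_eq_norm]
        apply Complex.ext <;> simp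
  have hO : sim c a.I a.O = ⟨-(dist a.O a.I / a.r), 0⟩ := by rw [sim_apply]; exact hcO
  have hI : sim c a.I a.I = 0 := by rw [sim_apply]; simp
  have hR : ‖c‖ * a.R = a.R / a.r := by rw [hcn]; ring
  have hr1 : ‖c‖ * a.r = 1 := by rw [hcn]; field_simp
  have hk : 0 < ‖c‖ := norm_pos_iff.2 hc
  refine ⟨c, hc, hadm, ?_, ?_, ?_⟩
  · unfold Annulus.outer
    rw [sim_sphere hc, hO, hR]; rfl
  · unfold Annulus.inner
    rw [sim_sphere hc, hI, hr1]; rfl
  · intro z
    unfold Annulus.region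
    have e1 : dist (sim c a.I z) (⟨-(dist a.O a.I / a.r), 0⟩ : ℂ) = ‖c‖ * dist z a.O := by
      rw [← hO, sim_dist]
    have e2 : dist (sim c a.I z) 0 = ‖c‖ * dist z a.I := by
      rw [← hI, sim_dist]
    constructor
    · rintro ⟨h1, h2⟩
      have h1' : dist (sim c a.I z) (⟨-(dist a.O a.I / a.r), 0⟩ : ℂ) ≤ a.R / a.r := h1
      have h2' : ¬ dist (sim c a.I z) 0 < 1 := h2
      rw [e1, ← hR] at h1'
      rw [e2, ← hr1] at h2'
      refine ⟨le_of_mul_le_mul_left h1' hk, fun h3 => h2' ?_⟩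
      exact mul_lt_mul_of_pos_left h3 hk
    · rintro ⟨h1, h2⟩
      have h1' : dist z a.O ≤ a.R := h1
      have h2' : ¬ dist z a.I < a.r := h2
      refine ⟨?_, ?_⟩
      · show dist (sim c a.I z) (⟨-(dist a.O a.I / a.r), 0⟩ : ℂ) ≤ a.R / a.r
        rw [e1, ← hR]; exact mul_le_mul_of_nonneg_left h1' hk.le
      · show ¬ dist (sim c a.I z) 0 < 1
        rw [e2, ← hr1]
        intro h3
        exact h2' (lt_of_mul_lt_mul_left h3 hk.le)

theorem transport (a b : Annulus) (c : ℂ) (hc : c ≠ 0) (z₀ : ℂ)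
    (ho : sim c z₀ '' a.outer = b.outer) (hi : sim c z₀ '' a.inner = b.inner)
    (hr : ∀ z, sim c z₀ z ∈ b.region ↔ z ∈ a.region) (w : List Letter) (u : ℕ → Set ℂ)
    (hu : IsChain a w u) : IsChain b w (fun i => sim c z₀ '' u i) := by
  have hk : 0 < ‖c‖ := norm_pos_iff.2 hc
  obtain ⟨p, hp, hs⟩ := hu.link
  refine ⟨?_, fun i => sim c z₀ (p i), ?_, ?_⟩
  · intro i hi'
    have he := hu.elt i hi'
    cases hA : ltr w i
    · rw [hA] at he
      obtain ⟨P, ρ, hρ, heq, hsub, ⟨t, ht⟩, ⟨t', ht'⟩⟩ := he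
      refine ⟨sim c z₀ P, ‖c‖ * ρ, by positivity, ?_, ?_, ⟨sim c z₀ t, ?_⟩, ⟨sim c z₀ t', ?_⟩⟩
      · simp only [heq, sim_sphere hc]
      · intro y hy
        obtain ⟨z, rfl⟩ := sim_surj hc z₀ y
        rw [hr]
        apply hsub
        rw [Metric.mem_closedBall, sim_dist] at hy
        exact le_of_mul_le_mul_left hy hk
      · rw [← hi]; exact sim_meet hc z₀ ht
      · rw [← ho]; exact sim_meet hc z₀ ht'
    · rw [hA] at he
      obtain ⟨x, y, hx, hy, hne, heq, ⟨t, ht⟩⟩ := he
      refine ⟨sim c z₀ x, sim c z₀ y, ?_, ?_, ?_, ?_, ⟨sim c z₀ t, ?_⟩⟩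
      · rw [← ho]; exact Set.mem_image_of_mem _ hx
      · rw [← ho]; exact Set.mem_image_of_mem _ hy
      · intro h; exact hne (sim_inj hc z₀ h)
      · simp only [heq]; exact image_segment ℝ (sim c z₀) x y
      · rw [← hi]; exact sim_meet hc z₀ ht
  · intro i hi'
    obtain ⟨h1, h2⟩ := hp i hi'
    refine ⟨sim_meet hc z₀ h1, fun hA hB => ?_⟩
    rw [← ho]; exact Set.mem_image_of_mem _ (h2 hA hB)
  · intro i hi1 hi2
    have h1 := hs i hi1 hi2
    cases hA : ltr w i
    · rw [hA] at h1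
      obtain ⟨t, t', ht, ht', hopp⟩ := h1
      refine ⟨sim c z₀ t, sim c z₀ t', ?_, ?_, ?_⟩
      · rw [← hi]; exact sim_meet hc z₀ ht
      · rw [← ho]; exact sim_meet hc z₀ ht'
      · have h2 := (sim_inj hc z₀).sOppSide_map_iff.2 hopp
        rw [AffineSubspace.map_span, Set.image_pair] at h2
        exact h2
    · rw [hA] at h1
      obtain ⟨t, ht, hb⟩ := h1
      refine ⟨sim c z₀ t, ?_, ?_⟩
      · rw [← hi]; exact sim_meet hc z₀ ht
      · exact (sim_inj hc z₀).sbtw_map_iff.2 hb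

theorem closes_image {c : ℂ} (hc : c ≠ 0) (z₀ : ℂ) (w : List Letter) (u : ℕ → Set ℂ) :
    Closes w (fun i => sim c z₀ '' u i) ↔ Closes w u := by
  unfold Closes
  exact (Set.image_injective.2 (sim_inj hc z₀)).eq_iff

/-- words with the porism property in coordinates -/
theorem closure_of_porism (w : List Letter) (hn : 3 ≤ w.length)
    (hpor : ∀ (R d : ℝ), Adm R d → ∀ (x0 : ℝ) (k : ℤ),
      orb R d (ltr w) x0 w.length = x0 + 2 * π * k →
      ∀ x, orb R d (ltr w) x w.length = x + 2 * π * k) : IsClosureSeq w := by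
  constructor
  · rintro a ⟨u0, hu0, hc0⟩ u hu
    obtain ⟨c, hc, had, ho, hi, hr⟩ := normalise a
    have t0 := transport a _ c hc a.I ho hi hr w u0 hu0
    have t1 := transport a _ c hc a.I ho hi hr w u hu
    obtain ⟨x0, hx0⟩ := closes_iff had w (by omega) _ t0
    obtain ⟨x, hx⟩ := closes_iff had w (by omega) _ t1
    rw [closes_image hc] at hx0 hx
    obtain ⟨k, hk⟩ := hx0.1 hc0
    exact hx.2 ⟨k, hpor _ _ had x0 k hk x⟩
  · obtain ⟨g, hg0, hg, hclose⟩ := exists_closing (R := 1000) le_rfl (ltr w) w.length hn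
    have had := adm_of (R := 1000) le_rfl hg0 hg.le
    refine ⟨std _ _ had, _, isChain_orb had w 0, ?_⟩
    show elt _ _ (ltr w w.length) (orb _ _ (ltr w) 0 w.length) = elt _ _ (ltr w 0) 0
    have : ltr w w.length = ltr w 0 := by simpa using ltr_add w 0
    rw [this, hclose]
    simpa using elt_periodic 1000 (1000 - 1 - g) (ltr w 0) 0

theorem ltr_replicate (n : ℕ) (hn : 0 < n) (A : Letter) (i : ℕ) :
    ltr (List.replicate n A) i = A := by
  unfold ltr
  rw [List.length_replicate, List.getD_eq_getElem?_getD, List.getElem?_replicate,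
    if_pos (Nat.mod_lt _ hn)]
  rfl

theorem flatten_get (A B : Letter) : ∀ (n i : ℕ), i < 2 * n →
    (List.replicate n [A, B]).flatten.getD i .c = if i % 2 = 0 then A else B := by
  intro n
  induction n with
  | zero => intro i hi; omega
  | succ k ih =>
    intro i hi
    rw [List.replicate_succ, List.flatten_cons]
    match i with
    | 0 => rfl
    | 1 => rfl
    | j + 2 =>
      have := ih j (by omega)
      simpa using this

theorem flatten_length (A B : Letter) (n : ℕ) :
    (List.replicate n [A, B]).flatten.length = 2 * n := by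
  induction n with
  | zero => rfl
  | succ k ih => rw [List.replicate_succ, List.flatten_cons, List.length_append, ih]; simp; ring

theorem ltr_flatten (n : ℕ) (hn : 0 < n) (A B : Letter) (i : ℕ) :
    ltr (List.replicate n [A, B]).flatten i = if i % 2 = 0 then A else B := by
  unfold ltr
  rw [flatten_length, flatten_get _ _ _ _ (Nat.mod_lt _ (by omega))]
  have : i % (2 * n) % 2 = i % 2 := Nat.mod_mod_of_dvd i ⟨n, rfl⟩
  rw [this]

theorem closure_alt (A B : Letter) (hAB : A ≠ B) (n : ℕ) (hn : 2 ≤ n) :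
    IsClosureSeq (List.replicate n [A, B]).flatten := by
  apply closure_of_porism
  · rw [flatten_length]; omega
  · intro R d had x0 k hk x
    apply porism_alt had _ _ _ _ x0 k hk x
    · intro i
      rw [ltr_flatten n (by omega), ltr_flatten n (by omega)]
      rcases Nat.mod_two_eq_zero_or_one i with h | h
      · have : (i + 1) % 2 = 1 := by omega
        rw [h, this]; simpa using hAB
      · have : (i + 1) % 2 = 0 := by omega
        rw [h, this]; simpa using hAB.symm
    · simpa using ltr_add (List.replicate n [A, B]).flatten 0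

theorem closure_of_listed {w : List Letter} (h : Listed w) : IsClosureSeq w := by
  rcases h with ⟨n, hn, rfl | rfl⟩ | ⟨n, hn, rfl | rfl⟩
  · apply closure_of_porism
    · simpa using hn
    · intro R d had x0 k hk x
      exact porism_s had _ (fun i => ltr_replicate n (by omega) _ i) _ x0 k hk x
  · apply closure_of_porism
    · simpa using hn
    · intro R d had x0 k hk x
      exact porism_c had _ (fun i => ltr_replicate n (by omega) _ i) _ x0 k hk x
  · exact closure_alt _ _ (by decide) n hn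
  · exact closure_alt _ _ (by decide) n hn

theorem closure_iff (w : List Letter) (hne : w ≠ []) : IsClosureSeq w ↔ Listed w :=
  ⟨classification w hne, closure_of_listed⟩

end Pool.Agent.R762.Mx
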