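import Mathlib
import Pool.Agent.R762.Mx12

/-!
Powers of closure sequences.
-/

namespace Pool.Agent.R762.Mx

open Real

theorem flat_length (w : List Letter) (m : ℕ) :
    (List.replicate m w).flatten.length = m * w.length := by
  induction m with
  | zero => simp
  | succ k ih => rw [List.replicate_succ, List.flatten_cons, List.length_append, ih]; ring

theorem flat_get (w : List Letter) : ∀ (m j : ℕ), j < m * w.length →
    (List.replicate m w).flatten.getD j .c = w.getD (j % w.length) .c := by
  intro m
  induction m with
  | zero => intro j hj; simp at hj
  | succ k ih =>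
    intro j hj
    rw [List.replicate_succ, List.flatten_cons]
    by_cases h : j < w.length
    · rw [List.getD_append _ _ _ _ h, Nat.mod_eq_of_lt h]
    · push Not at h
      rw [List.getD_append_right _ _ _ _ h, ih (j - w.length) (by rw [Nat.succ_mul] at hj; omega)]
      congr 1
      exact (Nat.mod_eq_sub_mod h).symm

theorem ltr_flat (w : List Letter) (hw : w ≠ []) (m : ℕ) (hm : 0 < m) (i : ℕ) :
    ltr (List.replicate m w).flatten i = ltr w i := by
  have h0 : 0 < w.length := List.length_pos_iff.2 hw
  unfold ltr
  rw [flat_length, flat_get _ _ _ (Nat.mod_lt _ (by positivity))]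
  congr 1
  exact Nat.mod_mod_of_dvd i ⟨m, by ring⟩

theorem power_closure (w : List Letter) (hc : IsClosureSeq w) (m : ℕ) (hm : 1 ≤ m) :
    IsClosureSeq (List.replicate m w).flatten := by
  by_cases hw : w = []
  · subst hw
    have : (List.replicate m ([] : List Letter)).flatten = [] := by simp
    rw [this]; exact hc
  have hL := classification w hw hc
  have hl := flat_length w m
  have hlt : ∀ i, ltr (List.replicate m w).flatten i = ltr w i := ltr_flat w hw m hm
  have hlen : 3 ≤ w.length := by
    obtain ⟨a, u, hu, hcl⟩ := hc.2
    exact length_ge_three hw a u hu hcl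
  apply closure_of_porism
  · rw [hl]
    calc 3 ≤ w.length := hlen
      _ = 1 * w.length := (one_mul _).symm
      _ ≤ m * w.length := Nat.mul_le_mul_right _ hm
  · intro R d had x0 k hk x
    rcases hL with ⟨n, hn, rfl | rfl⟩ | ⟨n, hn, rfl | rfl⟩
    · exact porism_s had _ (fun i => (hlt i).trans (ltr_replicate n (by omega) _ i)) _ x0 k hk x
    · exact porism_c had _ (fun i => (hlt i).trans (ltr_replicate n (by omega) _ i)) _ x0 k hk x
    · apply porism_alt had _ _ _ _ x0 k hk x
      · intro i
        rw [hlt, hlt, ltr_flatten n (by omega), ltr_flatten n (by omega)]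
        rcases Nat.mod_two_eq_zero_or_one i with h | h
        · have : (i + 1) % 2 = 1 := by omega
          rw [h, this]; decide
        · have : (i + 1) % 2 = 0 := by omega
          rw [h, this]; decide
      · simpa using ltr_add (List.replicate m (List.replicate n [Letter.c, Letter.s]).flatten).flatten 0
    · apply porism_alt had _ _ _ _ x0 k hk x
      · intro i
        rw [hlt, hlt, ltr_flatten n (by omega), ltr_flatten n (by omega)]
        rcases Nat.mod_two_eq_zero_or_one i with h | h
        · have : (i + 1) % 2 = 1 := by omega
          rw [h, this]; decide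
        · have : (i + 1) % 2 = 0 := by omega
          rw [h, this]; decide
      · simpa using ltr_add (List.replicate m (List.replicate n [Letter.s, Letter.c]).flatten).flatten 0

end Pool.Agent.R762.Mx
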