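import Mathlib
import Pool.Agent.R762.Mx11

/-!
The classification of closure sequences under the weakest reading of condition (i).
-/

namespace Pool.Agent.R762.Mx

open Real
open scoped ContDiff

/-- `w` is a closure sequence in the weakest sense: in every annulus, if some `w`-chain closes,
then from every initial element there starts at least one `w`-chain that closes; and in at least
one annulus some `w`-chain closes. -/
def IsClosureSeqWeak (w : List Letter) : Prop :=
  (∀ a : Annulus, (∃ u, IsChain a w u ∧ Closes w u) →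
    ∀ U : Set ℂ, IsElt a (ltr w 0) U → ∃ u, IsChain a w u ∧ u 0 = U ∧ Closes w u) ∧
  (∃ a : Annulus, ∃ u, IsChain a w u ∧ Closes w u)

theorem tau_cd {R d : ℝ} (h : Adm R d) (A B : Letter) : ContDiff ℝ ω (tau R d A B) := by
  have hn : ContDiff ℝ ω (nn R d) := by unfold nn; fun_prop
  have hW : ContDiff ℝ ω (WW R d) := by unfold WW; fun_prop
  have hU : ContDiff ℝ ω (UU R d) := by unfold UU; fun_prop
  have hV : ContDiff ℝ ω (VV R d) := by unfold VV; fun_prop
  cases A <;> cases B
  · show ContDiff ℝ ω (fun x => nn R d x / (2 * (√(R * KK R d) - d * sin x)))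
    apply hn.div (by fun_prop)
    intro x
    have := Gd_pos h.adm' x
    positivity
  · show ContDiff ℝ ω (fun x => √(nn R d x / (2 * WW R d x)))
    apply ContDiff.sqrt
    · apply hn.div (by fun_prop)
      intro x
      have := WW_ge h.adm' x
      positivity
    · intro x
      have := WW_ge h.adm' x
      have := nn_pos h x
      positivity
  · show ContDiff ℝ ω (fun x => (d * sin x + √(KK R d * VV R d x / 2)) / UU R d x)
    apply ContDiff.div _ hU
    · intro x
      have := UU_ge h.adm' x
      positivity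
    · apply ContDiff.add (by fun_prop)
      apply ContDiff.sqrt
      · fun_prop
      · intro x
        have h1 := KK_gt h.adm'
        have h2 := VV_pos h x
        have h3 : 0 < KK R d := by linarith [h.h0, h.h1]
        positivity
  · show ContDiff ℝ ω (fun x => d * sin x + √(R ^ 2 - (1 + d * cos x) ^ 2))
    apply ContDiff.add (by fun_prop)
    apply ContDiff.sqrt
    · fun_prop
    · intro x
      have := QQ_sq h.adm' x
      have h2 := QQ_pos h x
      have : 0 < QQ R d x ^ 2 := by positivity
      linarith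

theorem TT_cd {R d : ℝ} (h : Adm R d) (A B : Letter) : ContDiff ℝ ω (TT R d A B) := by
  have h1 : ContDiff ℝ ω (arctan ∘ tau R d A B) := contDiff_arctan.comp (tau_cd h A B)
  have h2 : ContDiff ℝ ω (fun x : ℝ => x + 2 * (arctan ∘ tau R d A B) x) := by fun_prop
  exact h2

theorem orb_cd {R d : ℝ} (h : Adm R d) (a : ℕ → Letter) (n : ℕ) :
    ContDiff ℝ ω (fun x => orb R d a x n) := by
  induction n with
  | zero => exact contDiff_id
  | succ k ih => exact (TT_cd h (a k) (a (k + 1))).comp ih

theorem orb_int (R d : ℝ) (a : ℕ → Letter) (x : ℝ) (k : ℤ) (n : ℕ) :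
    orb R d a (x + 2 * π * k) n = orb R d a x n + 2 * π * k := by
  induction n with
  | zero => rfl
  | succ m ih =>
    show TT R d (a m) (a (m + 1)) (orb R d a (x + 2 * π * k) m) = _
    rw [ih, TT_int]
    rfl

/-- if each element or its mirror image closes, all close after one turn -/
theorem all_one' {R d : ℝ} (h : Adm R d) (a : ℕ → Letter) (n : ℕ)
    (h0 : orb R d a 0 n = 2 * π)
    (hall : ∀ x, (∃ k : ℤ, orb R d a x n = x + 2 * π * k) ∨
      (∃ k : ℤ, orb R d a (-x) n = -x + 2 * π * k)) (x : ℝ) :
    orb R d a x n = x + 2 * π := by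
  have hpi := pi_pos
  set F : ℝ → ℝ := fun x => orb R d a x n with hF
  have hFc : Continuous F := orb_cont_x h a n
  set Z : Set ℝ := {x | ∃ k : ℤ, F x = x + 2 * π * k} with hZ
  have hZ' : Z = (fun x => (F x - x) / (2 * π)) ⁻¹' (Set.range ((↑) : ℤ → ℝ)) := by
    ext x
    simp only [hZ, Set.mem_ofPred_eq, Set.mem_preimage, Set.mem_range]
    constructor
    · rintro ⟨k, hk⟩; refine ⟨k, ?_⟩; rw [hk]; field_simp; ring
    · rintro ⟨k, hk⟩; refine ⟨k, ?_⟩; rw [eq_div_iff (by positivity)] at hk; linarith
  have hZc : IsClosed Z := by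
    rw [hZ']
    exact (Int.isClosedEmbedding_coe_real.isClosed_range).preimage
      ((hFc.sub continuous_id).div_const _)
  -- Z has interior
  have hint : (interior Z).Nonempty := by
    by_contra hempty
    rw [Set.not_nonempty_iff_eq_empty] at hempty
    have hd1 : Dense Zᶜ := interior_eq_empty_iff_dense_compl.1 hempty
    have ho1 : IsOpen Zᶜ := hZc.isOpen_compl
    have hd2 : Dense ((fun x : ℝ => -x) ⁻¹' Zᶜ) := by
      have := hd1.preimage (f := fun x : ℝ => -x) (Homeomorph.neg ℝ).isOpenMap
      exact this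
    obtain ⟨x, hx1, hx2⟩ := (hd1.inter_of_isOpen_left hd2 ho1).nonempty
    rcases hall x with h1 | h1
    · exact hx1 h1
    · exact hx2 h1
  obtain ⟨z, hz⟩ := hint
  obtain ⟨k, hk⟩ := interior_subset hz
  -- near z the multiple is k
  have hev : F =ᶠ[nhds z] fun x => x + 2 * π * k := by
    have e1 : ∀ᶠ x in nhds z, x ∈ Z := mem_interior_iff_mem_nhds.1 hz
    have hc : Filter.Tendsto (fun x => (F x - x) / (2 * π)) (nhds z) (nhds ((F z - z) / (2 * π))) :=
      ((hFc.sub continuous_id).div_const _).tendsto z
    have e0 : (F z - z) / (2 * π) = k := by rw [hk]; field_simp; ring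
    rw [e0] at hc
    have e2 : ∀ᶠ x in nhds z, (F x - x) / (2 * π) ∈ Set.Ioo ((k : ℝ) - 1) (k + 1) :=
      hc (Ioo_mem_nhds (by linarith) (by linarith))
    filter_upwards [e1, e2] with x hx1 hx2
    obtain ⟨l, hl⟩ := hx1
    have e3 : (F x - x) / (2 * π) = l := by rw [hl]; field_simp; ring
    rw [e3] at hx2
    have h5 : k - 1 < l := by
      have := hx2.1
      exact_mod_cast this
    have h6 : l < k + 1 := by
      have := hx2.2
      exact_mod_cast this
    have : l = k := by omega
    rw [hl, this]
  have ha1 : AnalyticOnNhd ℝ F Set.univ := contDiff_omega_iff_analyticOnNhd.1 (orb_cd h a n)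
  have ha2 : AnalyticOnNhd ℝ (fun x : ℝ => x + 2 * π * k) Set.univ :=
    contDiff_omega_iff_analyticOnNhd.1 (by fun_prop)
  have heq := ha1.eq_of_eventuallyEq ha2 hev
  have hk1 : (2 * π : ℝ) = 2 * π * k := by
    have e1 := congrFun heq 0
    have e2 : F 0 = 2 * π := h0
    rw [e2] at e1
    linarith
  have e3 := congrFun heq x
  show F x = x + 2 * π
  rw [e3, ← hk1]

theorem per_two' {w : List Letter} (hn : 3 ≤ w.length) (hw : IsClosureSeqWeak w) (j : ℕ)
    (hj : ltr w j = .s) : ltr w (j + 2) = .s := by
  by_contra hc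
  have hc : ltr w (j + 2) = .c := by
    cases h : ltr w (j + 2)
    · rfl
    · exact absurd h hc
  have h12 : (1 : ℝ) ≤ 12 ^ w.length := one_le_pow₀ (by norm_num)
  have hR : (1000 : ℝ) ≤ 2000 * 12 ^ w.length := by linarith
  obtain ⟨g, hg0, hg, hclose⟩ := exists_closing hR (ltr w) w.length hn
  have had := adm_of hR hg0 hg.le
  generalize hRR : (2000 * 12 ^ w.length : ℝ) = R at *
  have hlast : ltr w w.length = ltr w 0 := by simpa using ltr_add w 0
  have h0 : Closes w (fun i => elt R (R - 1 - g) (ltr w i) (orb R (R - 1 - g) (ltr w) 0 i)) := by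
    show elt _ _ (ltr w w.length) (orb _ _ (ltr w) 0 w.length) = elt _ _ (ltr w 0) 0
    rw [hlast, hclose]
    simpa using elt_periodic R (R - 1 - g) (ltr w 0) 0
  have hall : ∀ x, (∃ k : ℤ, orb R (R - 1 - g) (ltr w) x w.length = x + 2 * π * k) ∨
      (∃ k : ℤ, orb R (R - 1 - g) (ltr w) (-x) w.length = -x + 2 * π * k) := by
    intro x
    obtain ⟨u, hu, hu0, hcu⟩ := hw.1 (std _ _ had) ⟨_, isChain_orb had w 0, h0⟩ _
      (isElt had (ltr w 0) x)
    unfold Closes at hcu
    obtain ⟨y, hy | hy⟩ := complete_std had w (by omega) u hu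
    · left
      have e0 := hy 0 (by omega)
      rw [hu0] at e0
      obtain ⟨k, hk⟩ := elt_eq had e0
      have hk : x = y + 2 * π * k := hk
      rw [hy _ le_rfl, hy 0 (by omega), hlast] at hcu
      obtain ⟨l, hl⟩ := elt_eq had hcu
      have hl : orb R (R - 1 - g) (ltr w) y w.length = y + 2 * π * l := hl
      refine ⟨l, ?_⟩
      rw [hk, orb_int, hl]; ring
    · right
      have e0 := hy 0 (by omega)
      rw [hu0] at e0
      obtain ⟨k, hk⟩ := elt_eq had e0
      have hk : x = -y + 2 * π * k := hk
      rw [hy _ le_rfl, hy 0 (by omega), hlast] at hcu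
      obtain ⟨l, hl⟩ := elt_eq had hcu
      have hl : -(orb R (R - 1 - g) (ltr w) y w.length) = -y + 2 * π * l := hl
      refine ⟨-l, ?_⟩
      have e1 : -x = y + 2 * π * ((-k : ℤ) : ℝ) := by push_cast; linarith
      rw [e1, orb_int]; push_cast; linarith
  have h1 := all_one' had (ltr w) w.length hclose hall
  have hper : ∀ i, ltr w (i + w.length) = ltr w i := ltr_add w
  have h2 := orb_shift had (ltr w) w.length hper h1 (j + 1)
  apply no_id hg0 hg.le w.length hn hRR.le (fun k => ltr w (j + 1 + k)) _ _ _ h2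
  · exact hper (j + 1)
  · show ltr w (j + 1 + (w.length - 1)) = .s
    have : j + 1 + (w.length - 1) = j + w.length := by omega
    rw [this, hper]; exact hj
  · exact hc

theorem classification_weak (w : List Letter) (hne : w ≠ []) (hw : IsClosureSeqWeak w) :
    Listed w := by
  obtain ⟨a, u, hu, hc⟩ := hw.2
  have hn := length_ge_three hne a u hu hc
  exact listed_of_per hn (fun j hj => per_two' hn hw j hj)

end Pool.Agent.R762.Mx
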