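import Mathlib
import Pool.Agent.R762.Mx12
import Pool.Agent.R762.Mx14

/-!
Both readings of the definition of a closure sequence give the same words.
-/

namespace Pool.Agent.R762.Mx

open Real

theorem sim_left_inv {c : ℂ} (hc : c ≠ 0) (z₀ z : ℂ) :
    sim c⁻¹ (-(c * z₀)) (sim c z₀ z) = z := by
  rw [sim_apply, sim_apply]; field_simp; ring

theorem sim_image_inv {c : ℂ} (hc : c ≠ 0) (z₀ : ℂ) (s : Set ℂ) :
    sim c⁻¹ (-(c * z₀)) '' (sim c z₀ '' s) = s := by
  rw [Set.image_image]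
  simp only [sim_left_inv hc]
  simp

/-- from every initial element of every annulus there starts a chain -/
theorem exists_chain (w : List Letter) (a : Annulus) (U : Set ℂ) (hU : IsElt a (ltr w 0) U) :
    ∃ u, IsChain a w u ∧ u 0 = U := by
  obtain ⟨c, hc, had, ho, hi, hr⟩ := normalise a
  -- the element as a chain of length zero letters: transport it by hand
  have hk : 0 < ‖c‖ := norm_pos_iff.2 hc
  have hU' : IsElt (std _ _ had) (ltr w 0) (sim c a.I '' U) := by
    cases hA : ltr w 0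
    · rw [hA] at hU
      obtain ⟨P, ρ, hρ, heq, hsub, ⟨t, ht⟩, ⟨t', ht'⟩⟩ := hU
      refine ⟨sim c a.I P, ‖c‖ * ρ, by positivity, ?_, ?_, ⟨sim c a.I t, ?_⟩, ⟨sim c a.I t', ?_⟩⟩
      · simp only [heq, sim_sphere hc]
      · intro y hy
        obtain ⟨z, rfl⟩ := sim_surj hc a.I y
        rw [hr]
        apply hsub
        rw [Metric.mem_closedBall, sim_dist] at hy
        exact le_of_mul_le_mul_left hy hk
      · rw [← hi]; exact sim_meet hc a.I ht
      · rw [← ho]; exact sim_meet hc a.I ht'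
    · rw [hA] at hU
      obtain ⟨x, y, hx, hy, hne, heq, ⟨t, ht⟩⟩ := hU
      refine ⟨sim c a.I x, sim c a.I y, ?_, ?_, ?_, ?_, ⟨sim c a.I t, ?_⟩⟩
      · rw [← ho]; exact Set.mem_image_of_mem _ hx
      · rw [← ho]; exact Set.mem_image_of_mem _ hy
      · intro h; exact hne (sim_inj hc a.I h)
      · simp only [heq]; exact image_segment ℝ (sim c a.I) x y
      · rw [← hi]; exact sim_meet hc a.I ht
  obtain ⟨x, hx⟩ := elt_std had _ _ hU'
  have hch := isChain_orb had w x
  have hc' : c⁻¹ ≠ 0 := inv_ne_zero hc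
  refine ⟨_, transport (std _ _ had) a c⁻¹ hc' (-(c * a.I)) ?_ ?_ ?_ w _ hch, ?_⟩
  · rw [← ho]; exact sim_image_inv hc a.I _
  · rw [← hi]; exact sim_image_inv hc a.I _
  · intro z
    obtain ⟨y, rfl⟩ := sim_surj hc a.I z
    rw [sim_left_inv hc]
    exact (hr y).symm
  · show sim c⁻¹ (-(c * a.I)) '' (elt _ _ (ltr w 0) x) = U
    rw [← hx]; exact sim_image_inv hc a.I U

theorem weak_of_strong (w : List Letter) (h : IsClosureSeq w) : IsClosureSeqWeak w := by
  refine ⟨fun a ha U hU => ?_, h.2⟩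
  obtain ⟨u, hu, hu0⟩ := exists_chain w a U hU
  exact ⟨u, hu, hu0, h.1 a ha u hu⟩

theorem closure_tfae (w : List Letter) (hne : w ≠ []) :
    (IsClosureSeqWeak w ↔ Listed w) ∧ (IsClosureSeq w ↔ Listed w) :=
  ⟨⟨classification_weak w hne, fun h => weak_of_strong w (closure_of_listed h)⟩,
    closure_iff w hne⟩

end Pool.Agent.R762.Mx
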