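import Mathlib

/-! Nondegenerate closed curves: coordinate functions, the oscillator equation, and the step from
`ℝ^k` to `ℝ^(k+2)`. -/

set_option autoImplicit false

namespace Pool.Agent.R762.ND

open Real
open scoped ContDiff

/-- the `k` functions `V i` are the coordinates of a curve which is nondegenerate at all points, in
dual form: no nontrivial linear combination has vanishing derivatives of the orders `1, …, k` at
a point -/
def Nondeg (k : ℕ) (V : Fin k → ℝ → ℝ) : Prop :=
  ∀ t (a : Fin k → ℝ),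
    (∀ j, 1 ≤ j → j ≤ k → iteratedDeriv j (fun s => ∑ i, a i * V i s) t = 0) → a = 0

lemma smooth_of_deriv {f g : ℝ → ℝ} (hg : ContDiff ℝ ∞ g) (h : ∀ t, HasDerivAt f (g t) t) :
    ContDiff ℝ ∞ f := by
  rw [contDiff_infty_iff_deriv]
  refine ⟨fun t => (h t).differentiableAt, ?_⟩
  have : deriv f = g := funext fun t => (h t).deriv
  rw [this]; exact hg

/-- The oscillator equation with a smooth right side of period `π` has a solution of period `π`. -/
lemma osc {F : ℝ → ℝ} (hF : ContDiff ℝ ∞ F) (hper : ∀ t, F (t + π) = F t) :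
    ∃ W : ℝ → ℝ, ContDiff ℝ ∞ W ∧ (∀ t, W (t + π) = W t) ∧
      ∀ t, iteratedDeriv 2 W t + W t = F t := by
  have cF : Continuous F := hF.continuous
  obtain ⟨C, hC⟩ : ∃ C : ℝ → ℝ, C = fun t => ∫ s in (0:ℝ)..t, cos s * F s := ⟨_, rfl⟩
  obtain ⟨S, hS⟩ : ∃ S : ℝ → ℝ, S = fun t => ∫ s in (0:ℝ)..t, sin s * F s := ⟨_, rfl⟩
  have cc : Continuous fun s => cos s * F s := by fun_prop
  have cs : Continuous fun s => sin s * F s := by fun_prop
  have dC : ∀ t, HasDerivAt C (cos t * F t) t := by
    intro t; rw [hC]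
    exact intervalIntegral.integral_hasDerivAt_right (cc.intervalIntegrable _ _)
      cc.aestronglyMeasurable.stronglyMeasurableAtFilter cc.continuousAt
  have dS : ∀ t, HasDerivAt S (sin t * F t) t := by
    intro t; rw [hS]
    exact intervalIntegral.integral_hasDerivAt_right (cs.intervalIntegrable _ _)
      cs.aestronglyMeasurable.stronglyMeasurableAtFilter cs.continuousAt
  have sC : ContDiff ℝ ∞ C := smooth_of_deriv (contDiff_cos.mul hF) dC
  have sS : ContDiff ℝ ∞ S := smooth_of_deriv (contDiff_sin.mul hF) dS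
  have pC : ∀ t, C (t + π) = C π - C t := by
    intro t
    have h1 : C (t + π) = C π + ∫ s in π..(t + π), cos s * F s := by
      rw [hC]
      exact (intervalIntegral.integral_add_adjacent_intervals (cc.intervalIntegrable _ _)
        (cc.intervalIntegrable _ _)).symm
    have h2 : ∫ s in π..(t + π), cos s * F s = ∫ s in (0:ℝ)..t, cos (s + π) * F (s + π) := by
      rw [intervalIntegral.integral_comp_add_right (fun s => cos s * F s) π, zero_add]
    have h3 : ∫ s in (0:ℝ)..t, cos (s + π) * F (s + π) = - C t := by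
      rw [hC]
      simp only [Real.cos_add_pi, hper, neg_mul]
      rw [intervalIntegral.integral_neg]
    rw [h1, h2, h3]; ring
  have pS : ∀ t, S (t + π) = S π - S t := by
    intro t
    have h1 : S (t + π) = S π + ∫ s in π..(t + π), sin s * F s := by
      rw [hS]
      exact (intervalIntegral.integral_add_adjacent_intervals (cs.intervalIntegrable _ _)
        (cs.intervalIntegrable _ _)).symm
    have h2 : ∫ s in π..(t + π), sin s * F s = ∫ s in (0:ℝ)..t, sin (s + π) * F (s + π) := by
      rw [intervalIntegral.integral_comp_add_right (fun s => sin s * F s) π, zero_add]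
    have h3 : ∫ s in (0:ℝ)..t, sin (s + π) * F (s + π) = - S t := by
      rw [hS]
      simp only [Real.sin_add_pi, hper, neg_mul]
      rw [intervalIntegral.integral_neg]
    rw [h1, h2, h3]; ring
  obtain ⟨a, ha⟩ : ∃ a, a = C π := ⟨_, rfl⟩
  obtain ⟨b, hb⟩ : ∃ b, b = S π := ⟨_, rfl⟩
  have d1 : ∀ t, HasDerivAt (fun t => sin t * (C t - a / 2) - cos t * (S t - b / 2))
      (cos t * (C t - a / 2) + sin t * (S t - b / 2)) t := by
    intro t
    have := ((hasDerivAt_sin t).mul ((dC t).sub_const (a / 2))).sub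
      ((hasDerivAt_cos t).mul ((dS t).sub_const (b / 2)))
    exact this.congr_deriv (by ring)
  have d2 : ∀ t, HasDerivAt (fun t => cos t * (C t - a / 2) + sin t * (S t - b / 2))
      (F t - (sin t * (C t - a / 2) - cos t * (S t - b / 2))) t := by
    intro t
    have := ((hasDerivAt_cos t).mul ((dC t).sub_const (a / 2))).add
      ((hasDerivAt_sin t).mul ((dS t).sub_const (b / 2)))
    refine this.congr_deriv ?_
    have := sin_sq_add_cos_sq t
    linear_combination (F t) * this
  refine ⟨fun t => sin t * (C t - a / 2) - cos t * (S t - b / 2), ?_, ?_, ?_⟩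
  · exact (contDiff_sin.mul (sC.sub contDiff_const)).sub (contDiff_cos.mul (sS.sub contDiff_const))
  · intro t
    simp only [Real.sin_add_pi, Real.cos_add_pi, pC, pS, ← ha, ← hb]
    ring
  · intro t
    rw [iteratedDeriv_succ, iteratedDeriv_one]
    have e : deriv (fun t => sin t * (C t - a / 2) - cos t * (S t - b / 2)) =
        fun t => cos t * (C t - a / 2) + sin t * (S t - b / 2) := funext fun t => (d1 t).deriv
    rw [e, (d2 t).deriv]
    ring

lemma iter_add {f g : ℝ → ℝ} (hf : ContDiff ℝ ∞ f) (hg : ContDiff ℝ ∞ g) (j : ℕ) (t : ℝ) :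
    iteratedDeriv j (fun s => f s + g s) t = iteratedDeriv j f t + iteratedDeriv j g t := by
  have h1 : ContDiffAt ℝ (j : ℕ∞ω) f t := (contDiff_infty.1 hf j).contDiffAt
  have h2 : ContDiffAt ℝ (j : ℕ∞ω) g t := (contDiff_infty.1 hg j).contDiffAt
  exact iteratedDeriv_add h1 h2

lemma iter_smooth {f : ℝ → ℝ} (hf : ContDiff ℝ ∞ f) (j : ℕ) : ContDiff ℝ ∞ (iteratedDeriv j f) := by
  induction j with
  | zero => simpa using hf
  | succ j ih =>
    rw [iteratedDeriv_succ]
    exact (contDiff_infty_iff_deriv.1 ih).2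

lemma iter_shift {f : ℝ → ℝ} (i j : ℕ) : iteratedDeriv i (iteratedDeriv j f) = iteratedDeriv (i + j) f := by
  rw [iteratedDeriv_eq_iterate, iteratedDeriv_eq_iterate, iteratedDeriv_eq_iterate,
    Function.iterate_add_apply]

lemma sum_smooth {k : ℕ} {V : Fin k → ℝ → ℝ} (hV : ∀ i, ContDiff ℝ ∞ (V i)) (a : Fin k → ℝ) :
    ContDiff ℝ ∞ fun s => ∑ i, a i * V i s :=
  ContDiff.sum fun i _ => contDiff_const.mul (hV i)

/-- The step from dimension `k` to dimension `k + 2`. -/
lemma step {k : ℕ} {V W : Fin k → ℝ → ℝ} (hV : ∀ i, ContDiff ℝ ∞ (V i)) (hN : Nondeg k V)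
    (hW : ∀ i, ContDiff ℝ ∞ (W i)) (hVW : ∀ i t, iteratedDeriv 2 (W i) t + W i t = V i (2 * t))
    {ε : ℝ} (hε : ε ≠ 0) :
    Nondeg (k + 2) (Fin.cons cos (Fin.cons sin fun i t => ε * W i t) : Fin (k + 2) → ℝ → ℝ) := by
  intro t a h
  obtain ⟨b, hb⟩ : ∃ b : Fin k → ℝ, b = fun i => ε * a i.succ.succ := ⟨_, rfl⟩
  have hg : (fun s => ∑ i, a i *
      (Fin.cons cos (Fin.cons sin fun i t => ε * W i t) : Fin (k + 2) → ℝ → ℝ) i s) =
      fun s => (a 0 * cos s + a 1 * sin s) + ∑ i, b i * W i s := by
    funext s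
    rw [Fin.sum_univ_succ, Fin.sum_univ_succ]
    simp only [Fin.cons_zero, Fin.cons_succ, hb]
    rw [← add_assoc]
    congr 1
    exact Finset.sum_congr rfl fun i _ => by ring
  rw [hg] at h
  obtain ⟨u, hu⟩ : ∃ u : ℝ → ℝ, u = fun s => a 0 * cos s + a 1 * sin s := ⟨_, rfl⟩
  obtain ⟨w, hw⟩ : ∃ w : ℝ → ℝ, w = fun s => ∑ i, b i * W i s := ⟨_, rfl⟩
  have su : ContDiff ℝ ∞ u := by
    rw [hu]; exact (contDiff_const.mul contDiff_cos).add (contDiff_const.mul contDiff_sin)
  have sw : ContDiff ℝ ∞ w := by rw [hw]; exact sum_smooth hW b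
  have du1 : ∀ s, HasDerivAt u (-a 0 * sin s + a 1 * cos s) s := by
    intro s; rw [hu]
    have := ((hasDerivAt_cos s).const_mul (a 0)).add ((hasDerivAt_sin s).const_mul (a 1))
    exact this.congr_deriv (by ring)
  have du2 : ∀ s, HasDerivAt (fun s => -a 0 * sin s + a 1 * cos s) (-u s) s := by
    intro s; rw [hu]
    have := ((hasDerivAt_sin s).const_mul (-a 0)).add ((hasDerivAt_cos s).const_mul (a 1))
    exact this.congr_deriv (by ring)
  have eu1 : deriv u = fun s => -a 0 * sin s + a 1 * cos s := funext fun s => (du1 s).deriv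
  have eu2 : iteratedDeriv 2 u = fun s => -u s := by
    rw [iteratedDeriv_succ, iteratedDeriv_one, eu1]
    exact funext fun s => (du2 s).deriv
  -- the sum `g'' + g`
  have hgg : ∀ s, iteratedDeriv 2 (fun s => u s + w s) s + (u s + w s) =
      ∑ i, b i * V i (2 * s) := by
    intro s
    rw [iter_add su sw, eu2]
    have : iteratedDeriv 2 w s = ∑ i, b i * iteratedDeriv 2 (W i) s := by
      rw [hw]
      have e : (fun s => ∑ i, b i * W i s) = ∑ i, fun s => b i * W i s := by
        funext s; rw [Finset.sum_apply]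
      rw [e, iteratedDeriv_sum]
      · refine Finset.sum_congr rfl fun i _ => ?_
        rw [iteratedDeriv_const_mul]
        exact (contDiff_infty.1 (hW i) 2).contDiffAt
      · intro i _
        exact (contDiff_infty.1 (contDiff_const.mul (hW i)) 2).contDiffAt
    rw [this, hw]
    simp only
    have e : ∑ i, b i * V i (2 * s) = ∑ i, b i * iteratedDeriv 2 (W i) s + ∑ i, b i * W i s := by
      rw [← Finset.sum_add_distrib]
      exact Finset.sum_congr rfl fun i _ => by rw [← hVW]; ring
    rw [e]; ring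
  have sg : ContDiff ℝ ∞ fun s => u s + w s := su.add sw
  have h0 : ∀ j, 1 ≤ j → j ≤ k + 2 → iteratedDeriv j (fun s => u s + w s) t = 0 := by
    intro j h1 h2
    have := h j h1 h2
    rw [hu, hw]; exact this
  have hb0 : b = 0 := by
    apply hN (2 * t) b
    intro j h1 h2
    have e1 : (fun s => iteratedDeriv 2 (fun s => u s + w s) s + (u s + w s)) =
        fun s => (fun r => ∑ i, b i * V i r) (2 * s) := funext fun s => hgg s
    have e2 : iteratedDeriv j (fun s => iteratedDeriv 2 (fun s => u s + w s) s + (u s + w s)) t =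
        0 := by
      rw [iter_add (iter_smooth sg 2) sg, iter_shift, h0 _ (by omega) (by omega),
        h0 _ (by omega) (by omega), add_zero]
    rw [e1, iteratedDeriv_comp_const_mul (contDiff_infty.1 (sum_smooth hV b) j)] at e2
    simpa using e2
  have ha : ∀ i : Fin k, a i.succ.succ = 0 := by
    intro i
    have := congrFun hb0 i
    rw [hb] at this
    simpa [hε] using this
  have hw0 : w = fun _ => 0 := by
    rw [hw]; funext s; simp [hb0]
  have h1 := h0 1 le_rfl (by omega)
  have h2 := h0 2 (by omega) (by omega)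
  have euw : (fun s => u s + w s) = u := by rw [hw0]; simp
  rw [euw] at h1 h2
  rw [iteratedDeriv_one, eu1] at h1
  rw [eu2, hu] at h2
  simp only at h1 h2
  have hs := sin_sq_add_cos_sq t
  have a0 : a 0 = 0 := by
    linear_combination (-sin t) * h1 + (-cos t) * h2 - a 0 * hs
  have a1 : a 1 = 0 := by
    linear_combination (cos t) * h1 + (-sin t) * h2 - a 1 * hs
  funext i
  refine Fin.cases a0 (fun i => ?_) i
  refine Fin.cases a1 (fun i => ?_) i
  exact ha i

end Pool.Agent.R762.ND
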