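import Mathlib
import Pool.Agent.R762.ND

/-! Nondegenerate closed curves near the circle: existence in all dimensions at least `4`. -/

set_option autoImplicit false

namespace Pool.Agent.R762.ND

open Real
open scoped ContDiff

/-- coordinates of a smooth closed nondegenerate curve in `ℝ^k` -/
def Ex (k : ℕ) : Prop := ∃ V : Fin k → ℝ → ℝ, (∀ i, ContDiff ℝ ∞ (V i)) ∧
  (∀ i t, V i (t + 2 * π) = V i t) ∧ Nondeg k V

lemma iter1 {f g : ℝ → ℝ} (h : ∀ t, HasDerivAt f (g t) t) : iteratedDeriv 1 f = g := by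
  rw [iteratedDeriv_one]; exact funext fun t => (h t).deriv

lemma iter2 {f g k : ℝ → ℝ} (h : ∀ t, HasDerivAt f (g t) t) (h' : ∀ t, HasDerivAt g (k t) t) :
    iteratedDeriv 2 f = k := by
  rw [iteratedDeriv_succ, iter1 h]; exact funext fun t => (h' t).deriv

lemma iter3 {f g k l : ℝ → ℝ} (h : ∀ t, HasDerivAt f (g t) t) (h' : ∀ t, HasDerivAt g (k t) t)
    (h'' : ∀ t, HasDerivAt k (l t) t) : iteratedDeriv 3 f = l := by
  rw [iteratedDeriv_succ, iter2 h h']; exact funext fun t => (h'' t).deriv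

lemma ex_two : Ex 2 := by
  refine ⟨![cos, sin], ?_, ?_, ?_⟩
  · intro i; fin_cases i
    · exact contDiff_cos
    · exact contDiff_sin
  · intro i t; fin_cases i
    · exact cos_add_two_pi t
    · exact sin_add_two_pi t
  · intro t a h
    have e : (fun s => ∑ i, a i * (![cos, sin] : Fin 2 → ℝ → ℝ) i s) =
        fun s => a 0 * cos s + a 1 * sin s := by
      funext s; simp [Fin.sum_univ_two]
    rw [e] at h
    have d1 : ∀ s, HasDerivAt (fun s => a 0 * cos s + a 1 * sin s)
        (-a 0 * sin s + a 1 * cos s) s := fun s =>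
      (((hasDerivAt_cos s).const_mul (a 0)).add ((hasDerivAt_sin s).const_mul (a 1))).congr_deriv
        (by ring)
    have d2 : ∀ s, HasDerivAt (fun s => -a 0 * sin s + a 1 * cos s)
        (-a 0 * cos s - a 1 * sin s) s := fun s =>
      (((hasDerivAt_sin s).const_mul (-a 0)).add ((hasDerivAt_cos s).const_mul (a 1))).congr_deriv
        (by ring)
    have h1 := h 1 le_rfl (by norm_num)
    have h2 := h 2 (by norm_num) le_rfl
    rw [iter1 d1] at h1
    rw [iter2 d1 d2] at h2
    have hs := sin_sq_add_cos_sq t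
    funext i; fin_cases i
    · change a 0 = 0
      linear_combination (-sin t) * h1 + (-cos t) * h2 - a 0 * hs
    · change a 1 = 0
      linear_combination (cos t) * h1 + (-sin t) * h2 - a 1 * hs

lemma cramer3 {m11 m12 m13 m21 m22 m23 m31 m32 m33 a b c : ℝ}
    (h1 : a * m11 + b * m12 + c * m13 = 0) (h2 : a * m21 + b * m22 + c * m23 = 0)
    (h3 : a * m31 + b * m32 + c * m33 = 0)
    (hD : m11 * (m22 * m33 - m23 * m32) - m12 * (m21 * m33 - m23 * m31) +
      m13 * (m21 * m32 - m22 * m31) ≠ 0) : a = 0 ∧ b = 0 ∧ c = 0 := by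
  refine ⟨?_, ?_, ?_⟩
  · apply (mul_eq_zero.1 (show (m11 * (m22 * m33 - m23 * m32) - m12 * (m21 * m33 - m23 * m31) +
      m13 * (m21 * m32 - m22 * m31)) * a = 0 by
        linear_combination (m22 * m33 - m23 * m32) * h1 - (m12 * m33 - m13 * m32) * h2 +
          (m12 * m23 - m13 * m22) * h3)).resolve_left hD
  · apply (mul_eq_zero.1 (show (m11 * (m22 * m33 - m23 * m32) - m12 * (m21 * m33 - m23 * m31) +
      m13 * (m21 * m32 - m22 * m31)) * b = 0 by
        linear_combination (-(m21 * m33 - m23 * m31)) * h1 + (m11 * m33 - m13 * m31) * h2 -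
          (m11 * m23 - m13 * m21) * h3)).resolve_left hD
  · apply (mul_eq_zero.1 (show (m11 * (m22 * m33 - m23 * m32) - m12 * (m21 * m33 - m23 * m31) +
      m13 * (m21 * m32 - m22 * m31)) * c = 0 by
        linear_combination (m21 * m32 - m22 * m31) * h1 - (m11 * m32 - m12 * m31) * h2 +
          (m11 * m22 - m12 * m21) * h3)).resolve_left hD

/-- The closed curve `(2 cos t + cos 2t, 2 sin t - sin 2t, sin 3t)` is nondegenerate. -/
lemma ex_three : Ex 3 := by
  refine ⟨![fun t => 2 * cos t + cos (2 * t), fun t => 2 * sin t - sin (2 * t),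
    fun t => sin (3 * t)], ?_, ?_, ?_⟩
  · intro i; fin_cases i
    · show ContDiff ℝ ∞ fun t : ℝ => 2 * cos t + cos (2 * t)
      fun_prop
    · show ContDiff ℝ ∞ fun t : ℝ => 2 * sin t - sin (2 * t)
      fun_prop
    · show ContDiff ℝ ∞ fun t : ℝ => sin (3 * t)
      fun_prop
  · intro i t; fin_cases i
    · show 2 * cos (t + 2 * π) + cos (2 * (t + 2 * π)) = 2 * cos t + cos (2 * t)
      rw [cos_add_two_pi, show 2 * (t + 2 * π) = 2 * t + 2 * π + 2 * π by ring, cos_add_two_pi,
        cos_add_two_pi]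
    · show 2 * sin (t + 2 * π) - sin (2 * (t + 2 * π)) = 2 * sin t - sin (2 * t)
      rw [sin_add_two_pi, show 2 * (t + 2 * π) = 2 * t + 2 * π + 2 * π by ring, sin_add_two_pi,
        sin_add_two_pi]
    · show sin (3 * (t + 2 * π)) = sin (3 * t)
      rw [show 3 * (t + 2 * π) = 3 * t + 2 * π + 2 * π + 2 * π by ring, sin_add_two_pi,
        sin_add_two_pi, sin_add_two_pi]
  · intro t a h
    have e : (fun s => ∑ i, a i * (![fun t => 2 * cos t + cos (2 * t),
        fun t => 2 * sin t - sin (2 * t), fun t => sin (3 * t)] : Fin 3 → ℝ → ℝ) i s) =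
        fun s => a 0 * (2 * cos s + cos (2 * s)) + a 1 * (2 * sin s - sin (2 * s)) +
          a 2 * sin (3 * s) := by
      funext s; simp [Fin.sum_univ_three]
    rw [e] at h
    have hc : ∀ (k s : ℝ), HasDerivAt (fun s => cos (k * s)) (-(k * sin (k * s))) s := fun k s => by
      have h1 : HasDerivAt (fun s : ℝ => k * s) k s := by
        simpa using (hasDerivAt_id s).const_mul k
      exact ((hasDerivAt_cos (k * s)).comp s h1).congr_deriv (by ring)
    have hs : ∀ (k s : ℝ), HasDerivAt (fun s => sin (k * s)) (k * cos (k * s)) s := fun k s => by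
      have h1 : HasDerivAt (fun s : ℝ => k * s) k s := by
        simpa using (hasDerivAt_id s).const_mul k
      exact ((hasDerivAt_sin (k * s)).comp s h1).congr_deriv (by ring)
    have d1 : ∀ s, HasDerivAt (fun s => a 0 * (2 * cos s + cos (2 * s)) +
        a 1 * (2 * sin s - sin (2 * s)) + a 2 * sin (3 * s))
        (a 0 * (-2 * sin s - 2 * sin (2 * s)) + a 1 * (2 * cos s - 2 * cos (2 * s)) +
          a 2 * (3 * cos (3 * s))) s := fun s =>
      ((((((hasDerivAt_cos s).const_mul 2).add (hc 2 s)).const_mul (a 0)).add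
        ((((hasDerivAt_sin s).const_mul 2).sub (hs 2 s)).const_mul (a 1))).add
        ((hs 3 s).const_mul (a 2))).congr_deriv (by ring)
    have d2 : ∀ s, HasDerivAt (fun s => a 0 * (-2 * sin s - 2 * sin (2 * s)) +
        a 1 * (2 * cos s - 2 * cos (2 * s)) + a 2 * (3 * cos (3 * s)))
        (a 0 * (-2 * cos s - 4 * cos (2 * s)) + a 1 * (-2 * sin s + 4 * sin (2 * s)) +
          a 2 * (-9 * sin (3 * s))) s := fun s =>
      ((((((hasDerivAt_sin s).const_mul (-2)).sub ((hs 2 s).const_mul 2)).const_mul (a 0)).add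
        ((((hasDerivAt_cos s).const_mul 2).sub ((hc 2 s).const_mul 2)).const_mul (a 1))).add
        (((hc 3 s).const_mul 3).const_mul (a 2))).congr_deriv (by ring)
    have d3 : ∀ s, HasDerivAt (fun s => a 0 * (-2 * cos s - 4 * cos (2 * s)) +
        a 1 * (-2 * sin s + 4 * sin (2 * s)) + a 2 * (-9 * sin (3 * s)))
        (a 0 * (2 * sin s + 8 * sin (2 * s)) + a 1 * (-2 * cos s + 8 * cos (2 * s)) +
          a 2 * (-27 * cos (3 * s))) s := fun s =>
      ((((((hasDerivAt_cos s).const_mul (-2)).sub ((hc 2 s).const_mul 4)).const_mul (a 0)).add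
        ((((hasDerivAt_sin s).const_mul (-2)).add ((hs 2 s).const_mul 4)).const_mul (a 1))).add
        (((hs 3 s).const_mul (-9)).const_mul (a 2))).congr_deriv (by ring)
    have h1 := h 1 le_rfl (by norm_num)
    have h2 := h 2 (by norm_num) (by norm_num)
    have h3 := h 3 (by norm_num) le_rfl
    rw [iter1 d1] at h1
    rw [iter2 d1 d2] at h2
    rw [iter3 d1 d2 d3] at h3
    beta_reduce at h1 h2 h3
    obtain ⟨c, hcdef⟩ : ∃ c, c = cos t := ⟨_, rfl⟩
    obtain ⟨s, hsdef⟩ : ∃ s, s = sin t := ⟨_, rfl⟩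
    have hsc : s ^ 2 + c ^ 2 = 1 := by rw [hcdef, hsdef]; exact sin_sq_add_cos_sq t
    have e1 : cos (2 * t) = 2 * c ^ 2 - 1 := by rw [hcdef]; exact cos_two_mul t
    have e2 : sin (2 * t) = 2 * s * c := by rw [hcdef, hsdef]; exact sin_two_mul t
    have e3 : cos (3 * t) = 4 * c ^ 3 - 3 * c := by rw [hcdef]; exact cos_three_mul t
    have e4 : sin (3 * t) = 3 * s - 4 * s ^ 3 := by rw [hsdef]; exact sin_three_mul t
    rw [e1, e2, e3, ← hcdef, ← hsdef] at h1
    rw [e1, e2, e4, ← hcdef, ← hsdef] at h2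
    rw [e1, e2, e3, ← hcdef, ← hsdef] at h3
    obtain ⟨q, hq⟩ : ∃ q, q = 4 * c ^ 3 - 3 * c := ⟨_, rfl⟩
    have hdet : 0 < 24 * q ^ 2 - 24 * q + 108 := by nlinarith [sq_nonneg (2 * q - 1)]
    obtain ⟨a0, a1, a2⟩ := cramer3 h1 h2 h3 (by
      intro hD
      apply hdet.ne'
      rw [hq]
      linear_combination (-1) * hD + (1728*s^2*c^2 - 432*s^2 + 1920*c^5 - 672*c^4 - 1824*c^3 +
        72*c^2 + 288*c - 108) * hsc)
    funext i; fin_cases i
    · exact a0
    · exact a1
    · exact a2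


lemma iter_scale {f : ℝ → ℝ} (hf : ContDiff ℝ ∞ f) (ε : ℝ) (j : ℕ) (t : ℝ) :
    iteratedDeriv j (fun s => ε * f s) t = ε * iteratedDeriv j f t :=
  iteratedDeriv_const_mul ε (contDiff_infty.1 hf j).contDiffAt

/-- Solutions of the oscillator equation for a whole curve. -/
lemma ex_osc {k : ℕ} {V : Fin k → ℝ → ℝ} (hV : ∀ i, ContDiff ℝ ∞ (V i))
    (hp : ∀ i t, V i (t + 2 * π) = V i t) :
    ∃ W : Fin k → ℝ → ℝ, (∀ i, ContDiff ℝ ∞ (W i)) ∧ (∀ i t, W i (t + 2 * π) = W i t) ∧
      ∀ i t, iteratedDeriv 2 (W i) t + W i t = V i (2 * t) := by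
  have h : ∀ i, ∃ W : ℝ → ℝ, ContDiff ℝ ∞ W ∧ (∀ t, W (t + π) = W t) ∧
      ∀ t, iteratedDeriv 2 W t + W t = V i (2 * t) := by
    intro i
    apply osc (F := fun t => V i (2 * t))
    · exact (hV i).comp (contDiff_const.mul contDiff_id)
    · intro t
      rw [mul_add, hp]
  choose W h1 h2 h3 using h
  refine ⟨W, h1, fun i t => ?_, h3⟩
  rw [show t + 2 * π = t + π + π by ring, h2, h2]

lemma ex_step {k : ℕ} (h : Ex k) : Ex (k + 2) := by
  obtain ⟨V, hV, hp, hN⟩ := h
  obtain ⟨W, hW, hWp, hVW⟩ := ex_osc hV hp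
  refine ⟨_, ?_, ?_, step hV hN hW hVW one_ne_zero⟩
  · intro i
    refine Fin.cases contDiff_cos (fun i => ?_) i
    refine Fin.cases contDiff_sin (fun i => ?_) i
    exact contDiff_const.mul (hW i)
  · intro i t
    refine Fin.cases (cos_add_two_pi t) (fun i => ?_) i
    refine Fin.cases (sin_add_two_pi t) (fun i => ?_) i
    simp only [Fin.cons_succ, hWp]

lemma ex_all : ∀ k, 2 ≤ k → Ex k
  | 0, h => by omega
  | 1, h => by omega
  | 2, _ => ex_two
  | 3, _ => ex_three
  | k + 4, _ => ex_step (ex_all (k + 2) (by omega))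

/-- a continuous periodic function is bounded -/
lemma bdd_of_per {f : ℝ → ℝ} (hf : Continuous f) (hp : ∀ t, f (t + 2 * π) = f t) :
    ∃ B, ∀ t, |f t| ≤ B := by
  have hper : Function.Periodic f (2 * π) := hp
  obtain ⟨B, hB⟩ := (isCompact_Icc (a := (0:ℝ)) (b := 2 * π)).exists_bound_of_continuousOn
    hf.continuousOn
  refine ⟨B, fun t => ?_⟩
  obtain ⟨y, hy, e⟩ := hper.exists_mem_Ico₀ Real.two_pi_pos t
  rw [e]
  have := hB y ⟨hy.1, hy.2.le⟩
  rwa [Real.norm_eq_abs] at this

lemma iter_per {f : ℝ → ℝ} (hp : ∀ t, f (t + 2 * π) = f t) (j : ℕ) (t : ℝ) :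
    iteratedDeriv j f (t + 2 * π) = iteratedDeriv j f t := by
  have h : (fun s => f (s + 2 * π)) = f := funext hp
  have := iteratedDeriv_comp_add_const j f (2 * π)
  have h2 := congrFun this t
  rw [h] at h2
  exact h2.symm

end Pool.Agent.R762.ND
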