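import Pool.Agent.Y535.PEG.ExD

/-! Charges: arcs along which a direction is avoided. -/

set_option autoImplicit false
set_option maxHeartbeats 1000000
open Complex Set Topology Metric

namespace Pool.Agent.R762.Pg

open Pool.Agent.H763R2 Pool.Agent.H763R2.An Pool.Agent.W675.Peg Pool.Agent.TH569.Peg
  Pool.Agent.Y535.PEG
open Pool.Agent.H763R2.Dm (NoSq floor_const)

variable {c : ℝ → ℂ} {θ : ℝ → ℝ → ℝ} {g : ℤ}

theorem posq {x : ℝ} (hc : 0 < Real.cos x) (hs : 0 < Real.sin x) :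
    ∃ m : ℤ, ⌊x / Real.pi⌋ = 2 * m ∧ ⌊(x - 5 * Real.pi / 4) / 2 / Real.pi⌋ = m - 1 := by
  have hπ := Real.pi_pos
  obtain ⟨h1, h2⟩ := half_fl (mul_pos hc hs)
  rcases Int.even_or_odd' ⌊x / Real.pi⌋ with ⟨m, hm | hm⟩
  · refine ⟨m, hm, ?_⟩
    rw [hm] at h1 h2
    push_cast at h1 h2
    rw [Int.floor_eq_iff, le_div_iff₀ hπ, div_lt_iff₀ hπ]
    push_cast
    constructor <;> linarith
  · exfalso
    rw [hm] at h1 h2
    push_cast at h1 h2
    have e : Real.sin (x - Real.pi - m * (2 * Real.pi)) = - Real.sin x := by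
      rw [Real.sin_sub_int_mul_two_pi, Real.sin_sub_pi]
    have : 0 < Real.sin (x - Real.pi - m * (2 * Real.pi)) :=
      Real.sin_pos_of_pos_of_lt_pi (by linarith) (by linarith)
    linarith

theorem negq {x : ℝ} (hc : Real.cos x < 0) (hs : Real.sin x < 0) :
    ∃ m : ℤ, ⌊x / Real.pi⌋ = 2 * m + 1 ∧ ⌊(x - Real.pi / 4) / 2 / Real.pi⌋ = m := by
  have hπ := Real.pi_pos
  obtain ⟨h1, h2⟩ := half_fl (mul_pos_of_neg_of_neg hc hs)
  rcases Int.even_or_odd' ⌊x / Real.pi⌋ with ⟨m, hm | hm⟩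
  · exfalso
    rw [hm] at h1 h2
    push_cast at h1 h2
    have e : Real.sin (x - m * (2 * Real.pi)) = Real.sin x := Real.sin_sub_int_mul_two_pi _ _
    have : 0 < Real.sin (x - m * (2 * Real.pi)) :=
      Real.sin_pos_of_pos_of_lt_pi (by linarith) (by linarith)
    linarith
  · refine ⟨m, hm, ?_⟩
    rw [hm] at h1 h2
    push_cast at h1 h2
    rw [Int.floor_eq_iff, le_div_iff₀ hπ, div_lt_iff₀ hπ]
    constructor <;> linarith

theorem cs_54 (n : ℤ) : Real.cos (5 * Real.pi / 4 + n * (2 * Real.pi)) < 0 ∧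
    Real.sin (5 * Real.pi / 4 + n * (2 * Real.pi)) < 0 := by
  have hπ := Real.pi_pos
  rw [Real.cos_add_int_mul_two_pi, Real.sin_add_int_mul_two_pi]
  have e : 5 * Real.pi / 4 = Real.pi / 4 + Real.pi := by ring
  rw [e, Real.cos_add_pi, Real.sin_add_pi]
  have h1 : 0 < Real.cos (Real.pi / 4) := Real.cos_pos_of_mem_Ioo ⟨by linarith, by linarith⟩
  have h2 : 0 < Real.sin (Real.pi / 4) := Real.sin_pos_of_pos_of_lt_pi (by linarith) (by linarith)
  constructor <;> linarith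

theorem cs_14 (n : ℤ) : 0 < Real.cos (Real.pi / 4 + n * (2 * Real.pi)) ∧
    0 < Real.sin (Real.pi / 4 + n * (2 * Real.pi)) := by
  have hπ := Real.pi_pos
  rw [Real.cos_add_int_mul_two_pi, Real.sin_add_int_mul_two_pi]
  exact ⟨Real.cos_pos_of_mem_Ioo ⟨by linarith, by linarith⟩,
    Real.sin_pos_of_pos_of_lt_pi (by linarith) (by linarith)⟩

/-- a family of chords from `s` to `t` each of which has one of the two further vertices in a
connected set that avoids the curve -/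
def NL (c : ℝ → ℂ) (s t : ℝ) : Prop := ∀ ρ > 0, ∃ (N : Set ℂ) (p : ℝ → ℝ × ℝ), IsPreconnected N ∧
  (∀ z ∈ N, z ∉ range c) ∧ Pth p s t ρ ∧
  ∀ τ ∈ Icc (0:ℝ) 1, DD c (p τ).1 (p τ).2 ∈ N ∨ CC c (p τ).1 (p τ).2 ∈ N

/-- the same on the right side -/
def NR (c : ℝ → ℂ) (s t : ℝ) : Prop := ∀ ρ > 0, ∃ (N : Set ℂ) (p : ℝ → ℝ × ℝ), IsPreconnected N ∧
  (∀ z ∈ N, z ∉ range c) ∧ Pth p s t ρ ∧
  ∀ τ ∈ Icc (0:ℝ) 1, DD c (p τ).2 (p τ).1 ∈ N ∨ CC c (p τ).2 (p τ).1 ∈ N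

theorem N_eq (L : Loop c) (J : Inj c) (A : Ang c (mgc c) θ g) {s t : ℝ} (Cs : Cone c s)
    (Ct : Cone c t) {ls lt : ℤ} (h1 : KL θ s ls) (h2 : KL θ t lt) (hp : NL c s t) : ls = lt := by
  have hπ := Real.pi_pos
  obtain ⟨r1, hr1, sa⟩ := cone_sign L J Cs
  obtain ⟨r2, hr2, sb⟩ := cone_sign L J Ct
  obtain ⟨r3, hr3, ka⟩ := h1
  obtain ⟨r4, hr4, kb⟩ := h2
  obtain ⟨ρ, hρ, l1, l2, l3, l4⟩ : ∃ ρ > 0, ρ ≤ r1 ∧ ρ ≤ r2 ∧ ρ ≤ r3 ∧ ρ ≤ r4 :=
    ⟨min (min r1 r2) (min r3 r4), by positivity, (min_le_left _ _).trans (min_le_left _ _),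
      (min_le_left _ _).trans (min_le_right _ _), (min_le_right _ _).trans (min_le_left _ _),
      (min_le_right _ _).trans (min_le_right _ _)⟩
  obtain ⟨N, p, hN, hNC, P, H⟩ := hp ρ hρ
  have m0 : (0:ℝ) ∈ Icc (0:ℝ) 1 := ⟨le_rfl, zero_le_one⟩
  have m1 : (1:ℝ) ∈ Icc (0:ℝ) 1 := ⟨zero_le_one, le_rfl⟩
  have nz : ∀ z, z ∉ range c → mgc c z ≠ 0 := fun z h hz => h ((mgc_sg L).zero L |>.1 hz)
  have sgn : ∀ z ∈ N, ∀ w ∈ N, 0 < mgc c z * mgc c w := fun z hz w hw =>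
    sign_pre hN (mgc_sg L).cont.continuousOn (fun z hz => nz z (hNC z hz)) hz hw
  have hf : ContinuousOn (fun τ => θ (p τ).1 (p τ).2) (Icc 0 1) :=
    A.cont.comp P.cont (fun τ hτ => P.lt τ hτ)
  have e0 := ka _ _ (P.s1.trans_le l3) (P.s2.trans_le l3) (P.lt 0 m0).1
  have e1 := kb _ _ (P.t1.trans_le l4) (P.t2.trans_le l4) (P.lt 1 m1).1
  have s0 := (sa _ _ (P.s1.trans_le l1) (P.s2.trans_le l1) (P.lt 0 m0).1).1
  have s1 := (sb _ _ (P.t1.trans_le l2) (P.t2.trans_le l2) (P.lt 1 m1).1).1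
  obtain ⟨z0, hz0⟩ : ∃ z, z ∈ N := by
    rcases H 0 m0 with h | h
    · exact ⟨_, h⟩
    · exact ⟨_, h⟩
  -- the sign of the two distances
  have key : ∀ τ ∈ Icc (0:ℝ) 1, 0 < mgc c z0 * mgc c (DD c (p τ).1 (p τ).2) ∨
      0 < mgc c z0 * mgc c (CC c (p τ).1 (p τ).2) := by
    intro τ hτ
    rcases H τ hτ with h | h
    · exact Or.inl (sgn _ hz0 _ h)
    · exact Or.inr (sgn _ hz0 _ h)
  rcases lt_or_gt_of_ne (nz z0 (hNC z0 hz0)) with hs | hs
  · -- negative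
    have neg : ∀ τ ∈ Icc (0:ℝ) 1, mgc c (DD c (p τ).1 (p τ).2) < 0 ∨
        mgc c (CC c (p τ).1 (p τ).2) < 0 := by
      intro τ hτ
      rcases key τ hτ with h | h
      · exact Or.inl (by nlinarith)
      · exact Or.inr (by nlinarith)
    have q : ∀ τ ∈ Icc (0:ℝ) 1, 0 < mgc c (DD c (p τ).1 (p τ).2) * mgc c (CC c (p τ).1 (p τ).2) →
        Real.cos (θ (p τ).1 (p τ).2) < 0 ∧ Real.sin (θ (p τ).1 (p τ).2) < 0 := by
      intro τ hτ hm
      obtain ⟨r, hr, a1, a2⟩ := A.ex _ _ (P.lt τ hτ).1 (P.lt τ hτ).2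
      have hD : mgc c (DD c (p τ).1 (p τ).2) < 0 ∧ mgc c (CC c (p τ).1 (p τ).2) < 0 := by
        rcases neg τ hτ with h | h
        · exact ⟨h, by nlinarith⟩
        · exact ⟨by nlinarith, h⟩
      constructor
      · have := hD.1; rw [a1] at this; nlinarith
      · have := hD.2; rw [a2] at this; nlinarith
    obtain ⟨q0, q0'⟩ := q 0 m0 s0
    obtain ⟨q1, q1'⟩ := q 1 m1 s1
    obtain ⟨m, hm, hm'⟩ := negq q0 q0'
    obtain ⟨m2, hm2, hm2'⟩ := negq q1 q1'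
    have := floor_pre (V := Icc (0:ℝ) 1) isPreconnected_Icc
      (f := fun τ => (θ (p τ).1 (p τ).2 - Real.pi / 4) / 2)
      ((hf.sub continuousOn_const).div_const _) (fun τ hτ h0 => by
        obtain ⟨n, hn⟩ := Real.sin_eq_zero_iff.1 h0
        have e : θ (p τ).1 (p τ).2 = Real.pi / 4 + n * (2 * Real.pi) := by linarith
        obtain ⟨r, hr, a1, a2⟩ := A.ex _ _ (P.lt τ hτ).1 (P.lt τ hτ).2
        rw [e] at a1 a2
        obtain ⟨c1, c2⟩ := cs_14 n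
        rcases neg τ hτ with h | h
        · rw [a1] at h; nlinarith
        · rw [a2] at h; nlinarith) m0 m1
    rw [hm', hm2'] at this
    rw [← e0, ← e1, hm, hm2, this]
  · have neg : ∀ τ ∈ Icc (0:ℝ) 1, 0 < mgc c (DD c (p τ).1 (p τ).2) ∨
        0 < mgc c (CC c (p τ).1 (p τ).2) := by
      intro τ hτ
      rcases key τ hτ with h | h
      · exact Or.inl ((mul_pos_iff_of_pos_left hs).1 h)
      · exact Or.inr ((mul_pos_iff_of_pos_left hs).1 h)
    have q : ∀ τ ∈ Icc (0:ℝ) 1, 0 < mgc c (DD c (p τ).1 (p τ).2) * mgc c (CC c (p τ).1 (p τ).2) →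
        0 < Real.cos (θ (p τ).1 (p τ).2) ∧ 0 < Real.sin (θ (p τ).1 (p τ).2) := by
      intro τ hτ hm
      obtain ⟨r, hr, a1, a2⟩ := A.ex _ _ (P.lt τ hτ).1 (P.lt τ hτ).2
      have hD : 0 < mgc c (DD c (p τ).1 (p τ).2) ∧ 0 < mgc c (CC c (p τ).1 (p τ).2) := by
        rcases neg τ hτ with h | h
        · exact ⟨h, (mul_pos_iff_of_pos_left h).1 hm⟩
        · exact ⟨(mul_pos_iff_of_pos_right h).1 hm, h⟩
      constructor
      · have := hD.1; rw [a1] at this; exact (mul_pos_iff_of_pos_left hr).1 this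
      · have := hD.2; rw [a2] at this; exact (mul_pos_iff_of_pos_left hr).1 this
    obtain ⟨q0, q0'⟩ := q 0 m0 s0
    obtain ⟨q1, q1'⟩ := q 1 m1 s1
    obtain ⟨m, hm, hm'⟩ := posq q0 q0'
    obtain ⟨m2, hm2, hm2'⟩ := posq q1 q1'
    have := floor_pre (V := Icc (0:ℝ) 1) isPreconnected_Icc
      (f := fun τ => (θ (p τ).1 (p τ).2 - 5 * Real.pi / 4) / 2)
      ((hf.sub continuousOn_const).div_const _) (fun τ hτ h0 => by
        obtain ⟨n, hn⟩ := Real.sin_eq_zero_iff.1 h0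
        have e : θ (p τ).1 (p τ).2 = 5 * Real.pi / 4 + n * (2 * Real.pi) := by linarith
        obtain ⟨r, hr, a1, a2⟩ := A.ex _ _ (P.lt τ hτ).1 (P.lt τ hτ).2
        rw [e] at a1 a2
        obtain ⟨c1, c2⟩ := cs_54 n
        rcases neg τ hτ with h | h
        · rw [a1] at h; nlinarith
        · rw [a2] at h; nlinarith) m0 m1
    rw [hm', hm2'] at this
    have e3 : m = m2 := by linarith
    rw [← e0, ← e1, hm, hm2, e3]

theorem N_eqR (L : Loop c) (J : Inj c) (A : Ang c (mgc c) θ g) {s t : ℝ} (Cs : Cone c s)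
    (Ct : Cone c t) {ls lt : ℤ} (h1 : KR θ s ls) (h2 : KR θ t lt) (hp : NR c s t) : ls = lt := by
  refine N_eq L.rev (J.rev L) (Ang.rev L A) Cs.rev Ct.rev h1.rev h2.rev (fun ρ hρ => ?_)
  obtain ⟨N, p, hN, hNC, P, H⟩ := hp ρ hρ
  refine ⟨N, _, hN, ?_, P.rev, ?_⟩
  · rw [range_rev]; exact hNC
  · intro τ hτ
    have := H τ hτ
    rw [CC_eq, DD_eq] at this ⊢
    simpa only [neg_neg] using this

/-- families of chords with the last vertex off the curve -/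
def FE (c : ℝ → ℂ) (s t : ℝ) : Prop := ∀ ρ > 0, ∃ p, Pth p s t ρ ∧
  ∀ τ ∈ Icc (0:ℝ) 1, CC c (p τ).1 (p τ).2 ∉ range c

/-- charges with the additional rules -/
theorem exChargeQ (L : Loop c) (J : Inj c) (nosq : NoSq (range c)) :
    ∃ (x : ℝ → ℤ) (g : ℤ), Odd g ∧
      (∀ s, Cone c s → x (s + 1) = x s + g) ∧
      (∀ s t, AR c s t → (∀ r ∈ Icc s t, Mon c r) → x t = x s) ∧
      (∀ s t, AR c s t → (NL c s t ∨ NR c s t ∨ FE c s t) → x t = x s) := by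
  obtain ⟨θ, g, A, ho⟩ := exists_odd L J nosq
  obtain ⟨z0, h0⟩ := exists_pos L J nosq
  by_cases hex : ∃ s0, Cone c s0
  · obtain ⟨s0, C0⟩ := hex
    obtain ⟨l0, hl0⟩ := exKL L J A C0
    have ex1 : ∀ s, ∃ k : ℤ, Cone c s → KL θ s (l0 + 2 * k) := fun s => by
      by_cases hs : Cone c s
      · obtain ⟨k, hk⟩ := exKL L J A hs
        obtain ⟨m, hm⟩ := KL.parity L J h0 A C0 hs hl0 hk
        exact ⟨m, fun _ => by rwa [show l0 + 2 * m = k by linarith]⟩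
      · exact ⟨0, fun h => absurd h hs⟩
    choose x hx using ex1
    refine ⟨x, g, ho, ?_, ?_, ?_⟩
    · intro s hs
      have hs1 := hs.per L
      have e1 := (hx (s + 1) hs1).uniq ((hx s hs).per A)
      linarith
    · intro s t h hM
      have := monoX jP jT2 Y407.PEG.sgU jI L J nosq A h.ab h.ba h.ha h.hb hM (hx s h.ha) (hx t h.hb)
      linarith
    · rintro s t h (h1 | h1 | h1)
      · have := N_eq L J A h.ha h.hb (hx s h.ha) (hx t h.hb) h1
        linarith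
      · obtain ⟨ra, k1⟩ := exKR L J A h.ha
        obtain ⟨rb, k2⟩ := exKR L J A h.hb
        have e1 := parityX jP jT1 Y407.PEG.sgU jI L J nosq A h.ab h.ba h.ha h.hb (hx s h.ha)
          (hx t h.hb) k1 k2
        have e2 := N_eqR L J A h.ha h.hb k1 k2 h1
        linarith
      · have := free_eq L J A h.ha h.hb (hx s h.ha) (hx t h.hb) (fun ρ hρ => by
          obtain ⟨p, P, H⟩ := h1 ρ hρ
          exact ⟨p, P, Or.inl H⟩)
        linarith
  · refine ⟨0, g, ho, ?_, ?_, ?_⟩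
    · exact fun s hs => absurd ⟨s, hs⟩ hex
    · exact fun s t h => absurd ⟨s, h.ha⟩ hex
    · exact fun s t h => absurd ⟨s, h.ha⟩ hex

/-- the path of chords `(a, y)`, `y` increasing, followed by `(x, b)`, `x` increasing -/
theorem Lpath {a b ρ : ℝ} (hab : a < b) (hba : b < a + 1) (hρ : 0 < ρ) :
    ∃ p : ℝ → ℝ × ℝ, Pth p a b ρ ∧ ∀ τ ∈ Icc (0:ℝ) 1, ((p τ).1 = a ∧ (p τ).2 ∈ Ioc a b) ∨
      ((p τ).2 = b ∧ (p τ).1 ∈ Ico a b) := by
  obtain ⟨ε, hε, hε1, hε2⟩ : ∃ ε > 0, ε < ρ ∧ ε < b - a :=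
    ⟨min ρ (b - a) / 2, by have : 0 < b - a := by linarith
                           positivity,
      by have := min_le_left ρ (b - a); linarith,
      by have := min_le_right ρ (b - a); have : 0 < b - a := by linarith
         linarith⟩
  have hδ : 0 < b - a - ε := by linarith
  set δ := b - a - ε with hδd
  have key : ∀ τ ∈ Icc (0:ℝ) 1, ((a + max 0 (2 * τ - 1) * δ = a ∧
      b - max 0 (1 - 2 * τ) * δ ∈ Ioc a b)) ∨ (b - max 0 (1 - 2 * τ) * δ = b ∧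
      a + max 0 (2 * τ - 1) * δ ∈ Ico a b) := by
    rintro τ ⟨t0, t1⟩
    rcases le_total (2 * τ) 1 with h | h
    · left
      rw [max_eq_left (by linarith : 2 * τ - 1 ≤ 0), max_eq_right (by linarith : 0 ≤ 1 - 2 * τ)]
      refine ⟨by ring, ?_, ?_⟩
      · nlinarith
      · nlinarith
    · right
      rw [max_eq_right (by linarith : 0 ≤ 2 * τ - 1), max_eq_left (by linarith : 1 - 2 * τ ≤ 0)]
      refine ⟨by ring, ?_, ?_⟩
      · nlinarith
      · nlinarith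
  refine ⟨fun τ => (a + max 0 (2 * τ - 1) * δ, b - max 0 (1 - 2 * τ) * δ), ⟨?_, ?_, ?_, ?_, ?_, ?_⟩,
    key⟩
  · exact Continuous.continuousOn (by fun_prop)
  · intro τ hτ
    simp only
    rcases key τ hτ with ⟨h1, h2, h3⟩ | ⟨h1, h2, h3⟩
    · rw [h1]; constructor <;> linarith
    · rw [h1]; constructor <;> linarith
  · simp only
    rw [max_eq_left (by norm_num : (2:ℝ) * 0 - 1 ≤ 0)]
    simpa using hρ
  · simp only
    rw [max_eq_right (by norm_num : (0:ℝ) ≤ 1 - 2 * 0), abs_lt]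
    constructor <;> linarith
  · simp only
    rw [max_eq_right (by norm_num : (0:ℝ) ≤ 2 * 1 - 1), abs_lt]
    constructor <;> linarith
  · simp only
    rw [max_eq_left (by norm_num : (1:ℝ) - 2 * 1 ≤ 0)]
    simpa using hρ

end Pool.Agent.R762.Pg
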