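import Pool.Agent.R762.Pg1

/-! Arcs that are flat outside a small disc. -/

set_option autoImplicit false
set_option maxHeartbeats 1000000
open Complex Set Topology Metric

namespace Pool.Agent.R762.Pg

open Pool.Agent.H763R2 Pool.Agent.H763R2.An Pool.Agent.W675.Peg Pool.Agent.TH569.Peg
  Pool.Agent.Y535.PEG
open Pool.Agent.H763R2.Dm (NoSq floor_const)

variable {c : ℝ → ℂ}

/-- data of the flat kind, in coordinates `X`, `Y` -/
structure Flat (c : ℝ → ℂ) (X Y : ℝ → ℝ) (a b s t r : ℝ) : Prop where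
  r0 : 0 < r
  as : a ≤ s
  st : s ≤ t
  tb : t ≤ b
  ba : b ≤ a + 1
  core : ∀ x ∈ Icc s t, X x ^ 2 + Y x ^ 2 ≤ r ^ 2
  left : ∀ x y, x ∈ Icc a s → y ∈ Icc a s → x < y → X x < X y ∧ |Y y - Y x| ≤ (X y - X x) / 10
  right : ∀ x y, x ∈ Icc t b → y ∈ Icc t b → x < y → X x < X y ∧ |Y y - Y x| ≤ (X y - X x) / 10
  far : ∀ x ∈ Icc b (a + 1), (12 * r) ^ 2 ≤ X x ^ 2 + Y x ^ 2

variable {X Y : ℝ → ℝ} {a b s t r : ℝ}

theorem Flat.core' (F : Flat c X Y a b s t r) {x : ℝ} (hx : x ∈ Icc s t) :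
    |X x| ≤ r ∧ |Y x| ≤ r := by
  have h := F.core x hx
  have hr := F.r0
  exact ⟨abs_le_of_sq_le_sq (by nlinarith [sq_nonneg (Y x)]) hr.le,
    abs_le_of_sq_le_sq (by nlinarith [sq_nonneg (X x)]) hr.le⟩

theorem Flat.left' (F : Flat c X Y a b s t r) {x y : ℝ} (hx : x ∈ Icc a s) (hy : y ∈ Icc a s) :
    |Y y - Y x| ≤ |X y - X x| / 10 := by
  rcases lt_trichotomy x y with h | h | h
  · exact (F.left x y hx hy h).2.trans (div_le_div_of_nonneg_right (le_abs_self _) (by norm_num))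
  · subst h; simp
  · rw [abs_sub_comm, abs_sub_comm (X y)]
    exact (F.left y x hy hx h).2.trans (div_le_div_of_nonneg_right (le_abs_self _) (by norm_num))

theorem Flat.right' (F : Flat c X Y a b s t r) {x y : ℝ} (hx : x ∈ Icc t b) (hy : y ∈ Icc t b) :
    |Y y - Y x| ≤ |X y - X x| / 10 := by
  rcases lt_trichotomy x y with h | h | h
  · exact (F.right x y hx hy h).2.trans (div_le_div_of_nonneg_right (le_abs_self _) (by norm_num))
  · subst h; simp
  · rw [abs_sub_comm, abs_sub_comm (X y)]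
    exact (F.right y x hy hx h).2.trans (div_le_div_of_nonneg_right (le_abs_self _) (by norm_num))

theorem Flat.leftS (F : Flat c X Y a b s t r) {x : ℝ} (hx : x ∈ Icc a s) :
    X x ≤ X s ∧ |Y x - Y s| ≤ (X s - X x) / 10 := by
  rcases eq_or_lt_of_le hx.2 with h | h
  · subst h; simp
  · obtain ⟨h1, h2⟩ := F.left x s hx ⟨F.as, le_rfl⟩ h
    rw [abs_sub_comm]
    exact ⟨h1.le, h2⟩

theorem Flat.rightT (F : Flat c X Y a b s t r) {x : ℝ} (hx : x ∈ Icc t b) :
    X t ≤ X x ∧ |Y x - Y t| ≤ (X x - X t) / 10 := by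
  rcases eq_or_lt_of_le hx.1 with h | h
  · subst h; simp
  · obtain ⟨h1, h2⟩ := F.right t x ⟨le_rfl, F.tb⟩ hx h
    exact ⟨h1.le, h2⟩

/-- a point that is none of the points of the arc and not far -/
theorem Flat.no (F : Flat c X Y a b s t r) {P Q : ℝ} (h0 : P ^ 2 + Q ^ 2 < (12 * r) ^ 2)
    (h1 : ∀ x ∈ Icc a s, P = X x → Q = Y x → False)
    (h2 : |P| ≤ r → |Q| ≤ r → False)
    (h3 : ∀ x ∈ Icc t b, P = X x → Q = Y x → False) (z : ℝ) (hz : z ∈ Icc a (a + 1)) :
    ¬ (P = X z ∧ Q = Y z) := by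
  rintro ⟨e1, e2⟩
  rcases le_total z s with h | h
  · exact h1 z ⟨hz.1, h⟩ e1 e2
  · rcases le_total z t with h' | h'
    · obtain ⟨k1, k2⟩ := F.core' ⟨h, h'⟩
      rw [← e1] at k1
      rw [← e2] at k2
      exact h2 k1 k2
    · rcases le_total z b with h'' | h''
      · exact h3 z ⟨h', h''⟩ e1 e2
      · have := F.far z ⟨h'', hz.2⟩
        rw [← e1, ← e2] at this
        linarith

theorem sq_lt_of {P Q r A B : ℝ} (hr : 0 < r) (h1 : |P| ≤ A * r) (h2 : |Q| ≤ B * r)
    (hA : 0 ≤ A) (hB : 0 ≤ B) (h : A ^ 2 + B ^ 2 < 144) : P ^ 2 + Q ^ 2 < (12 * r) ^ 2 := by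
  have e1 : P ^ 2 ≤ (A * r) ^ 2 := by
    rw [← sq_abs P]; exact pow_le_pow_left₀ (abs_nonneg _) h1 2
  have e2 : Q ^ 2 ≤ (B * r) ^ 2 := by
    rw [← sq_abs Q]; exact pow_le_pow_left₀ (abs_nonneg _) h2 2
  have : (A ^ 2 + B ^ 2) * r ^ 2 < 144 * r ^ 2 := mul_lt_mul_of_pos_right h (by positivity)
  nlinarith

/-- first leg -/
theorem Flat.leg1 (F : Flat c X Y a b s t r) {s' t' : ℝ} (hs : s' ∈ Icc a s) (ht : t' ∈ Icc t b)
    (es : X s' = -4 * r) (et : X t' = 4 * r) {y : ℝ} (hy : y ∈ Ioc s' t') (z : ℝ)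
    (hz : z ∈ Icc a (a + 1)) :
    ¬ (X y - (Y y - Y s') = X z ∧ Y y + (X y - X s') = Y z) := by
  have hr := F.r0
  have S := F.core' ⟨le_rfl, F.st⟩
  have T := F.core' ⟨F.st, le_rfl⟩
  rw [abs_le, abs_le] at S T
  obtain ⟨⟨S1, S2⟩, S3, S4⟩ := S
  obtain ⟨⟨T1, T2⟩, T3, T4⟩ := T
  obtain ⟨-, A0⟩ := F.leftS hs
  rw [es, abs_le] at A0
  obtain ⟨A1, A2⟩ := A0
  rcases le_total y s with h | h
  · -- left flat
    have hy' : y ∈ Icc a s := ⟨hs.1.trans hy.1.le, h⟩
    obtain ⟨B1, B2⟩ := F.leftS hy'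
    obtain ⟨B3, B4⟩ := F.left s' y hs hy' hy.1
    rw [es] at B3 B4
    rw [abs_le] at B2 B4
    obtain ⟨B5, B6⟩ := B2
    obtain ⟨B7, B8⟩ := B4
    refine F.no ?_ ?_ ?_ ?_ z hz
    · refine sq_lt_of (A := 5) (B := 7) hr ?_ ?_ (by norm_num) (by norm_num) (by norm_num)
      · rw [abs_le]; constructor <;> linarith
      · rw [abs_le, es]; constructor <;> linarith
    · intro x hx e1 e2
      have k := F.left' hy' hx
      rw [← e1, ← e2, es] at k
      have k1 : Y y + (X y - -4 * r) - Y y = X y + 4 * r := by ring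
      have k2 : |X y - (Y y - Y s') - X y| ≤ (X y + 4 * r) / 10 := by
        rw [abs_le]; constructor <;> linarith
      rw [k1, abs_of_pos (by linarith)] at k
      linarith
    · intro e1 e2
      rw [abs_le] at e1 e2
      rw [es] at e2
      linarith
    · intro x hx e1 e2
      obtain ⟨k1, k2⟩ := F.rightT hx
      rw [abs_le] at k2
      rw [← e1, ← e2, es] at k2
      rw [← e1] at k1
      linarith [k2.1, k2.2]
  · rcases le_total y t with h' | h'
    · obtain ⟨C1, C2⟩ := F.core' ⟨h, h'⟩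
      rw [abs_le] at C1 C2
      refine F.no ?_ ?_ ?_ ?_ z hz
      · refine sq_lt_of (A := 5) (B := 7) hr ?_ ?_ (by norm_num) (by norm_num) (by norm_num)
        · rw [abs_le]; constructor <;> linarith
        · rw [abs_le, es]; constructor <;> linarith
      · intro x hx e1 e2
        obtain ⟨k1, k2⟩ := F.leftS hx
        rw [abs_le] at k2
        rw [← e1, ← e2, es] at k2
        rw [← e1] at k1
        linarith [k2.1, k2.2]
      · intro e1 e2
        rw [abs_le] at e1 e2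
        rw [es] at e2
        linarith
      · intro x hx e1 e2
        obtain ⟨k1, k2⟩ := F.rightT hx
        rw [abs_le] at k2
        rw [← e1, ← e2, es] at k2
        rw [← e1] at k1
        linarith [k2.1, k2.2]
    · have hy' : y ∈ Icc t b := ⟨h', hy.2.trans ht.2⟩
      obtain ⟨B1, B2⟩ := F.rightT hy'
      have B3 : X y ≤ 4 * r := by
        rcases eq_or_lt_of_le hy.2 with h'' | h''
        · rw [h'', et]
        · have := (F.right y t' hy' ht h'').1
          rw [et] at this; linarith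
      rw [abs_le] at B2
      obtain ⟨B5, B6⟩ := B2
      refine F.no ?_ ?_ ?_ ?_ z hz
      · refine sq_lt_of (A := 7) (B := 9.5) hr ?_ ?_ (by norm_num) (by norm_num) (by norm_num)
        · rw [abs_le]; constructor <;> linarith
        · rw [abs_le, es]; constructor <;> linarith
      · intro x hx e1 e2
        obtain ⟨k1, k2⟩ := F.leftS hx
        rw [abs_le] at k2
        rw [← e1, ← e2, es] at k2
        rw [← e1] at k1
        linarith [k2.1, k2.2]
      · intro e1 e2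
        rw [abs_le] at e1 e2
        rw [es] at e2
        linarith
      · intro x hx e1 e2
        obtain ⟨k1, k2⟩ := F.rightT hx
        rw [abs_le] at k2
        rw [← e1, ← e2, es] at k2
        rw [← e1] at k1
        linarith [k2.1, k2.2]

/-- second leg -/
theorem Flat.leg2 (F : Flat c X Y a b s t r) {s' t' : ℝ} (hs : s' ∈ Icc a s) (ht : t' ∈ Icc t b)
    (es : X s' = -4 * r) (et : X t' = 4 * r) {x : ℝ} (hx : x ∈ Ico s' t') (z : ℝ)
    (hz : z ∈ Icc a (a + 1)) :
    ¬ (X t' - (Y t' - Y x) = X z ∧ Y t' + (X t' - X x) = Y z) := by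
  have hr := F.r0
  have S := F.core' ⟨le_rfl, F.st⟩
  have T := F.core' ⟨F.st, le_rfl⟩
  rw [abs_le, abs_le] at S T
  obtain ⟨⟨S1, S2⟩, S3, S4⟩ := S
  obtain ⟨⟨T1, T2⟩, T3, T4⟩ := T
  obtain ⟨-, A0⟩ := F.rightT ht
  rw [et, abs_le] at A0
  obtain ⟨A1, A2⟩ := A0
  have gen : ∀ P Q : ℝ, |P| ≤ 4 * r → |Q| ≤ 3 / 2 * r → P ≤ r → P = X x → Q = Y x →
      ¬ (X t' - (Y t' - Y x) = X z ∧ Y t' + (X t' - X x) = Y z) := by
    intro P Q hP hQ hP2 e1 e2
    rw [← e1, ← e2, et]
    rw [abs_le] at hP hQ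
    refine F.no ?_ ?_ ?_ ?_ z hz
    · refine sq_lt_of (A := 7) (B := 9.5) hr ?_ ?_ (by norm_num) (by norm_num) (by norm_num)
      · rw [abs_le]; constructor <;> linarith
      · rw [abs_le]; constructor <;> linarith
    · intro w hw e1 e2
      obtain ⟨k1, k2⟩ := F.leftS hw
      rw [abs_le] at k2
      rw [← e1, ← e2] at k2
      rw [← e1] at k1
      linarith [k2.1, k2.2]
    · intro e1 e2
      rw [abs_le] at e1 e2
      linarith
    · intro w hw e1 e2
      have k := F.right' ht hw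
      rw [← e1, ← e2, et] at k
      have k1 : Y t' + (4 * r - P) - Y t' = 4 * r - P := by ring
      have k2 : |4 * r - (Y t' - Q) - 4 * r| ≤ 3 * r := by
        rw [abs_le]; constructor <;> linarith
      rw [k1, abs_of_pos (by linarith)] at k
      linarith
  rcases le_total x s with h | h
  · have hx' : x ∈ Icc a s := ⟨hs.1.trans hx.1, h⟩
    obtain ⟨B1, B2⟩ := F.leftS hx'
    have B3 : -4 * r ≤ X x := by
      rcases eq_or_lt_of_le hx.1 with h'' | h''
      · rw [← h'', es]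
      · have := (F.left s' x hs hx' h'').1
        rw [es] at this; linarith
    rw [abs_le] at B2
    refine gen _ _ ?_ ?_ (by linarith) rfl rfl
    · rw [abs_le]; constructor <;> linarith
    · rw [abs_le]; constructor <;> linarith [B2.1, B2.2]
  · rcases le_total x t with h' | h'
    · obtain ⟨C1, C2⟩ := F.core' ⟨h, h'⟩
      refine gen _ _ (C1.trans (by linarith)) (C2.trans (by linarith)) ?_ rfl rfl
      rw [abs_le] at C1
      exact C1.2
    · have hx' : x ∈ Icc t b := ⟨h', hx.2.le.trans ht.2⟩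
      obtain ⟨B1, B2⟩ := F.rightT hx'
      obtain ⟨B3, B4⟩ := F.right x t' hx' ht hx.2
      rw [et] at B3 B4
      rw [et]
      rw [abs_le] at B2 B4
      refine F.no ?_ ?_ ?_ ?_ z hz
      · refine sq_lt_of (A := 7) (B := 9.5) hr ?_ ?_ (by norm_num) (by norm_num) (by norm_num)
        · rw [abs_le]; constructor <;> linarith [B4.1, B4.2]
        · rw [abs_le]; constructor <;> linarith
      · intro w hw e1 e2
        obtain ⟨k1, k2⟩ := F.leftS hw
        rw [← e1] at k1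
        linarith [B4.1, B4.2]
      · intro e1 e2
        rw [abs_le] at e1 e2
        linarith [B4.1, B4.2]
      · intro w hw e1 e2
        have k := F.right' ht hw
        rw [← e1, ← e2, et] at k
        have k1 : Y t' + (4 * r - X x) - Y t' = 4 * r - X x := by ring
        have k2 : |4 * r - (Y t' - Y x) - 4 * r| ≤ (4 * r - X x) / 10 := by
          rw [abs_le]; constructor <;> linarith [B4.1, B4.2]
        rw [k1, abs_of_pos (by linarith)] at k
        linarith

/-- the two marked points -/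
theorem Flat.marks (F : Flat c X Y a b s t r) (hX : Continuous X) (pX : X (a + 1) = X a)
    (pY : Y (a + 1) = Y a) :
    ∃ s' t', s' ∈ Ioo a s ∧ t' ∈ Ioo t b ∧ X s' = -4 * r ∧ X t' = 4 * r := by
  have hr := F.r0
  have S := F.core' ⟨le_rfl, F.st⟩
  have T := F.core' ⟨F.st, le_rfl⟩
  rw [abs_le, abs_le] at S T
  obtain ⟨⟨S1, S2⟩, S3, S4⟩ := S
  obtain ⟨⟨T1, T2⟩, T3, T4⟩ := T
  have fa : (12 * r) ^ 2 ≤ X a ^ 2 + Y a ^ 2 := by
    have := F.far (a + 1) ⟨F.ba, le_rfl⟩
    rwa [pX, pY] at this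
  have fb := F.far b ⟨le_rfl, F.ba⟩
  obtain ⟨ka, ka'⟩ := F.leftS (x := a) ⟨le_rfl, F.as⟩
  obtain ⟨kb, kb'⟩ := F.rightT (x := b) ⟨F.tb, le_rfl⟩
  rw [abs_le] at ka' kb'
  have Xa : X a < -4 * r := by
    by_contra hcon
    push Not at hcon
    have := sq_lt_of (P := X a) (Q := Y a) (A := 4) (B := 3) hr (by
      rw [abs_le]; constructor <;> linarith) (by rw [abs_le]; constructor <;> linarith)
      (by norm_num) (by norm_num) (by norm_num)
    linarith
  have Xb : 4 * r < X b := by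
    by_contra hcon
    push Not at hcon
    have := sq_lt_of (P := X b) (Q := Y b) (A := 4) (B := 3) hr (by
      rw [abs_le]; constructor <;> linarith) (by rw [abs_le]; constructor <;> linarith)
      (by norm_num) (by norm_num) (by norm_num)
    linarith
  obtain ⟨s', hs, es⟩ := intermediate_value_Icc F.as hX.continuousOn
    (show -4 * r ∈ Icc (X a) (X s) from ⟨Xa.le, by linarith⟩)
  obtain ⟨t', ht, et⟩ := intermediate_value_Icc F.tb hX.continuousOn
    (show 4 * r ∈ Icc (X t) (X b) from ⟨by linarith, Xb.le⟩)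
  refine ⟨s', t', ⟨lt_of_le_of_ne hs.1 ?_, lt_of_le_of_ne hs.2 ?_⟩,
    ⟨lt_of_le_of_ne ht.1 ?_, lt_of_le_of_ne ht.2 ?_⟩, es, et⟩
  · rintro rfl; linarith
  · rintro rfl; linarith
  · rintro rfl; linarith
  · rintro rfl; linarith

/-- the flat kind of an isolated wild arc -/
def FlatDisc (c : ℝ → ℂ) (a b : ℝ) : Prop := ∃ (p u : ℂ) (r s t : ℝ), ‖u‖ = 1 ∧ 0 < r ∧
  a ≤ s ∧ s ≤ t ∧ t ≤ b ∧ b ≤ a + 1 ∧ (∀ x ∈ Icc s t, ‖c x - p‖ ≤ r) ∧
  (∀ x y, (a ≤ x ∧ x < y ∧ y ≤ s) ∨ (t ≤ x ∧ x < y ∧ y ≤ b) →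
    |((c y - c x) / u).im| ≤ ((c y - c x) / u).re / 10) ∧
  (∀ x ∈ Icc b (a + 1), 12 * r ≤ ‖c x - p‖)

/-- what we need from an isolated arc over `[a, b]` -/
def Good (c : ℝ → ℂ) (a b : ℝ) : Prop := ∃ s t, a < s ∧ s < t ∧ t < b ∧ b ≤ a + 1 ∧
  (∀ x, a < x → x ≤ s → Cone c x) ∧ (∀ x, t ≤ x → x < b → Cone c x) ∧
  (NL c s t ∨ NR c s t ∨ FE c s t)

theorem FlatDisc.good (L : Loop c) (J : Inj c) {a b : ℝ} (h : FlatDisc c a b) : Good c a b := by
  obtain ⟨p, u, r, s, t, hu, hr, as, st, tb, ba, hcore, hflat, hfar⟩ := h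
  have hu0 : u ≠ 0 := by rintro rfl; simp at hu
  have nsq : ∀ z : ℂ, ‖z‖ ^ 2 = (z / u).re ^ 2 + (z / u).im ^ 2 := by
    intro z
    have : ‖z / u‖ = ‖z‖ := by rw [norm_div, hu, div_one]
    rw [← this, ← Complex.normSq_eq_norm_sq, Complex.normSq_apply]
    ring
  have F0 : ∀ x y, (a ≤ x ∧ x < y ∧ y ≤ s) ∨ (t ≤ x ∧ x < y ∧ y ≤ b) →
      ((c x - p) / u).re < ((c y - p) / u).re ∧ |((c y - p) / u).im - ((c x - p) / u).im| ≤
        (((c y - p) / u).re - ((c x - p) / u).re) / 10 := by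
    intro x y hxy
    have e : (c y - c x) / u = (c y - p) / u - (c x - p) / u := by ring
    have h1 := hflat x y hxy
    rw [e, Complex.sub_im, Complex.sub_re] at h1
    refine ⟨?_, h1⟩
    by_contra hcon
    push Not at hcon
    have h2 := abs_nonneg (((c y - p) / u).im - ((c x - p) / u).im)
    have h3 : ((c y - p) / u).re - ((c x - p) / u).re = 0 := by linarith
    have h4 : |((c y - p) / u).im - ((c x - p) / u).im| = 0 := le_antisymm (by linarith) h2
    have h5 : (c y - c x) / u = 0 := by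
      rw [e]
      apply Complex.ext
      · rw [Complex.sub_re, h3]; rfl
      · rw [Complex.sub_im, abs_eq_zero.1 h4]; rfl
    rw [div_eq_zero_iff] at h5
    rcases h5 with h5 | h5
    · have hlt : x < y := by rcases hxy with h | h <;> exact h.2.1
      have hlt2 : y < x + 1 := by
        rcases hxy with h | h
        · -- y ≤ s; if y = x + 1 then everything is far
          rcases lt_or_ge y (x + 1) with h' | h'
          · exact h'
          · have : y = a + 1 := by linarith [h.1, h.2.2]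
            have h6 : s = a + 1 := by linarith [h.1, h.2.2]
            have h7 := hfar (a + 1) ⟨ba, le_rfl⟩
            have h8 := hcore s ⟨le_rfl, st⟩
            rw [h6] at h8
            linarith
        · rcases lt_or_ge y (x + 1) with h' | h'
          · exact h'
          · have h6 : t = a := by linarith [h.1, h.2.2]
            have h7 := hfar (a + 1) ⟨ba, le_rfl⟩
            have h8 := hcore t ⟨st, le_rfl⟩
            rw [h6, ← L.per] at h8
            linarith
      exact absurd (sub_eq_zero.1 h5).symm (J x y hlt hlt2)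
    · exact absurd h5 hu0
  have F : Flat c (fun x => ((c x - p) / u).re) (fun x => ((c x - p) / u).im) a b s t r := by
    refine ⟨hr, as, st, tb, ba, ?_, ?_, ?_, ?_⟩
    · intro x hx
      rw [← nsq]
      exact pow_le_pow_left₀ (norm_nonneg _) (hcore x hx) 2
    · intro x y hx hy hxy
      exact F0 x y (Or.inl ⟨hx.1, hxy, hy.2⟩)
    · intro x y hx hy hxy
      exact F0 x y (Or.inr ⟨hx.1, hxy, hy.2⟩)
    · intro x hx
      rw [← nsq]
      exact pow_le_pow_left₀ (by positivity) (hfar x hx) 2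
  have hc := L.cont
  obtain ⟨s', t', hs, ht, es, et⟩ := F.marks (by fun_prop) (by simp only [L.per])
    (by simp only [L.per])
  have cone : ∀ x0 x1 x : ℝ, x0 < x → x < x1 → (∀ y z, x0 ≤ y → y < z → z ≤ x1 →
      |((c z - c y) / u).im| ≤ ((c z - c y) / u).re / 10 ∧
      0 < ((c z - c y) / u).re) → Cone c x := by
    intro x0 x1 x h1 h2 h
    refine ⟨min (x - x0) (x1 - x), lt_min (by linarith) (by linarith), u⁻¹, fun y z hy hz hyz => ?_⟩
    have hy1 := lt_min_iff.1 hy
    have hz1 := lt_min_iff.1 hz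
    rw [abs_lt, abs_lt] at hy1 hz1
    have := h y z (by linarith [hy1.1.1]) hyz (by linarith [hz1.2.2])
    rw [mul_comm, ← div_eq_mul_inv]
    linarith [this.1, this.2]
  have flat2 : ∀ y z, (a ≤ y ∧ y < z ∧ z ≤ s) ∨ (t ≤ y ∧ y < z ∧ z ≤ b) →
      |((c z - c y) / u).im| ≤ ((c z - c y) / u).re / 10 ∧ 0 < ((c z - c y) / u).re := by
    intro y z h
    refine ⟨hflat y z h, ?_⟩
    have e : (c z - c y) / u = (c z - p) / u - (c y - p) / u := by ring
    rw [e, Complex.sub_re]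
    linarith [(F0 y z h).1]
  have pt : ∀ w : ℂ, ∀ x y : ℝ, w = CC c x y → ((w - p) / u).re =
      ((c y - p) / u).re - (((c y - p) / u).im - ((c x - p) / u).im) ∧
      ((w - p) / u).im = ((c y - p) / u).im + (((c y - p) / u).re - ((c x - p) / u).re) := by
    intro w x y hw
    have e : (w - p) / u = (c y - p) / u + I * ((c y - p) / u - (c x - p) / u) := by
      rw [hw, CC_eq]; ring
    rw [e]
    constructor <;> simp
    ring
  have notin : ∀ x y : ℝ, (∀ z ∈ Icc a (a + 1), ¬ (((c y - p) / u).re -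
      (((c y - p) / u).im - ((c x - p) / u).im) = ((c z - p) / u).re ∧
      ((c y - p) / u).im + (((c y - p) / u).re - ((c x - p) / u).re) = ((c z - p) / u).im)) →
      CC c x y ∉ range c := by
    rintro x y h ⟨w, hw⟩
    obtain ⟨k1, k2⟩ := pt _ x y hw
    have e1 : c (a + Int.fract (w - a)) = c w := by
      have := L.per_int (a + Int.fract (w - a)) ⌊w - a⌋
      rw [← this]
      congr 1
      rw [add_assoc, Int.fract_add_floor]
      ring
    refine h (a + Int.fract (w - a)) ⟨by linarith [Int.fract_nonneg (w - a)],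
      by linarith [Int.fract_lt_one (w - a)]⟩ ?_
    rw [e1]
    exact ⟨k1.symm, k2.symm⟩
  refine ⟨s', t', hs.1, by linarith [hs.2, ht.1], ht.2, ba, ?_, ?_, Or.inr (Or.inr ?_)⟩
  · intro x h1 h2
    exact cone a s x h1 (by linarith [hs.2]) (fun y z hy hyz hz => flat2 y z (Or.inl ⟨hy, hyz, hz⟩))
  · intro x h1 h2
    exact cone t b x (by linarith [ht.1]) h2 (fun y z hy hyz hz => flat2 y z (Or.inr ⟨hy, hyz, hz⟩))
  · intro ρ hρ
    obtain ⟨q, P, H⟩ := Lpath (a := s') (b := t') (by linarith [hs.2, ht.1])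
      (by linarith [hs.1, ht.2]) hρ
    refine ⟨q, P, fun τ hτ => ?_⟩
    rcases H τ hτ with ⟨h1, h2⟩ | ⟨h1, h2⟩
    · rw [h1]
      exact notin _ _ fun z hz => F.leg1 ⟨hs.1.le, hs.2.le⟩ ⟨ht.1.le, ht.2.le⟩ es et h2 z hz
    · rw [h1]
      exact notin _ _ fun z hz => F.leg2 ⟨hs.1.le, hs.2.le⟩ ⟨ht.1.le, ht.2.le⟩ es et h2 z hz

end Pool.Agent.R762.Pg
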