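import Pool.Agent.R762.Pg2

/-! Arcs that look like a corner outside a small disc. -/

set_option autoImplicit false
set_option maxHeartbeats 1000000
open Complex Set Topology Metric

namespace Pool.Agent.R762.Pg

open Pool.Agent.H763R2 Pool.Agent.H763R2.An Pool.Agent.W675.Peg Pool.Agent.TH569.Peg
  Pool.Agent.Y535.PEG
open Pool.Agent.H763R2.Dm (NoSq floor_const)

variable {c : ℝ → ℂ}

/-- coordinates with respect to the frame `u`, `i u` at `p` -/
noncomputable def xx (p u z : ℂ) : ℝ := ((starRingEnd ℂ) u * (z - p)).re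
noncomputable def yy (p u z : ℂ) : ℝ := ((starRingEnd ℂ) u * (z - p)).im

theorem conv_xx_gt (p u : ℂ) (k : ℝ) : Convex ℝ {z | k < xx p u z} := by
  intro z hz w hw α β hα hβ hab
  simp only [mem_setOf_eq] at *
  have : xx p u (α • z + β • w) = α * xx p u z + β * xx p u w := by
    unfold xx
    have e : (α • z + β • w) - p = α * (z - p) + β * (w - p) := by
      have : (p : ℂ) = (α + β : ℂ) * p := by
        rw [← Complex.ofReal_add, hab]; simp
      conv_lhs => rw [this]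
      simp only [Complex.real_smul]
      ring
    rw [e]
    simp only [mul_add, Complex.add_re, Complex.mul_re, Complex.ofReal_re, Complex.ofReal_im,
      Complex.mul_im, Complex.sub_re, Complex.sub_im, Complex.conj_re, Complex.conj_im]
    ring
  rw [this]
  rcases eq_or_lt_of_le hα with h | h
  · have : β = 1 := by linarith
    rw [← h, this]; linarith
  · have h1 := mul_pos h (sub_pos.2 hz)
    have h2 := mul_nonneg hβ (sub_pos.2 hw).le
    have e : k = α * k + β * k := by rw [← add_mul, hab, one_mul]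
    linarith

theorem conv_yy_gt (p u : ℂ) (k : ℝ) : Convex ℝ {z | k < yy p u z} := by
  have : {z | k < yy p u z} = {z | k < xx p (I * u) z} := by
    ext z
    simp only [mem_setOf_eq]
    have : yy p u z = xx p (I * u) z := by
      unfold yy xx
      simp only [map_mul, Complex.conj_I, Complex.mul_re, Complex.mul_im, Complex.neg_re,
        Complex.neg_im, Complex.I_re, Complex.I_im, Complex.conj_re, Complex.conj_im]
      ring
    rw [this]
  rw [this]
  exact conv_xx_gt _ _ _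

theorem conv_yy_lt (p u : ℂ) (k : ℝ) : Convex ℝ {z | yy p u z < k} := by
  have : {z | yy p u z < k} = {z | -k < yy p (-u) z} := by
    ext z
    simp only [mem_setOf_eq]
    have : yy p (-u) z = - yy p u z := by
      unfold yy
      simp
    rw [this]
    constructor <;> intro h <;> linarith
  rw [this]
  exact conv_yy_gt _ _ _

/-- the free region for a corner with the wedge between `u1` and `u2` (counterclockwise) -/
def NN (p u1 u2 : ℂ) (r R : ℝ) : Set ℂ :=
  ((ball p R ∩ {z | yy p u1 z < -r}) ∪ (ball p R ∩ {z | r < yy p u2 z})) ∪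
  ((ball p R ∩ {z | r < xx p u1 z} ∩ {z | yy p u1 z < 0}) ∪
   (ball p R ∩ {z | r < xx p u2 z} ∩ {z | 0 < yy p u2 z}))

structure Cfg (u1 u2 : ℂ) (r R : ℝ) : Prop where
  n1 : ‖u1‖ = 1
  n2 : ‖u2‖ = 1
  r0 : 0 < r
  big : 25 * r ≤ R * ‖u1 - u2‖ ^ 2

theorem Cfg.facts {u1 u2 : ℂ} {r R : ℝ} (K : Cfg u1 u2 r R) :
    ∃ C : ℝ, ((starRingEnd ℂ) u1 * u2).re = C ∧ ((starRingEnd ℂ) u2 * u1).re = C ∧
      ((starRingEnd ℂ) u2 * u1).im = -((starRingEnd ℂ) u1 * u2).im ∧
      ‖u1 - u2‖ ^ 2 = 2 - 2 * C ∧ -1 ≤ C ∧ C < 1 ∧ 25 * r ≤ R * (2 - 2 * C) ∧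
      u1.re ^ 2 + u1.im ^ 2 = 1 ∧ u2.re ^ 2 + u2.im ^ 2 = 1 ∧
      C = u1.re * u2.re + u1.im * u2.im := by
  have a1 : u1.re ^ 2 + u1.im ^ 2 = 1 := by
    have := Complex.normSq_eq_norm_sq u1
    rw [K.n1, Complex.normSq_apply] at this
    linarith
  have a2 : u2.re ^ 2 + u2.im ^ 2 = 1 := by
    have := Complex.normSq_eq_norm_sq u2
    rw [K.n2, Complex.normSq_apply] at this
    linarith
  have e : ‖u1 - u2‖ ^ 2 = 2 - 2 * (u1.re * u2.re + u1.im * u2.im) := by
    rw [← Complex.normSq_eq_norm_sq, Complex.normSq_apply, Complex.sub_re, Complex.sub_im]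
    nlinarith
  have hr := K.r0
  have hb := K.big
  refine ⟨u1.re * u2.re + u1.im * u2.im, ?_, ?_, ?_, e, ?_, ?_, ?_, a1, a2, rfl⟩
  · simp [Complex.mul_re]
  · simp [Complex.mul_re]; ring
  · simp [Complex.mul_im]; ring
  · nlinarith [sq_nonneg (u1.re + u2.re), sq_nonneg (u1.im + u2.im)]
  · by_contra hcon
    push Not at hcon
    have h1 : ‖u1 - u2‖ ^ 2 ≤ 0 := by rw [e]; linarith
    have h2 : ‖u1 - u2‖ ^ 2 = 0 := le_antisymm h1 (by positivity)
    rw [h2, mul_zero] at hb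
    linarith
  · rw [← e]; exact hb

theorem Cfg.R_pos {u1 u2 : ℂ} {r R : ℝ} (K : Cfg u1 u2 r R) : 6 * r < R ∧ 0 < R := by
  obtain ⟨C, -, -, -, -, h1, h2, h3, -⟩ := K.facts
  have hr := K.r0
  have hR : 0 < R := by
    by_contra hcon
    push Not at hcon
    nlinarith
  constructor
  · nlinarith
  · exact hR

theorem norm_xy {u : ℂ} (hu : ‖u‖ = 1) (p z : ℂ) : ‖z - p‖ ^ 2 = xx p u z ^ 2 + yy p u z ^ 2 := by
  have : ‖(starRingEnd ℂ) u * (z - p)‖ = ‖z - p‖ := by
    rw [norm_mul, Complex.norm_conj, hu, one_mul]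
  rw [← this, ← Complex.normSq_eq_norm_sq, Complex.normSq_apply]
  unfold xx yy
  ring

theorem xy_add (p u w : ℂ) : xx p u (p + w) = ((starRingEnd ℂ) u * w).re ∧
    yy p u (p + w) = ((starRingEnd ℂ) u * w).im := by
  unfold xx yy
  rw [add_sub_cancel_left]
  exact ⟨rfl, rfl⟩

theorem NN_pre {p u1 u2 : ℂ} {r R : ℝ} (K : Cfg u1 u2 r R) : IsPreconnected (NN p u1 u2 r R) := by
  obtain ⟨C, hC1, hC2, him, hd, c1, c2, c3, a1, a2, hC⟩ := K.facts
  obtain ⟨hR6, hR⟩ := K.R_pos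
  have hr := K.r0
  have k1 : Convex ℝ (ball p R ∩ {z | yy p u1 z < -r}) := (convex_ball p R).inter (conv_yy_lt _ _ _)
  have k2 : Convex ℝ (ball p R ∩ {z | r < yy p u2 z}) := (convex_ball p R).inter (conv_yy_gt _ _ _)
  have k3 : Convex ℝ (ball p R ∩ {z | r < xx p u1 z} ∩ {z | yy p u1 z < 0}) :=
    ((convex_ball p R).inter (conv_xx_gt _ _ _)).inter (conv_yy_lt _ _ _)
  have k4 : Convex ℝ (ball p R ∩ {z | r < xx p u2 z} ∩ {z | 0 < yy p u2 z}) :=
    ((convex_ball p R).inter (conv_xx_gt _ _ _)).inter (conv_yy_gt _ _ _)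
  have hball : ∀ w : ℂ, ∀ u : ℂ, ‖u‖ = 1 → ((starRingEnd ℂ) u * w).re ^ 2 +
      ((starRingEnd ℂ) u * w).im ^ 2 < R ^ 2 → p + w ∈ ball p R := by
    intro w u hu h
    rw [mem_ball, dist_eq_norm, add_sub_cancel_left]
    have e := norm_xy hu p (p + w)
    rw [add_sub_cancel_left, (xy_add p u w).1, (xy_add p u w).2] at e
    rw [← e] at h
    exact lt_of_pow_lt_pow_left₀ 2 hR.le h
  -- the connecting points
  have hD : 0 < 2 - 2 * C := by linarith
  obtain ⟨T, hT⟩ : ∃ T : ℝ, T = 3 * r / (2 - 2 * C) := ⟨_, rfl⟩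
  have hT1 : T * (2 - 2 * C) = 3 * r := by rw [hT]; exact div_mul_cancel₀ _ hD.ne'
  have hT0 : 0 < T := by rw [hT]; positivity
  have hTR : T * 8 < R := by
    have : T * 8 * (2 - 2 * C) < R * (2 - 2 * C) := by nlinarith
    exact lt_of_mul_lt_mul_right this hD.le
  have pA1 : ((starRingEnd ℂ) u1 * (T * I * (u2 - u1))).im = -(3 * r / 2) := by
    have : ((starRingEnd ℂ) u1 * (T * I * (u2 - u1))).im = T * (C - 1) := by
      simp only [Complex.mul_im, Complex.mul_re, Complex.conj_re, Complex.conj_im,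
        Complex.ofReal_re, Complex.ofReal_im, Complex.I_re, Complex.I_im, Complex.sub_re,
        Complex.sub_im]
      rw [hC]
      linear_combination T * (-a1)
    rw [this]; linarith
  have pA2 : ((starRingEnd ℂ) u2 * (T * I * (u2 - u1))).im = 3 * r / 2 := by
    have : ((starRingEnd ℂ) u2 * (T * I * (u2 - u1))).im = T * (1 - C) := by
      simp only [Complex.mul_im, Complex.mul_re, Complex.conj_re, Complex.conj_im,
        Complex.ofReal_re, Complex.ofReal_im, Complex.I_re, Complex.I_im, Complex.sub_re,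
        Complex.sub_im]
      rw [hC]
      linear_combination T * a2
    rw [this]; linarith
  have pAb : p + T * I * (u2 - u1) ∈ ball p R := by
    rw [mem_ball, dist_eq_norm, add_sub_cancel_left, norm_mul, norm_mul, Complex.norm_I, mul_one,
      Complex.norm_real, Real.norm_eq_abs, abs_of_pos hT0]
    have : ‖u2 - u1‖ ≤ 2 := by
      have := norm_sub_le u2 u1
      rw [K.n1, K.n2] at this
      linarith
    nlinarith
  have j12 : IsPreconnected ((ball p R ∩ {z | yy p u1 z < -r}) ∪ (ball p R ∩ {z | r < yy p u2 z})) := by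
    refine IsPreconnected.union (p + T * I * (u2 - u1)) ⟨pAb, ?_⟩ ⟨pAb, ?_⟩ k1.isPreconnected
      k2.isPreconnected
    · show yy p u1 (p + T * I * (u2 - u1)) < -r
      rw [(xy_add _ _ _).2, pA1]; linarith
    · show r < yy p u2 (p + T * I * (u2 - u1))
      rw [(xy_add _ _ _).2, pA2]; linarith
  -- points in the other intersections
  have self : ∀ u : ℂ, ‖u‖ = 1 → ∀ α β : ℝ, (starRingEnd ℂ) u * (u * (α + β * I)) = α + β * I := by
    intro u hu α β
    have : (starRingEnd ℂ) u * u = 1 := by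
      rw [mul_comm, Complex.mul_conj, Complex.normSq_eq_norm_sq, hu]; simp
    rw [← mul_assoc, this, one_mul]
  have q1 : p + u1 * ((2 * r : ℝ) + (-(2 * r) : ℝ) * I) ∈ ball p R := by
    apply hball _ u1 K.n1
    rw [self u1 K.n1]
    simp
    nlinarith
  have q2 : p + u2 * ((2 * r : ℝ) + (2 * r : ℝ) * I) ∈ ball p R := by
    apply hball _ u2 K.n2
    rw [self u2 K.n2]
    simp
    nlinarith
  have r1 : xx p u1 (p + u1 * ((2 * r : ℝ) + (-(2 * r) : ℝ) * I)) = 2 * r ∧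
      yy p u1 (p + u1 * ((2 * r : ℝ) + (-(2 * r) : ℝ) * I)) = -(2 * r) := by
    rw [(xy_add _ _ _).1, (xy_add _ _ _).2, self u1 K.n1]
    simp
  have r2 : xx p u2 (p + u2 * ((2 * r : ℝ) + (2 * r : ℝ) * I)) = 2 * r ∧
      yy p u2 (p + u2 * ((2 * r : ℝ) + (2 * r : ℝ) * I)) = 2 * r := by
    rw [(xy_add _ _ _).1, (xy_add _ _ _).2, self u2 K.n2]
    simp
  have j123 : IsPreconnected (((ball p R ∩ {z | yy p u1 z < -r}) ∪ (ball p R ∩ {z | r < yy p u2 z})) ∪
      (ball p R ∩ {z | r < xx p u1 z} ∩ {z | yy p u1 z < 0})) := by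
    refine IsPreconnected.union (p + u1 * ((2 * r : ℝ) + (-(2 * r) : ℝ) * I)) (Or.inl ⟨q1, ?_⟩)
      ⟨⟨q1, ?_⟩, ?_⟩ j12 k3.isPreconnected
    · show yy p u1 _ < -r
      rw [r1.2]; linarith
    · show r < xx p u1 _
      rw [r1.1]; linarith
    · show yy p u1 _ < 0
      rw [r1.2]; linarith
  have j1234 : IsPreconnected ((((ball p R ∩ {z | yy p u1 z < -r}) ∪
      (ball p R ∩ {z | r < yy p u2 z})) ∪
      (ball p R ∩ {z | r < xx p u1 z} ∩ {z | yy p u1 z < 0})) ∪
      (ball p R ∩ {z | r < xx p u2 z} ∩ {z | 0 < yy p u2 z})) := by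
    refine IsPreconnected.union (p + u2 * ((2 * r : ℝ) + (2 * r : ℝ) * I)) (Or.inl (Or.inr ⟨q2, ?_⟩))
      ⟨⟨q2, ?_⟩, ?_⟩ j123 k4.isPreconnected
    · show r < yy p u2 _
      rw [r2.2]; linarith
    · show r < xx p u2 _
      rw [r2.1]; linarith
    · show 0 < yy p u2 _
      rw [r2.2]; linarith
  rw [Set.union_assoc] at j1234
  exact j1234

/-- the corner kind of an isolated wild arc -/
def CornerDisc (c : ℝ → ℂ) (a b : ℝ) : Prop := ∃ (p u1 u2 : ℂ) (r R s t : ℝ), ‖u1‖ = 1 ∧ ‖u2‖ = 1 ∧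
  0 < r ∧ 25 * r ≤ R * ‖u1 - u2‖ ^ 2 ∧ a ≤ s ∧ s ≤ t ∧ t ≤ b ∧ b ≤ a + 1 ∧
  (∀ x ∈ Icc s t, ‖c x - p‖ ≤ r) ∧ (∀ x ∈ Icc a s, c x = p + ‖c x - p‖ * u1) ∧
  (∀ x ∈ Icc t b, c x = p + ‖c x - p‖ * u2) ∧ (∀ x ∈ Icc b (a + 1), R ≤ ‖c x - p‖)

/-- key estimate -/
theorem wedge_est {r h n C : ℝ} (hr : 0 < r) (hC : C < 1) (hC' : -1 ≤ C)
    (hh : h * (2 - 2 * C) = 41 / 5 * r) (h1 : n ≤ h * C + r) (h2 : h ≤ n * C + r) (hn : 0 ≤ n) :
    False := by
  have hh0 : 0 < h := by
    by_contra hcon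
    push Not at hcon
    nlinarith
  rcases le_total C 0 with k | k
  · have : n * C ≤ 0 := mul_nonpos_of_nonneg_of_nonpos hn k
    nlinarith
  · have : n * C ≤ (h * C + r) * C := mul_le_mul_of_nonneg_right h1 k
    have k2 : h * (1 - C) * (1 + C) ≤ r * (1 + C) := by nlinarith
    have k3 : h * (1 - C) ≤ r := le_of_mul_le_mul_right k2 (by linarith)
    linarith

end Pool.Agent.R762.Pg
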