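import Pool.Agent.R762.Pg3

/-! Arcs that look like a corner outside a small disc: the family of chords. -/

set_option autoImplicit false
set_option maxHeartbeats 1000000
open Complex Set Topology Metric

namespace Pool.Agent.R762.Pg

open Pool.Agent.H763R2 Pool.Agent.H763R2.An Pool.Agent.W675.Peg Pool.Agent.TH569.Peg
  Pool.Agent.Y535.PEG
open Pool.Agent.H763R2.Dm (NoSq floor_const)

variable {c : ℝ → ℂ}

theorem DD_xy (c : ℝ → ℂ) (p u : ℂ) (x y : ℝ) :
    xx p u (DD c x y) = xx p u (c x) - (yy p u (c y) - yy p u (c x)) ∧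
    yy p u (DD c x y) = yy p u (c x) + (xx p u (c y) - xx p u (c x)) := by
  rw [DD_eq]
  unfold xx yy
  have e : (starRingEnd ℂ) u * (c x + I * (c y - c x) - p) = (starRingEnd ℂ) u * (c x - p) +
      I * ((starRingEnd ℂ) u * (c y - p) - (starRingEnd ℂ) u * (c x - p)) := by ring
  rw [e]
  generalize (starRingEnd ℂ) u * (c x - p) = α
  generalize (starRingEnd ℂ) u * (c y - p) = β
  constructor <;> simp
  ring

theorem CC_xy (c : ℝ → ℂ) (p u : ℂ) (x y : ℝ) :
    xx p u (CC c x y) = xx p u (c y) - (yy p u (c y) - yy p u (c x)) ∧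
    yy p u (CC c x y) = yy p u (c y) + (xx p u (c y) - xx p u (c x)) := by
  rw [CC_eq]
  unfold xx yy
  have e : (starRingEnd ℂ) u * (c y + I * (c y - c x) - p) = (starRingEnd ℂ) u * (c y - p) +
      I * ((starRingEnd ℂ) u * (c y - p) - (starRingEnd ℂ) u * (c x - p)) := by ring
  rw [e]
  generalize (starRingEnd ℂ) u * (c x - p) = α
  generalize (starRingEnd ℂ) u * (c y - p) = β
  constructor <;> simp
  ring

theorem ray_xy {p u v : ℂ} {n : ℝ} {z : ℂ} (h : z = p + n * v) :
    xx p u z = n * ((starRingEnd ℂ) u * v).re ∧ yy p u z = n * ((starRingEnd ℂ) u * v).im := by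
  unfold xx yy
  have e : (starRingEnd ℂ) u * (z - p) = n * ((starRingEnd ℂ) u * v) := by rw [h]; ring
  rw [e]
  constructor <;> simp

theorem self_xy {u : ℂ} (hu : ‖u‖ = 1) : ((starRingEnd ℂ) u * u).re = 1 ∧
    ((starRingEnd ℂ) u * u).im = 0 := by
  have : (starRingEnd ℂ) u * u = 1 := by
    rw [mul_comm, Complex.mul_conj, Complex.normSq_eq_norm_sq, hu]; simp
  rw [this]; simp

theorem abs_xx {p u : ℂ} (hu : ‖u‖ = 1) (z : ℂ) : |xx p u z| ≤ ‖z - p‖ ∧ |yy p u z| ≤ ‖z - p‖ := by
  have e := norm_xy hu p z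
  constructor
  · exact abs_le_of_sq_le_sq (by nlinarith [sq_nonneg (yy p u z)]) (norm_nonneg _)
  · exact abs_le_of_sq_le_sq (by nlinarith [sq_nonneg (xx p u z)]) (norm_nonneg _)

theorem corner_good (L : Loop c) (J : Inj c) {a b : ℝ} {p u1 u2 : ℂ} {r R s t : ℝ}
    (K : Cfg u1 u2 r R) (as : a ≤ s) (st : s ≤ t) (tb : t ≤ b) (ba : b ≤ a + 1)
    (hcore : ∀ x ∈ Icc s t, ‖c x - p‖ ≤ r) (h1 : ∀ x ∈ Icc a s, c x = p + ‖c x - p‖ * u1)
    (h2 : ∀ x ∈ Icc t b, c x = p + ‖c x - p‖ * u2) (hfar : ∀ x ∈ Icc b (a + 1), R ≤ ‖c x - p‖)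
    (hw : 0 ≤ ((starRingEnd ℂ) u1 * u2).im) :
    ∃ s' t', a < s' ∧ s' < s ∧ t < t' ∧ t' < b ∧ (∀ x, a < x → x < s → Cone c x) ∧
      (∀ x, t < x → x < b → Cone c x) ∧ NL c s' t' := by
  obtain ⟨C, hC1, hC2, him, hd, c1, c2, c3, a1, a2, hC⟩ := K.facts
  obtain ⟨hR6, hR⟩ := K.R_pos
  have hr := K.r0
  have hc := L.cont
  have hD : 0 < 2 - 2 * C := by linarith
  obtain ⟨h, hh⟩ : ∃ h : ℝ, h = 41 / 5 * r / (2 - 2 * C) := ⟨_, rfl⟩
  have hh1 : h * (2 - 2 * C) = 41 / 5 * r := by rw [hh]; exact div_mul_cancel₀ _ hD.ne'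
  have hh0 : 0 < h := by rw [hh]; positivity
  have h2r : 2 * r < h := by nlinarith
  have h3R : 3 * h < R := by
    have : 3 * h * (2 - 2 * C) < R * (2 - 2 * C) := by nlinarith
    exact lt_of_mul_lt_mul_right this hD.le
  set n : ℝ → ℝ := fun x => ‖c x - p‖ with hn
  have n0 : ∀ x, 0 ≤ n x := fun x => norm_nonneg _
  have nc : Continuous n := by rw [hn]; fun_prop
  have na : R ≤ n a := by
    have := hfar (a + 1) ⟨ba, le_rfl⟩
    rwa [L.per] at this
  have nb : R ≤ n b := hfar b ⟨le_rfl, ba⟩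
  have ns : n s ≤ r := hcore s ⟨le_rfl, st⟩
  have nt : n t ≤ r := hcore t ⟨st, le_rfl⟩
  have inj1 : InjOn n (Icc a s) := by
    intro x hx y hy hxy
    have e1 := h1 x hx
    have e2 := h1 y hy
    have e3 : c x = c y := by
      rw [e1, e2]
      have : ‖c x - p‖ = ‖c y - p‖ := hxy
      rw [this]
    by_contra hne
    rcases lt_or_gt_of_ne hne with h' | h'
    · rcases lt_or_ge y (x + 1) with h'' | h''
      · exact J x y h' h'' e3
      · have : s = a + 1 := by linarith [hx.1, hy.2]
        rw [this] at ns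
        have : n (a + 1) = n a := by simp only [hn, L.per]
        linarith
    · rcases lt_or_ge x (y + 1) with h'' | h''
      · exact J y x h' h'' e3.symm
      · have : s = a + 1 := by linarith [hy.1, hx.2]
        rw [this] at ns
        have : n (a + 1) = n a := by simp only [hn, L.per]
        linarith
  have inj2 : InjOn n (Icc t b) := by
    intro x hx y hy hxy
    have e1 := h2 x hx
    have e2 := h2 y hy
    have e3 : c x = c y := by
      rw [e1, e2]
      have : ‖c x - p‖ = ‖c y - p‖ := hxy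
      rw [this]
    by_contra hne
    rcases lt_or_gt_of_ne hne with h' | h'
    · rcases lt_or_ge y (x + 1) with h'' | h''
      · exact J x y h' h'' e3
      · have : t = a := by linarith [hx.1, hy.2]
        rw [this] at nt
        linarith
    · rcases lt_or_ge x (y + 1) with h'' | h''
      · exact J y x h' h'' e3.symm
      · have : t = a := by linarith [hy.1, hx.2]
        rw [this] at nt
        linarith
  have anti : StrictAntiOn n (Icc a s) :=
    ContinuousOn.strictAntiOn_of_injOn_Icc as (by linarith) nc.continuousOn inj1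
  have mono : StrictMonoOn n (Icc t b) :=
    ContinuousOn.strictMonoOn_of_injOn_Icc tb (by linarith) nc.continuousOn inj2
  obtain ⟨s', hs, es⟩ := intermediate_value_Icc' as nc.continuousOn
    (show h ∈ Icc (n s) (n a) from ⟨by linarith, by linarith⟩)
  obtain ⟨t', ht, et⟩ := intermediate_value_Icc tb nc.continuousOn
    (show h ∈ Icc (n t) (n b) from ⟨by linarith, by linarith⟩)
  have s1 : a < s' := lt_of_le_of_ne hs.1 (by rintro rfl; linarith)
  have s2 : s' < s := lt_of_le_of_ne hs.2 (by rintro rfl; linarith)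
  have t1 : t < t' := lt_of_le_of_ne ht.1 (by rintro rfl; linarith)
  have t2 : t' < b := lt_of_le_of_ne ht.2 (by rintro rfl; linarith)
  obtain ⟨u11, u12⟩ := self_xy K.n1
  obtain ⟨u21, u22⟩ := self_xy K.n2
  obtain ⟨S, hS⟩ : ∃ S, ((starRingEnd ℂ) u1 * u2).im = S := ⟨_, rfl⟩
  rw [hS] at hw him
  -- coordinates
  have left : ∀ x ∈ Icc a s, xx p u1 (c x) = n x ∧ yy p u1 (c x) = 0 ∧ xx p u2 (c x) = n x * C ∧
      yy p u2 (c x) = -(n x * S) := by
    intro x hx
    have e1 := ray_xy (u := u1) (h1 x hx)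
    have e2 := ray_xy (u := u2) (h1 x hx)
    rw [u11, u12, mul_one, mul_zero] at e1
    rw [hC2, him] at e2
    exact ⟨e1.1, e1.2, e2.1, by rw [e2.2]; ring⟩
  have right : ∀ x ∈ Icc t b, xx p u2 (c x) = n x ∧ yy p u2 (c x) = 0 ∧ xx p u1 (c x) = n x * C ∧
      yy p u1 (c x) = n x * S := by
    intro x hx
    have e1 := ray_xy (u := u1) (h2 x hx)
    have e2 := ray_xy (u := u2) (h2 x hx)
    rw [u21, u22, mul_one, mul_zero] at e2
    rw [hC1, hS] at e1
    exact ⟨e2.1, e2.2, e1.1, e1.2⟩
  have core : ∀ x ∈ Icc s t, |xx p u1 (c x)| ≤ r ∧ |yy p u1 (c x)| ≤ r ∧ |xx p u2 (c x)| ≤ r ∧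
      |yy p u2 (c x)| ≤ r := fun x hx =>
    ⟨(abs_xx K.n1 _).1.trans (hcore x hx), (abs_xx K.n1 _).2.trans (hcore x hx),
      (abs_xx K.n2 _).1.trans (hcore x hx), (abs_xx K.n2 _).2.trans (hcore x hx)⟩
  refine ⟨s', t', s1, s2, t1, t2, ?_, ?_, ?_⟩
  · intro x hx1 hx2
    refine ⟨min (x - a) (s - x), lt_min (by linarith) (by linarith), -(starRingEnd ℂ) u1,
      fun y z hy hz hyz => ?_⟩
    have hy1 := lt_min_iff.1 hy
    have hz1 := lt_min_iff.1 hz
    rw [abs_lt, abs_lt] at hy1 hz1
    have my : y ∈ Icc a s := ⟨by linarith [hy1.1.1], by linarith [hy1.2.2]⟩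
    have mz : z ∈ Icc a s := ⟨by linarith [hz1.1.1], by linarith [hz1.2.2]⟩
    have hlt : n z < n y := anti my mz hyz
    have e : -(starRingEnd ℂ) u1 * (c z - c y) = ((n y - n z : ℝ) : ℂ) := by
      rw [h1 y my, h1 z mz]
      have : (starRingEnd ℂ) u1 * u1 = 1 := by
        rw [mul_comm, Complex.mul_conj, Complex.normSq_eq_norm_sq, K.n1]; simp
      push_cast
      linear_combination ((n y : ℂ) - n z) * this
    rw [e, Complex.ofReal_im, Complex.ofReal_re, abs_zero]
    linarith
  · intro x hx1 hx2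
    refine ⟨min (x - t) (b - x), lt_min (by linarith) (by linarith), (starRingEnd ℂ) u2,
      fun y z hy hz hyz => ?_⟩
    have hy1 := lt_min_iff.1 hy
    have hz1 := lt_min_iff.1 hz
    rw [abs_lt, abs_lt] at hy1 hz1
    have my : y ∈ Icc t b := ⟨by linarith [hy1.1.1], by linarith [hy1.2.2]⟩
    have mz : z ∈ Icc t b := ⟨by linarith [hz1.1.1], by linarith [hz1.2.2]⟩
    have hlt : n y < n z := mono my mz hyz
    have e : (starRingEnd ℂ) u2 * (c z - c y) = ((n z - n y : ℝ) : ℂ) := by
      rw [h2 y my, h2 z mz]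
      have : (starRingEnd ℂ) u2 * u2 = 1 := by
        rw [mul_comm, Complex.mul_conj, Complex.normSq_eq_norm_sq, K.n2]; simp
      push_cast
      linear_combination ((n z : ℂ) - n y) * this
    rw [e, Complex.ofReal_im, Complex.ofReal_re, abs_zero]
    linarith
  · intro ρ hρ
    obtain ⟨q, P, H⟩ := Lpath (a := s') (b := t') (by linarith) (by linarith) hρ
    refine ⟨NN p u1 u2 r R, q, NN_pre K, ?_, P, ?_⟩
    · -- the region avoids the curve
      rintro z hz ⟨w, rfl⟩
      obtain ⟨x, hx, hxw⟩ : ∃ x ∈ Icc a (a + 1), c x = c w := by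
        refine ⟨a + Int.fract (w - a), ⟨by linarith [Int.fract_nonneg (w - a)],
          by linarith [Int.fract_lt_one (w - a)]⟩, ?_⟩
        have := L.per_int (a + Int.fract (w - a)) ⌊w - a⌋
        rw [← this]
        congr 1
        rw [add_assoc, Int.fract_add_floor]
        ring
      rw [← hxw] at hz
      have hb : n x < R := by
        have : c x ∈ ball p R := by
          rcases hz with (h | h) | (h | h)
          · exact h.1
          · exact h.1
          · exact h.1.1
          · exact h.1.1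
        rwa [mem_ball, dist_eq_norm] at this
      have hz' : yy p u1 (c x) < -r ∨ r < yy p u2 (c x) ∨
          (r < xx p u1 (c x) ∧ yy p u1 (c x) < 0) ∨ (r < xx p u2 (c x) ∧ 0 < yy p u2 (c x)) := by
        rcases hz with (h | h) | (h | h)
        · exact Or.inl h.2
        · exact Or.inr (Or.inl h.2)
        · exact Or.inr (Or.inr (Or.inl ⟨h.1.2, h.2⟩))
        · exact Or.inr (Or.inr (Or.inr ⟨h.1.2, h.2⟩))
      rcases le_total x s with hxs | hxs
      · obtain ⟨e1, e2, e3, e4⟩ := left x ⟨hx.1, hxs⟩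
        rw [e1, e2, e3, e4] at hz'
        have := mul_nonneg (n0 x) hw
        rcases hz' with h | h | ⟨-, h⟩ | ⟨-, h⟩ <;> linarith
      · rcases le_total x t with hxt | hxt
        · obtain ⟨e1, e2, e3, e4⟩ := core x ⟨hxs, hxt⟩
          rw [abs_le] at e1 e2 e3 e4
          rcases hz' with h | h | ⟨h, -⟩ | ⟨h, -⟩ <;> linarith [e1.2, e2.1, e3.2, e4.2]
        · rcases le_total x b with hxb | hxb
          · obtain ⟨e1, e2, e3, e4⟩ := right x ⟨hxt, hxb⟩
            rw [e1, e2, e3, e4] at hz'
            have := mul_nonneg (n0 x) hw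
            rcases hz' with h | h | ⟨-, h⟩ | ⟨-, h⟩ <;> linarith
          · have : R ≤ n x := hfar x ⟨hxb, hx.2⟩
            linarith
    · have nD : ∀ x y, n x ≤ h → n y ≤ h → DD c x y ∈ ball p R ∧ CC c x y ∈ ball p R := by
        intro x y hx hy
        rw [mem_ball, mem_ball, dist_eq_norm, dist_eq_norm, DD_eq, CC_eq]
        have e0 : ‖I * (c y - c x)‖ ≤ n y + n x := by
          rw [norm_mul, Complex.norm_I, one_mul]
          have : c y - c x = (c y - p) - (c x - p) := by ring
          rw [this]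
          exact norm_sub_le _ _
        constructor
        · have : c x + I * (c y - c x) - p = (c x - p) + I * (c y - c x) := by ring
          rw [this]
          have := norm_add_le (c x - p) (I * (c y - c x))
          have k : ‖c x - p‖ = n x := rfl
          linarith
        · have : c y + I * (c y - c x) - p = (c y - p) + I * (c y - c x) := by ring
          rw [this]
          have := norm_add_le (c y - p) (I * (c y - c x))
          have k : ‖c y - p‖ = n y := rfl
          linarith
      have inH1 : ∀ z, z ∈ ball p R → yy p u1 z < -r → z ∈ NN p u1 u2 r R := fun z hz h =>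
        Or.inl (Or.inl ⟨hz, h⟩)
      have inH2 : ∀ z, z ∈ ball p R → r < yy p u2 z → z ∈ NN p u1 u2 r R := fun z hz h =>
        Or.inl (Or.inr ⟨hz, h⟩)
      obtain ⟨A1, A2, A3, A4⟩ := left s' ⟨hs.1, hs.2⟩
      obtain ⟨B1, B2, B3, B4⟩ := right t' ⟨ht.1, ht.2⟩
      rw [es] at A1 A3 A4
      rw [et] at B1 B3 B4
      intro τ hτ
      rcases H τ hτ with ⟨g1, g2⟩ | ⟨g1, g2⟩
      · rw [g1]
        generalize (q τ).2 = y at g2
        rcases le_total y s with hys | hys
        · -- first ray
          have my : y ∈ Icc a s := ⟨by linarith [g2.1], hys⟩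
          obtain ⟨e1, e2, e3, e4⟩ := left y my
          have hlt : n y < h := by rw [← es]; exact anti hs my g2.1
          left
          refine Or.inr (Or.inl ⟨⟨(nD s' y es.le hlt.le).1, ?_⟩, ?_⟩)
          · show r < xx p u1 _
            rw [(DD_xy c p u1 s' y).1, A1, A2, e2]; linarith
          · show yy p u1 _ < 0
            rw [(DD_xy c p u1 s' y).2, A1, A2, e1]; linarith
        · rcases le_total y t with hyt | hyt
          · obtain ⟨e1, e2, e3, e4⟩ := core y ⟨hys, hyt⟩
            rw [abs_le] at e1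
            left
            refine inH1 _ (nD s' y es.le ?_).1 ?_
            · have : n y ≤ r := hcore y ⟨hys, hyt⟩
              linarith
            · rw [(DD_xy c p u1 s' y).2, A1, A2]; linarith [e1.2]
          · have my : y ∈ Icc t b := ⟨hyt, by linarith [g2.2]⟩
            obtain ⟨e1, e2, e3, e4⟩ := right y my
            have hle : n y ≤ h := by rw [← et]; exact mono.monotoneOn my ht g2.2
            by_cases hk : yy p u1 (DD c s' y) < -r
            · exact Or.inl (inH1 _ (nD s' y es.le hle).1 hk)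
            · right
              refine inH2 _ (nD s' y es.le hle).2 ?_
              by_contra hk2
              rw [(DD_xy c p u1 s' y).2, A1, A2, e3] at hk
              rw [(CC_xy c p u2 s' y).2, A3, e1, e2] at hk2
              push Not at hk hk2
              exact wedge_est (n := n y) hr c2 c1 hh1 (by linarith) (by linarith) (n0 y)
      · rw [g1]
        generalize (q τ).1 = x at g2
        rcases le_total x s with hxs | hxs
        · have mx : x ∈ Icc a s := ⟨by linarith [g2.1], hxs⟩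
          obtain ⟨e1, e2, e3, e4⟩ := left x mx
          have hle : n x ≤ h := by rw [← es]; exact anti.antitoneOn hs mx g2.1
          by_cases hk : yy p u1 (DD c x t') < -r
          · exact Or.inl (inH1 _ (nD x t' hle et.le).1 hk)
          · right
            refine inH2 _ (nD x t' hle et.le).2 ?_
            by_contra hk2
            rw [(DD_xy c p u1 x t').2, e1, e2, B3] at hk
            rw [(CC_xy c p u2 x t').2, B1, B2, e3] at hk2
            push Not at hk hk2
            exact wedge_est (n := n x) hr c2 c1 hh1 (by linarith) (by linarith) (n0 x)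
        · rcases le_total x t with hxt | hxt
          · obtain ⟨e1, e2, e3, e4⟩ := core x ⟨hxs, hxt⟩
            rw [abs_le] at e3
            right
            refine inH2 _ (nD x t' ?_ et.le).2 ?_
            · have : n x ≤ r := hcore x ⟨hxs, hxt⟩
              linarith
            · rw [(CC_xy c p u2 x t').2, B1, B2]; linarith [e3.2]
          · have mx : x ∈ Icc t b := ⟨hxt, by linarith [g2.2]⟩
            obtain ⟨e1, e2, e3, e4⟩ := right x mx
            have hlt : n x < h := by rw [← et]; exact mono mx ht g2.2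
            right
            refine Or.inr (Or.inr ⟨⟨(nD x t' hlt.le et.le).2, ?_⟩, ?_⟩)
            · show r < xx p u2 _
              rw [(CC_xy c p u2 x t').1, B1, B2, e2]; linarith
            · show 0 < yy p u2 _
              rw [(CC_xy c p u2 x t').2, B1, B2, e1]; linarith

theorem NL_conj {s t : ℝ} (h : NL (fun x => (starRingEnd ℂ) (c x)) s t) : NR c s t := by
  intro ρ hρ
  obtain ⟨N, p, hN, hNC, P, H⟩ := h ρ hρ
  have e1 : ∀ x y, CC c y x = (starRingEnd ℂ) (DD (fun x => (starRingEnd ℂ) (c x)) x y) := by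
    intro x y
    rw [DD_eq, CC_eq]
    simp only [map_add, map_mul, map_sub, Complex.conj_conj, Complex.conj_I]
    ring
  have e2 : ∀ x y, DD c y x = (starRingEnd ℂ) (CC (fun x => (starRingEnd ℂ) (c x)) x y) := by
    intro x y
    rw [DD_eq, CC_eq]
    simp only [map_add, map_mul, map_sub, Complex.conj_conj, Complex.conj_I]
    ring
  refine ⟨(starRingEnd ℂ) '' N, p, hN.image _ Complex.continuous_conj.continuousOn, ?_, P, ?_⟩
  · rintro _ ⟨z, hz, rfl⟩ ⟨x, hx⟩
    refine hNC z hz ⟨x, ?_⟩
    simp only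
    rw [hx, Complex.conj_conj]
  · intro τ hτ
    rcases H τ hτ with h | h
    · exact Or.inr ⟨_, h, (e1 _ _).symm⟩
    · exact Or.inl ⟨_, h, (e2 _ _).symm⟩

theorem cone_conj {x : ℝ} (h : Cone (fun x => (starRingEnd ℂ) (c x)) x) : Cone c x := by
  obtain ⟨ρ, hρ, w, H⟩ := h
  refine ⟨ρ, hρ, (starRingEnd ℂ) w, fun y z hy hz hyz => ?_⟩
  have := H y z hy hz hyz
  have e : (starRingEnd ℂ) w * (c z - c y) =
      (starRingEnd ℂ) (w * ((starRingEnd ℂ) (c z) - (starRingEnd ℂ) (c y))) := by
    simp
  rw [e, Complex.conj_im, Complex.conj_re, abs_neg]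
  exact this

theorem CornerDisc.good (L : Loop c) (J : Inj c) {a b : ℝ} (h : CornerDisc c a b) : Good c a b := by
  obtain ⟨p, u1, u2, r, R, s, t, n1, n2, hr, hbig, as, st, tb, ba, hcore, h1, h2, hfar⟩ := h
  rcases le_total 0 ((starRingEnd ℂ) u1 * u2).im with hw | hw
  · obtain ⟨s', t', s1, s2, t1, t2, k1, k2, k3⟩ := corner_good L J ⟨n1, n2, hr, hbig⟩ as st tb ba
      hcore h1 h2 hfar hw
    exact ⟨s', t', s1, by linarith, t2, ba, fun x hx hx' => k1 x hx (by linarith),
      fun x hx hx' => k2 x (by linarith) hx', Or.inl k3⟩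
  · have L' : Loop (fun x => (starRingEnd ℂ) (c x)) :=
      ⟨Complex.continuous_conj.comp L.cont, fun x => by simp only [L.per]⟩
    have J' : Inj (fun x => (starRingEnd ℂ) (c x)) := fun x y h1 h2 he =>
      J x y h1 h2 ((starRingEnd ℂ).injective he)
    have hn : ∀ x, ‖(starRingEnd ℂ) (c x) - (starRingEnd ℂ) p‖ = ‖c x - p‖ := fun x => by
      rw [← map_sub, Complex.norm_conj]
    have K' : Cfg ((starRingEnd ℂ) u1) ((starRingEnd ℂ) u2) r R := by
      refine ⟨by rw [Complex.norm_conj]; exact n1, by rw [Complex.norm_conj]; exact n2, hr, ?_⟩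
      rw [← map_sub, Complex.norm_conj]; exact hbig
    obtain ⟨s', t', s1, s2, t1, t2, k1, k2, k3⟩ := corner_good L' J' (p := (starRingEnd ℂ) p) K'
      as st tb ba (fun x hx => by rw [hn]; exact hcore x hx)
      (fun x hx => by
        rw [hn]
        conv_lhs => rw [h1 x hx]
        simp)
      (fun x hx => by
        rw [hn]
        conv_lhs => rw [h2 x hx]
        simp)
      (fun x hx => by rw [hn]; exact hfar x hx) (by
        rw [← map_mul, Complex.conj_im]; linarith)
    exact ⟨s', t', s1, by linarith, t2, ba, fun x hx hx' => cone_conj (k1 x hx (by linarith)),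
      fun x hx hx' => cone_conj (k2 x (by linarith) hx'), Or.inr (Or.inl (NL_conj k3))⟩

theorem monC {x : ℝ} (h : Cone c x) : Mon c x := by
  obtain ⟨ρ, hρ, w, H⟩ := h
  exact ⟨ρ, hρ, w, fun y z hy hz hyz => lt_of_le_of_lt (abs_nonneg _) (H y z hy hz hyz)⟩

theorem Mon.per (L : Loop c) {x : ℝ} (h : Mon c x) : Mon c (x + 1) := by
  obtain ⟨ρ, hρ, w, H⟩ := h
  refine ⟨ρ, hρ, w, fun y z hy hz hyz => ?_⟩
  have := H (y - 1) (z - 1) (by rwa [show y - 1 - x = y - (x + 1) by ring])
    (by rwa [show z - 1 - x = z - (x + 1) by ring]) (by linarith)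
  rw [← L.per (y - 1), ← L.per (z - 1), sub_add_cancel, sub_add_cancel] at this
  exact this

/-- the curve is locally monotone outside finitely many good arcs -/
theorem square_of_good (L : Loop c) (J : Inj c) (nosq : NoSq (range c)) {n : ℕ} (hn : 0 < n)
    {a b : ℕ → ℝ} (hab : ∀ k < n, b k ≤ a (k + 1)) (hend : a n = a 0 + 1)
    (hg : ∀ k < n, Good c (a k) (b k)) (hm : ∀ k < n, ∀ x ∈ Icc (b k) (a (k + 1)), Mon c x) :
    False := by
  obtain ⟨x, g, hodd, h1, h2, h3⟩ := exChargeQ L J nosq
  have ex : ∀ k, ∃ st : ℝ × ℝ, k < n → a k < st.1 ∧ st.1 < st.2 ∧ st.2 < b k ∧ b k ≤ a k + 1 ∧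
      (∀ y, a k < y → y ≤ st.1 → Cone c y) ∧ (∀ y, st.2 ≤ y → y < b k → Cone c y) ∧
      (NL c st.1 st.2 ∨ NR c st.1 st.2 ∨ FE c st.1 st.2) := by
    intro k
    by_cases hk : k < n
    · obtain ⟨s, t, h⟩ := hg k hk
      exact ⟨(s, t), fun _ => h⟩
    · exact ⟨(0, 0), fun h => absurd h hk⟩
  choose st hst using ex
  have alt : ∀ k < n, a k < a (k + 1) := fun k hk => by
    obtain ⟨e1, e2, e3, -⟩ := hst k hk
    linarith [hab k hk]
  have amono : ∀ j k, j ≤ k → k ≤ n → a j ≤ a k := by
    intro j k hjk hk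
    induction k, hjk using Nat.le_induction with
    | base => exact le_rfl
    | succ k hjk ih => exact (ih (by omega)).trans (alt k (by omega)).le
  have e1 : ∀ k < n, x (st k).2 = x (st k).1 := by
    intro k hk
    obtain ⟨k1, k2, k3, k4, k5, k6, k7⟩ := hst k hk
    exact h3 _ _ ⟨k2, by linarith, k5 _ k1 le_rfl, k6 _ le_rfl k3⟩ k7
  have e2 : ∀ k, k + 1 < n → x (st (k + 1)).1 = x (st k).2 := by
    intro k hk
    obtain ⟨k1, k2, k3, k4, k5, k6, k7⟩ := hst k (by omega)
    obtain ⟨l1, l2, l3, l4, l5, l6, l7⟩ := hst (k + 1) hk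
    have hk1 := hab k (by omega)
    have m1 := amono (k + 1 + 1) n (by omega) le_rfl
    have m2 := amono 0 k (by omega) (by omega)
    have m3 := hab (k + 1) hk
    refine h2 _ _ ⟨by linarith, by linarith, k6 _ le_rfl k3, l5 _ l1 le_rfl⟩ ?_
    intro y hy
    rcases lt_or_ge y (b k) with h | h
    · exact monC (k6 y hy.1 h)
    · rcases le_or_gt y (a (k + 1)) with h' | h'
      · exact hm k (by omega) y ⟨h, h'⟩
      · exact monC (l5 y h' hy.2)
  have e3 : ∀ k < n, x (st k).1 = x (st 0).1 := by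
    intro k
    induction k with
    | zero => intro _; rfl
    | succ k ih =>
      intro hk
      rw [e2 k hk, e1 k (by omega), ih (by omega)]
  obtain ⟨m, rfl⟩ : ∃ m, n = m + 1 := ⟨n - 1, by omega⟩
  obtain ⟨k1, k2, k3, k4, k5, k6, k7⟩ := hst m (by omega)
  obtain ⟨l1, l2, l3, l4, l5, l6, l7⟩ := hst 0 hn
  have c0 : Cone c (st 0).1 := l5 _ l1 le_rfl
  have e4 : x ((st 0).1 + 1) = x (st m).2 := by
    have hk1 := hab m (by omega)
    have m2 : (st 0).1 < (st m).2 := by
      rcases Nat.eq_zero_or_pos m with h | h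
      · subst h; exact l2
      · have := amono 1 m h (by omega)
        have := hab 0 hn
        simp only [zero_add] at this
        linarith
    refine h2 _ _ ⟨by linarith, by linarith, k6 _ le_rfl k3, c0.per L⟩ ?_
    intro y hy
    rcases lt_or_ge y (b m) with h | h
    · exact monC (k6 y hy.1 h)
    · rcases le_or_gt y (a (m + 1)) with h' | h'
      · exact hm m (by omega) y ⟨h, h'⟩
      · have : Mon c (y - 1 + 1) := Mon.per L (monC (l5 (y - 1) (by linarith) (by linarith [hy.2])))
        rwa [sub_add_cancel] at this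
  have e5 := h1 _ c0
  rw [e4, e1 m (by omega), e3 m (by omega)] at e5
  have : g = 0 := by linarith
  rw [this] at hodd
  exact absurd hodd (by decide)

end Pool.Agent.R762.Pg
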