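import Pool.Agent.R762.Pg4
import Pool.Agent.R762.Cu2

/-! Cusps: families of chords across the tip. -/

set_option autoImplicit false
set_option maxHeartbeats 1000000
open Complex Set Topology Metric

namespace Pool.Agent.R762.Pg

open Pool.Agent.H763R2 Pool.Agent.H763R2.An Pool.Agent.W675.Peg Pool.Agent.TH569.Peg
  Pool.Agent.Y535.PEG
open Pool.Agent.H763R2.Dm (NoSq floor_const)
open Pool.Agent.R762.Cu (Tip)

variable {c : ℝ → ℂ}

/-- both branches at the parameter `s` are graphs with small slopes over the same half line -/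
def Cusp (c : ℝ → ℂ) (s : ℝ) : Prop := ∃ u : ℂ, u ≠ 0 ∧ ∃ ρ > 0,
  (∀ x y, s - ρ < x → x < y → y ≤ s → |((c y - c x) / u).im| ≤ -((c y - c x) / u).re / 4) ∧
  (∀ x y, s ≤ x → x < y → y < s + ρ → |((c y - c x) / u).im| ≤ ((c y - c x) / u).re / 4)

/-- the region outside the thin part, in coordinates -/
def N0 (f g : ℝ → ℝ) (R : ℝ) : Set (ℝ × ℝ) :=
  ({q | -R < q.1 ∧ q.1 < R ∧ -R < q.2 ∧ q.2 < f q.1} ∪
    {q | -R < q.1 ∧ q.1 < 0 ∧ -R < q.2 ∧ q.2 < R}) ∪
    {q | -R < q.1 ∧ q.1 < R ∧ g q.1 < q.2 ∧ q.2 < R}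

theorem N0_pre {f g : ℝ → ℝ} {δ R : ℝ} (T : Tip f g δ) (hR : 0 < R) : IsPreconnected (N0 f g R) := by
  have cf := Cu.cont_of_lip T.lf
  have cg := Cu.cont_of_lip T.lg
  have bf : ∀ a, -R < a → a < R → |f a| ≤ R / 4 := fun a h1 h2 => by
    have := T.lf a 0
    rw [T.f0 0 le_rfl, sub_zero, sub_zero] at this
    have h3 : |a| < R := abs_lt.2 ⟨h1, h2⟩
    linarith
  have bg : ∀ a, -R < a → a < R → |g a| ≤ R / 4 := fun a h1 h2 => by
    have := T.lg a 0
    rw [T.g0 0 le_rfl, sub_zero, sub_zero] at this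
    have h3 : |a| < R := abs_lt.2 ⟨h1, h2⟩
    linarith
  have p1 : IsPreconnected {q : ℝ × ℝ | -R < q.1 ∧ q.1 < R ∧ -R < q.2 ∧ q.2 < f q.1} := by
    have e : {q : ℝ × ℝ | -R < q.1 ∧ q.1 < R ∧ -R < q.2 ∧ q.2 < f q.1} =
        (fun q : ℝ × ℝ => (q.1, f q.1 - q.2 * (f q.1 + R))) '' (Ioo (-R) R ×ˢ Ioo 0 1) := by
      ext ⟨a, b⟩
      constructor
      · rintro ⟨h1, h2, h3, h4⟩
        simp only at h1 h2 h3 h4
        have hb := abs_le.1 (bf a h1 h2)
        have hp : 0 < f a + R := by linarith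
        refine ⟨(a, (f a - b) / (f a + R)), ⟨⟨h1, h2⟩, ?_, ?_⟩, ?_⟩
        · exact div_pos (by linarith) hp
        · rw [div_lt_one hp]; linarith
        · simp only
          rw [div_mul_cancel₀ _ hp.ne']
          simp
      · rintro ⟨⟨a', τ⟩, ⟨⟨h1, h2⟩, h3, h4⟩, he⟩
        simp only [Prod.mk.injEq] at he h1 h2 h3 h4
        obtain ⟨rfl, rfl⟩ := he
        have hb := abs_le.1 (bf a' h1 h2)
        have hp : 0 < f a' + R := by linarith
        refine ⟨h1, h2, ?_, ?_⟩ <;> simp only <;> nlinarith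
    rw [e]
    exact ((convex_Ioo _ _).prod (convex_Ioo _ _)).isPreconnected.image _
      (Continuous.continuousOn (by fun_prop))
  have p3 : IsPreconnected {q : ℝ × ℝ | -R < q.1 ∧ q.1 < R ∧ g q.1 < q.2 ∧ q.2 < R} := by
    have e : {q : ℝ × ℝ | -R < q.1 ∧ q.1 < R ∧ g q.1 < q.2 ∧ q.2 < R} =
        (fun q : ℝ × ℝ => (q.1, g q.1 + q.2 * (R - g q.1))) '' (Ioo (-R) R ×ˢ Ioo 0 1) := by
      ext ⟨a, b⟩
      constructor
      · rintro ⟨h1, h2, h3, h4⟩
        simp only at h1 h2 h3 h4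
        have hb := abs_le.1 (bg a h1 h2)
        have hp : 0 < R - g a := by linarith
        refine ⟨(a, (b - g a) / (R - g a)), ⟨⟨h1, h2⟩, ?_, ?_⟩, ?_⟩
        · exact div_pos (by linarith) hp
        · rw [div_lt_one hp]; linarith
        · simp only
          rw [div_mul_cancel₀ _ hp.ne']
          simp
      · rintro ⟨⟨a', τ⟩, ⟨⟨h1, h2⟩, h3, h4⟩, he⟩
        simp only [Prod.mk.injEq] at he h1 h2 h3 h4
        obtain ⟨rfl, rfl⟩ := he
        have hb := abs_le.1 (bg a' h1 h2)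
        have hp : 0 < R - g a' := by linarith
        refine ⟨h1, h2, ?_, ?_⟩ <;> simp only <;> nlinarith
    rw [e]
    exact ((convex_Ioo _ _).prod (convex_Ioo _ _)).isPreconnected.image _
      (Continuous.continuousOn (by fun_prop))
  have p2 : IsPreconnected {q : ℝ × ℝ | -R < q.1 ∧ q.1 < 0 ∧ -R < q.2 ∧ q.2 < R} := by
    have e : {q : ℝ × ℝ | -R < q.1 ∧ q.1 < 0 ∧ -R < q.2 ∧ q.2 < R} = Ioo (-R) 0 ×ˢ Ioo (-R) R := by
      ext ⟨a, b⟩
      simp [and_assoc]
    rw [e]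
    exact ((convex_Ioo _ _).prod (convex_Ioo _ _)).isPreconnected
  have p12 : IsPreconnected ({q : ℝ × ℝ | -R < q.1 ∧ q.1 < R ∧ -R < q.2 ∧ q.2 < f q.1} ∪
      {q | -R < q.1 ∧ q.1 < 0 ∧ -R < q.2 ∧ q.2 < R}) := by
    refine IsPreconnected.union (-R / 2, -R / 2) ⟨?_, ?_, ?_, ?_⟩ ⟨?_, ?_, ?_, ?_⟩ p1 p2 <;>
      simp only
    any_goals linarith
    rw [T.f0 _ (by linarith)]; linarith
  refine IsPreconnected.union (-R / 2, R / 2) (Or.inr ⟨?_, ?_, ?_, ?_⟩) ⟨?_, ?_, ?_, ?_⟩ p12 p3 <;>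
    simp only
  any_goals linarith
  rw [T.g0 _ (by linarith)]; linarith

/-- the curve near a cusp, in coordinates; the incoming branch is the lower graph -/
structure CP (c : ℝ → ℂ) (s ρ : ℝ) (u : ℂ) (f g : ℝ → ℝ) (δ R η : ℝ) : Prop where
  u0 : u ≠ 0
  ρ0 : 0 < ρ
  ρ1 : ρ ≤ 1 / 4
  T : Tip f g δ
  R0 : 0 < R
  Rδ : R ≤ δ
  F : ∀ x ∈ Icc (s - ρ) s, 0 ≤ ((c x - c s) / u).re ∧
    ((c x - c s) / u).im = f ((c x - c s) / u).re
  G : ∀ x ∈ Icc s (s + ρ), 0 ≤ ((c x - c s) / u).re ∧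
    ((c x - c s) / u).im = g ((c x - c s) / u).re
  anti : ∀ x y, s - ρ ≤ x → x < y → y ≤ s → ((c y - c s) / u).re < ((c x - c s) / u).re
  mono : ∀ x y, s ≤ x → x < y → y ≤ s + ρ → ((c x - c s) / u).re < ((c y - c s) / u).re
  rest : ∀ x ∈ Icc (s + ρ) (s + 1 - ρ), 2 * R ≤ ‖(c x - c s) / u‖
  η0 : 0 < η
  ηρ : η ≤ ρ
  small : ∀ x, |x - s| < η → ‖(c x - c s) / u‖ ≤ δ / 2 ∧ ‖(c x - c s) / u‖ ≤ R / 8

theorem CP.nl {s ρ δ R η : ℝ} {u : ℂ} {f g : ℝ → ℝ} (K : CP c s ρ u f g δ R η) (L : Loop c)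
    {s' t' : ℝ} (h1 : s - η < s') (h2 : s' < s) (h3 : s < t') (h4 : t' < s + η) : NL c s' t' := by
  have hu0 := K.u0
  have T := K.T
  have hR := K.R0
  have hRδ := K.Rδ
  have hηρ := K.ηρ
  have hρ1 := K.ρ1
  intro σ hσ
  obtain ⟨q, P, H⟩ := Lpath (a := s') (b := t') (by linarith) (by linarith) hσ
  refine ⟨(fun w : ℝ × ℝ => c s + u * (w.1 + w.2 * I)) '' N0 f g R, q,
    (N0_pre T hR).image _ (Continuous.continuousOn (by fun_prop)), ?_, P, ?_⟩
  · rintro _ ⟨⟨a, b⟩, hab, rfl⟩ ⟨w, hw⟩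
    simp only at hw
    obtain ⟨x, hx, hxw⟩ : ∃ x ∈ Icc (s - ρ) (s + 1 - ρ), c x = c w := by
      refine ⟨s - ρ + Int.fract (w - (s - ρ)), ⟨by linarith [Int.fract_nonneg (w - (s - ρ))],
        by linarith [Int.fract_lt_one (w - (s - ρ))]⟩, ?_⟩
      have := L.per_int (s - ρ + Int.fract (w - (s - ρ))) ⌊w - (s - ρ)⌋
      rw [← this]
      congr 1
      rw [add_assoc, Int.fract_add_floor]
      ring
    have e : (c x - c s) / u = a + b * I := by
      rw [hxw, hw, add_sub_cancel_left, mul_div_cancel_left₀ _ hu0]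
    have er : ((c x - c s) / u).re = a := by rw [e]; simp
    have ei : ((c x - c s) / u).im = b := by rw [e]; simp
    have bd : |a| < R ∧ |b| < R := by
      have bf := abs_le.1 (T.lf a 0)
      have bg := abs_le.1 (T.lg a 0)
      rw [T.f0 0 le_rfl, sub_zero, sub_zero] at bf
      rw [T.g0 0 le_rfl, sub_zero, sub_zero] at bg
      rcases hab with (⟨k1, k2, k3, k4⟩ | ⟨k1, k2, k3, k4⟩) | ⟨k1, k2, k3, k4⟩ <;>
        simp only at k1 k2 k3 k4
      · have : |a| < R := abs_lt.2 ⟨k1, k2⟩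
        exact ⟨this, abs_lt.2 ⟨k3, by linarith [bf.2]⟩⟩
      · exact ⟨abs_lt.2 ⟨k1, by linarith⟩, abs_lt.2 ⟨k3, k4⟩⟩
      · have : |a| < R := abs_lt.2 ⟨k1, k2⟩
        exact ⟨this, abs_lt.2 ⟨by linarith [bg.1], k4⟩⟩
    have fg : 0 ≤ a → f a ≤ g a := by
      intro m1
      rcases eq_or_lt_of_le m1 with m | m
      · rw [← m, T.f0 0 le_rfl, T.g0 0 le_rfl]
      · exact (T.lt a m (by linarith [(abs_lt.1 bd.1).2])).le
    rcases le_total x s with hxs | hxs
    · obtain ⟨k1, k2⟩ := K.F x ⟨hx.1, hxs⟩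
      rw [er] at k1 k2
      rw [ei] at k2
      have := fg k1
      rcases hab with (⟨m1, m2, m3, m4⟩ | ⟨m1, m2, m3, m4⟩) | ⟨m1, m2, m3, m4⟩ <;>
        simp only at m1 m2 m3 m4 <;> linarith
    · rcases le_total x (s + ρ) with hxs2 | hxs2
      · obtain ⟨k1, k2⟩ := K.G x ⟨hxs, hxs2⟩
        rw [er] at k1 k2
        rw [ei] at k2
        have := fg k1
        rcases hab with (⟨m1, m2, m3, m4⟩ | ⟨m1, m2, m3, m4⟩) | ⟨m1, m2, m3, m4⟩ <;>
          simp only at m1 m2 m3 m4 <;> linarith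
      · have k := K.rest x ⟨hxs2, hx.2⟩
        have k2 := Complex.norm_le_abs_re_add_abs_im ((c x - c s) / u)
        rw [er, ei] at k2
        linarith [bd.1, bd.2]
  · have inN : ∀ A B : ℝ, |A| < R → |B| < R → (A < 0 ∨ B < f A ∨ g A < B) → (A, B) ∈ N0 f g R := by
      intro A B hA hB h
      rw [abs_lt] at hA hB
      rcases h with h | h | h
      · exact Or.inl (Or.inr ⟨hA.1, h, hB.1, hB.2⟩)
      · exact Or.inl (Or.inl ⟨hA.1, hA.2, hB.1, h⟩)
      · exact Or.inr ⟨hA.1, hA.2, h, hB.2⟩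
    have key : ∀ x y, x < y → |x - s| < η → |y - s| < η →
        DD c x y ∈ (fun w : ℝ × ℝ => c s + u * (w.1 + w.2 * I)) '' N0 f g R ∨
        CC c x y ∈ (fun w : ℝ × ℝ => c s + u * (w.1 + w.2 * I)) '' N0 f g R := by
      intro x y hxy hx hy
      obtain ⟨a1, ha1⟩ : ∃ a1, ((c x - c s) / u).re = a1 := ⟨_, rfl⟩
      obtain ⟨b1, hb1⟩ : ∃ b1, ((c x - c s) / u).im = b1 := ⟨_, rfl⟩
      obtain ⟨a2, ha2⟩ : ∃ a2, ((c y - c s) / u).re = a2 := ⟨_, rfl⟩
      obtain ⟨b2, hb2⟩ : ∃ b2, ((c y - c s) / u).im = b2 := ⟨_, rfl⟩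
      obtain ⟨n1, n2⟩ := K.small x hx
      obtain ⟨n3, n4⟩ := K.small y hy
      have A1 := (Complex.abs_re_le_norm ((c x - c s) / u)).trans n2
      have B1 := (Complex.abs_im_le_norm ((c x - c s) / u)).trans n2
      have A2 := (Complex.abs_re_le_norm ((c y - c s) / u)).trans n4
      have B2 := (Complex.abs_im_le_norm ((c y - c s) / u)).trans n4
      have A3 := (Complex.abs_re_le_norm ((c y - c s) / u)).trans n3
      rw [ha1] at A1
      rw [hb1] at B1
      rw [ha2] at A2 A3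
      rw [hb2] at B2
      rw [abs_le] at A1 B1 A2 B2 A3
      rw [abs_lt] at hx hy
      have ex : c x = c s + u * (a1 + b1 * I) := by
        rw [← ha1, ← hb1, Complex.re_add_im, mul_div_cancel₀ _ hu0]; ring
      have ey : c y = c s + u * (a2 + b2 * I) := by
        rw [← ha2, ← hb2, Complex.re_add_im, mul_div_cancel₀ _ hu0]; ring
      have eD : DD c x y = c s + u * (((a1 - (b2 - b1) : ℝ) : ℂ) + ((b1 + (a2 - a1) : ℝ) : ℂ) * I) := by
        rw [DD_eq, ex, ey]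
        push_cast
        linear_combination (u * (b2 - b1)) * Complex.I_sq
      have eC : CC c x y = c s + u * (((a2 - (b2 - b1) : ℝ) : ℂ) + ((b2 + (a2 - a1) : ℝ) : ℂ) * I) := by
        rw [CC_eq, ex, ey]
        push_cast
        linear_combination (u * (b2 - b1)) * Complex.I_sq
      have bD1 : |a1 - (b2 - b1)| < R := by rw [abs_lt]; constructor <;> linarith
      have bD2 : |b1 + (a2 - a1)| < R := by rw [abs_lt]; constructor <;> linarith
      have bC1 : |a2 - (b2 - b1)| < R := by rw [abs_lt]; constructor <;> linarith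
      have bC2 : |b2 + (a2 - a1)| < R := by rw [abs_lt]; constructor <;> linarith
      rcases le_or_gt y s with hys | hys
      · -- both on the lower graph
        obtain ⟨-, k1⟩ := K.F x ⟨by linarith, by linarith⟩
        obtain ⟨-, k2⟩ := K.F y ⟨by linarith, hys⟩
        have k3 := K.anti x y (by linarith) hxy hys
        rw [ha1, hb1] at k1
        rw [ha2, hb2] at k2
        rw [ha1, ha2] at k3
        left
        refine ⟨_, inN _ _ bD1 bD2 (Or.inr (Or.inl ?_)), eD.symm⟩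
        rw [k1, k2]
        exact T.sameF k3
      · rcases le_or_gt s x with hxs | hxs
        · obtain ⟨-, k1⟩ := K.G x ⟨hxs, by linarith⟩
          obtain ⟨-, k2⟩ := K.G y ⟨by linarith, by linarith⟩
          have k3 := K.mono x y hxs hxy (by linarith)
          rw [ha1, hb1] at k1
          rw [ha2, hb2] at k2
          rw [ha1, ha2] at k3
          left
          refine ⟨_, inN _ _ bD1 bD2 (Or.inr (Or.inr ?_)), eD.symm⟩
          rw [k1, k2]
          exact T.sameG k3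
        · obtain ⟨k0, k1⟩ := K.F x ⟨by linarith, hxs.le⟩
          obtain ⟨k0', k2⟩ := K.G y ⟨hys.le, by linarith⟩
          have k3 := K.mono s y le_rfl hys (by linarith)
          rw [ha1, hb1] at k1
          rw [ha2, hb2] at k2
          rw [ha2, sub_self, zero_div, Complex.zero_re] at k3
          by_cases hD : a1 - (b2 - b1) < 0 ∨ b1 + (a2 - a1) < f (a1 - (b2 - b1)) ∨
              g (a1 - (b2 - b1)) < b1 + (a2 - a1)
          · left
            exact ⟨_, inN _ _ bD1 bD2 hD, eD.symm⟩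
          · right
            refine ⟨_, inN _ _ bC1 bC2 ?_, eC.symm⟩
            by_contra hC
            push Not at hD hC
            refine T.mixed (s := a1) (t := a2) k3 (by linarith) ?_ ?_
            · rw [← k1, ← k2]; exact hD.2.1
            · rw [← k1, ← k2]; exact hC.2.2
    intro τ hτ
    have hlt := (P.lt τ hτ).1
    rcases H τ hτ with ⟨g1, g2⟩ | ⟨g1, g2⟩
    · refine key _ _ hlt ?_ ?_
      · rw [g1, abs_lt]; constructor <;> linarith
      · rw [abs_lt]; constructor <;> linarith [g2.1, g2.2]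
    · refine key _ _ hlt ?_ ?_
      · rw [abs_lt]; constructor <;> linarith [g2.1, g2.2]
      · rw [g1, abs_lt]; constructor <;> linarith

end Pool.Agent.R762.Pg
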