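import Pool.Agent.R762.Pg5

/-! Cusps: from the definition to the coordinates. -/

set_option autoImplicit false
set_option maxHeartbeats 1000000
open Complex Set Topology Metric

namespace Pool.Agent.R762.Pg

open Pool.Agent.H763R2 Pool.Agent.H763R2.An Pool.Agent.W675.Peg Pool.Agent.TH569.Peg
  Pool.Agent.Y535.PEG
open Pool.Agent.H763R2.Dm (NoSq floor_const)
open Pool.Agent.R762.Cu (Tip)

variable {c : ℝ → ℂ}

structure Br (c : ℝ → ℂ) (s ρ : ℝ) (u : ℂ) (f g : ℝ → ℝ) (δ : ℝ) : Prop where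
  u0 : u ≠ 0
  ρ0 : 0 < ρ
  ρ1 : ρ ≤ 1 / 4
  δ0 : 0 < δ
  lf : ∀ x y, |f x - f y| ≤ |x - y| / 4
  lg : ∀ x y, |g x - g y| ≤ |x - y| / 4
  f0 : ∀ x ≤ 0, f x = 0
  g0 : ∀ x ≤ 0, g x = 0
  F : ∀ x ∈ Icc (s - ρ) s, 0 ≤ ((c x - c s) / u).re ∧
    ((c x - c s) / u).im = f ((c x - c s) / u).re
  G : ∀ x ∈ Icc s (s + ρ), 0 ≤ ((c x - c s) / u).re ∧
    ((c x - c s) / u).im = g ((c x - c s) / u).re
  anti : ∀ x y, s - ρ ≤ x → x < y → y ≤ s → ((c y - c s) / u).re < ((c x - c s) / u).re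
  mono : ∀ x y, s ≤ x → x < y → y ≤ s + ρ → ((c x - c s) / u).re < ((c y - c s) / u).re
  fpt : ∀ z ∈ Icc 0 δ, ∃ x ∈ Icc (s - ρ) s, ((c x - c s) / u).re = z
  gpt : ∀ z ∈ Icc 0 δ, ∃ x ∈ Icc s (s + ρ), ((c x - c s) / u).re = z

variable {s ρ δ : ℝ} {u : ℂ} {f g : ℝ → ℝ}

theorem Br.fp (B : Br c s ρ u f g δ) {z : ℝ} (hz : z ∈ Icc 0 δ) :
    ∃ x ∈ Icc (s - ρ) s, c x = c s + u * (z + f z * I) := by
  obtain ⟨x, hx, e⟩ := B.fpt z hz
  have h := (B.F x hx).2
  rw [e] at h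
  refine ⟨x, hx, ?_⟩
  rw [← h, ← e, Complex.re_add_im, mul_div_cancel₀ _ B.u0]; ring

theorem Br.gp (B : Br c s ρ u f g δ) {z : ℝ} (hz : z ∈ Icc 0 δ) :
    ∃ x ∈ Icc s (s + ρ), c x = c s + u * (z + g z * I) := by
  obtain ⟨x, hx, e⟩ := B.gpt z hz
  have h := (B.G x hx).2
  rw [e] at h
  refine ⟨x, hx, ?_⟩
  rw [← h, ← e, Complex.re_add_im, mul_div_cancel₀ _ B.u0]; ring

theorem Br.conj (B : Br c s ρ u f g δ) :
    Br (fun x => (starRingEnd ℂ) (c x)) s ρ ((starRingEnd ℂ) u) (fun x => -f x) (fun x => -g x) δ := by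
  have e : ∀ x, ((starRingEnd ℂ) (c x) - (starRingEnd ℂ) (c s)) / (starRingEnd ℂ) u =
      (starRingEnd ℂ) ((c x - c s) / u) := fun x => by rw [map_div₀, map_sub]
  refine ⟨?_, B.ρ0, B.ρ1, B.δ0, fun x y => ?_, fun x y => ?_, fun x hx => by simp only [B.f0 x hx, neg_zero],
    fun x hx => by simp only [B.g0 x hx, neg_zero], fun x hx => ?_, fun x hx => ?_, fun x y => ?_,
    fun x y => ?_, fun z hz => ?_, fun z hz => ?_⟩
  · exact (map_ne_zero _).2 B.u0
  · rw [show -f x - -f y = -(f x - f y) by ring, abs_neg]; exact B.lf x y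
  · rw [show -g x - -g y = -(g x - g y) by ring, abs_neg]; exact B.lg x y
  · rw [e, Complex.conj_re, Complex.conj_im, (B.F x hx).2]
    exact ⟨(B.F x hx).1, rfl⟩
  · rw [e, Complex.conj_re, Complex.conj_im, (B.G x hx).2]
    exact ⟨(B.G x hx).1, rfl⟩
  · rw [e, e, Complex.conj_re, Complex.conj_re]; exact B.anti x y
  · rw [e, e, Complex.conj_re, Complex.conj_re]; exact B.mono x y
  · obtain ⟨x, hx, h⟩ := B.fpt z hz
    exact ⟨x, hx, by rw [e, Complex.conj_re]; exact h⟩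
  · obtain ⟨x, hx, h⟩ := B.gpt z hz
    exact ⟨x, hx, by rw [e, Complex.conj_re]; exact h⟩

theorem Br.toCP (B : Br c s ρ u f g δ) (L : Loop c) (J : Inj c) (nosq : NoSq (range c))
    (hlt : ∀ z, 0 < z → z ≤ δ → f z < g z) : ∃ R η, CP c s ρ u f g δ R η := by
  have hc := L.cont
  have hρ0 := B.ρ0
  have hρ1 := B.ρ1
  have T : Tip f g δ := by
    refine ⟨B.δ0, B.lf, B.lg, B.f0, B.g0, hlt, ?_⟩
    intro t τ α κ ht hτ hα hκ hlt e1 e2 e3 e4
    obtain ⟨xt, -, ht'⟩ := B.gp ht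
    obtain ⟨xτ, -, hτ'⟩ := B.gp hτ
    obtain ⟨xα, -, hα'⟩ := B.fp hα
    obtain ⟨xκ, -, hκ'⟩ := B.fp hκ
    apply nosq
    refine ⟨c xα, c xt - c xα, ?_, ⟨xα, rfl⟩, ⟨xt, by ring⟩, ⟨xτ, ?_⟩, ⟨xκ, ?_⟩⟩
    · intro h
      rw [ht', hα'] at h
      have h1 : u * ((t - α) + (g t - f α) * I) = 0 := by linear_combination h
      rcases mul_eq_zero.1 h1 with h2 | h2
      · exact B.u0 h2
      · have h3 := congrArg Complex.im h2
        simp at h3
        linarith
    · rw [ht', hα', hτ', e2, e1]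
      push_cast
      linear_combination (-u * (t - τ)) * Complex.I_sq
    · rw [ht', hα', hκ', e4, e3, e2, e1]
      push_cast
      linear_combination (-u * (t - τ)) * Complex.I_sq
  obtain ⟨x0, hx0, hmin⟩ := isCompact_Icc.exists_isMinOn (s := Icc (s + ρ) (s + 1 - ρ))
    (f := fun x => ‖(c x - c s) / u‖) (nonempty_Icc.2 (by linarith)) (by fun_prop)
  have hpos : 0 < ‖(c x0 - c s) / u‖ := by
    rw [norm_pos_iff, div_ne_zero_iff]
    refine ⟨fun h => ?_, B.u0⟩
    exact J s x0 (by linarith [hx0.1]) (by linarith [hx0.2]) (sub_eq_zero.1 h).symm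
  obtain ⟨R, hR0, hR1, hR2⟩ : ∃ R > 0, R ≤ ‖(c x0 - c s) / u‖ / 2 ∧ R ≤ δ :=
    ⟨min (‖(c x0 - c s) / u‖ / 2) δ, lt_min (by linarith) B.δ0, min_le_left _ _, min_le_right _ _⟩
  have hct : ContinuousAt (fun x => (c x - c s) / u) s := by fun_prop
  obtain ⟨η0, hη0, hη⟩ := Metric.continuousAt_iff.1 hct (min (δ / 2) (R / 8))
    (lt_min (by linarith [B.δ0]) (by linarith))
  refine ⟨R, min η0 ρ, B.u0, B.ρ0, B.ρ1, T, hR0, hR2, B.F, B.G, B.anti, B.mono, ?_,
    lt_min hη0 hρ0, min_le_right _ _, ?_⟩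
  · intro x hx
    have := hmin hx
    simp only [mem_setOf_eq] at this
    linarith
  · intro x hx
    have := hη (x := x) (by rw [Real.dist_eq]; exact hx.trans_le (min_le_left _ _))
    rw [sub_self, zero_div, dist_zero_right] at this
    exact ⟨(this.trans_le (min_le_left _ _)).le, (this.trans_le (min_le_right _ _)).le⟩

theorem Cusp.br (L : Loop c) (J : Inj c) {s : ℝ} (h : Cusp c s) : ∃ ρ u f g δ, Br c s ρ u f g δ ∧
    ((∀ z, 0 < z → z ≤ δ → f z < g z) ∨ (∀ z, 0 < z → z ≤ δ → g z < f z)) := by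
  have hc := L.cont
  obtain ⟨u, hu0, ρ', hρ', H1, H2⟩ := h
  obtain ⟨ρ, hρ0, hρ1, hρ2⟩ : ∃ ρ > 0, ρ < ρ' ∧ ρ ≤ 1 / 4 :=
    ⟨min (ρ' / 2) (1 / 4), by positivity, by have := min_le_left (ρ' / 2) (1 / 4 : ℝ); linarith,
      min_le_right _ _⟩
  obtain ⟨X, hX⟩ : ∃ X : ℝ → ℝ, X = fun x => ((c x - c s) / u).re := ⟨_, rfl⟩
  obtain ⟨Y, hY⟩ : ∃ Y : ℝ → ℝ, Y = fun x => ((c x - c s) / u).im := ⟨_, rfl⟩
  have cX : Continuous X := by rw [hX]; fun_prop
  have Xs : X s = 0 := by rw [hX]; simp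
  have Ys : Y s = 0 := by rw [hY]; simp
  have e : ∀ x y, (c y - c x) / u = (c y - c s) / u - (c x - c s) / u := fun x y => by ring
  have ne : ∀ x y, x < y → y < x + 1 → ¬ (X x = X y ∧ Y x = Y y) := by
    rintro x y hxy hy ⟨k1, k2⟩
    rw [hX] at k1
    rw [hY] at k2
    have : (c x - c s) / u = (c y - c s) / u := Complex.ext k1 k2
    rw [div_left_inj' hu0] at this
    exact J x y hxy hy (sub_left_injective this)
  have l1 : ∀ x y, s - ρ ≤ x → x < y → y ≤ s → |Y y - Y x| ≤ (X x - X y) / 4 ∧ X y < X x := by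
    intro x y h1 h2 h3
    have := H1 x y (by linarith) h2 h3
    rw [e, Complex.sub_im, Complex.sub_re] at this
    have k : |Y y - Y x| ≤ (X x - X y) / 4 := by
      rw [hX, hY]; simp only; linarith
    refine ⟨k, ?_⟩
    have k0 := abs_nonneg (Y y - Y x)
    refine lt_of_le_of_ne (by linarith) fun h => ?_
    rw [h, sub_self, zero_div] at k
    have := abs_eq_zero.1 (le_antisymm k k0)
    exact ne x y h2 (by linarith) ⟨h.symm, by linarith⟩
  have l2 : ∀ x y, s ≤ x → x < y → y ≤ s + ρ → |Y y - Y x| ≤ (X y - X x) / 4 ∧ X x < X y := by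
    intro x y h1 h2 h3
    have := H2 x y h1 h2 (by linarith)
    rw [e, Complex.sub_im, Complex.sub_re] at this
    have k : |Y y - Y x| ≤ (X y - X x) / 4 := by
      rw [hX, hY]; exact this
    refine ⟨k, ?_⟩
    have k0 := abs_nonneg (Y y - Y x)
    refine lt_of_le_of_ne (by linarith) fun h => ?_
    rw [h, sub_self, zero_div] at k
    have := abs_eq_zero.1 (le_antisymm k k0)
    exact ne x y h2 (by linarith) ⟨h, by linarith⟩
  obtain ⟨f, lf, f0, hf⟩ := Cu.branch (S := Icc (s - ρ) s) (X := X) (Y := Y) (fun x hx => by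
      rcases eq_or_lt_of_le hx.2 with h | h
      · rw [h, Xs, Ys]; simp
      · have := (l1 x s hx.1 h le_rfl).1
        rwa [Xs, Ys, zero_sub, abs_neg, sub_zero] at this) (fun x hx y hy => by
      rcases lt_trichotomy x y with h | h | h
      · obtain ⟨k1, k2⟩ := l1 x y hx.1 h hy.2
        rw [abs_sub_comm, abs_of_pos (by linarith : 0 < X x - X y)]; exact k1
      · rw [h]; simp
      · obtain ⟨k1, k2⟩ := l1 y x hy.1 h hx.2
        rw [abs_of_neg (by linarith : X x - X y < 0)]; linarith)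
  obtain ⟨g, lg, g0, hg⟩ := Cu.branch (S := Icc s (s + ρ)) (X := X) (Y := Y) (fun x hx => by
      rcases eq_or_lt_of_le hx.1 with h | h
      · rw [← h, Xs, Ys]; simp
      · have := (l2 s x le_rfl h hx.2).1
        rwa [Xs, Ys, sub_zero, sub_zero] at this) (fun x hx y hy => by
      rcases lt_trichotomy x y with h | h | h
      · obtain ⟨k1, k2⟩ := l2 x y hx.1 h hy.2
        rw [abs_sub_comm, abs_of_neg (by linarith : X x - X y < 0)]; linarith
      · rw [h]; simp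
      · obtain ⟨k1, k2⟩ := l2 y x hy.1 h hx.2
        rw [abs_of_pos (by linarith : 0 < X x - X y)]; exact k1)
  have d1 : 0 < X (s - ρ) := by
    have := (l1 (s - ρ) s le_rfl (by linarith) le_rfl).2
    rwa [Xs] at this
  have d2 : 0 < X (s + ρ) := by
    have := (l2 s (s + ρ) le_rfl (by linarith) le_rfl).2
    rwa [Xs] at this
  obtain ⟨δ, hδ0, hδ1, hδ2⟩ : ∃ δ > 0, δ ≤ X (s - ρ) ∧ δ ≤ X (s + ρ) :=
    ⟨min (X (s - ρ)) (X (s + ρ)), lt_min d1 d2, min_le_left _ _, min_le_right _ _⟩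
  have fpt : ∀ z ∈ Icc 0 δ, ∃ x ∈ Icc (s - ρ) s, X x = z := by
    intro z hz
    obtain ⟨x, hx, hx2⟩ := intermediate_value_Icc' (show s - ρ ≤ s by linarith) cX.continuousOn
      (show z ∈ Icc (X s) (X (s - ρ)) from ⟨by rw [Xs]; exact hz.1, hz.2.trans hδ1⟩)
    exact ⟨x, hx, hx2⟩
  have gpt : ∀ z ∈ Icc 0 δ, ∃ x ∈ Icc s (s + ρ), X x = z := by
    intro z hz
    obtain ⟨x, hx, hx2⟩ := intermediate_value_Icc (show s ≤ s + ρ by linarith) cX.continuousOn
      (show z ∈ Icc (X s) (X (s + ρ)) from ⟨by rw [Xs]; exact hz.1, hz.2.trans hδ2⟩)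
    exact ⟨x, hx, hx2⟩
  have nonneg1 : ∀ x ∈ Icc (s - ρ) s, 0 ≤ X x := by
    intro x hx
    rcases eq_or_lt_of_le hx.2 with h | h
    · rw [h, Xs]
    · have := (l1 x s hx.1 h le_rfl).2
      rw [Xs] at this
      exact this.le
  have nonneg2 : ∀ x ∈ Icc s (s + ρ), 0 ≤ X x := by
    intro x hx
    rcases eq_or_lt_of_le hx.1 with h | h
    · rw [← h, Xs]
    · have := (l2 s x le_rfl h hx.2).2
      rw [Xs] at this
      exact this.le
  have hne : ∀ z ∈ Ioc 0 δ, g z - f z ≠ 0 := by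
    intro z hz h
    obtain ⟨x, hx, ex⟩ := fpt z ⟨hz.1.le, hz.2⟩
    obtain ⟨y, hy, ey⟩ := gpt z ⟨hz.1.le, hz.2⟩
    have hxs : x < s := lt_of_le_of_ne hx.2 (by rintro rfl; linarith [hz.1])
    refine ne x y (by linarith [hy.1]) (by linarith [hx.1, hy.2]) ⟨by rw [ex, ey], ?_⟩
    rw [← hf x hx, ← hg y hy, ex, ey]; linarith
  refine ⟨ρ, u, f, g, δ, ⟨hu0, hρ0, hρ2, hδ0, lf, lg, f0, g0, fun x hx => ?_, fun x hx => ?_,
    fun x y a b d => ?_, fun x y a b d => ?_, fun z hz => ?_, fun z hz => ?_⟩, ?_⟩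
  · have k1 := nonneg1 x hx
    have k2 := (hf x hx).symm
    rw [hX] at k1 k2
    rw [hY] at k2
    exact ⟨k1, k2⟩
  · have k1 := nonneg2 x hx
    have k2 := (hg x hx).symm
    rw [hX] at k1 k2
    rw [hY] at k2
    exact ⟨k1, k2⟩
  · have := (l1 x y a b d).2
    rw [hX] at this
    exact this
  · have := (l2 x y a b d).2
    rw [hX] at this
    exact this
  · have := fpt z hz
    rw [hX] at this
    exact this
  · have := gpt z hz
    rw [hX] at this
    exact this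
  · have cfg : ContinuousOn (fun z => g z - f z) (Ioc 0 δ) :=
      ((Cu.cont_of_lip lg).sub (Cu.cont_of_lip lf)).continuousOn
    have md : δ ∈ Ioc 0 δ := ⟨hδ0, le_rfl⟩
    rcases lt_or_gt_of_ne (hne δ md) with h | h
    · right
      intro z h1 h2
      have := sign_pre isPreconnected_Ioc cfg hne (z := z) (w := δ) ⟨h1, h2⟩ md
      nlinarith
    · left
      intro z h1 h2
      have := sign_pre isPreconnected_Ioc cfg hne (z := z) (w := δ) ⟨h1, h2⟩ md
      have := (mul_pos_iff_of_pos_right h).1 this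
      linarith

theorem conj_range : range (fun x => (starRingEnd ℂ) (c x)) = (starRingEnd ℂ) '' range c := by
  rw [← range_comp]; rfl

theorem nosq_conj (nosq : NoSq (range c)) : NoSq (range fun x => (starRingEnd ℂ) (c x)) := by
  rintro ⟨z, w, hw, ⟨x1, h1⟩, ⟨x2, h2⟩, ⟨x3, h3⟩, ⟨x4, h4⟩⟩
  apply nosq
  refine ⟨(starRingEnd ℂ) (z + I * w), (starRingEnd ℂ) w, (map_ne_zero _).2 hw, ⟨x4, ?_⟩, ⟨x3, ?_⟩,
    ⟨x2, ?_⟩, ⟨x1, ?_⟩⟩
  · rw [← h4]; simp
  · have : c x3 = (starRingEnd ℂ) (z + w + I * w) := by rw [← h3]; simp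
    rw [this]; simp only [map_add, map_mul]; ring
  · have : c x2 = (starRingEnd ℂ) (z + w) := by rw [← h2]; simp
    rw [this]; simp only [map_add, map_mul, Complex.conj_I]; ring
  · have : c x1 = (starRingEnd ℂ) z := by rw [← h1]; simp
    rw [this]; simp only [map_add, map_mul, Complex.conj_I]; ring

/-- near a cusp the charge does not change -/
theorem Cusp.good (L : Loop c) (J : Inj c) (nosq : NoSq (range c)) {s : ℝ} (h : Cusp c s) :
    ∃ η > 0, η ≤ 1 / 4 ∧ (∀ x, |x - s| < η → x ≠ s → Cone c x) ∧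
      ∀ s' t', s - η < s' → s' < s → s < t' → t' < s + η → NL c s' t' ∨ NR c s' t' := by
  have hcone : ∃ ρ > 0, ∀ x, |x - s| < ρ → x ≠ s → Cone c x := by
    obtain ⟨u, hu0, ρ', hρ', H1, H2⟩ := h
    refine ⟨min ρ' (1 / 4), by positivity, fun x hx hne => ?_⟩
    obtain ⟨hx1, hx2⟩ := lt_min_iff.1 hx
    rw [abs_lt] at hx1 hx2
    have strict : ∀ y z, y < z → z < y + 1 → |((c z - c y) / u).im| ≤ |((c z - c y) / u).re| / 4 →
        0 < |((c z - c y) / u).re| := by
      intro y z h1 h2 h3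
      refine lt_of_le_of_ne (abs_nonneg _) fun h4 => ?_
      rw [← h4, zero_div] at h3
      have h5 := abs_eq_zero.1 (le_antisymm h3 (abs_nonneg _))
      have h6 := abs_eq_zero.1 h4.symm
      have : (c z - c y) / u = 0 := Complex.ext h6 h5
      rcases div_eq_zero_iff.1 this with h7 | h7
      · exact J y z h1 h2 (sub_eq_zero.1 h7).symm
      · exact hu0 h7
    rcases lt_or_gt_of_ne hne with h | h
    · refine ⟨min (s - x) (x - (s - min ρ' (1 / 4))), lt_min (by linarith) ?_, -u⁻¹,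
        fun y z hy hz hyz => ?_⟩
      · have := lt_min (a := s - x) (b := ρ') (c := 1 / 4) (by linarith) (by linarith)
        linarith
      · have hy1 := lt_min_iff.1 hy
        have hz1 := lt_min_iff.1 hz
        rw [abs_lt, abs_lt] at hy1 hz1
        have m1 := min_le_left ρ' (1 / 4 : ℝ)
        have m2 := min_le_right ρ' (1 / 4 : ℝ)
        have k := H1 y z (by linarith [hy1.2.1]) hyz (by linarith [hz1.1.2])
        have e : -u⁻¹ * (c z - c y) = -((c z - c y) / u) := by ring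
        rw [e, Complex.neg_im, Complex.neg_re, abs_neg]
        have k1 := abs_nonneg ((c z - c y) / u).im
        have k2 := strict y z hyz (by linarith [hy1.2.1, hz1.1.2]) (k.trans (by
          have := neg_le_abs ((c z - c y) / u).re
          linarith))
        rw [abs_of_nonpos (by linarith : ((c z - c y) / u).re ≤ 0)] at k2
        linarith
    · refine ⟨min (x - s) (s + min ρ' (1 / 4) - x), lt_min (by linarith) ?_, u⁻¹,
        fun y z hy hz hyz => ?_⟩
      · have := lt_min (a := x - s) (b := ρ') (c := 1 / 4) (by linarith) (by linarith)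
        linarith
      · have hy1 := lt_min_iff.1 hy
        have hz1 := lt_min_iff.1 hz
        rw [abs_lt, abs_lt] at hy1 hz1
        have m1 := min_le_left ρ' (1 / 4 : ℝ)
        have m2 := min_le_right ρ' (1 / 4 : ℝ)
        have k := H2 y z (by linarith [hy1.1.1]) hyz (by linarith [hz1.2.2])
        have e : u⁻¹ * (c z - c y) = (c z - c y) / u := by ring
        rw [e]
        have k1 := abs_nonneg ((c z - c y) / u).im
        have k2 := strict y z hyz (by linarith [hy1.1.1, hz1.2.2]) (k.trans (by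
          have := le_abs_self ((c z - c y) / u).re
          linarith))
        rw [abs_of_nonneg (by linarith : 0 ≤ ((c z - c y) / u).re)] at k2
        linarith
  obtain ⟨ρ0, hρ0, hC⟩ := hcone
  obtain ⟨ρ, u, f, g, δ, B, hlt | hlt⟩ := Cusp.br L J h
  · obtain ⟨R, η, K⟩ := B.toCP L J nosq hlt
    refine ⟨min η ρ0, lt_min K.η0 hρ0, (min_le_left _ _).trans (K.ηρ.trans K.ρ1), ?_, ?_⟩
    · exact fun x hx => hC x (hx.trans_le (min_le_right _ _))
    · intro s' t' h1 h2 h3 h4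
      have := min_le_left η ρ0
      exact Or.inl (K.nl L (by linarith) h2 h3 (by linarith))
  · have L' : Loop (fun x => (starRingEnd ℂ) (c x)) :=
      ⟨Complex.continuous_conj.comp L.cont, fun x => by simp only [L.per]⟩
    have J' : Inj (fun x => (starRingEnd ℂ) (c x)) := fun x y h1 h2 he =>
      J x y h1 h2 ((starRingEnd ℂ).injective he)
    obtain ⟨R, η, K⟩ := B.conj.toCP L' J' (nosq_conj nosq) (fun z h1 h2 => by
      have := hlt z h1 h2
      linarith)
    refine ⟨min η ρ0, lt_min K.η0 hρ0, (min_le_left _ _).trans (K.ηρ.trans K.ρ1), ?_, ?_⟩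
    · exact fun x hx => hC x (hx.trans_le (min_le_right _ _))
    · intro s' t' h1 h2 h3 h4
      have := min_le_left η ρ0
      exact Or.inr (NL_conj (K.nl L' (by linarith) h2 h3 (by linarith)))

end Pool.Agent.R762.Pg
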