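import Pool.Agent.R762.Pg6
import Pool.Agent.H145R2.TRobust

/-! Curves that are locally monotone except at cusps. -/

set_option autoImplicit false
set_option maxHeartbeats 1000000
open Complex Set Topology Metric

namespace Pool.Agent.R762.Pg

open Pool.Agent.H763R2 Pool.Agent.H763R2.An Pool.Agent.W675.Peg Pool.Agent.TH569.Peg
  Pool.Agent.Y535.PEG
open Pool.Agent.H763R2.Dm (NoSq floor_const)

variable {c : ℝ → ℂ}

theorem mon_open {s : ℝ} (h : Mon c s) : ∃ η > 0, ∀ x, |x - s| < η → Mon c x := by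
  obtain ⟨ρ, hρ, w, H⟩ := h
  refine ⟨ρ / 2, by positivity, fun x hx => ⟨ρ / 2, by positivity, w, fun y z hy hz hyz => ?_⟩⟩
  refine H y z ?_ ?_ hyz
  · have := abs_sub_le y x s
    linarith
  · have := abs_sub_le z x s
    linarith

theorem exists_small (n : ℕ) (φ : ℕ → ℝ) (h : ∀ k < n, 0 < φ k) : ∃ r > 0, ∀ k < n, r < φ k := by
  induction n with
  | zero => exact ⟨1, one_pos, fun k hk => absurd hk (Nat.not_lt_zero _)⟩
  | succ n ih =>
    obtain ⟨r, hr, H⟩ := ih fun k hk => h k (by omega)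
    have h0 := h n (by omega)
    refine ⟨min r (φ n / 2), lt_min hr (by linarith), fun k hk => ?_⟩
    rcases Nat.lt_succ_iff_lt_or_eq.1 hk with h' | h'
    · exact (min_le_left _ _).trans_lt (H k h')
    · rw [h']; exact (min_le_right _ _).trans_lt (by linarith)

/-- every point is locally monotone or a cusp, and not all are locally monotone -/
theorem no_local (L : Loop c) (J : Inj c) (nosq : NoSq (range c)) (H : ∀ s, Mon c s ∨ Cusp c s)
    {s0 : ℝ} (h0 : ¬ Mon c s0) : False := by
  classical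
  have iso : ∀ s, ∃ η > 0, ∀ x, |x - s| < η → x ≠ s → Mon c x := by
    intro s
    rcases H s with h | h
    · obtain ⟨η, hη, h'⟩ := mon_open h
      exact ⟨η, hη, fun x hx _ => h' x hx⟩
    · obtain ⟨η, hη, -, h', -⟩ := Cusp.good L J nosq h
      exact ⟨η, hη, fun x hx hne => monC (h' x hx hne)⟩
  have hfin : {s | s ∈ Icc s0 (s0 + 1) ∧ ¬ Mon c s}.Finite := by
    by_contra hinf
    obtain ⟨x, -, hx⟩ := Set.Infinite.exists_accPt_of_subset_isCompact (K := Icc s0 (s0 + 1))
      hinf isCompact_Icc (fun y hy => hy.1)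
    obtain ⟨η, hη, h'⟩ := iso x
    rw [accPt_iff_nhds] at hx
    obtain ⟨y, ⟨hy1, hy2⟩, hy3⟩ := hx (ball x η) (ball_mem_nhds x hη)
    rw [mem_ball, Real.dist_eq] at hy1
    exact hy2.2 (h' y hy1 hy3)
  have per : ∀ s, ¬ Mon c s → ¬ Mon c (s + 1) := by
    rintro s hs ⟨ρ, hρ, w, h⟩
    refine hs ⟨ρ, hρ, w, fun y z hy hz hyz => ?_⟩
    have := h (y + 1) (z + 1) (by rwa [show y + 1 - (s + 1) = y - s by ring])
      (by rwa [show z + 1 - (s + 1) = z - s by ring]) (by linarith)
    rwa [L.per, L.per] at this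
  set F : Finset ℝ := hfin.toFinset.filter (fun s => s < s0 + 1) with hF
  have memF : ∀ s, s ∈ F ↔ s0 ≤ s ∧ s < s0 + 1 ∧ ¬ Mon c s := by
    intro s
    rw [hF, Finset.mem_filter, Set.Finite.mem_toFinset]
    simp only [mem_setOf_eq, mem_Icc]
    constructor
    · rintro ⟨⟨⟨a, b⟩, d⟩, e⟩; exact ⟨a, e, d⟩
    · rintro ⟨a, b, d⟩; exact ⟨⟨⟨a, b.le⟩, d⟩, b⟩
  have hs0 : s0 ∈ F := (memF s0).2 ⟨le_rfl, by linarith, h0⟩
  set n := F.card with hn
  have hnpos : 0 < n := Finset.card_pos.2 ⟨s0, hs0⟩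
  set emb := F.orderEmbOfFin hn.symm with hemb
  obtain ⟨e, he⟩ : ∃ e : ℕ → ℝ, e = fun k => if h : k < n then emb ⟨k, h⟩ else s0 + 1 := ⟨_, rfl⟩
  have ek : ∀ k (h : k < n), e k = emb ⟨k, h⟩ := fun k h => by rw [he]; simp [h]
  have en : e n = s0 + 1 := by rw [he]; simp
  have eF : ∀ k, k < n → e k ∈ F := fun k h => by
    rw [ek k h]; exact Finset.orderEmbOfFin_mem F _ _
  have e0 : e 0 = s0 := by
    refine le_antisymm ?_ ((memF _).1 (eF 0 hnpos)).1
    rw [ek 0 hnpos]
    have := F.orderEmbOfFin_zero hn.symm hnpos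
    rw [hemb, this]
    exact Finset.min'_le _ _ hs0
  have elt : ∀ k < n, e k < e (k + 1) := by
    intro k hk
    rcases Nat.lt_or_ge (k + 1) n with h | h
    · rw [ek k hk, ek (k + 1) h]
      exact emb.strictMono (by simp)
    · have : k + 1 = n := by omega
      rw [this, en]
      exact ((memF _).1 (eF k hk)).2.1
  have between : ∀ k < n, ∀ x, e k < x → x < e (k + 1) → Mon c x := by
    intro k hk x hx1 hx2
    by_contra hx
    have b1 : s0 ≤ x := ((memF _).1 (eF k hk)).1.trans hx1.le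
    have b2 : x < s0 + 1 := by
      rcases Nat.lt_or_ge (k + 1) n with h | h
      · exact hx2.trans ((memF _).1 (eF (k + 1) h)).2.1
      · have : k + 1 = n := by omega
        rw [this, en] at hx2
        exact hx2
    have hxF : x ∈ F := (memF x).2 ⟨b1, b2, hx⟩
    obtain ⟨j, hj⟩ : x ∈ Set.range emb := by
      rw [hemb, Finset.range_orderEmbOfFin]; exact hxF
    rw [← hj, ek k hk] at hx1
    have c1 : (⟨k, hk⟩ : Fin n) < j := emb.lt_iff_lt.1 hx1
    rcases Nat.lt_or_ge (k + 1) n with h | h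
    · rw [← hj, ek (k + 1) h] at hx2
      have c2 := emb.lt_iff_lt.1 hx2
      rw [Fin.lt_def] at c1 c2
      simp only at c1 c2
      omega
    · rw [Fin.lt_def] at c1
      simp only at c1
      have := j.2
      omega
  -- radii
  have cusp : ∀ k < n, Cusp c (e k) := fun k hk =>
    (H (e k)).resolve_left ((memF _).1 (eF k hk)).2.2
  have exη : ∀ k, ∃ η : ℝ, k < n → 0 < η ∧ η ≤ 1 / 4 ∧ (∀ x, |x - e k| < η → x ≠ e k → Cone c x) ∧
      ∀ s' t', e k - η < s' → s' < e k → e k < t' → t' < e k + η → NL c s' t' ∨ NR c s' t' := by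
    intro k
    by_cases hk : k < n
    · obtain ⟨η, h1, h2⟩ := Cusp.good L J nosq (cusp k hk)
      exact ⟨η, fun _ => ⟨h1, h2⟩⟩
    · exact ⟨0, fun h => absurd h hk⟩
  choose η hη using exη
  obtain ⟨r, hr, hrk⟩ := exists_small n (fun k => min (η k) ((e (k + 1) - e k) / 2)) (fun k hk =>
    lt_min (hη k hk).1 (by linarith [elt k hk]))
  refine square_of_good L J nosq hnpos (a := fun k => e k - r) (b := fun k => e k + r) ?_ ?_ ?_ ?_
  · intro k hk
    have := (lt_min_iff.1 (hrk k hk)).2
    linarith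
  · simp only [en, e0]; ring
  · intro k hk
    obtain ⟨h1, h2⟩ := lt_min_iff.1 (hrk k hk)
    obtain ⟨g1, g2, g3, g4⟩ := hη k hk
    refine ⟨e k - r / 2, e k + r / 2, by linarith, by linarith, by linarith, by linarith, ?_, ?_, ?_⟩
    · intro x hx1 hx2
      exact g3 x (by rw [abs_lt]; constructor <;> linarith) (by intro h; linarith)
    · intro x hx1 hx2
      exact g3 x (by rw [abs_lt]; constructor <;> linarith) (by intro h; linarith)
    · rcases g4 (e k - r / 2) (e k + r / 2) (by linarith) (by linarith) (by linarith) (by linarith)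
        with h | h
      · exact Or.inl h
      · exact Or.inr (Or.inl h)
  · intro k hk x hx
    exact between k hk x (by linarith [hx.1]) (by linarith [hx.2])

/-- the locally monotone case (Stromquist) -/
theorem all_mono (L : Loop c) (J : Inj c) (H : ∀ s, Mon c s) :
    ∃ z w : ℂ, w ≠ 0 ∧ z ∈ range c ∧ z + w ∈ range c ∧ z + w + I * w ∈ range c ∧
      z + I * w ∈ range c := by
  have hJ : H145R2.TSq.Jor c := by
    refine ⟨L.cont, L.per, fun s t hst => ?_⟩
    refine ⟨⌊s - t⌋, ?_⟩
    by_contra hne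
    have e1 : c (t + Int.fract (s - t)) = c s := by
      have := L.per_int (t + Int.fract (s - t)) ⌊s - t⌋
      rw [← this]
      congr 1
      rw [add_assoc, Int.fract_add_floor]; ring
    have h1 := Int.fract_nonneg (s - t)
    have h2 := Int.fract_lt_one (s - t)
    rcases eq_or_lt_of_le h1 with h | h
    · apply hne
      have := Int.fract_add_floor (s - t)
      linarith
    · exact J t (t + Int.fract (s - t)) (by linarith) (by linarith) (by rw [e1, hst])
  obtain ⟨ε, hε, h⟩ := H145R2.TSq.main_robust hJ (fun τ => by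
    obtain ⟨ρ, hρ, w, hw⟩ := H τ
    have hw0 : w ≠ 0 := by
      rintro rfl
      have := hw τ (τ + ρ / 2) (by simpa using hρ) (by
        rw [add_sub_cancel_left, abs_of_pos (by positivity)]; linarith) (by linarith)
      simp at this
    obtain ⟨l, hl⟩ : ∃ l : ℂ →L[ℝ] ℝ, ∀ z, l z = (w * z).re :=
      ⟨Complex.reCLM.comp ((ContinuousLinearMap.mul ℝ ℂ) w), fun z => by simp⟩
    refine ⟨l, univ, Filter.univ_mem, 0, fun z _ => l.differentiableAt, ?_, ?_, ρ, hρ, ?_⟩
    · have : fderiv ℝ l = fun _ => l := funext fun z => l.fderiv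
      rw [this]
      exact (LipschitzWith.const _).lipschitzOnWith
    · rw [l.fderiv]
      intro h0
      have h1 := hl ((starRingEnd ℂ) w)
      rw [h0, Complex.mul_conj, Complex.ofReal_re] at h1
      exact hw0 (Complex.normSq_eq_zero.1 (by rw [← h1]; rfl))
    · intro x hx y hy hxy
      simp only [hl]
      rcases eq_or_lt_of_le hxy with h | h
      · rw [h]
      · have := hw x y (by rw [abs_lt]; constructor <;> linarith [hx.1, hx.2])
          (by rw [abs_lt]; constructor <;> linarith [hy.1, hy.2]) h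
        rw [mul_sub, Complex.sub_re] at this
        linarith)
  exact h c hJ (fun t => by simpa using hε.le)

end Pool.Agent.R762.Pg
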