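import Pool.Agent.H145R2.TRobust

/-! Traps for special trapezoids: a pointwise criterion for inscribed squares. -/

set_option autoImplicit false
set_option maxHeartbeats 1000000

namespace Pool.Agent.R762.Tr
open H145R2.TSq H145R2.SqComb Set Filter Topology Complex

variable {γ : ℝ → ℂ}

/-- The quadruple is a nondegenerate short special trapezoid. -/
structure Sp (γ : ℝ → ℂ) (t : E) : Prop where
  h1 : t.1 ≤ t.2.1
  h2 : t.2.1 ≤ t.2.2.1
  h3 : t.2.2.1 ≤ t.2.2.2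
  e1 : LL γ 1 t = LL γ 0 t
  e2 : LL γ 2 t = LL γ 0 t
  e3 : LL γ 3 t ≤ LL γ 0 t
  f : ff γ t = 0
  pos : 0 < LL γ 0 t

/-- No special trapezoid in `[a, b]` starts at `a` or ends at `b`. -/
def Trap (γ : ℝ → ℂ) (a b : ℝ) : Prop := ∀ t : E, Sp γ t → a ≤ t.1 → t.2.2.2 ≤ b →
  t.1 ≠ a ∧ t.2.2.2 ≠ b

/-- shift by `-n` -/
def shm (n : ℤ) (t : E) : E := (t.1 - n, t.2.1 - n, t.2.2.1 - n, t.2.2.2 - n)

theorem LL_shm (hγ : Jor γ) (n : ℤ) (j : Fin 4) (t : E) : LL γ j (shm n t) = LL γ j t := by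
  obtain ⟨a, b, c, d⟩ := t
  rcases (by fin_cases j <;> simp : j = 0 ∨ j = 1 ∨ j = 2 ∨ j = 3) with rfl | rfl | rfl | rfl
  · show ‖γ (b - n) - γ (a - n)‖ = ‖γ b - γ a‖
    rw [gper hγ, gper hγ]
  · show ‖γ (c - n) - γ (b - n)‖ = ‖γ c - γ b‖
    rw [gper hγ, gper hγ]
  · show ‖γ (d - n) - γ (c - n)‖ = ‖γ d - γ c‖
    rw [gper hγ, gper hγ]
  · show ‖γ (a - n) - γ (d - n)‖ = ‖γ a - γ d‖
    rw [gper hγ, gper hγ]

theorem ff_shm (hγ : Jor γ) (n : ℤ) (t : E) : ff γ (shm n t) = ff γ t := by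
  obtain ⟨a, b, c, d⟩ := t
  show ‖γ (c - n) - γ (a - n)‖ - ‖γ (d - n) - γ (b - n)‖ = ‖γ c - γ a‖ - ‖γ d - γ b‖
  rw [gper hγ, gper hγ, gper hγ, gper hγ]

theorem Sp.shm (hγ : Jor γ) (n : ℤ) {t : E} (h : Sp γ t) : Sp γ (shm n t) := by
  refine ⟨?_, ?_, ?_, ?_, ?_, ?_, ?_, ?_⟩
  · show t.1 - n ≤ t.2.1 - n
    linarith [h.h1]
  · show t.2.1 - n ≤ t.2.2.1 - n
    linarith [h.h2]
  · show t.2.2.1 - n ≤ t.2.2.2 - n
    linarith [h.h3]
  · rw [LL_shm hγ, LL_shm hγ]; exact h.e1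
  · rw [LL_shm hγ, LL_shm hγ]; exact h.e2
  · rw [LL_shm hγ, LL_shm hγ]; exact h.e3
  · rw [ff_shm hγ]; exact h.f
  · rw [LL_shm hγ]; exact h.pos

theorem degen (hγ : Jor γ) {δ : ℝ} (hδ : δ < 1) {t : E} (ht : t ∈ XX γ δ) (h0 : LL γ 0 t ≤ 0) :
    t.2.1 = t.1 ∧ t.2.2.1 = t.1 ∧ t.2.2.2 = t.1 := by
  obtain ⟨h1, h2, h3, h4, h5, h6, h7, h8⟩ := ht
  have n0 : LL γ 0 t = 0 := le_antisymm h0 (norm_nonneg _)
  have n1 : LL γ 1 t = 0 := by rw [h5, n0]
  have n2 : LL γ 2 t = 0 := by rw [h6, n0]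
  have e1 : t.2.1 = t.1 := eq_of_inj hγ (by
    have := norm_eq_zero.1 n0
    exact sub_eq_zero.1 this) h1 (by linarith)
  have e2 : t.2.2.1 = t.2.1 := eq_of_inj hγ (by
    have := norm_eq_zero.1 n1
    exact sub_eq_zero.1 this) h2 (by linarith)
  have e3 : t.2.2.2 = t.2.2.1 := eq_of_inj hγ (by
    have := norm_eq_zero.1 n2
    exact sub_eq_zero.1 this) h3 (by linarith)
  exact ⟨e1, e2.trans e1, e3.trans (e2.trans e1)⟩

/-- **Trap theorem.** -/
theorem trap_main (hγ : Jor γ) (h : ∀ s : ℝ, ∃ a b : ℝ, a < s ∧ s < b ∧ b < a + 1 / 2 ∧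
    Trap γ a b) :
    ∃ z w : ℂ, w ≠ 0 ∧ z ∈ Set.range γ ∧ z + w ∈ Set.range γ ∧ z + w + I * w ∈ Set.range γ ∧
      z + I * w ∈ Set.range γ := by
  choose a b ha hb hab hT using h
  obtain ⟨S, hS⟩ := isCompact_Icc.elim_finite_subcover (s := Icc (0:ℝ) 1)
    (fun s => Ioo (a s) (b s)) (fun s => isOpen_Ioo)
    (fun s _ => mem_iUnion.2 ⟨s, ha s, hb s⟩)
  have cov : ∀ x : ℝ, ∃ s ∈ S, ∃ n : ℤ, a s + n < x ∧ x < b s + n := by
    intro x
    have := hS ⟨Int.fract_nonneg x, (Int.fract_lt_one x).le⟩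
    rw [mem_iUnion₂] at this
    obtain ⟨s, hs, h1, h2⟩ := this
    refine ⟨s, hs, ⌊x⌋, ?_, ?_⟩
    · have := Int.fract_add_floor x
      linarith
    · have := Int.fract_add_floor x
      linarith
  have hne : S.Nonempty := by
    obtain ⟨s, hs, -⟩ := cov 0
    exact ⟨s, hs⟩
  obtain ⟨δ, hδ0, hδ2, hδ⟩ : ∃ δ : ℝ, 0 < δ ∧ δ < 1 / 2 ∧ ∀ s ∈ S, b s - a s < δ := by
    obtain ⟨s0, h0, hmax⟩ := Finset.exists_max_image S (fun s => b s - a s) hne
    have k1 := ha s0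
    have k2 := hb s0
    have k3 := hab s0
    refine ⟨((b s0 - a s0) + 1 / 2) / 2, by linarith, by linarith, fun s hs => ?_⟩
    have := hmax s hs
    linarith
  obtain ⟨O, hO⟩ : ∃ O : Set E, O = ⋃ s ∈ S, ⋃ n : ℤ, {t : E | a s + n < t.1 ∧ t.2.2.2 < b s + n} :=
    ⟨_, rfl⟩
  have memO : ∀ t, t ∈ O ↔ ∃ s ∈ S, ∃ n : ℤ, a s + n < t.1 ∧ t.2.2.2 < b s + n := by
    intro t
    rw [hO]
    simp only [mem_iUnion, mem_ofPred_eq, exists_prop]
  have openO : IsOpen O := by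
    rw [hO]
    refine isOpen_biUnion fun s _ => isOpen_iUnion fun n => ?_
    have o1 : IsOpen {t : E | a s + n < t.1} := isOpen_lt (by fun_prop) (by fun_prop)
    have o2 : IsOpen {t : E | t.2.2.2 < b s + n} := isOpen_lt (by fun_prop) (by fun_prop)
    exact o1.inter o2
  have hXc : IsClosed (XX γ δ) := XX_closed hγ
  -- weak membership implies strict membership
  have strict : ∀ t ∈ XX γ δ, ∀ s ∈ S, ∀ n : ℤ, a s + n ≤ t.1 → t.2.2.2 ≤ b s + n → t ∈ O := by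
    intro t ht s hs n h1 h2
    rw [memO]
    by_cases hp : 0 < LL γ 0 t
    · have ht' := ht
      obtain ⟨g1, g2, g3, g4, g5, g6, g7, g8⟩ := ht'
      have hsp : Sp γ t := ⟨g1, g2, g3, g5, g6, g7, g8, hp⟩
      have := hT s _ (hsp.shm hγ n) (by show a s ≤ t.1 - n; linarith)
        (by show t.2.2.2 - n ≤ b s; linarith)
      obtain ⟨n1, n2⟩ := this
      refine ⟨s, hs, n, lt_of_le_of_ne h1 ?_, lt_of_le_of_ne h2 ?_⟩
      · intro e
        apply n1
        show t.1 - n = a s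
        linarith
      · intro e
        apply n2
        show t.2.2.2 - n = b s
        linarith
    · obtain ⟨d1, d2, d3⟩ := degen hγ (by linarith) ht (not_lt.1 hp)
      obtain ⟨s', hs', m, c1, c2⟩ := cov t.1
      exact ⟨s', hs', m, c1, by rw [d3]; exact c2⟩
  have closedV : IsClosed (XX γ δ ∩ O) := by
    rw [← closure_subset_iff_isClosed]
    intro t ht
    have htX : t ∈ XX γ δ := hXc.closure_subset_iff.2 inter_subset_left ht
    obtain ⟨N, hN⟩ : ∃ N : ℕ, ∀ s ∈ S, |t.1| + 2 + |a s| + |b s| ≤ N := by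
      obtain ⟨s1, -, hm⟩ := Finset.exists_max_image S (fun s => |a s| + |b s|) hne
      obtain ⟨N, hN⟩ := exists_nat_ge (|t.1| + 2 + |a s1| + |b s1|)
      refine ⟨N, fun s hs => ?_⟩
      have := hm s hs
      linarith
    obtain ⟨F, hF⟩ : ∃ F : Set E, F = ⋃ s ∈ S, ⋃ n ∈ Finset.Icc (-(N:ℤ)) N,
        {t : E | a s + n ≤ t.1 ∧ t.2.2.2 ≤ b s + n} := ⟨_, rfl⟩
    have closedF : IsClosed F := by
      rw [hF]
      refine S.finite_toSet.isClosed_biUnion fun s _ => ?_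
      refine (Finset.finite_toSet _).isClosed_biUnion fun n _ => ?_
      have o1 : IsClosed {t : E | a s + n ≤ t.1} := isClosed_le (by fun_prop) (by fun_prop)
      have o2 : IsClosed {t : E | t.2.2.2 ≤ b s + n} := isClosed_le (by fun_prop) (by fun_prop)
      exact o1.inter o2
    have hsub : XX γ δ ∩ O ∩ Metric.ball t 1 ⊆ F := by
      rintro p ⟨⟨hp, hpO⟩, hpb⟩
      rw [memO] at hpO
      obtain ⟨s, hs, n, c1, c2⟩ := hpO
      have hd : dist p t < 1 := hpb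
      have hd1 : |p.1 - t.1| < 1 := by
        have := (le_max_left (dist p.1 t.1) (dist p.2 t.2)).trans_lt hd
        rwa [Real.dist_eq] at this
      have hp14 : p.1 ≤ p.2.2.2 := hp.1.trans (hp.2.1.trans hp.2.2.1)
      have hb' := hN s hs
      have q1 := le_abs_self t.1
      have q2 := neg_abs_le t.1
      have q3 := le_abs_self (b s)
      have q4 := neg_abs_le (a s)
      have q5 := abs_nonneg (a s)
      have q6 := abs_nonneg (b s)
      rw [abs_lt] at hd1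
      rw [hF]
      simp only [mem_iUnion, mem_ofPred_eq, exists_prop]
      refine ⟨s, hs, n, ?_, c1.le, c2.le⟩
      rw [Finset.mem_Icc]
      constructor
      · have : (-(N:ℤ):ℝ) ≤ n := by push_cast; linarith [hd1.1]
        exact_mod_cast this
      · have : (n:ℝ) ≤ (N:ℤ) := by push_cast; linarith [hd1.2]
        exact_mod_cast this
    have htF : t ∈ F := by
      refine closedF.closure_subset_iff.2 hsub ?_
      rw [mem_closure_iff_nhds] at ht ⊢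
      intro u hu
      obtain ⟨p, ⟨hp1, hp2⟩, hp3⟩ := ht (u ∩ Metric.ball t 1)
        (inter_mem hu (Metric.ball_mem_nhds t one_pos))
      exact ⟨p, hp1, hp3, hp2⟩
    refine ⟨htX, ?_⟩
    rw [hF] at htF
    simp only [mem_iUnion, mem_ofPred_eq, exists_prop] at htF
    obtain ⟨s, hs, n, -, c1, c2⟩ := htF
    exact strict t htX s hs n c1 c2
  have shO : ∀ t, sh t ∈ O ↔ t ∈ O := by
    intro t
    rw [memO, memO]
    obtain ⟨t1, t2, t3, t4⟩ := t
    rw [sh_mk]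
    simp only
    constructor
    · rintro ⟨s, hs, n, c1, c2⟩
      exact ⟨s, hs, n - 1, by push_cast; linarith, by push_cast; linarith⟩
    · rintro ⟨s, hs, n, c1, c2⟩
      exact ⟨s, hs, n + 1, by push_cast; linarith, by push_cast; linarith⟩
  refine square_of_rdata (γ := γ) (δ := δ) (U := XX γ δ ∩ Oᶜ) (V := XX γ δ ∩ O)
    ⟨hγ, hδ0, hδ2, hXc.inter openO.isClosed_compl, closedV, ?_, ?_, ?_, ?_, ?_, ?_⟩
  · rw [← inter_union_distrib_left, compl_union_self, inter_univ]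
  · rw [disjoint_iff_inter_eq_empty]
    ext t
    simp only [mem_inter_iff, mem_compl_iff, mem_empty_iff_false, iff_false]
    tauto
  · intro t
    rw [mem_inter_iff, mem_inter_iff, mem_compl_iff, mem_compl_iff, XX_sh hγ, shO]
  · intro t
    rw [mem_inter_iff, mem_inter_iff, XX_sh hγ, shO]
  · intro x
    refine ⟨⟨le_rfl, le_rfl, le_rfl, by show x ≤ x + δ; linarith, ?_, ?_, ?_, ?_⟩, ?_⟩
    · rw [LL0, LL1]
    · rw [LL0, LL2]
    · rw [LL0, LL3]
    · unfold ff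
      simp
    · rw [memO]
      obtain ⟨s, hs, n, c1, c2⟩ := cov x
      exact ⟨s, hs, n, c1, c2⟩
  · intro t ht hm
    refine ⟨ht, ?_⟩
    rw [mem_compl_iff, memO]
    rintro ⟨s, hs, n, c1, c2⟩
    have := hδ s hs
    linarith

end Pool.Agent.R762.Tr
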