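import Pool.Agent.R762.Tr1

/-! Pointwise conditions that give traps. -/

set_option autoImplicit false
set_option maxHeartbeats 1000000

namespace Pool.Agent.R762.Tr
open H145R2.TSq H145R2.SqComb Set Filter Topology Complex

variable {γ : ℝ → ℂ}

/-- the shape of a special trapezoid -/
theorem Sp.shape (hγ : Jor γ) {t : E} (ht : Sp γ t) (h4 : t.2.2.2 < t.1 + 1) :
    ∃ u, TrU γ t u := by
  obtain ⟨δ, hδ1, hδ2⟩ : ∃ δ, t.2.2.2 ≤ t.1 + δ ∧ δ < 1 := ⟨t.2.2.2 - t.1, by linarith, by linarith⟩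
  exact Tr.shape (δ := δ) hγ hδ2 ⟨⟨ht.h1, ht.h2, ht.h3, hδ1, ht.e1, ht.e2, ht.e3, ht.f⟩, ht.pos⟩

/-- without inscribed squares the angles are larger than right angles -/
theorem TrU.neg (hno : ¬ ∃ z w : ℂ, w ≠ 0 ∧ z ∈ Set.range γ ∧ z + w ∈ Set.range γ ∧
    z + w + I * w ∈ Set.range γ ∧ z + I * w ∈ Set.range γ) {t : E} (ht : Sp γ t) {u : ℂ}
    (hu : TrU γ t u) : u.re < 0 := by
  refine lt_of_le_of_ne hu.re0 fun h0 => hno ?_
  have hb : bb γ t ≠ 0 := by
    intro h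
    have := hu.nb
    rw [h, norm_zero] at this
    exact absurd ht.pos (by rw [← this]; exact lt_irrefl _)
  have h1 := hu.sq
  rw [h0] at h1
  have e1 := hu.e1
  have e3 := hu.e3
  have eb : bb γ t = γ t.2.2.1 - γ t.2.1 := rfl
  have hu2 : u.im = 1 ∨ u.im = -1 := by
    have : (u.im - 1) * (u.im + 1) = 0 := by linear_combination h1
    rcases mul_eq_zero.1 this with h | h
    · left; linarith
    · right; linarith
  rcases hu2 with h2 | h2
  · have hI : u = I := Complex.ext (by rw [h0, I_re]) (by rw [h2, I_im])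
    rw [hI, conj_I] at e1
    rw [hI] at e3
    refine ⟨γ t.2.1, bb γ t, hb, ⟨t.2.1, rfl⟩, ⟨t.2.2.1, ?_⟩, ⟨t.2.2.2, ?_⟩, ⟨t.1, ?_⟩⟩
    · rw [eb]; ring
    · linear_combination e3 - eb
    · linear_combination -e1
  · have hI : u = -I := Complex.ext (by rw [h0, neg_re, I_re, neg_zero]) (by rw [h2, neg_im, I_im])
    have hc : (starRingEnd ℂ) u = I := by rw [hI, map_neg, conj_I, neg_neg]
    rw [hc] at e1
    rw [hI] at e3
    refine ⟨γ t.1, bb γ t, hb, ⟨t.1, rfl⟩, ⟨t.2.2.2, ?_⟩, ⟨t.2.2.1, ?_⟩, ⟨t.2.1, ?_⟩⟩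
    · linear_combination e3 - eb + e1
    · linear_combination e1 - eb
    · linear_combination e1

theorem Sp.strict (hγ : Jor γ) (hno : ¬ ∃ z w : ℂ, w ≠ 0 ∧ z ∈ Set.range γ ∧ z + w ∈ Set.range γ ∧
    z + w + I * w ∈ Set.range γ ∧ z + I * w ∈ Set.range γ) {t : E} (ht : Sp γ t)
    (h4 : t.2.2.2 < t.1 + 1) : LL γ 3 t < LL γ 0 t := by
  obtain ⟨u, hu⟩ := ht.shape hγ h4
  have hn := TrU.neg hno ht hu
  have h1 := hu.re1
  have e : LL γ 3 t = ‖bb γ t‖ * |1 + 2 * u.re| := by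
    rw [LL3, norm_sub_rev, hu.e03, norm_mul, Complex.norm_real, Real.norm_eq_abs]
  rw [e, hu.nb]
  have : |1 + 2 * u.re| < 1 := by
    rw [abs_lt]
    constructor <;> linarith
  have hp := ht.pos
  nlinarith

/-- a sector of 45 degrees at the start -/
theorem Sp.view_start (hγ : Jor γ) (hno : ¬ ∃ z w : ℂ, w ≠ 0 ∧ z ∈ Set.range γ ∧ z + w ∈ Set.range γ ∧
    z + w + I * w ∈ Set.range γ ∧ z + I * w ∈ Set.range γ) {t : E} (ht : Sp γ t)
    (h4 : t.2.2.2 < t.1 + 1) {w : ℂ} (hw : w ≠ 0)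
    (h : ∀ s, t.1 < s → s ≤ t.2.2.2 → 0 ≤ (w * (γ s - γ t.1)).im ∧
      (w * (γ s - γ t.1)).im ≤ (w * (γ s - γ t.1)).re) : False := by
  obtain ⟨u, hu⟩ := ht.shape hγ h4
  have hn := TrU.neg hno ht hu
  have hr := hu.re1
  have hsq := hu.sq
  have hb : bb γ t ≠ 0 := by
    intro h
    have := hu.nb
    rw [h, norm_zero] at this
    exact absurd ht.pos (by rw [← this]; exact lt_irrefl _)
  have t12 : t.1 < t.2.1 := by
    refine lt_of_le_of_ne ht.h1 fun h => ?_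
    have := ht.pos
    rw [LL0, ← h, sub_self, norm_zero] at this
    exact lt_irrefl _ this
  obtain ⟨a1, a2⟩ := h t.2.1 t12 (ht.h2.trans ht.h3)
  obtain ⟨b1, b2⟩ := h t.2.2.1 (t12.trans_le ht.h2) ht.h3
  obtain ⟨z, hz⟩ : ∃ z, z = w * (γ t.2.1 - γ t.1) := ⟨_, rfl⟩
  have hz0 : z ≠ 0 := by
    rw [hz, hu.e1]
    refine mul_ne_zero hw (mul_ne_zero hb ?_)
    intro h
    have h' : u = 0 := by
      have := congrArg (starRingEnd ℂ) h
      rwa [Complex.conj_conj, map_zero] at this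
    rw [h', Complex.zero_re] at hn
    exact lt_irrefl _ hn
  have huc : u * (starRingEnd ℂ) u = 1 := by
    rw [Complex.mul_conj, Complex.normSq_eq_norm_sq, hu.nu]; simp
  have e2 : w * (γ t.2.2.1 - γ t.1) = z * (1 + u) := by
    rw [hz, hu.e02, hu.e1]
    linear_combination (-(w * bb γ t)) * huc
  rw [← hz] at a1 a2
  rw [e2] at b1 b2
  rw [mul_im, mul_re, add_re, add_im, one_re, one_im] at b2
  rw [mul_im, add_re, add_im, one_re, one_im] at b1
  have hzn : 0 < z.re ^ 2 + z.im ^ 2 := by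
    have := Complex.normSq_pos.2 hz0
    rw [normSq_apply] at this
    nlinarith
  have hzr : 0 < z.re := by
    rcases (a1.trans a2).lt_or_eq with h | h
    · exact h
    · exfalso
      have : z.im = 0 := by linarith
      rw [this, ← h] at hzn
      simp at hzn
  -- `|u.im| > 1 + u.re`
  obtain ⟨p, hp⟩ : ∃ p, p = 1 + u.re := ⟨_, rfl⟩
  have hp0 : 0 < p := by linarith
  have hp1 : p < 1 := by linarith
  have hur : u.re = p - 1 := by linarith
  rw [hur] at hsq b1 b2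
  rcases le_total 0 u.im with hi | hi
  · have hgt : p < u.im := by
      by_contra hcon
      push Not at hcon
      nlinarith
    nlinarith [mul_nonneg a1 hi, mul_nonneg hzr.le (sub_nonneg.2 hgt.le), mul_pos hzr (sub_pos.2 hgt),
      mul_nonneg a1 hp0.le]
  · have hgt : p < -u.im := by
      by_contra hcon
      push Not at hcon
      nlinarith
    nlinarith [mul_nonneg a1 (neg_nonneg.2 hi), mul_pos hzr (sub_pos.2 hgt),
      mul_nonneg (sub_nonneg.2 a2) hp0.le]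

end Pool.Agent.R762.Tr
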