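import Pool.Agent.R762.Tr2

/-! Pointwise conditions that give traps, continued. -/

set_option autoImplicit false
set_option maxHeartbeats 1000000

namespace Pool.Agent.R762.Tr
open H145R2.TSq H145R2.SqComb Set Filter Topology Complex

variable {γ : ℝ → ℂ}

/-- the curve has a square -/
def HSq (γ : ℝ → ℂ) : Prop := ∃ z w : ℂ, w ≠ 0 ∧ z ∈ Set.range γ ∧ z + w ∈ Set.range γ ∧
    z + w + I * w ∈ Set.range γ ∧ z + I * w ∈ Set.range γ

/-- the reversed curve -/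
def rv (γ : ℝ → ℂ) : ℝ → ℂ := fun s => γ (-s)

theorem rv_jor (hγ : Jor γ) : Jor (rv γ) := by
  refine ⟨hγ.cont.comp continuous_neg, fun t => ?_, fun s t h => ?_⟩
  · show γ (-(t + 1)) = γ (-t)
    rw [← hγ.per (-(t + 1))]
    congr 1
    ring
  · obtain ⟨n, hn⟩ := hγ.inj _ _ h
    exact ⟨-n, by push_cast; linarith⟩

theorem rv_range : Set.range (rv γ) = Set.range γ := by
  ext z
  constructor
  · rintro ⟨t, rfl⟩
    exact ⟨-t, rfl⟩
  · rintro ⟨t, rfl⟩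
    exact ⟨-t, by show γ (- -t) = γ t; rw [neg_neg]⟩

theorem rv_hsq : HSq (rv γ) ↔ HSq γ := by
  unfold HSq
  rw [rv_range]

/-- the reversed quadruple -/
def rq (t : E) : E := (-t.2.2.2, -t.2.2.1, -t.2.1, -t.1)

theorem Sp.rev {t : E} (ht : Sp γ t) : Sp (rv γ) (rq t) := by
  have l0 : LL (rv γ) 0 (rq t) = LL γ 2 t := by
    show ‖γ (- -t.2.2.1) - γ (- -t.2.2.2)‖ = ‖γ t.2.2.2 - γ t.2.2.1‖
    rw [neg_neg, neg_neg, norm_sub_rev]
  have l1 : LL (rv γ) 1 (rq t) = LL γ 1 t := by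
    show ‖γ (- -t.2.1) - γ (- -t.2.2.1)‖ = ‖γ t.2.2.1 - γ t.2.1‖
    rw [neg_neg, neg_neg, norm_sub_rev]
  have l2 : LL (rv γ) 2 (rq t) = LL γ 0 t := by
    show ‖γ (- -t.1) - γ (- -t.2.1)‖ = ‖γ t.2.1 - γ t.1‖
    rw [neg_neg, neg_neg, norm_sub_rev]
  have l3 : LL (rv γ) 3 (rq t) = LL γ 3 t := by
    show ‖γ (- -t.2.2.2) - γ (- -t.1)‖ = ‖γ t.1 - γ t.2.2.2‖
    rw [neg_neg, neg_neg, norm_sub_rev]
  have lf : ff (rv γ) (rq t) = 0 := by
    have h := ht.f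
    have e : ff γ t = ‖γ t.2.2.1 - γ t.1‖ - ‖γ t.2.2.2 - γ t.2.1‖ := rfl
    rw [e] at h
    show ‖γ (- -t.2.1) - γ (- -t.2.2.2)‖ - ‖γ (- -t.1) - γ (- -t.2.2.1)‖ = 0
    rw [neg_neg, neg_neg, neg_neg, neg_neg, norm_sub_rev (γ t.2.1), norm_sub_rev (γ t.1)]
    linarith
  refine ⟨?_, ?_, ?_, ?_, ?_, ?_, lf, ?_⟩
  · show -t.2.2.2 ≤ -t.2.2.1
    linarith [ht.h3]
  · show -t.2.2.1 ≤ -t.2.1
    linarith [ht.h2]
  · show -t.2.1 ≤ -t.1
    linarith [ht.h1]
  · rw [l0, l1, ht.e1, ht.e2]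
  · rw [l0, l2, ht.e2]
  · rw [l0, l3, ht.e2]; exact ht.e3
  · rw [l0, ht.e2]; exact ht.pos

/-- nothing starts at `a` within `[a, y]` -/
def NoStart (γ : ℝ → ℂ) (a y : ℝ) : Prop := ∀ t : E, Sp γ t → t.1 = a → t.2.2.2 ≤ y → False

/-- nothing ends at `b` within `[x, b]` -/
def NoEnd (γ : ℝ → ℂ) (x b : ℝ) : Prop := ∀ t : E, Sp γ t → t.2.2.2 = b → x ≤ t.1 → False

theorem NoStart.rev {a y : ℝ} (h : NoStart (rv γ) a y) : NoEnd γ (-y) (-a) := by
  intro t ht e1 e2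
  refine h (rq t) ht.rev ?_ ?_
  · show -t.2.2.2 = a
    linarith
  · show -t.1 ≤ y
    linarith

theorem trap_of {a b x y : ℝ} (h1 : NoStart γ a y) (h2 : NoEnd γ x b) (hxa : x ≤ a) (hby : b ≤ y) :
    Trap γ a b := by
  intro t ht ha hb
  exact ⟨fun e => h1 t ht e (hb.trans hby), fun e => h2 t ht e (hxa.trans ha)⟩

/-- seen under an angle of at most 45 degrees -/
def View (c : ℝ → ℂ) (x y : ℝ) : Prop := ∃ w : ℂ, w ≠ 0 ∧ ∀ t, x < t → t ≤ y →
  0 ≤ (w * (c t - c x)).im ∧ (w * (c t - c x)).im ≤ (w * (c t - c x)).re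

theorem View.noStart (hγ : Jor γ) (hno : ¬ HSq γ) {x y : ℝ} (hy : y < x + 1) (h : View γ x y) :
    NoStart γ x y := by
  obtain ⟨w, hw, h⟩ := h
  intro t ht e1 e2
  exact ht.view_start hγ hno (by rw [e1]; linarith) hw (fun s h1 h2 => by
    rw [e1] at h1 ⊢
    exact h s h1 (h2.trans e2))

/-- an abstract chain argument -/
theorem chain {c : ℝ → ℂ} (hc : Continuous c) (l : ℝ → ℝ → ENNReal)
    (hadd : ∀ x z t, x ≤ z → z ≤ t → l x z + l z t ≤ l x t) {x s y : ℝ} (hxs : x < s) (hsy : s ≤ y)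
    (H : ∀ t ∈ Icc s y, l x t < 3 * edist (c x) (c t)) :
    ∃ a ∈ Ico x s, ∀ t ∈ Ioc a y, l a t < 3 * edist (c a) (c t) := by
  by_contra hcon
  push Not at hcon
  obtain ⟨Z, hZ⟩ : ∃ Z : Set ℝ, Z = {t | t ∈ Icc x s ∧ 3 * edist (c x) (c t) ≤ l x t} := ⟨_, rfl⟩
  have mZ : ∀ t, t ∈ Z ↔ t ∈ Icc x s ∧ 3 * edist (c x) (c t) ≤ l x t := by
    intro t; rw [hZ]; rfl
  have hxZ : x ∈ Z := by
    rw [mZ]
    refine ⟨⟨le_rfl, hxs.le⟩, ?_⟩
    rw [edist_self, mul_zero]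
    exact bot_le
  have hbdd : BddAbove Z := ⟨s, fun t ht => ((mZ t).1 ht).1.2⟩
  have hzc := csSup_mem_closure ⟨x, hxZ⟩ hbdd
  obtain ⟨z, hz⟩ : ∃ z, z = sSup Z := ⟨_, rfl⟩
  rw [← hz] at hzc
  have hle : ∀ t ∈ Z, t ≤ z := fun t ht => by rw [hz]; exact le_csSup hbdd ht
  have hxz : x ≤ z := hle x hxZ
  have hzs : z ≤ s := by
    rw [hz]
    exact csSup_le ⟨x, hxZ⟩ (fun t ht => ((mZ t).1 ht).1.2)
  have lmono : ∀ t t', x ≤ t → t ≤ t' → l x t ≤ l x t' := fun t t' h1 h2 =>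
    le_self_add.trans (hadd x t t' h1 h2)
  have hz3 : 3 * edist (c x) (c z) ≤ l x z := by
    have hcl : IsClosed {t : ℝ | 3 * edist (c x) (c t) ≤ l x z} := by
      refine isClosed_le ?_ continuous_const
      exact (ENNReal.continuous_const_mul (by norm_num)).comp (continuous_const.edist hc)
    have hsub : Z ⊆ {t : ℝ | 3 * edist (c x) (c t) ≤ l x z} := by
      intro t ht
      exact ((mZ t).1 ht).2.trans (lmono t z ((mZ t).1 ht).1.1 (hle t ht))
    exact hcl.closure_subset_iff.2 hsub hzc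
  rcases lt_or_ge z s with h | h
  · obtain ⟨t, ⟨ht1, ht2⟩, ht3⟩ := hcon z ⟨hxz, h⟩
    have key : 3 * edist (c x) (c t) ≤ l x t := by
      calc 3 * edist (c x) (c t) ≤ 3 * (edist (c x) (c z) + edist (c z) (c t)) := by
            gcongr
            exact edist_triangle _ _ _
        _ = 3 * edist (c x) (c z) + 3 * edist (c z) (c t) := mul_add _ _ _
        _ ≤ l x z + l z t := add_le_add hz3 ht3
        _ ≤ l x t := hadd x z t hxz ht1.le
    rcases le_total t s with h' | h'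
    · have : t ∈ Z := (mZ t).2 ⟨⟨hxz.trans ht1.le, h'⟩, key⟩
      exact absurd (hle t this) (not_le.2 ht1)
    · exact absurd key (not_le.2 (H t ⟨h', ht2⟩))
  · have e : z = s := le_antisymm hzs h
    rw [e] at hz3
    exact absurd hz3 (not_le.2 (H s ⟨le_rfl, hsy⟩))

/-- a special trapezoid is short compared with the length of its arc -/
theorem Sp.length {t : E} (ht : Sp γ t) :
    3 * edist (γ t.1) (γ t.2.2.2) ≤ eVariationOn γ (Icc t.1 t.2.2.2) := by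
  have m1 := ht.h1
  have m2 := ht.h2
  have m3 := ht.h3
  have add : ∀ p q r : ℝ, p ≤ q → q ≤ r → eVariationOn γ (Icc p q) + eVariationOn γ (Icc q r) =
      eVariationOn γ (Icc p r) := by
    intro p q r h1 h2
    have := eVariationOn.Icc_add_Icc γ (s := univ) h1 h2 (mem_univ _)
    simpa only [univ_inter] using this
  have le : ∀ p q : ℝ, p ≤ q → edist (γ p) (γ q) ≤ eVariationOn γ (Icc p q) := fun p q h =>
    eVariationOn.edist_le γ ⟨le_rfl, h⟩ ⟨h, le_rfl⟩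
  have e3 : edist (γ t.1) (γ t.2.2.2) ≤ edist (γ t.1) (γ t.2.1) := by
    rw [edist_dist, edist_dist, dist_eq_norm, dist_eq_norm, norm_sub_rev (γ t.1) (γ t.2.1)]
    exact ENNReal.ofReal_le_ofReal ht.e3
  have e1 : edist (γ t.2.1) (γ t.2.2.1) = edist (γ t.1) (γ t.2.1) := by
    rw [edist_dist, edist_dist, dist_eq_norm, dist_eq_norm, norm_sub_rev (γ t.1) (γ t.2.1),
      norm_sub_rev (γ t.2.1) (γ t.2.2.1)]
    exact congrArg ENNReal.ofReal ht.e1
  have e2 : edist (γ t.2.2.1) (γ t.2.2.2) = edist (γ t.1) (γ t.2.1) := by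
    rw [edist_dist, edist_dist, dist_eq_norm, dist_eq_norm, norm_sub_rev (γ t.1) (γ t.2.1),
      norm_sub_rev (γ t.2.2.1) (γ t.2.2.2)]
    exact congrArg ENNReal.ofReal ht.e2
  calc 3 * edist (γ t.1) (γ t.2.2.2) ≤ 3 * edist (γ t.1) (γ t.2.1) := by gcongr
    _ = edist (γ t.1) (γ t.2.1) + edist (γ t.2.1) (γ t.2.2.1) + edist (γ t.2.2.1) (γ t.2.2.2) := by
        rw [e1, e2]; ring
    _ ≤ eVariationOn γ (Icc t.1 t.2.1) + eVariationOn γ (Icc t.2.1 t.2.2.1) +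
        eVariationOn γ (Icc t.2.2.1 t.2.2.2) := by
        gcongr
        · exact le _ _ m1
        · exact le _ _ m2
        · exact le _ _ m3
    _ = eVariationOn γ (Icc t.1 t.2.2.2) := by
        rw [add _ _ _ m1 m2, add _ _ _ (m1.trans m2) m3]

/-- a special trapezoid does not start at a point from which the curve is short -/
theorem Sp.lt4 {t : E} (ht : Sp γ t) : t.1 < t.2.2.2 := by
  have t12 : t.1 < t.2.1 := by
    refine lt_of_le_of_ne ht.h1 fun h => ?_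
    have := ht.pos
    rw [LL0, ← h, sub_self, norm_zero] at this
    exact lt_irrefl _ this
  exact t12.trans_le (ht.h2.trans ht.h3)

/-- arcs from `x` past `s` are shorter than three times their chord -/
def Short (c : ℝ → ℂ) (x s y : ℝ) : Prop := ∀ t ∈ Icc s y,
  eVariationOn c (Icc x t) < 3 * edist (c x) (c t)

theorem Short.noStart (hγ : Jor γ) {x s y : ℝ} (hxs : x < s) (hsy : s ≤ y)
    (h : Short γ x s y) : ∃ a ∈ Ico x s, NoStart γ a y := by
  obtain ⟨a, ha, H⟩ := chain hγ.cont (fun u v => eVariationOn γ (Icc u v)) (fun p q r h1 h2 => by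
    have := eVariationOn.Icc_add_Icc γ (s := univ) h1 h2 (mem_univ _)
    simp only [univ_inter] at this
    exact this.le) hxs hsy h
  refine ⟨a, ha, fun t ht e1 e2 => ?_⟩
  have := H t.2.2.2 ⟨by rw [← e1]; exact ht.lt4, e2⟩
  rw [← e1] at this
  exact absurd ht.length (not_le.2 this)

/-- arcs up to `y` from before `s` are shorter than three times their chord -/
def ShortE (c : ℝ → ℂ) (x s y : ℝ) : Prop := ∀ t ∈ Icc x s,
  eVariationOn c (Icc t y) < 3 * edist (c t) (c y)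

theorem ShortE.noEnd (hγ : Jor γ) {x s y : ℝ} (hxs : x ≤ s) (hsy : s < y)
    (h : ShortE γ x s y) : ∃ b ∈ Ioc s y, NoEnd γ x b := by
  obtain ⟨a, ha, H⟩ := chain (c := rv γ) (x := -y) (s := -s) (y := -x) (rv_jor hγ).cont
    (fun u v => eVariationOn γ (Icc (-v) (-u))) (fun p q r h1 h2 => by
    have := eVariationOn.Icc_add_Icc γ (s := univ) (neg_le_neg h2) (neg_le_neg h1) (mem_univ _)
    simp only [univ_inter] at this
    rw [add_comm]
    exact this.le) (by linarith) (by linarith) (fun t ht => by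
      have := h (-t) ⟨by linarith [ht.2], by linarith [ht.1]⟩
      show eVariationOn γ (Icc (-t) (- -y)) < 3 * edist (γ (- -y)) (γ (-t))
      rw [neg_neg, edist_comm]
      exact this)
  refine ⟨-a, ⟨by linarith [ha.2], by linarith [ha.1]⟩, fun t ht e1 e2 => ?_⟩
  have hl := ht.lt4
  have := H (-t.1) ⟨by linarith, by linarith⟩
  have this' : eVariationOn γ (Icc (- -t.1) (-a)) < 3 * edist (γ (-a)) (γ (- -t.1)) := this
  rw [neg_neg, ← e1, edist_comm] at this'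
  exact absurd ht.length (not_le.2 this')

/-- seen from the end under an angle of at most 45 degrees -/
def ViewE (c : ℝ → ℂ) (x y : ℝ) : Prop := ∃ w : ℂ, w ≠ 0 ∧ ∀ t, x ≤ t → t < y →
  0 ≤ (w * (c t - c y)).im ∧ (w * (c t - c y)).im ≤ (w * (c t - c y)).re

theorem ViewE.noEnd (hγ : Jor γ) (hno : ¬ HSq γ) {x y : ℝ} (hy : y < x + 1) (h : ViewE γ x y) :
    NoEnd γ x y := by
  obtain ⟨w, hw, h⟩ := h
  have hv : View (rv γ) (-y) (-x) := ⟨w, hw, fun t h1 h2 => by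
    have := h (-t) (by linarith) (by linarith)
    show 0 ≤ (w * (γ (-t) - γ (- -y))).im ∧ (w * (γ (-t) - γ (- -y))).im ≤
      (w * (γ (-t) - γ (- -y))).re
    rw [neg_neg]
    exact this⟩
  have := (hv.noStart (rv_jor hγ) (by rw [rv_hsq]; exact hno) (by linarith)).rev
  rwa [neg_neg, neg_neg] at this

/-- locally monotone -/
def LM (c : ℝ → ℂ) (s : ℝ) : Prop := ∃ ρ > 0, ∃ w : ℂ, ∀ x y : ℝ, |x - s| < ρ → |y - s| < ρ →
  x < y → 0 < (w * (c y - c x)).re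

theorem LM.trap (hγ : Jor γ) {s : ℝ} (h : LM γ s) :
    ∃ a b : ℝ, a < s ∧ s < b ∧ b < a + 1 / 2 ∧ Trap γ a b := by
  obtain ⟨ρ, hρ, w, h⟩ := h
  obtain ⟨r, hr, hr1, hr2⟩ : ∃ r > 0, r < ρ ∧ r < 1 / 4 :=
    ⟨min ρ (1 / 4) / 2, by positivity, by have := min_le_left ρ (1 / 4); linarith,
      by have := min_le_right ρ (1 / 4); linarith⟩
  refine ⟨s - r, s + r, by linarith, by linarith, by linarith, fun t ht ha hb => ?_⟩
  exfalso
  have hl := ht.lt4
  obtain ⟨u, hu⟩ := ht.shape hγ (by linarith)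
  have m1 := ht.h1
  have m2 := ht.h2
  have m3 := ht.h3
  have hp := ht.pos
  have p1 : 0 < LL γ 1 t := by rw [ht.e1]; exact hp
  have p2 : 0 < LL γ 2 t := by rw [ht.e2]; exact hp
  have s1 : t.1 < t.2.1 := by
    refine lt_of_le_of_ne m1 fun h => ?_
    rw [LL0, ← h, sub_self, norm_zero] at hp
    exact lt_irrefl _ hp
  have s2 : t.2.1 < t.2.2.1 := by
    refine lt_of_le_of_ne m2 fun h => ?_
    rw [LL1, ← h, sub_self, norm_zero] at p1
    exact lt_irrefl _ p1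
  have s3 : t.2.2.1 < t.2.2.2 := by
    refine lt_of_le_of_ne m3 fun h => ?_
    rw [LL2, ← h, sub_self, norm_zero] at p2
    exact lt_irrefl _ p2
  have b1 : |t.1 - s| < ρ := by rw [abs_lt]; constructor <;> linarith
  have b2 : |t.2.1 - s| < ρ := by rw [abs_lt]; constructor <;> linarith
  have b3 : |t.2.2.1 - s| < ρ := by rw [abs_lt]; constructor <;> linarith
  have b4 : |t.2.2.2 - s| < ρ := by rw [abs_lt]; constructor <;> linarith
  have c1 := h _ _ b1 b2 s1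
  have c2 := h _ _ b2 b3 s2
  have c3 := h _ _ b3 b4 s3
  rw [hu.e1] at c1
  rw [hu.e3] at c3
  have c2' : 0 < (w * bb γ t).re := c2
  rw [← mul_assoc, mul_re, conj_re, conj_im] at c1
  rw [← mul_assoc, mul_re] at c3
  have hn := hu.re0
  nlinarith

/-- **The structure of counterexamples.** -/
theorem structure_main (hγ : Jor γ) (hno : ¬ HSq γ) : ∃ p : ℝ,
    (∀ ε > 0, ∃ δ > 0, ∀ a, p - δ < a → a < p → ∃ t : E, Sp γ t ∧ t.1 = a ∧ t.2.2.2 < p + ε) ∨
    (∀ ε > 0, ∃ δ > 0, ∀ b, p < b → b < p + δ → ∃ t : E, Sp γ t ∧ t.2.2.2 = b ∧ p - ε < t.1) := by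
  by_contra hcon
  push Not at hcon
  refine hno (trap_main hγ fun s => ?_)
  obtain ⟨⟨ε, hε, h1⟩, ⟨ε', hε', h2⟩⟩ := hcon s
  obtain ⟨a, a1, a2, ha⟩ := h1 (min ε' (1 / 4)) (by positivity)
  obtain ⟨b, b1, b2, hb⟩ := h2 (min ε (1 / 4)) (by positivity)
  have k1 := min_le_left ε' (1 / 4)
  have k2 := min_le_right ε' (1 / 4)
  have k3 := min_le_left ε (1 / 4)
  have k4 := min_le_right ε (1 / 4)
  refine ⟨a, b, a2, b1, by linarith, fun t ht h3 h4 => ⟨fun e => ?_, fun e => ?_⟩⟩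
  · have := ha t ht e
    linarith
  · have := hb t ht e
    linarith

/-- **The class.** -/
theorem class_main (hγ : Jor γ) (h : ∀ s, LM γ s ∨ ∃ x y, x < s ∧ s < y ∧ y < x + 1 / 2 ∧
    (View γ x y ∨ Short γ x s y) ∧ (ViewE γ x y ∨ ShortE γ x s y)) : HSq γ := by
  by_contra hno
  refine hno (trap_main hγ fun s => ?_)
  rcases h s with h | ⟨x, y, hx, hy, hxy, h1, h2⟩
  · exact h.trap hγ
  · obtain ⟨a, ha, ha'⟩ : ∃ a ∈ Ico x s, NoStart γ a y := by
      rcases h1 with h1 | h1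
      · exact ⟨x, ⟨le_rfl, hx⟩, h1.noStart hγ hno (by linarith)⟩
      · exact h1.noStart hγ hx hy.le
    obtain ⟨b, hb, hb'⟩ : ∃ b ∈ Ioc s y, NoEnd γ x b := by
      rcases h2 with h2 | h2
      · exact ⟨y, ⟨hy, le_rfl⟩, h2.noEnd hγ hno (by linarith)⟩
      · exact h2.noEnd hγ hx.le hy
    exact ⟨a, b, ha.2, hb.1, by linarith [ha.1, hb.2], trap_of ha' hb' ha.1 hb.2⟩

end Pool.Agent.R762.Tr
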