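import Pool.Agent.R762.Tr3

/-! One-sided derivatives with respect to the length. -/

set_option autoImplicit false
set_option maxHeartbeats 1000000

namespace Pool.Agent.R762.Tr
open Set Filter Topology

theorem var_le {c : ℝ → ℂ} {K : NNReal} (hc : LipschitzWith K c) {x y : ℝ} :
    eVariationOn c (Icc x y) ≤ ENNReal.ofReal (K * (y - x)) := by
  have h1 : eVariationOn (c ∘ id) (Icc x y) ≤ K * eVariationOn (id : ℝ → ℝ) (Icc x y) :=
    LipschitzOnWith.comp_eVariationOn_le (t := univ) (hc.lipschitzOnWith) (fun _ _ => mem_univ _)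
  have h2 : eVariationOn (id : ℝ → ℝ) (Icc x y) ≤ ENNReal.ofReal (y - x) := by
    have := MonotoneOn.eVariationOn_eq (f := (id : ℝ → ℝ)) (s := univ) (a := x) (b := y)
      (monotone_id.monotoneOn _) (mem_univ _) (mem_univ _)
    rw [univ_inter] at this
    exact this.le
  calc eVariationOn c (Icc x y) ≤ K * eVariationOn (id : ℝ → ℝ) (Icc x y) := h1
    _ ≤ K * ENNReal.ofReal (y - x) := by gcongr
    _ = ENNReal.ofReal (K * (y - x)) := by
        have hK : (0:ℝ) ≤ (K:ℝ) := K.2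
        rw [ENNReal.ofReal_mul hK, ENNReal.ofReal_coe_nnreal]

theorem short_of {c : ℝ → ℂ} {K : NNReal} (hc : LipschitzWith K c) {x y : ℝ} (hxy : x ≤ y)
    (h : K * (y - x) < 3 * ‖c x - c y‖) : eVariationOn c (Icc x y) < 3 * edist (c x) (c y) := by
  refine (var_le hc).trans_lt ?_
  have e : 3 * edist (c x) (c y) = ENNReal.ofReal (3 * ‖c x - c y‖) := by
    rw [edist_dist, dist_eq_norm, ENNReal.ofReal_mul (by norm_num)]
    norm_num
  rw [e]
  exact (ENNReal.ofReal_lt_ofReal_iff_of_nonneg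
    (mul_nonneg K.2 (by linarith))).2 h

/-- points where the segment between the one-sided derivatives is outside a disc -/
theorem local_short {c : ℝ → ℂ} {K : NNReal} (hc : LipschitzWith K c) {s : ℝ} {v₁ v₂ : ℂ}
    (h1 : HasDerivWithinAt c v₁ (Iio s) s) (h2 : HasDerivWithinAt c v₂ (Ioi s) s)
    (hv : ∀ r ∈ Icc (0:ℝ) 1, (K:ℝ) / 3 < ‖(1 - r) * v₁ + r * v₂‖) :
    ∃ x y, x < s ∧ s < y ∧ y < x + 1 / 2 ∧ (∀ t ∈ Icc s y, eVariationOn c (Icc x t) <
      3 * edist (c x) (c t)) ∧ (∀ t ∈ Icc x s, eVariationOn c (Icc t y) < 3 * edist (c t) (c y)) := by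
  obtain ⟨r0, hr0, hmin⟩ := isCompact_Icc.exists_isMinOn (s := Icc (0:ℝ) 1) ⟨0, le_rfl, zero_le_one⟩
    (f := fun r : ℝ => ‖(1 - (r:ℂ)) * v₁ + r * v₂‖) (Continuous.continuousOn (by fun_prop))
  obtain ⟨η, hη, hη2⟩ : ∃ η > 0, ∀ r ∈ Icc (0:ℝ) 1, (K:ℝ) / 3 + η ≤ ‖(1 - r) * v₁ + r * v₂‖ := by
    refine ⟨‖(1 - (r0:ℂ)) * v₁ + r0 * v₂‖ - K / 3, by have := hv r0 hr0; linarith, fun r hr => ?_⟩
    have := hmin hr
    simp only [mem_ofPred_eq] at this
    linarith
  -- homogeneous version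
  have hom : ∀ p q : ℝ, 0 ≤ p → 0 ≤ q → (K / 3 + η) * (p + q) ≤ ‖(p:ℂ) * v₁ + q * v₂‖ := by
    intro p q hp hq
    rcases (add_nonneg hp hq).lt_or_eq with hpq | hpq
    · have := hη2 (q / (p + q)) ⟨by positivity, by rw [div_le_one hpq]; linarith⟩
      have e : (p:ℂ) * v₁ + q * v₂ = ((p + q : ℝ):ℂ) *
          ((1 - ((q / (p + q) : ℝ):ℂ)) * v₁ + ((q / (p + q) : ℝ):ℂ) * v₂) := by
        have hne : ((p:ℂ) + q) ≠ 0 := by
          have : ((p + q : ℝ):ℂ) ≠ 0 := by exact_mod_cast hpq.ne'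
          simpa using this
        push_cast
        field_simp
        ring
      rw [e, norm_mul, Complex.norm_real, Real.norm_eq_abs, abs_of_pos hpq, mul_comm]
      exact mul_le_mul_of_nonneg_left this hpq.le
    · rw [← hpq, mul_zero]
      exact norm_nonneg _
  have d1 := (hasDerivWithinAt_iff_isLittleO.1 h1).def (show 0 < η / 4 by linarith)
  have d2 := (hasDerivWithinAt_iff_isLittleO.1 h2).def (show 0 < η / 4 by linarith)
  obtain ⟨ρ1, hρ1, H1⟩ := Metric.mem_nhdsWithin_iff.1 d1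
  obtain ⟨ρ2, hρ2, H2⟩ := Metric.mem_nhdsWithin_iff.1 d2
  have E1 : ∀ τ, 0 ≤ τ → τ < ρ1 → ‖c s - c (s - τ) - τ * v₁‖ ≤ η / 4 * τ := by
    intro τ h0 h
    rcases h0.lt_or_eq with h0 | h0
    · have hm : s - τ ∈ Metric.ball s ρ1 ∩ Iio s := ⟨by
        rw [Metric.mem_ball, Real.dist_eq]; rw [abs_lt]; constructor <;> linarith,
        (by show s - τ < s; linarith)⟩
      have := H1 hm
      have h' : ‖c (s - τ) - c s - (s - τ - s) • v₁‖ ≤ η / 4 * ‖s - τ - s‖ := this
      rw [show s - τ - s = -τ by ring, norm_neg, Real.norm_eq_abs, abs_of_pos h0,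
        Complex.real_smul] at h'
      rw [← norm_neg]
      have e : -(c s - c (s - τ) - τ * v₁) = c (s - τ) - c s - ((-τ : ℝ) : ℂ) * v₁ := by
        push_cast
        ring
      rw [e]
      exact h'
    · rw [← h0]
      simp
  have E2 : ∀ τ, 0 ≤ τ → τ < ρ2 → ‖c (s + τ) - c s - τ * v₂‖ ≤ η / 4 * τ := by
    intro τ h0 h
    rcases h0.lt_or_eq with h0 | h0
    · have hm : s + τ ∈ Metric.ball s ρ2 ∩ Ioi s := ⟨by
        rw [Metric.mem_ball, Real.dist_eq]; rw [abs_lt]; constructor <;> linarith,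
        (by show s < s + τ; linarith)⟩
      have := H2 hm
      have h' : ‖c (s + τ) - c s - (s + τ - s) • v₂‖ ≤ η / 4 * ‖s + τ - s‖ := this
      rw [show s + τ - s = τ by ring, Real.norm_eq_abs, abs_of_pos h0, Complex.real_smul] at h'
      exact h'
    · rw [← h0]
      simp
  obtain ⟨h, hh, l1, l2, l3⟩ : ∃ h > 0, h < ρ1 ∧ h < ρ2 ∧ h < 1 / 4 :=
    ⟨min (min ρ1 ρ2) (1 / 4) / 2, by positivity,
      by have := (min_le_left (min ρ1 ρ2) (1 / 4)).trans (min_le_left _ _); linarith,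
      by have := (min_le_left (min ρ1 ρ2) (1 / 4)).trans (min_le_right _ _); linarith,
      by have := min_le_right (min ρ1 ρ2) (1 / 4); linarith⟩
  have main : ∀ p q : ℝ, 0 ≤ p → 0 ≤ q → p ≤ h → q ≤ h → 0 < p + q →
      eVariationOn c (Icc (s - p) (s + q)) < 3 * edist (c (s - p)) (c (s + q)) := by
    intro p q hp hq hph hqh hpq
    refine short_of hc (by linarith) ?_
    have a1 := E1 p hp (by linarith)
    have a2 := E2 q hq (by linarith)
    have a3 := hom p q hp hq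
    have e : (p:ℂ) * v₁ + q * v₂ = (c (s + q) - c (s - p)) - (c s - c (s - p) - p * v₁) -
        (c (s + q) - c s - q * v₂) := by ring
    rw [e] at a3
    have a4 := norm_sub_le ((c (s + q) - c (s - p)) - (c s - c (s - p) - p * v₁))
      (c (s + q) - c s - q * v₂)
    have a5 := norm_sub_le (c (s + q) - c (s - p)) (c s - c (s - p) - p * v₁)
    rw [norm_sub_rev (c (s - p))]
    have a6 : 0 < η * (p + q) := mul_pos hη hpq
    nlinarith
  refine ⟨s - h, s + h, by linarith, by linarith, by linarith, fun t ht => ?_, fun t ht => ?_⟩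
  · have := main h (t - s) hh.le (by linarith [ht.1]) le_rfl (by linarith [ht.2])
      (by linarith [ht.1])
    rwa [show s + (t - s) = t by ring] at this
  · have := main (s - t) h (by linarith [ht.2]) hh.le (by linarith [ht.1]) le_rfl
      (by linarith [ht.2])
    rwa [show s - (s - t) = t by ring] at this

end Pool.Agent.R762.Tr
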